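import Mathlib

/-!
# Homotheties factoring through free modules, and simple extensions

`CProj f M c` says: the homothety `c` of the `A`-module `M` factors, `B`-linearly, through a finite
free `B`-module (`f : B → A`).  We show how this property (with a new `c`) passes from `B` to a
simple extension `B' = B[θ]`: in the separable case the new constant is `c * P'(θ)`, in the purely
inseparable case `θ ^ p = a` it is `c ^ 2 * D a` for any derivation `D` of `B`.
-/

set_option autoImplicit false

namespace Pool.Agent.W_cbb711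

open Polynomial

/-- The homothety `c` of `M` factors `B`-linearly through a finite free `B`-module. -/
def CProj {B A : Type*} [CommRing B] [CommRing A] (f : B →+* A) (M : Type*) [AddCommGroup M]
    [Module A M] (c : A) : Prop :=
  ∃ (n : ℕ) (α : Fin n → (M →+ B)) (β : Fin n → M),
    (∀ j b m, α j (f b • m) = b * α j m) ∧ ∀ m, ∑ j, f (α j m) • β j = c • m

section

variable {B B' A : Type*} [CommRing B] [CommRing B'] [CommRing A] (f : B →+* A) (g : B →+* B')
  (f' : B' →+* A) (hf : f'.comp g = f) {M : Type*} [AddCommGroup M] [Module A M] {c : A}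

include hf in
/-- It suffices to check linearity on generators. -/
theorem linear_of_gen (θ : B') (hgen : ∀ x : B', ∃ Q : B[X], x = Q.eval₂ g θ) (α : M →+ B')
    (h1 : ∀ b m, α (f b • m) = g b * α m) (h2 : ∀ m, α (f' θ • m) = θ * α m) :
    ∀ x m, α (f' x • m) = x * α m := by
  have h3 : ∀ (i : ℕ) m, α (f' θ ^ i • m) = θ ^ i * α m := by
    intro i
    induction i with
    | zero => intro m; simp
    | succ i ih =>
      intro m
      rw [pow_succ, mul_smul, ih, h2, pow_succ, mul_assoc]
  intro x m
  obtain ⟨Q, rfl⟩ := hgen x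
  induction Q using Polynomial.induction_on' with
  | add P Q hP hQ =>
    rw [eval₂_add, map_add, add_smul, map_add, hP, hQ, add_mul]
  | monomial i b =>
    rw [eval₂_monomial, map_mul, mul_smul, map_pow]
    have h4 : f' (g b) = f b := by rw [← hf]; rfl
    rw [h4, h1, h3, mul_assoc]

include hf in
/-- Passage to a simple extension generated by a root of `P`; new constant `c * P'(θ)`. -/
theorem CProj.sep (θ : B') (hgen : ∀ x : B', ∃ Q : B[X], x = Q.eval₂ g θ) (P : B[X])
    (hP : P.eval₂ g θ = 0) (h : CProj f M c) :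
    CProj f' M (c * f' (P.derivative.eval₂ g θ)) := by
  obtain ⟨n, α, β, hα, hβ⟩ := h
  have hfg : ∀ b, f' (g b) = f b := fun b => by rw [← hf]; rfl
  -- the maps `G i`
  let T : M →+ M := DistribSMul.toAddMonoidHom M (f' θ)
  have hT : ∀ m, T m = f' θ • m := fun _ => rfl
  let G : Fin n → ℕ → (M →+ B') := fun j i => Nat.rec 0
    (fun i Gi => (AddMonoidHom.mulLeft (θ ^ i)).comp (g.toAddMonoidHom.comp (α j)) + Gi.comp T) i
  have hG0 : ∀ j m, G j 0 m = 0 := fun _ _ => rfl
  have hGS : ∀ j i m, G j (i + 1) m = θ ^ i * g (α j m) + G j i (f' θ • m) := fun _ _ _ => rfl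
  have hGlin : ∀ j i b m, G j i (f b • m) = g b * G j i m := by
    intro j i
    induction i with
    | zero => intro b m; rw [hG0, hG0, mul_zero]
    | succ i ih =>
      intro b m
      rw [hGS, hGS, hα, map_mul, smul_comm, ih]; ring
  have hGθ : ∀ j i m, θ * G j i m - G j i (f' θ • m) =
      θ ^ i * g (α j m) - g (α j (f' θ ^ i • m)) := by
    intro j i
    induction i with
    | zero => intro m; simp [hG0]
    | succ i ih =>
      intro m
      rw [hGS, hGS, mul_add]
      have h1 := ih (f' θ • m)
      have h2 : f' θ ^ (i + 1) • m = f' θ ^ i • f' θ • m := by rw [pow_succ, mul_smul]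
      rw [h2]
      linear_combination h1
  have hGβ : ∀ i m, ∑ j, f' (G j i m) • β j = ((i : A) * f' θ ^ (i - 1) * c) • m := by
    intro i
    induction i with
    | zero => intro m; simp [hG0]
    | succ i ih =>
      intro m
      have h1 : ∀ j, f' (G j (i + 1) m) • β j =
          f' θ ^ i • (f (α j m) • β j) + f' (G j i (f' θ • m)) • β j := by
        intro j
        rw [hGS, map_add, map_mul, map_pow, hfg, add_smul, mul_smul]
      rw [Finset.sum_congr rfl fun j _ => h1 j, Finset.sum_add_distrib, ← Finset.smul_sum, hβ, ih,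
        smul_smul, smul_smul, ← add_smul]
      congr 1
      rcases i with _ | i
      · simp
      · simp only [Nat.add_sub_cancel, Nat.cast_add, Nat.cast_one]
        ring
  -- the new map
  let α' : Fin n → (M →+ B') := fun j =>
    ∑ i ∈ Finset.range (P.natDegree + 1), (AddMonoidHom.mulLeft (g (P.coeff i))).comp (G j i)
  have hα' : ∀ j m, α' j m = ∑ i ∈ Finset.range (P.natDegree + 1), g (P.coeff i) * G j i m := by
    intro j m
    simp only [α', AddMonoidHom.finsetSum_apply, AddMonoidHom.comp_apply,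
      AddMonoidHom.coe_mulLeft]
  refine ⟨n, α', β, fun j => ?_, fun m => ?_⟩
  · refine linear_of_gen f g f' hf θ hgen (α' j) ?_ ?_
    · intro b m
      rw [hα', hα', Finset.mul_sum]
      refine Finset.sum_congr rfl fun i _ => ?_
      rw [hGlin]; ring
    · intro m
      rw [← sub_eq_zero, ← neg_eq_zero, neg_sub]
      rw [hα', hα', Finset.mul_sum, ← Finset.sum_sub_distrib]
      have h1 : ∀ i ∈ Finset.range (P.natDegree + 1),
          θ * (g (P.coeff i) * G j i m) - g (P.coeff i) * G j i (f' θ • m) =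
          g (P.coeff i) * θ ^ i * g (α j m) - g (α j ((f (P.coeff i) * f' θ ^ i) • m)) := by
        intro i _
        rw [mul_smul, hα, map_mul]
        linear_combination g (P.coeff i) * hGθ j i m
      rw [Finset.sum_congr rfl h1, Finset.sum_sub_distrib, ← Finset.sum_mul,
        ← eval₂_eq_sum_range, hP, zero_mul, zero_sub, neg_eq_zero, ← map_sum, ← map_sum,
        ← Finset.sum_smul]
      have h2 : ∑ i ∈ Finset.range (P.natDegree + 1), f (P.coeff i) * f' θ ^ i =
          f' (P.eval₂ g θ) := by
        rw [eval₂_eq_sum_range, map_sum]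
        refine Finset.sum_congr rfl fun i _ => ?_
        rw [map_mul, map_pow, hfg]
      rw [h2, hP, map_zero, zero_smul, map_zero, map_zero]
  · have h1 : ∀ j, f' (α' j m) • β j =
        ∑ i ∈ Finset.range (P.natDegree + 1), f (P.coeff i) • (f' (G j i m) • β j) := by
      intro j
      rw [hα', map_sum, Finset.sum_smul]
      refine Finset.sum_congr rfl fun i _ => ?_
      rw [map_mul, hfg, mul_smul]
    rw [Finset.sum_congr rfl fun j _ => h1 j, Finset.sum_comm]
    have h2 : ∀ i ∈ Finset.range (P.natDegree + 1),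
        ∑ j, f (P.coeff i) • (f' (G j i m) • β j) =
        (f (P.coeff i) * ((i : A) * f' θ ^ (i - 1) * c)) • m := by
      intro i _
      rw [← Finset.smul_sum, hGβ, smul_smul]
    rw [Finset.sum_congr rfl h2, ← Finset.sum_smul]
    congr 1
    rw [derivative_apply, sum_over_range' _ _ (P.natDegree + 1) (Nat.lt_succ_self _),
      eval₂_finsetSum, map_sum, Finset.mul_sum]
    · refine Finset.sum_congr rfl fun i _ => ?_
      rw [eval₂_mul, eval₂_C, eval₂_X_pow]
      simp only [map_mul, map_pow, map_natCast, hfg]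
      ring
    · intro i
      simp

/-- In a ring where `p = 0`, commuting elements satisfy `(x - y) ^ p = x ^ p - y ^ p`. -/
theorem sub_pow_prime_of_commute {E : Type*} [Ring E] (p : ℕ) (hp : p.Prime) (hE : (p : E) = 0)
    {x y : E} (h : Commute x y) : (x - y) ^ p = x ^ p - y ^ p := by
  obtain ⟨r, hr⟩ := (h.neg_right).exists_add_pow_prime_eq hp
  rw [sub_eq_add_neg, hr, hE]
  have h1 : (-y) ^ p = - y ^ p := by
    rcases hp.eq_two_or_odd' with rfl | hodd
    · rw [neg_sq]
      have h2 : (2 : E) * y ^ 2 = 0 := by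
        have : (2 : E) = ((2 : ℕ) : E) := by norm_num
        rw [this, hE, zero_mul]
      rw [eq_neg_iff_add_eq_zero, ← two_mul]
      exact h2
    · exact hodd.neg_pow y
  rw [h1]
  simp [sub_eq_add_neg]

/-- The `p`-th iterate of the inner derivation `X ↦ Θ X - X T` in characteristic `p`. -/
theorem ad_iterate {M N : Type*} [AddCommGroup M] [AddCommGroup N] (p : ℕ) (hp : p.Prime)
    (hN : ∀ y : N, p • y = 0) (T : AddMonoid.End M) (Θ : AddMonoid.End N)
    (ad : AddMonoid.End (M →+ N)) (had : ∀ X m, ad X m = Θ (X m) - X (T m)) (X : M →+ N) (m : M) :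
    (ad ^ p) X m = (Θ ^ p) (X m) - X ((T ^ p) m) := by
  let L : AddMonoid.End (M →+ N) := AddMonoidHom.mk' (fun X => AddMonoidHom.comp Θ X) (by
    intro X Y; ext m; exact map_add Θ (X m) (Y m))
  let R : AddMonoid.End (M →+ N) := AddMonoidHom.mk' (fun X => AddMonoidHom.comp X T) (by
    intro X Y; ext m; rfl)
  have hL : ∀ X m, L X m = Θ (X m) := fun _ _ => rfl
  have hR : ∀ X m, R X m = X (T m) := fun _ _ => rfl
  have hLR : ad = L - R := by
    ext X m
    rw [had]
    rfl
  have hcomm : Commute L R := by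
    rw [commute_iff_eq]
    ext X m
    rfl
  have hp0 : ((p : ℕ) : AddMonoid.End (M →+ N)) = 0 := by
    ext X m
    rw [AddMonoid.End.natCast_apply]
    change p • X m = 0
    exact hN _
  have hLp : ∀ (i : ℕ) X m, (L ^ i) X m = (Θ ^ i) (X m) := by
    intro i
    induction i with
    | zero => intro X m; rfl
    | succ i ih =>
      intro X m
      rw [pow_succ, pow_succ]
      change (L ^ i) (L X) m = (Θ ^ i) (Θ (X m))
      rw [ih, hL]
  have hRp : ∀ (i : ℕ) X m, (R ^ i) X m = X ((T ^ i) m) := by
    intro i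
    induction i with
    | zero => intro X m; rfl
    | succ i ih =>
      intro X m
      rw [pow_succ, pow_succ']
      change (R ^ i) (R X) m = X (T ((T ^ i) m))
      rw [ih, hR]
  rw [hLR, sub_pow_prime_of_commute p hp hp0 hcomm]
  change (L ^ p) X m - (R ^ p) X m = _
  rw [hLp, hRp]

include hf in
/-- Passage to a purely inseparable simple extension; new constant `c ^ 2 * D a`. -/
theorem CProj.insep (p : ℕ) (hp : p.Prime) (hB' : (p : B') = 0) (hM : ∀ m : M, p • m = 0)
    (θ : B') (hgen : ∀ x : B', ∃ Q : B[X], x = Q.eval₂ g θ) (a : B)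
    (hθ : θ ^ p = g a) (D : B →+ B) (hD : ∀ x y, D (x * y) = D x * y + x * D y)
    (h : CProj f M c) :
    CProj f' M (c ^ 2 * f (D a)) := by
  obtain ⟨n, α, β, hα, hβ⟩ := h
  have hfg : ∀ b, f' (g b) = f b := fun b => by rw [← hf]; rfl
  let T : AddMonoid.End M := DistribSMul.toAddMonoidHom M (f' θ)
  have hT : ∀ m, T m = f' θ • m := fun _ => rfl
  have hTp : ∀ (i : ℕ) m, (T ^ i) m = f' θ ^ i • m := by
    intro i
    induction i with
    | zero => intro m; simp
    | succ i ih =>
      intro m
      rw [pow_succ']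
      change T ((T ^ i) m) = _
      rw [ih, hT, smul_smul, pow_succ']
  let Θ : AddMonoid.End (Fin n → B') := DistribSMul.toAddMonoidHom (Fin n → B') θ
  have hΘ : ∀ y, Θ y = θ • y := fun _ => rfl
  have hΘp : ∀ (i : ℕ) y, (Θ ^ i) y = θ ^ i • y := by
    intro i
    induction i with
    | zero => intro m; simp
    | succ i ih =>
      intro m
      rw [pow_succ']
      change Θ ((Θ ^ i) m) = _
      rw [ih, hΘ, smul_smul, pow_succ']
  -- the derivation on `M`
  let DM : M →+ M := ∑ j, (AddMonoidHom.mk' (fun m => f (D (α j m)) • β j) (by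
    intro m m'
    rw [map_add, map_add, map_add, add_smul]))
  have hDM : ∀ m, DM m = ∑ j, f (D (α j m)) • β j := by
    intro m
    simp only [DM, AddMonoidHom.finsetSum_apply, AddMonoidHom.mk'_apply]
  have hDMlin : ∀ b m, DM (f b • m) = (c * f (D b)) • m + f b • DM m := by
    intro b m
    rw [hDM, hDM, mul_comm c, mul_smul, ← hβ, Finset.smul_sum, Finset.smul_sum,
      ← Finset.sum_add_distrib]
    refine Finset.sum_congr rfl fun j _ => ?_
    rw [hα, hD, map_add, map_mul, map_mul, add_smul, mul_smul, mul_smul]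
  -- inner derivations
  let adM : AddMonoid.End (M →+ M) :=
    AddMonoidHom.mk' (fun X => AddMonoidHom.comp T X - X.comp T) (by
      intro X Y
      refine DFunLike.ext _ _ fun m => ?_
      change T (X m + Y m) - (X (T m) + Y (T m)) = (T (X m) - X (T m)) + (T (Y m) - Y (T m))
      rw [map_add]; abel)
  have hadM : ∀ X m, adM X m = T (X m) - X (T m) := fun _ _ => rfl
  let ad : AddMonoid.End (M →+ (Fin n → B')) :=
    AddMonoidHom.mk' (fun X => AddMonoidHom.comp Θ X - X.comp T) (by
      intro X Y
      refine DFunLike.ext _ _ fun m => ?_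
      change Θ (X m + Y m) - (X (T m) + Y (T m)) = (Θ (X m) - X (T m)) + (Θ (Y m) - Y (T m))
      rw [map_add]; abel)
  have had : ∀ X m, ad X m = Θ (X m) - X (T m) := fun _ _ => rfl
  have hN : ∀ y : Fin n → B', p • y = 0 := by
    intro y
    funext j
    rw [Pi.smul_apply, nsmul_eq_mul, hB', zero_mul, Pi.zero_apply]
  have hadpM := ad_iterate p hp hM T T adM hadM
  have hadp := ad_iterate p hp hN T Θ ad had
  -- `Θ`-linear extension of `β`
  let βt : (Fin n → B') →+ M := AddMonoidHom.mk' (fun y => ∑ j, f' (y j) • β j) (by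
    intro y z
    rw [← Finset.sum_add_distrib]
    refine Finset.sum_congr rfl fun j _ => ?_
    rw [Pi.add_apply, map_add, add_smul])
  have hβt : ∀ y, βt y = ∑ j, f' (y j) • β j := fun _ => rfl
  have hβtθ : ∀ y, βt (Θ y) = T (βt y) := by
    intro y
    rw [hβt, hβt, hT, Finset.smul_sum]
    refine Finset.sum_congr rfl fun j _ => ?_
    rw [hΘ, Pi.smul_apply, smul_eq_mul, map_mul, mul_smul]
  let σ : M →+ (Fin n → B') := AddMonoidHom.mk' (fun m j => g (α j m)) (by
    intro m m'
    funext j
    rw [map_add, map_add, Pi.add_apply])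
  have hσ : ∀ m j, σ m j = g (α j m) := fun _ _ => rfl
  have hσlin : ∀ b m, σ (f b • m) = g b • σ m := by
    intro b m
    funext j
    rw [hσ, hα, Pi.smul_apply, hσ, map_mul, smul_eq_mul]
  have hβσ : ∀ m, βt (σ m) = c • m := by
    intro m
    rw [hβt, ← hβ]
    refine Finset.sum_congr rfl fun j _ => ?_
    rw [hσ, hfg]
  -- Δ and A
  set Δ : M →+ (Fin n → B') := ad σ with hΔ
  set Am : M →+ M := - adM DM with hAm
  have hAm' : ∀ m, Am m = DM (T m) - T (DM m) := by
    intro m
    rw [hAm, AddMonoidHom.neg_apply, hadM, neg_sub]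
  -- iterates
  have hpp : p - 1 + 1 = p := Nat.sub_add_cancel hp.one_lt.le
  have hΔp : (ad ^ (p - 1)) Δ = 0 := by
    have h1 : (ad ^ (p - 1)) Δ = (ad ^ p) σ := by
      conv_rhs => rw [← hpp, pow_succ]
      rfl
    rw [h1]
    ext m j
    rw [hadp, hΘp, hTp, hθ, ← map_pow, hθ, hfg, hσlin, sub_self]
    rfl
  have hAp : ∀ m, (adM ^ (p - 1)) Am m = (c * f (D a)) • m := by
    intro m
    have h1 : (adM ^ (p - 1)) Am = - (adM ^ p) DM := by
      rw [hAm, map_neg]
      congr 1
      conv_rhs => rw [← hpp, pow_succ]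
      rfl
    rw [h1, AddMonoidHom.neg_apply, hadpM, hTp, hTp, ← map_pow, hθ, hfg, hDMlin, neg_sub,
      add_sub_cancel_right]
  -- composition rule
  have hcomp : ∀ (X : M →+ (Fin n → B')) (Y : M →+ M),
      ad (X.comp Y) = (ad X).comp Y + X.comp (adM Y) := by
    intro X Y
    ext m j
    simp only [had, hadM, AddMonoidHom.comp_apply, AddMonoidHom.add_apply, map_sub, Pi.add_apply,
      Pi.sub_apply]
    ring
  let W : ℕ → (M →+ (Fin n → B')) := fun i => ((ad ^ i) Δ).comp ((adM ^ (p - 1 - i)) Am)
  let gg : M →+ (Fin n → B') := ∑ i ∈ Finset.range (p - 1),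
    (-1 : ℤ) ^ i • ((ad ^ i) Δ).comp ((adM ^ (p - 2 - i)) Am)
  have hadgg : ad gg = Δ.comp ((adM ^ (p - 1)) Am) := by
    have h1 : ad gg = ∑ i ∈ Finset.range (p - 1), (-1 : ℤ) ^ i • (W (i + 1) + W i) := by
      rw [map_sum]
      refine Finset.sum_congr rfl fun i hi => ?_
      have hi' := Finset.mem_range.1 hi
      rw [map_zsmul, hcomp]
      congr 2
      · change (ad ((ad ^ i) Δ)).comp _ = ((ad ^ (i + 1)) Δ).comp _
        rw [pow_succ']
        have : p - 1 - (i + 1) = p - 2 - i := by omega
        rw [this]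
        rfl
      · change _ = ((ad ^ i) Δ).comp ((adM ^ (p - 1 - i)) Am)
        have : p - 1 - i = (p - 2 - i) + 1 := by omega
        rw [this, pow_succ']
        rfl
    have h2 : ∀ k, ∑ i ∈ Finset.range k, (-1 : ℤ) ^ i • (W (i + 1) + W i) =
        W 0 - (-1 : ℤ) ^ k • W k := by
      intro k
      induction k with
      | zero => simp
      | succ k ih =>
        rw [Finset.sum_range_succ, ih, pow_succ]
        rw [smul_add, mul_neg_one, neg_smul]
        abel
    rw [h1, h2]
    have h3 : W (p - 1) = 0 := by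
      change ((ad ^ (p - 1)) Δ).comp _ = 0
      rw [hΔp, AddMonoidHom.zero_comp]
    rw [h3, smul_zero, sub_zero]
    rfl
  -- linearity of everything over `B`
  have hlinad : ∀ X : M →+ (Fin n → B'), (∀ b m, X (f b • m) = g b • X m) →
      ∀ b m, (ad X) (f b • m) = g b • (ad X) m := by
    intro X hX b m
    rw [had, had, hΘ, hT, hX, smul_comm (f' θ) (f b) m, hX, smul_sub, smul_comm θ (g b), hΘ, hT]
  have hlinadk : ∀ k, ∀ b m, ((ad ^ k) Δ) (f b • m) = g b • ((ad ^ k) Δ) m := by
    intro k
    induction k with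
    | zero => exact hlinad σ hσlin
    | succ k ih =>
      intro b m
      rw [pow_succ']
      exact hlinad _ ih b m
  have hlinadM : ∀ X : M →+ M, (∀ b m, X (f b • m) = f b • X m) →
      ∀ b m, (adM X) (f b • m) = f b • (adM X) m := by
    intro X hX b m
    rw [hadM, hadM, hT, hT, hX, smul_comm (f' θ) (f b) m, hX, smul_sub,
      smul_comm (f' θ) (f b) (X m), hT, hT]
  have hlinA : ∀ b m, Am (f b • m) = f b • Am m := by
    intro b m
    rw [hAm', hAm', hT, hT, smul_comm (f' θ) (f b), hDMlin, hDMlin, hT, smul_add, smul_sub, hT]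
    rw [smul_comm (f' θ) (c * f (D b)), smul_comm (f' θ) (f b)]
    abel
  have hlinAk : ∀ k, ∀ b m, ((adM ^ k) Am) (f b • m) = f b • ((adM ^ k) Am) m := by
    intro k
    induction k with
    | zero => exact hlinA
    | succ k ih =>
      intro b m
      rw [pow_succ']
      exact hlinadM _ ih b m
  -- β kills the iterates of Δ
  have hβad : ∀ X : M →+ (Fin n → B'), (∀ m, βt (X m) = 0) → ∀ m, βt ((ad X) m) = 0 := by
    intro X hX m
    rw [had, map_sub, hβtθ, hX, hX, map_zero, sub_self]
  have hβΔ : ∀ m, βt (Δ m) = 0 := by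
    intro m
    rw [hΔ, had, map_sub, hβtθ, hβσ, hβσ, hT, hT, smul_comm, sub_self]
  have hβk : ∀ k m, βt (((ad ^ k) Δ) m) = 0 := by
    intro k
    induction k with
    | zero => exact hβΔ
    | succ k ih =>
      intro m
      rw [pow_succ']
      exact hβad _ ih m
  -- the new section
  set cu : A := c * f (D a) with hcu
  let τ : M →+ (Fin n → B') := σ.comp (DistribSMul.toAddMonoidHom M cu) - gg
  have hτ : ∀ m, τ m = σ (cu • m) - gg m := fun _ => rfl
  have hggapp : ∀ m, gg m = ∑ i ∈ Finset.range (p - 1),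
      (-1 : ℤ) ^ i • ((ad ^ i) Δ) (((adM ^ (p - 2 - i)) Am) m) := by
    intro m
    simp only [gg, AddMonoidHom.finsetSum_apply]
    rfl
  have hτlin : ∀ b m, τ (f b • m) = g b • τ m := by
    intro b m
    rw [hτ, hτ, smul_comm cu, hσlin, smul_sub, hggapp, hggapp, Finset.smul_sum]
    congr 1
    refine Finset.sum_congr rfl fun i _ => ?_
    rw [hlinAk, hlinadk, smul_comm]
  have hτθ : ∀ m, τ (f' θ • m) = θ • τ m := by
    intro m
    have h1 : (ad τ) m = 0 := by
      have h2 : ad τ = ad (σ.comp (DistribSMul.toAddMonoidHom M cu)) - ad gg := map_sub _ _ _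
      rw [h2, hadgg, AddMonoidHom.sub_apply, had, AddMonoidHom.comp_apply, AddMonoidHom.comp_apply,
        AddMonoidHom.comp_apply, hAp, hΔ, had, DistribSMul.toAddMonoidHom_apply,
        DistribSMul.toAddMonoidHom_apply, hT, hT, smul_comm cu, sub_self]
    rw [had, sub_eq_zero] at h1
    exact h1.symm
  refine ⟨n, fun j => AddMonoidHom.mk' (fun m => τ m j) (by
    intro m m'; rw [map_add, Pi.add_apply]), β, fun j => ?_, fun m => ?_⟩
  · refine linear_of_gen f g f' hf θ hgen _ ?_ ?_
    · intro b m
      change τ (f b • m) j = g b * τ m j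
      rw [hτlin, Pi.smul_apply, smul_eq_mul]
    · intro m
      change τ (f' θ • m) j = θ * τ m j
      rw [hτθ, Pi.smul_apply, smul_eq_mul]
  · change ∑ j, f' (τ m j) • β j = _
    rw [← hβt, hτ, map_sub, hβσ, hggapp, map_sum]
    have h1 : ∀ i ∈ Finset.range (p - 1), βt ((-1 : ℤ) ^ i •
        ((ad ^ i) Δ) (((adM ^ (p - 2 - i)) Am) m)) = 0 := by
      intro i _
      rw [map_zsmul, hβk, smul_zero]
    rw [Finset.sum_congr rfl h1, Finset.sum_const_zero, sub_zero, smul_smul, hcu]
    congr 1
    ring

/-- Passage to a birational overring. -/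
theorem CProj.birational (s : B) (hs : ∀ x : A, ∃ y : B, f y = f s * x) (h : CProj f M c) :
    CProj (RingHom.id A) M (f s * c) := by
  obtain ⟨n, α, β, hα, hβ⟩ := h
  refine ⟨n, fun j => AddMonoidHom.mk' (fun m => f s * f (α j m)) (by
    intro m m'; rw [map_add, map_add, mul_add]), β, ?_, ?_⟩
  · intro j x m
    obtain ⟨y, hy⟩ := hs x
    change f s * f (α j (x • m)) = x * (f s * f (α j m))
    have h1 : f s • x • m = f y • m := by rw [smul_smul, hy]
    rw [← map_mul, ← hα, h1, hα, map_mul, hy]
    ring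
  · intro m
    change ∑ j, (f s * f (α j m)) • β j = _
    rw [mul_smul, ← hβ, Finset.smul_sum]
    refine Finset.sum_congr rfl fun j _ => ?_
    rw [mul_smul]

end

end Pool.Agent.W_cbb711
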