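import Mathlib

/-!
# The ring of sequences modulo sequences tending to zero along an ultrafilter

`Sharp A J` is the quotient of `ℕ → A` by the ideal of all sequences that tend to zero `J`-adically
along the hyperfilter (a fixed non-principal ultrafilter) of `ℕ`.
-/

set_option autoImplicit false

universe u v w

namespace Pool.Agent.W_cbb711

open Filter

/-- Sequences tending to zero `J`-adically along the hyperfilter. -/
def infIdeal (A : Type u) [CommRing A] (J : Ideal A) : Ideal (ℕ → A) where
  carrier := {x | ∀ N : ℕ, ∀ᶠ i in (hyperfilter ℕ : Filter ℕ), x i ∈ J ^ N}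
  add_mem' := by
    intro x y hx hy N
    filter_upwards [hx N, hy N] with i h1 h2
    exact Ideal.add_mem _ h1 h2
  zero_mem' := by
    intro N
    filter_upwards with i
    exact Ideal.zero_mem _
  smul_mem' := by
    intro c x hx N
    filter_upwards [hx N] with i h1
    exact Ideal.mul_mem_left _ _ h1

theorem mem_infIdeal {A : Type u} [CommRing A] {J : Ideal A} {x : ℕ → A} :
    x ∈ infIdeal A J ↔ ∀ N : ℕ, ∀ᶠ i in (hyperfilter ℕ : Filter ℕ), x i ∈ J ^ N := Iff.rfl

/-- The ring `A_♯` of sequences modulo `J`-adically infinitesimal sequences. -/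
def Sharp (A : Type u) [CommRing A] (J : Ideal A) : Type u := (ℕ → A) ⧸ infIdeal A J

namespace Sharp

variable {A : Type u} [CommRing A] {J : Ideal A}

instance : CommRing (Sharp A J) := inferInstanceAs (CommRing ((ℕ → A) ⧸ infIdeal A J))

/-- The class of a sequence. -/
def mk (J : Ideal A) : (ℕ → A) →+* Sharp A J := Ideal.Quotient.mk (infIdeal A J)

theorem mk_surjective : Function.Surjective (mk J) := Ideal.Quotient.mk_surjective

theorem mk_eq_zero {x : ℕ → A} :
    mk J x = 0 ↔ ∀ N : ℕ, ∀ᶠ i in (hyperfilter ℕ : Filter ℕ), x i ∈ J ^ N := by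
  rw [← mem_infIdeal]
  exact Ideal.Quotient.eq_zero_iff_mem

theorem mk_eq_mk {x y : ℕ → A} :
    mk J x = mk J y ↔ ∀ N : ℕ, ∀ᶠ i in (hyperfilter ℕ : Filter ℕ), x i - y i ∈ J ^ N := by
  rw [← sub_eq_zero, ← map_sub, mk_eq_zero]
  rfl

/-- Constant sequences. -/
def const (J : Ideal A) : A →+* Sharp A J := (mk J).comp (Pi.constRingHom ℕ A)

theorem const_apply (a : A) : const J a = mk J (fun _ => a) := rfl

instance : Algebra A (Sharp A J) := (const J).toAlgebra

theorem algebraMap_eq : algebraMap A (Sharp A J) = const J := rfl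

/-- Functoriality. -/
def map {A' : Type v} [CommRing A'] (J : Ideal A) (J' : Ideal A') (f : A →+* A')
    (h : J ≤ J'.comap f) : Sharp A J →+* Sharp A' J' :=
  Ideal.quotientMap (infIdeal A' J') (RingHom.pi fun i => f.comp (Pi.evalRingHom _ i)) (by
    intro x hx
    rw [Ideal.mem_comap, mem_infIdeal]
    intro N
    filter_upwards [hx N] with i hi
    have h1 : J ^ N ≤ (J' ^ N).comap f := (Ideal.pow_right_mono h N).trans (Ideal.le_comap_pow f N)
    exact h1 hi)

theorem map_mk {A' : Type v} [CommRing A'] (J' : Ideal A') (f : A →+* A')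
    (h : J ≤ J'.comap f) (x : ℕ → A) : map J J' f h (mk J x) = mk J' (fun i => f (x i)) := rfl

theorem map_const {A' : Type v} [CommRing A'] (J' : Ideal A') (f : A →+* A')
    (h : J ≤ J'.comap f) (a : A) : map J J' f h (const J a) = const J' (f a) := rfl

/-- A derivation (additive map satisfying the Leibniz rule) lowers the adic filtration by one. -/
theorem derivation_mem (D : A →+ A) (hD : ∀ a b, D (a * b) = D a * b + a * D b) (N : ℕ) {x : A}
    (hx : x ∈ J ^ (N + 1)) : D x ∈ J ^ N := by
  induction N generalizing x with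
  | zero => simp
  | succ N ih =>
    rw [pow_succ] at hx
    refine Submodule.mul_induction_on hx ?_ ?_
    · intro a ha b hb
      rw [hD]
      refine Ideal.add_mem _ ?_ ?_
      · rw [pow_succ]
        exact Ideal.mul_mem_mul (ih ha) hb
      · exact Ideal.mul_mem_right _ _ ha
    · intro a b ha hb
      rw [map_add]
      exact Ideal.add_mem _ ha hb

/-- The extension of a derivation to `Sharp A J`. -/
def deriv (J : Ideal A) (D : A →+ A) (hD : ∀ a b, D (a * b) = D a * b + a * D b) :
    Sharp A J →+ Sharp A J :=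
  QuotientAddGroup.lift _ ((mk J).toAddMonoidHom.comp
    (AddMonoidHom.mk' (fun x i => D (x i)) (by intro x y; funext i; exact map_add D _ _))) (by
    intro x hx
    have hx' : x ∈ infIdeal A J := hx
    rw [AddMonoidHom.mem_ker]
    change mk J (fun i => D (x i)) = 0
    rw [mk_eq_zero]
    intro N
    filter_upwards [hx' (N + 1)] with i hi
    exact derivation_mem D hD N hi)

theorem deriv_mk (D : A →+ A) (hD : ∀ a b, D (a * b) = D a * b + a * D b) (x : ℕ → A) :
    deriv J D hD (mk J x) = mk J (fun i => D (x i)) := rfl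

theorem deriv_const (D : A →+ A) (hD : ∀ a b, D (a * b) = D a * b + a * D b) (a : A) :
    deriv J D hD (const J a) = const J (D a) := rfl

theorem deriv_mul (D : A →+ A) (hD : ∀ a b, D (a * b) = D a * b + a * D b) (x y : Sharp A J) :
    deriv J D hD (x * y) = deriv J D hD x * y + x * deriv J D hD y := by
  obtain ⟨x, rfl⟩ := mk_surjective x
  obtain ⟨y, rfl⟩ := mk_surjective y
  rw [← map_mul, deriv_mk, deriv_mk, deriv_mk, ← map_mul, ← map_mul, ← map_add]
  congr 1
  funext i
  exact hD _ _

end Sharp

end Pool.Agent.W_cbb711
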