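import Mathlib
import Pool.Agent.W_cbb711b.Sharp
import Pool.Agent.W_cbb711b.CProj

/-!
# Definitions shared by the modules of the proof of MP_cbb711_ag
-/

set_option autoImplicit false

universe u

namespace Pool.Agent.W_cbb711

open IsLocalRing Filter TensorProduct

/-- Every element killed by all derivations is a `p`-th power. -/
def SGP (p : ℕ) (A : Type*) [CommRing A] : Prop :=
  ∀ b : A, (∀ D : Derivation ℤ A A, D b = 0) → ∃ x : A, x ^ p = b

/-- Every element killed by all derivations is a `p`-th power in the field of fractions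
(meant for domains of characteristic `p`). -/
def GP (p : ℕ) (A : Type*) [CommRing A] : Prop :=
  ∀ b : A, (∀ D : Derivation ℤ A A, D b = 0) → ∃ x y : A, y ≠ 0 ∧ b * y ^ p = x ^ p

/-- An augmented algebra that is infinitesimally like a polynomial ring (or any algebra over a
field): the quotients `𝔫 ^ r / 𝔫 ^ (r + 1)` have finite bases with dual functionals extending to
the whole algebra, `𝔫` being the kernel of the augmentation. -/
def Augmented {Λ O : Type*} [CommRing Λ] [CommRing O] [IsLocalRing O] [Algebra Λ O]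
    (w : O →ₐ[Λ] Λ) : Prop :=
  RingHom.ker w ≤ maximalIdeal O ∧
  ∀ r : ℕ, 1 ≤ r → ∃ (s : ℕ) (e : Fin s → O) (l : Fin s → (O →ₗ[Λ] Λ)),
    (∀ j, e j ∈ RingHom.ker w ^ r) ∧
    (∀ j, ∀ x ∈ RingHom.ker w ^ (r + 1), l j x = 0) ∧
    (∀ x ∈ RingHom.ker w ^ r, x - ∑ j, algebraMap Λ O (l j x) * e j ∈ RingHom.ker w ^ (r + 1))

/-- A local model at the index `i` for the finitely many sequences `c` (up to precision `N`). -/
def LocalModel (Λ : Type) [CommRing Λ] [IsLocalRing Λ] (N m : ℕ) (c : Fin m → ℕ → Λ) (i : ℕ) :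
    Prop :=
  ∃ (O : Type) (_ : CommRing O) (_ : IsLocalRing O) (_ : IsNoetherianRing O) (_ : Algebra Λ O)
    (w : O →ₐ[Λ] Λ) (θ : O →ₐ[Λ] Sharp Λ (maximalIdeal Λ)) (ct : Fin m → O),
    Augmented w ∧
    (∀ l, w (ct l) - c l i ∈ maximalIdeal Λ ^ N) ∧
    (∀ l, θ (ct l) - Sharp.mk (maximalIdeal Λ) (c l) ∈
      (maximalIdeal Λ ^ N).map (algebraMap Λ (Sharp Λ (maximalIdeal Λ)))) ∧
    (∀ (e : ℕ) (x : O),
      θ x ∈ (maximalIdeal Λ ^ e).map (algebraMap Λ (Sharp Λ (maximalIdeal Λ))) →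
      x ∈ (maximalIdeal Λ ^ e).map (algebraMap Λ O))

/-- Data of a smooth affine `V`-scheme `V[T][Θ]/(g)` together with a sequence `(τ, ϑ)` of
`V`-points which is generic modulo the maximal ideal. -/
structure SmoothData (V : Type) [CommRing V] [IsLocalRing V] (m : ℕ)
    (g : Polynomial (MvPolynomial (Fin m) V)) (τ : Fin m → ℕ → V) (ϑ : ℕ → V) : Prop where
  monic : g.Monic
  root : ∀ᶠ i in (hyperfilter ℕ : Filter ℕ),
    g.eval₂ (MvPolynomial.eval (fun j => τ j i)) (ϑ i) = 0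
  sep : ∀ᶠ i in (hyperfilter ℕ : Filter ℕ),
    IsUnit (g.derivative.eval₂ (MvPolynomial.eval (fun j => τ j i)) (ϑ i))
  inj : ∀ F : Polynomial (MvPolynomial (Fin m) V),
    (∀ᶠ i in (hyperfilter ℕ : Filter ℕ),
      F.eval₂ (MvPolynomial.eval (fun j => τ j i)) (ϑ i) ∈ maximalIdeal V) →
    F ∈ Ideal.span {g} ⊔
      (maximalIdeal V).map ((Polynomial.C).comp (MvPolynomial.C : V →+* MvPolynomial (Fin m) V))

end Pool.Agent.W_cbb711
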