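import Mathlib
import Pool.Agent.W_cbb711.Determinacy

/-!
# Determinacy for homomorphisms into a finite algebra
-/

set_option autoImplicit false

open IsLocalRing Pointwise

namespace Pool.Agent.W_cbb711

section

variable {S : Type*} [CommRing S] {R : Type*} [CommRing R] [Algebra S R]
  {E : Type*} [Ring E] [Algebra S E]

/-- first Hochschild differential -/
def det2Zero (φ φ' : R →ₐ[S] E) : E →ₗ[S] (R →ₗ[S] E) where
  toFun g :=
    { toFun := fun a => φ' a * g - g * φ a
      map_add' := fun a b => by rw [map_add, map_add, add_mul, mul_add]; abel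
      map_smul' := fun s a => by
        rw [map_smul, map_smul, RingHom.id_apply, smul_mul_assoc, mul_smul_comm, smul_sub] }
  map_add' g g' := by
    ext a : 1
    simp only [LinearMap.coe_mk, AddHom.coe_mk, LinearMap.add_apply]
    rw [mul_add, add_mul]; abel
  map_smul' s g := by
    ext a : 1
    simp only [LinearMap.coe_mk, AddHom.coe_mk, LinearMap.smul_apply, RingHom.id_apply]
    rw [smul_mul_assoc, mul_smul_comm, smul_sub]

@[simp] lemma det2Zero_apply (φ φ' : R →ₐ[S] E) (g : E) (a : R) :
    det2Zero φ φ' g a = φ' a * g - g * φ a := rfl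

/-- second Hochschild differential -/
def det2One (φ φ' : R →ₐ[S] E) :
    (R →ₗ[S] E) →ₗ[S] (R →ₗ[S] R →ₗ[S] E) where
  toFun h := LinearMap.mk₂ S (fun a b => φ' a * h b - h (a * b) + h a * φ b)
    (fun a a' b => by
      rw [map_add, add_mul, add_mul, map_add, map_add, add_mul]; abel)
    (fun s a b => by
      rw [map_smul, smul_mul_assoc, smul_mul_assoc, map_smul, map_smul, smul_mul_assoc,
        smul_add, smul_sub])
    (fun a b b' => by
      rw [map_add, mul_add, mul_add, map_add, map_add, mul_add]; abel)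
    (fun s a b => by
      rw [map_smul, mul_smul_comm, mul_smul_comm, map_smul, map_smul, mul_smul_comm,
        smul_add, smul_sub])
  map_add' h h' := by
    ext a b : 2
    simp only [LinearMap.mk₂_apply, LinearMap.add_apply]
    rw [mul_add, add_mul]; abel
  map_smul' s h := by
    ext a b : 2
    simp only [LinearMap.mk₂_apply, LinearMap.smul_apply, RingHom.id_apply]
    rw [smul_mul_assoc, mul_smul_comm, smul_add, smul_sub]

@[simp] lemma det2One_apply (φ φ' : R →ₐ[S] E) (h : R →ₗ[S] E) (a b : R) :
    det2One φ φ' h a b = φ' a * h b - h (a * b) + h a * φ b := rfl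

lemma det2One_zero (φ φ' : R →ₐ[S] E) (g : E) :
    det2One φ φ' (det2Zero φ φ' g) = 0 := by
  ext a b : 2
  simp only [det2One_apply, det2Zero_apply, LinearMap.zero_apply]
  rw [map_mul, map_mul]
  noncomm_ring

end

theorem determinacy' {S : Type*} [CommRing S] [IsNoetherianRing S] [IsLocalRing S]
    [IsPrecomplete (maximalIdeal S) S] {R : Type*} [CommRing R] [Algebra S R]
    [Module.Finite S R] [Module.Free S R] {E : Type*} [Ring E] [Algebra S E] [Module.Finite S E]
    (φ : R →ₐ[S] E)
    (hH : ∀ h : R →ₗ[S] E, (∀ a b, h (a * b) = φ a * h b + h a * φ b) →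
      ∃ g : E, ∀ a, h a = φ a * g - g * φ a) :
    ∃ N, ∀ φ' : R →ₐ[S] E,
      (∀ a, φ' a - φ a ∈ (maximalIdeal S) ^ N • (⊤ : Submodule S E)) →
      ∃ θ : Eˣ, ∀ a, (θ : E) * φ a = φ' a * (θ : E) := by
  obtain ⟨N, hN⟩ := perturb (A := E) (B := R →ₗ[S] E)
    (C := R →ₗ[S] R →ₗ[S] E) (det2Zero φ φ) (det2One φ φ) (by
    intro h hh
    obtain ⟨g, hg⟩ := hH h (by
      intro a b
      have h1 : det2One φ φ h a b = 0 := by rw [hh]; rfl
      rw [det2One_apply] at h1
      have h2 : φ a * h b + h a * φ b - h (a * b) = 0 := by rw [← h1]; abel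
      exact (sub_eq_zero.mp h2).symm)
    refine ⟨g, ?_⟩
    ext a : 1
    rw [det2Zero_apply]; exact (hg a).symm)
  refine ⟨N, fun φ' hφ' => ?_⟩
  have hmulmem : ∀ (x y : E),
      x ∈ (maximalIdeal S) ^ N • (⊤ : Submodule S E) →
      x * y ∈ (maximalIdeal S) ^ N • (⊤ : Submodule S E) := fun x y hx =>
    map_mem_smul_top (LinearMap.mulRight S y) hx
  obtain ⟨g, hg, hgz⟩ := hN (det2Zero φ φ') (det2One φ φ') (by
      intro g
      apply mem_smul_top_of_forall
      intro a
      simp only [LinearMap.sub_apply, det2Zero_apply]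
      have : φ' a * g - g * φ a - (φ a * g - g * φ a) = (φ' a - φ a) * g := by noncomm_ring
      rw [this]
      exact hmulmem _ _ (hφ' a)) (by
      intro h
      apply mem_smul_top_of_forall
      intro a
      apply mem_smul_top_of_forall
      intro b
      simp only [LinearMap.sub_apply, det2One_apply]
      have : φ' a * h b - h (a * b) + h a * φ b - (φ a * h b - h (a * b) + h a * φ b) =
        (φ' a - φ a) * h b := by noncomm_ring
      rw [this]
      exact hmulmem _ _ (hφ' a)) (det2One_zero φ φ') (det2Zero φ φ' 1) (by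
      apply mem_smul_top_of_forall
      intro a
      rw [det2Zero_apply, mul_one, one_mul]
      exact hφ' a) (det2One_zero φ φ' 1)
  -- the intertwiner `1 - g`
  set θ : E := 1 - g with hθ
  have hint : ∀ a, φ' a * θ = θ * φ a := by
    intro a
    have h1 : det2Zero φ φ' θ a = 0 := by
      rw [hθ, map_sub, hgz, sub_self]; rfl
    rw [det2Zero_apply] at h1
    exact sub_eq_zero.mp h1
  have hleft : ∃ y, θ * y = 1 := by
    have hsurj : LinearMap.range (LinearMap.mulLeft S θ) = ⊤ := by
      rw [eq_top_iff]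
      apply Submodule.le_of_le_smul_of_le_jacobson_bot (I := maximalIdeal S)
        (Module.finite_def.mp inferInstance) (IsLocalRing.maximalIdeal_le_jacobson _)
      intro v _
      have h1 : v = LinearMap.mulLeft S θ v + g * v := by
        rw [LinearMap.mulLeft_apply, hθ, sub_mul, one_mul, sub_add_cancel]
      rw [h1]
      exact Submodule.add_mem_sup ⟨v, rfl⟩ (map_mem_smul_top (LinearMap.mulRight S v) hg)
    have h1 : (1 : E) ∈ LinearMap.range (LinearMap.mulLeft S θ) := by rw [hsurj]; trivial
    obtain ⟨y, hy⟩ := h1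
    exact ⟨y, hy⟩
  have hright : ∃ y, y * θ = 1 := by
    have hsurj : LinearMap.range (LinearMap.mulRight S θ) = ⊤ := by
      rw [eq_top_iff]
      apply Submodule.le_of_le_smul_of_le_jacobson_bot (I := maximalIdeal S)
        (Module.finite_def.mp inferInstance) (IsLocalRing.maximalIdeal_le_jacobson _)
      intro v _
      have h1 : v = LinearMap.mulRight S θ v + v * g := by
        rw [LinearMap.mulRight_apply, hθ, mul_sub, mul_one, sub_add_cancel]
      rw [h1]
      exact Submodule.add_mem_sup ⟨v, rfl⟩ (map_mem_smul_top (LinearMap.mulLeft S v) hg)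
    have h1 : (1 : E) ∈ LinearMap.range (LinearMap.mulRight S θ) := by rw [hsurj]; trivial
    obtain ⟨y, hy⟩ := h1
    exact ⟨y, hy⟩
  obtain ⟨y, hy⟩ := hleft
  obtain ⟨z, hz⟩ := hright
  have hyz : z = y := by
    calc z = z * (θ * y) := by rw [hy, mul_one]
      _ = y := by rw [← mul_assoc, hz, one_mul]
  exact ⟨⟨θ, y, hy, by rw [← hyz]; exact hz⟩, fun a => (hint a).symm⟩

end Pool.Agent.W_cbb711
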