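import Mathlib
import Pool.Agent.W_cbb711.ExistsNorm
import Pool.Agent.W_cbb711b.Defs

/-!
# Finite torsion modules over a local principal domain (module CD of the proof of MP_cbb711_ag)
-/

set_option autoImplicit false

universe u

namespace Pool.Agent.W_cbb711

open IsLocalRing Filter TensorProduct RingTheory.Sequence

theorem exists_cyclicDecomp (Λ : Type) [CommRing Λ] [IsDomain Λ] [IsLocalRing Λ]
    [IsNoetherianRing Λ] (hpr : (maximalIdeal Λ).IsPrincipal) (E : Type) [AddCommGroup E]
    [Module Λ E] [Module.Finite Λ E] (N : ℕ) (hN : ∀ a ∈ maximalIdeal Λ ^ N, ∀ x : E, a • x = 0) :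
    ∃ (s : ℕ) (ε : Fin s → E) (e : Fin s → ℕ), Submodule.span Λ (Set.range ε) = ⊤ ∧
      (∀ k, ∀ a ∈ maximalIdeal Λ ^ e k, a • ε k = 0) ∧
      (∀ a : Fin s → Λ, ∑ k, a k • ε k = 0 → ∀ k, a k ∈ maximalIdeal Λ ^ e k) := by
  classical
  have : IsPrincipalIdealRing Λ :=
    ((tfae_of_isNoetherianRing_of_isLocalRing_of_isDomain Λ).out 0 4).2 hpr
  obtain ⟨n, ι, _, p, hp, e, ⟨φ⟩⟩ := Module.equiv_free_prod_directSum Λ E
  have hmax : ∀ i, maximalIdeal Λ ^ e i = Ideal.span {p i ^ e i} := by
    intro i
    have h1 : Ideal.span {p i} = maximalIdeal Λ :=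
      IsLocalRing.eq_maximalIdeal (PrincipalIdealRing.isMaximal_of_irreducible (hp i))
    rw [← h1, Ideal.span_singleton_pow]
  let ε' : Fin n ⊕ ι → (Fin n →₀ Λ) × DirectSum ι fun i => Λ ⧸ Submodule.span Λ {p i ^ e i} :=
    Sum.elim (fun j => (Finsupp.single j 1, 0))
      (fun i => (0, DirectSum.lof Λ ι (fun i => Λ ⧸ Submodule.span Λ {p i ^ e i}) i
        (Submodule.Quotient.mk 1)))
  let e' : Fin n ⊕ ι → ℕ := Sum.elim (fun _ => N) e
  -- the span
  have hspan' : Submodule.span Λ (Set.range ε') = ⊤ := by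
    rw [eq_top_iff]
    rintro ⟨f, d⟩ _
    have h1 : ((f, 0) : (Fin n →₀ Λ) × DirectSum ι fun i => Λ ⧸ Submodule.span Λ {p i ^ e i}) ∈
        Submodule.span Λ (Set.range ε') := by
      induction f using Finsupp.induction_linear with
      | zero => exact zero_mem _
      | add f g hf hg =>
        have : ((f + g, 0) : (Fin n →₀ Λ) × DirectSum ι fun i =>
          Λ ⧸ Submodule.span Λ {p i ^ e i}) = (f, 0) + (g, 0) := by simp
        rw [this]; exact add_mem (hf trivial) (hg trivial)
      | single j a =>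
        have : ((Finsupp.single j a, 0) : (Fin n →₀ Λ) × DirectSum ι fun i =>
          Λ ⧸ Submodule.span Λ {p i ^ e i}) = a • ε' (Sum.inl j) := by
          simp [ε']
        rw [this]; exact Submodule.smul_mem _ _ (Submodule.subset_span ⟨_, rfl⟩)
    have h2 : ((0, d) : (Fin n →₀ Λ) × DirectSum ι fun i => Λ ⧸ Submodule.span Λ {p i ^ e i}) ∈
        Submodule.span Λ (Set.range ε') := by
      induction d using DirectSum.induction_on with
      | zero => exact zero_mem _
      | add f g hf hg =>
        have : ((0, f + g) : (Fin n →₀ Λ) × DirectSum ι fun i =>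
          Λ ⧸ Submodule.span Λ {p i ^ e i}) = (0, f) + (0, g) := by simp
        rw [this]; exact add_mem (hf trivial) (hg trivial)
      | of i x =>
        obtain ⟨a, rfl⟩ := Submodule.Quotient.mk_surjective _ x
        have : ((0, DirectSum.of (fun i => Λ ⧸ Submodule.span Λ {p i ^ e i}) i
          (Submodule.Quotient.mk a)) : (Fin n →₀ Λ) × DirectSum ι fun i =>
          Λ ⧸ Submodule.span Λ {p i ^ e i}) = a • ε' (Sum.inr i) := by
          simp only [ε', Sum.elim_inr, Prod.smul_mk, smul_zero]
          rw [← map_smul, ← Submodule.Quotient.mk_smul, smul_eq_mul, mul_one]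
          rfl
        rw [this]; exact Submodule.smul_mem _ _ (Submodule.subset_span ⟨_, rfl⟩)
    have : ((f, d) : (Fin n →₀ Λ) × DirectSum ι fun i => Λ ⧸ Submodule.span Λ {p i ^ e i}) =
      (f, 0) + (0, d) := by simp
    rw [this]; exact add_mem h1 h2
  -- the relations
  have hrel' : ∀ a : Fin n ⊕ ι → Λ, ∑ k, a k • ε' k = 0 → ∀ k, a k ∈ maximalIdeal Λ ^ e' k := by
    intro a ha k
    rw [Fintype.sum_sum_type] at ha
    have hfst := congrArg Prod.fst ha
    have hsnd := congrArg Prod.snd ha
    rcases k with j | i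
    · have h0 : a (Sum.inl j) = 0 := by
        have := DFunLike.congr_fun hfst j
        simpa [ε', Prod.fst_sum, Finsupp.finsetSum_apply, Finsupp.single_apply] using this
      rw [h0]; exact zero_mem _
    · show a (Sum.inr i) ∈ maximalIdeal Λ ^ e i
      have h1 := congrArg (fun d => DirectSum.component Λ ι
        (fun i => Λ ⧸ Submodule.span Λ {p i ^ e i}) i d) hsnd
      have h2 : ∀ x ∈ (Finset.univ : Finset ι), x ≠ i →
          DirectSum.component Λ ι (fun i => Λ ⧸ Submodule.span Λ {p i ^ e i}) i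
            (a (Sum.inr x) • DirectSum.lof Λ ι (fun i => Λ ⧸ Submodule.span Λ {p i ^ e i}) x
              (Submodule.Quotient.mk 1)) = 0 := by
        intro x _ hx
        rw [map_smul, DirectSum.component.of, dif_neg hx, smul_zero]
      simp only [ε', Sum.elim_inl, Sum.elim_inr, Prod.smul_mk, smul_zero, Prod.snd_add,
        Prod.snd_sum, Finset.sum_const_zero, zero_add, Prod.snd_zero, map_sum, map_zero] at h1
      rw [Finset.sum_eq_single i h2 (by simp), map_smul, DirectSum.component.lof_self,
        ← Submodule.Quotient.mk_smul, smul_eq_mul, mul_one, Submodule.Quotient.mk_eq_zero] at h1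
      rw [hmax]; exact h1
  -- annihilation
  have hann' : ∀ k, ∀ a ∈ maximalIdeal Λ ^ e' k, a • φ.symm (ε' k) = 0 := by
    intro k a ha
    rcases k with j | i
    · exact hN a ha _
    · have ha' : a ∈ Submodule.span Λ {p i ^ e i} := by
        have : a ∈ maximalIdeal Λ ^ e i := ha
        rwa [hmax] at this
      rw [← map_smul]
      have : a • ε' (Sum.inr i) = 0 := by
        simp only [ε', Sum.elim_inr, Prod.smul_mk, smul_zero]
        rw [← map_smul, ← Submodule.Quotient.mk_smul, smul_eq_mul, mul_one,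
          (Submodule.Quotient.mk_eq_zero _).2 ha', map_zero]
        rfl
      rw [this, map_zero]
  let σ : Fin (Fintype.card (Fin n ⊕ ι)) ≃ Fin n ⊕ ι := (Fintype.equivFin _).symm
  refine ⟨Fintype.card (Fin n ⊕ ι), fun k => φ.symm (ε' (σ k)), fun k => e' (σ k), ?_, ?_, ?_⟩
  · have h1 : Set.range (fun k => φ.symm (ε' (σ k))) = φ.symm '' Set.range ε' := by
      rw [← Set.range_comp]
      exact σ.surjective.range_comp (fun k => φ.symm (ε' k))
    rw [h1]
    have h2 : Submodule.span Λ (φ.symm '' Set.range ε') =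
      (Submodule.span Λ (Set.range ε')).map φ.symm.toLinearMap := by
      rw [Submodule.map_span]; rfl
    rw [h2, hspan', Submodule.map_top, LinearEquiv.range]
  · intro k a ha
    exact hann' _ a ha
  · intro a ha k
    have h1 := hrel' (fun k => a (σ.symm k)) ?_ (σ k)
    · simpa using h1
    · have h2 : φ.symm (∑ k, a (σ.symm k) • ε' k) = 0 := by
        rw [map_sum, ← σ.sum_comp]
        simpa using ha
      exact (LinearEquiv.map_eq_zero_iff φ.symm).1 h2

end Pool.Agent.W_cbb711
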