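import Mathlib
import Pool.Agent.W_cbb711b.Defs

/-!
# The deformation theorem (module D of the proof of MP_cbb711_ag)
-/

set_option autoImplicit false

universe u

namespace Pool.Agent.W_cbb711

open IsLocalRing Filter TensorProduct RingTheory.Sequence

namespace Deform

section General

variable {O A : Type*} [CommRing O] [Ring A] [Algebra O A]

/-- Products of elements of `I • ⊤` and `J • ⊤`. -/
lemma mul_mem_smul_top {I J : Ideal O} {x y : A} (hx : x ∈ I • (⊤ : Submodule O A))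
    (hy : y ∈ J • (⊤ : Submodule O A)) : x * y ∈ (I * J) • (⊤ : Submodule O A) := by
  refine Submodule.smul_induction_on hx (fun i hi a _ => ?_) (fun a b ha hb => ?_)
  · refine Submodule.smul_induction_on hy (fun j hj b _ => ?_) (fun b c hb hc => ?_)
    · rw [smul_mul_assoc, mul_smul_comm, smul_smul]
      exact Submodule.smul_mem_smul (Ideal.mul_mem_mul hi hj) Submodule.mem_top
    · rw [mul_add]; exact add_mem hb hc
  · rw [add_mul]; exact add_mem ha hb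

lemma mul_mem_smul_top_left {I : Ideal O} {x : A} (y : A)
    (hx : x ∈ I • (⊤ : Submodule O A)) : x * y ∈ I • (⊤ : Submodule O A) := by
  refine Submodule.smul_induction_on hx (fun i hi a _ => ?_) (fun a b ha hb => ?_)
  · rw [smul_mul_assoc]
    exact Submodule.smul_mem_smul hi Submodule.mem_top
  · rw [add_mul]; exact add_mem ha hb

lemma mul_mem_smul_top_right {I : Ideal O} {x : A} (y : A)
    (hx : x ∈ I • (⊤ : Submodule O A)) : y * x ∈ I • (⊤ : Submodule O A) := by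
  refine Submodule.smul_induction_on hx (fun i hi a _ => ?_) (fun a b ha hb => ?_)
  · rw [mul_smul_comm]
    exact Submodule.smul_mem_smul hi Submodule.mem_top
  · rw [mul_add]; exact add_mem ha hb

/-- In a finite algebra over a local ring, elements congruent to `1` modulo the maximal ideal
are units. -/
lemma isUnit_of_sub_one_mem [IsLocalRing O] [Module.Finite O A] {X : A}
    (hX : X - 1 ∈ maximalIdeal O • (⊤ : Submodule O A)) : IsUnit X := by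
  have key1 : ∃ Y, X * Y = 1 := by
    have hsup : (LinearMap.mulLeft O X).range ⊔ maximalIdeal O • (⊤ : Submodule O A) = ⊤ := by
      rw [eq_top_iff]
      intro y _
      have : y = X * y + (-(X - 1)) * y := by noncomm_ring
      rw [this]
      exact Submodule.add_mem_sup ⟨y, rfl⟩ (mul_mem_smul_top_left y (neg_mem hX))
    have h2 : (⊤ : Submodule O A) ≤ (LinearMap.mulLeft O X).range := by
      refine Submodule.le_of_le_smul_of_le_jacobson_bot (I := maximalIdeal O)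
        Module.Finite.fg_top ?_ ?_
      · rw [IsLocalRing.jacobson_eq_maximalIdeal ⊥ bot_ne_top]
      · rw [hsup]
    obtain ⟨Y, hY⟩ := h2 (Submodule.mem_top (x := (1 : A)))
    exact ⟨Y, hY⟩
  have key2 : ∃ Y, Y * X = 1 := by
    have hsup : (LinearMap.mulRight O X).range ⊔ maximalIdeal O • (⊤ : Submodule O A) = ⊤ := by
      rw [eq_top_iff]
      intro y _
      have : y = y * X + y * (-(X - 1)) := by noncomm_ring
      rw [this]
      exact Submodule.add_mem_sup ⟨y, rfl⟩ (mul_mem_smul_top_right y (neg_mem hX))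
    have h2 : (⊤ : Submodule O A) ≤ (LinearMap.mulRight O X).range := by
      refine Submodule.le_of_le_smul_of_le_jacobson_bot (I := maximalIdeal O)
        Module.Finite.fg_top ?_ ?_
      · rw [IsLocalRing.jacobson_eq_maximalIdeal ⊥ bot_ne_top]
      · rw [hsup]
    obtain ⟨Y, hY⟩ := h2 (Submodule.mem_top (x := (1 : A)))
    exact ⟨Y, hY⟩
  obtain ⟨Y, hY⟩ := key1
  obtain ⟨Y', hY'⟩ := key2
  have hYY : Y' = Y := by
    calc Y' = Y' * (X * Y) := by rw [hY, mul_one]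
      _ = (Y' * X) * Y := by rw [mul_assoc]
      _ = Y := by rw [hY', one_mul]
  exact ⟨⟨X, Y, hY, by rw [← hYY]; exact hY'⟩, rfl⟩

end General

section Tensor

variable {Λ O E : Type*} [CommRing Λ] [CommRing O] [Algebra Λ O] [Ring E] [Algebra Λ E]

/-- The functional `l ⊗ id`. -/
noncomputable def ev (l : O →ₗ[Λ] Λ) : O ⊗[Λ] E →ₗ[Λ] E :=
  (TensorProduct.lid Λ E).toLinearMap ∘ₗ TensorProduct.map l LinearMap.id

@[simp] lemma ev_tmul (l : O →ₗ[Λ] Λ) (o : O) (e : E) : ev l (o ⊗ₜ[Λ] e) = l o • e := by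
  simp [ev]

lemma ev_mul_one_tmul (l : O →ₗ[Λ] Λ) (x : O ⊗[Λ] E) (e : E) :
    ev l (x * ((1 : O) ⊗ₜ[Λ] e)) = ev l x * e := by
  induction x with
  | zero => simp
  | tmul o f => simp [Algebra.TensorProduct.tmul_mul_tmul]
  | add x y hx hy => rw [add_mul, map_add, map_add, add_mul, hx, hy]

lemma ev_one_tmul_mul (l : O →ₗ[Λ] Λ) (x : O ⊗[Λ] E) (e : E) :
    ev l (((1 : O) ⊗ₜ[Λ] e) * x) = e * ev l x := by
  induction x with
  | zero => simp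
  | tmul o f => simp [Algebra.TensorProduct.tmul_mul_tmul]
  | add x y hx hy => rw [mul_add, map_add, map_add, mul_add, hx, hy]

lemma ev_eq_zero {I : Ideal O} (l : O →ₗ[Λ] Λ) (hl : ∀ x ∈ I, l x = 0) {x : O ⊗[Λ] E}
    (hx : x ∈ I • (⊤ : Submodule O (O ⊗[Λ] E))) : ev l x = 0 := by
  refine Submodule.smul_induction_on hx (fun i hi a _ => ?_) (fun a b ha hb => ?_)
  · induction a with
    | zero => simp
    | tmul o e =>
      rw [TensorProduct.smul_tmul', ev_tmul, smul_eq_mul, hl _ (I.mul_mem_right _ hi), zero_smul]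
    | add a b ha hb => rw [smul_add, map_add, ha trivial, hb trivial, add_zero]
  · rw [map_add, ha, hb, add_zero]

/-- An element of `O ⊗ E` killed by the reduction `w ⊗ id` lies in `𝔫 • ⊤`. -/
lemma sub_red_mem (w : O →ₐ[Λ] Λ) (x : O ⊗[Λ] E) :
    x - (1 : O) ⊗ₜ[Λ] (ev w.toLinearMap x) ∈ RingHom.ker w • (⊤ : Submodule O (O ⊗[Λ] E)) := by
  induction x with
  | zero => simp
  | tmul o e =>
    rw [ev_tmul, TensorProduct.tmul_smul]
    have : o ⊗ₜ[Λ] e - w.toLinearMap o • ((1 : O) ⊗ₜ[Λ] e) =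
        (o - algebraMap Λ O (w o)) • ((1 : O) ⊗ₜ[Λ] e) := by
      rw [sub_smul, algebraMap_smul, TensorProduct.smul_tmul' (r := o), smul_eq_mul, mul_one]
      rfl
    rw [this]
    refine Submodule.smul_mem_smul ?_ Submodule.mem_top
    rw [RingHom.mem_ker]
    simp
  | add x y hx hy =>
    have : x + y - (1 : O) ⊗ₜ[Λ] (ev w.toLinearMap (x + y)) =
      (x - (1 : O) ⊗ₜ[Λ] (ev w.toLinearMap x)) + (y - (1 : O) ⊗ₜ[Λ] (ev w.toLinearMap y)) := by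
      rw [map_add, TensorProduct.tmul_add]; abel
    rw [this]
    exact add_mem hx hy

/-- Expansion of elements of `𝔫 ^ r • ⊤`. -/
lemma sub_sum_mem {I J : Ideal O} {s : ℕ} (e : Fin s → O) (l : Fin s → (O →ₗ[Λ] Λ))
    (h : ∀ x ∈ I, x - ∑ j, algebraMap Λ O (l j x) * e j ∈ J)
    {x : O ⊗[Λ] E} (hx : x ∈ I • (⊤ : Submodule O (O ⊗[Λ] E))) :
    x - ∑ j, e j ⊗ₜ[Λ] (ev (l j) x) ∈ J • (⊤ : Submodule O (O ⊗[Λ] E)) := by
  refine Submodule.smul_induction_on hx (fun i hi a _ => ?_) (fun a b ha hb => ?_)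
  · induction a with
    | zero => simp
    | tmul o f =>
      have h1 : (i • (o ⊗ₜ[Λ] f)) - ∑ j, e j ⊗ₜ[Λ] (ev (l j) (i • (o ⊗ₜ[Λ] f))) =
          (i * o - ∑ j, algebraMap Λ O (l j (i * o)) * e j) • ((1 : O) ⊗ₜ[Λ] f) := by
        rw [sub_smul, Finset.sum_smul]
        simp only [TensorProduct.smul_tmul', smul_eq_mul, mul_one, ev_tmul,
          TensorProduct.tmul_smul]
        congr 1
        refine Finset.sum_congr rfl fun j _ => ?_
        rw [Algebra.smul_def]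
      rw [h1]
      exact Submodule.smul_mem_smul (h _ (I.mul_mem_right _ hi)) Submodule.mem_top
    | add a b ha hb =>
      have : (i • (a + b)) - ∑ j, e j ⊗ₜ[Λ] (ev (l j) (i • (a + b))) =
          ((i • a) - ∑ j, e j ⊗ₜ[Λ] (ev (l j) (i • a))) +
          ((i • b) - ∑ j, e j ⊗ₜ[Λ] (ev (l j) (i • b))) := by
        simp only [smul_add, map_add, TensorProduct.tmul_add, Finset.sum_add_distrib]
        abel
      rw [this]
      exact add_mem (ha trivial) (hb trivial)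
  · have : (a + b) - ∑ j, e j ⊗ₜ[Λ] (ev (l j) (a + b)) =
          (a - ∑ j, e j ⊗ₜ[Λ] (ev (l j) a)) +
          (b - ∑ j, e j ⊗ₜ[Λ] (ev (l j) b)) := by
      simp only [map_add, TensorProduct.tmul_add, Finset.sum_add_distrib]
      abel
    rw [this]
    exact add_mem ha hb

/-- Induction principle for `F.baseChange O`. -/
lemma baseChange_induction (F : Submodule Λ E) {p : O ⊗[Λ] E → Prop}
    (h0 : p 0) (hadd : ∀ x y, p x → p y → p (x + y))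
    (hf : ∀ (o : O), ∀ f ∈ F, p (o ⊗ₜ[Λ] f)) {x : O ⊗[Λ] E} (hx : x ∈ F.baseChange O) : p x := by
  rw [Submodule.baseChange_eq_span] at hx
  have h : ∀ o : O, p (o • x) := by
    refine Submodule.span_induction (p := fun x _ => ∀ o : O, p (o • x)) ?_ ?_ ?_ ?_ hx
    · rintro _ ⟨f, hf', rfl⟩ o
      have : o • (TensorProduct.mk Λ O E 1) f = o ⊗ₜ[Λ] f := by
        rw [TensorProduct.mk_apply, TensorProduct.smul_tmul', smul_eq_mul, mul_one]
      rw [this]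
      exact hf o f hf'
    · intro o; rw [smul_zero]; exact h0
    · intro x y _ _ hx hy o
      rw [smul_add]; exact hadd _ _ (hx o) (hy o)
    · intro o x _ hx o'
      rw [smul_smul]; exact hx _
  simpa using h 1

variable (F : Submodule Λ E) (hF : ∀ x ∈ F, ∀ y : E, x * y ∈ F ∧ y * x ∈ F)

include hF in
lemma baseChange_mul_left {x : O ⊗[Λ] E} (hx : x ∈ F.baseChange O) (y : O ⊗[Λ] E) :
    x * y ∈ F.baseChange O := by
  refine baseChange_induction F (p := fun x => x * y ∈ F.baseChange O) ?_ ?_ ?_ hx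
  · rw [zero_mul]; exact zero_mem _
  · intro a b ha hb; rw [add_mul]; exact add_mem ha hb
  · intro o f hf
    induction y with
    | zero => rw [mul_zero]; exact zero_mem _
    | tmul o' e =>
      rw [Algebra.TensorProduct.tmul_mul_tmul]
      exact Submodule.tmul_mem_baseChange_of_mem _ (hF f hf e).1
    | add a b ha hb => rw [mul_add]; exact add_mem ha hb

include hF in
lemma baseChange_mul_right {x : O ⊗[Λ] E} (hx : x ∈ F.baseChange O) (y : O ⊗[Λ] E) :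
    y * x ∈ F.baseChange O := by
  refine baseChange_induction F (p := fun x => y * x ∈ F.baseChange O) ?_ ?_ ?_ hx
  · rw [mul_zero]; exact zero_mem _
  · intro a b ha hb; rw [mul_add]; exact add_mem ha hb
  · intro o f hf
    induction y with
    | zero => rw [zero_mul]; exact zero_mem _
    | tmul o' e =>
      rw [Algebra.TensorProduct.tmul_mul_tmul]
      exact Submodule.tmul_mem_baseChange_of_mem _ (hF f hf e).2
    | add a b ha hb => rw [add_mul]; exact add_mem ha hb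

lemma baseChange_mul_baseChange (hF2 : ∀ x ∈ F, ∀ y ∈ F, x * y = 0) {x y : O ⊗[Λ] E}
    (hx : x ∈ F.baseChange O) (hy : y ∈ F.baseChange O) : x * y = 0 := by
  refine baseChange_induction F (p := fun x => x * y = 0) ?_ ?_ ?_ hx
  · rw [zero_mul]
  · intro a b ha hb; rw [add_mul, ha, hb, add_zero]
  · intro o f hf
    refine baseChange_induction F (p := fun y => (o ⊗ₜ[Λ] f) * y = 0) ?_ ?_ ?_ hy
    · rw [mul_zero]
    · intro a b ha hb; rw [mul_add, ha, hb, add_zero]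
    · intro o' f' hf'
      rw [Algebra.TensorProduct.tmul_mul_tmul, hF2 f hf f' hf', TensorProduct.tmul_zero]

lemma ev_mem (l : O →ₗ[Λ] Λ) {x : O ⊗[Λ] E} (hx : x ∈ F.baseChange O) : ev l x ∈ F := by
  refine baseChange_induction F (p := fun x => ev l x ∈ F) ?_ ?_ ?_ hx
  · rw [map_zero]; exact zero_mem _
  · intro a b ha hb; rw [map_add]; exact add_mem ha hb
  · intro o f hf
    rw [ev_tmul]; exact F.smul_mem _ hf

end Tensor

section Step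

variable {Λ O E 𝓡 : Type*} [CommRing Λ] [CommRing O] [Algebra Λ O] [Ring E] [Algebra Λ E]
  [CommRing 𝓡] [Algebra Λ 𝓡]

/-- The error term `h φO(a) h⁻¹ - 1 ⊗ φ0 a`. -/
noncomputable def err (φO : 𝓡 →ₐ[Λ] O ⊗[Λ] E) (φ0 : 𝓡 →ₐ[Λ] E) (h : (O ⊗[Λ] E)ˣ) :
    𝓡 →ₗ[Λ] O ⊗[Λ] E :=
  (LinearMap.mulLeft Λ (h : O ⊗[Λ] E)) ∘ₗ (LinearMap.mulRight Λ ((h⁻¹ : (O ⊗[Λ] E)ˣ) : O ⊗[Λ] E)) ∘ₗ
    φO.toLinearMap - (TensorProduct.mk Λ O E 1) ∘ₗ φ0.toLinearMap

lemma err_apply (φO : 𝓡 →ₐ[Λ] O ⊗[Λ] E) (φ0 : 𝓡 →ₐ[Λ] E) (h : (O ⊗[Λ] E)ˣ) (a : 𝓡) :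
    err φO φ0 h a = h * φO a * ((h⁻¹ : (O ⊗[Λ] E)ˣ) : O ⊗[Λ] E) - (1 : O) ⊗ₜ[Λ] φ0 a := by
  simp [err, mul_assoc]

lemma err_mul (φO : 𝓡 →ₐ[Λ] O ⊗[Λ] E) (φ0 : 𝓡 →ₐ[Λ] E) (h : (O ⊗[Λ] E)ˣ) (a b : 𝓡) :
    err φO φ0 h (a * b) = err φO φ0 h a * err φO φ0 h b +
      err φO φ0 h a * ((1 : O) ⊗ₜ[Λ] φ0 b) + ((1 : O) ⊗ₜ[Λ] φ0 a) * err φO φ0 h b := by
  have h1 : (1 : O) ⊗ₜ[Λ] φ0 (a * b) = ((1 : O) ⊗ₜ[Λ] φ0 a) * ((1 : O) ⊗ₜ[Λ] φ0 b) := by
    rw [Algebra.TensorProduct.tmul_mul_tmul, mul_one, map_mul]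
  have h2 : (h : O ⊗[Λ] E) * φO (a * b) * ((h⁻¹ : (O ⊗[Λ] E)ˣ) : O ⊗[Λ] E) =
      ((h : O ⊗[Λ] E) * φO a * ((h⁻¹ : (O ⊗[Λ] E)ˣ) : O ⊗[Λ] E)) *
      ((h : O ⊗[Λ] E) * φO b * ((h⁻¹ : (O ⊗[Λ] E)ˣ) : O ⊗[Λ] E)) := by
    have : ((h⁻¹ : (O ⊗[Λ] E)ˣ) : O ⊗[Λ] E) * (h : O ⊗[Λ] E) = 1 := Units.inv_mul h
    calc (h : O ⊗[Λ] E) * φO (a * b) * ((h⁻¹ : (O ⊗[Λ] E)ˣ) : O ⊗[Λ] E)
        = (h : O ⊗[Λ] E) * φO a * (((h⁻¹ : (O ⊗[Λ] E)ˣ) : O ⊗[Λ] E) * (h : O ⊗[Λ] E)) * φO b *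
            ((h⁻¹ : (O ⊗[Λ] E)ˣ) : O ⊗[Λ] E) := by rw [this, map_mul]; noncomm_ring
      _ = _ := by noncomm_ring
  rw [err_apply, err_apply, err_apply, h1, h2]
  generalize (h : O ⊗[Λ] E) * φO a * ((h⁻¹ : (O ⊗[Λ] E)ˣ) : O ⊗[Λ] E) = X
  generalize (h : O ⊗[Λ] E) * φO b * ((h⁻¹ : (O ⊗[Λ] E)ˣ) : O ⊗[Λ] E) = Y
  noncomm_ring

lemma err_mul_unit (φO : 𝓡 →ₐ[Λ] O ⊗[Λ] E) (φ0 : 𝓡 →ₐ[Λ] E) (h : (O ⊗[Λ] E)ˣ) (a : 𝓡) :
    err φO φ0 h a * (h : O ⊗[Λ] E) = h * φO a - ((1 : O) ⊗ₜ[Λ] φ0 a) * h := by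
  rw [err_apply, sub_mul, mul_assoc ((h : O ⊗[Λ] E) * φO a), Units.inv_mul, mul_one]

lemma err_eq (φO : 𝓡 →ₐ[Λ] O ⊗[Λ] E) (φ0 : 𝓡 →ₐ[Λ] E) (h : (O ⊗[Λ] E)ˣ) (a : 𝓡) :
    err φO φ0 h a = (h * φO a - ((1 : O) ⊗ₜ[Λ] φ0 a) * h) *
      ((h⁻¹ : (O ⊗[Λ] E)ˣ) : O ⊗[Λ] E) := by
  rw [← err_mul_unit, mul_assoc, Units.mul_inv, mul_one]

lemma err_mem (w : O →ₐ[Λ] Λ) (φO : 𝓡 →ₐ[Λ] O ⊗[Λ] E) (φ0 : 𝓡 →ₐ[Λ] E)
    (hφ : ∀ a, ev w.toLinearMap (φO a) = φ0 a) (h : (O ⊗[Λ] E)ˣ)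
    (hh : (h : O ⊗[Λ] E) - 1 ∈ RingHom.ker w • (⊤ : Submodule O (O ⊗[Λ] E))) (a : 𝓡) :
    err φO φ0 h a ∈ RingHom.ker w • (⊤ : Submodule O (O ⊗[Λ] E)) := by
  rw [err_eq]
  refine mul_mem_smul_top_left _ ?_
  have h1 : (h : O ⊗[Λ] E) * φO a - ((1 : O) ⊗ₜ[Λ] φ0 a) * h =
      ((h : O ⊗[Λ] E) - 1) * φO a + (φO a - (1 : O) ⊗ₜ[Λ] φ0 a) -
        ((1 : O) ⊗ₜ[Λ] φ0 a) * ((h : O ⊗[Λ] E) - 1) := by noncomm_ring
  rw [h1]
  refine sub_mem (add_mem (mul_mem_smul_top_left _ hh) ?_) (mul_mem_smul_top_right _ hh)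
  have := sub_red_mem (E := E) w (φO a)
  rwa [hφ] at this

/-- The inductive step. -/
lemma step [IsLocalRing O] [Module.Finite Λ E] (w : O →ₐ[Λ] Λ) (hw : Augmented w)
    (F : Submodule Λ E) (hF : ∀ x ∈ F, ∀ y : E, x * y ∈ F ∧ y * x ∈ F)
    (hF2 : ∀ x ∈ F, ∀ y ∈ F, x * y = 0)
    (φO : 𝓡 →ₐ[Λ] O ⊗[Λ] E) (φ0 : 𝓡 →ₐ[Λ] E)
    (hφ : ∀ a, ev w.toLinearMap (φO a) = φ0 a)
    (Z : Set 𝓡) (hZ : ∀ z ∈ Z, φO z = 1 ⊗ₜ[Λ] φ0 z ∧ ∀ x : E, φ0 z * x = x * φ0 z)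
    (P : ∀ δ : 𝓡 →ₗ[Λ] E, (∀ a b, δ (a * b) = φ0 a * δ b + δ a * φ0 b) → (∀ z ∈ Z, δ z = 0) →
      ∃ g : E, ∀ a, δ a - (φ0 a * g - g * φ0 a) ∈ F)
    (r : ℕ) (hr : 1 ≤ r) (h : (O ⊗[Λ] E)ˣ)
    (hh : (h : O ⊗[Λ] E) - 1 ∈ RingHom.ker w • (⊤ : Submodule O (O ⊗[Λ] E)))
    (hε : ∀ a, err φO φ0 h a ∈
      F.baseChange O ⊔ (RingHom.ker w ^ r) • (⊤ : Submodule O (O ⊗[Λ] E))) :
    ∃ h' : (O ⊗[Λ] E)ˣ,
      (h' : O ⊗[Λ] E) - 1 ∈ RingHom.ker w • (⊤ : Submodule O (O ⊗[Λ] E)) ∧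
      ∀ a, err φO φ0 h' a ∈
        F.baseChange O ⊔ (RingHom.ker w ^ (r + 1)) • (⊤ : Submodule O (O ⊗[Λ] E)) := by
  obtain ⟨hwm, hw⟩ := hw
  obtain ⟨s, e, l, he, hl, hel⟩ := hw r hr
  set 𝔫 : Ideal O := RingHom.ker w with h𝔫
  have herr := err_mem w φO φ0 hφ h hh
  -- products of two errors are small
  have hprod : ∀ a b, err φO φ0 h a * err φO φ0 h b ∈
      (𝔫 ^ (r + 1)) • (⊤ : Submodule O (O ⊗[Λ] E)) := by
    intro a b
    obtain ⟨f, hf, g, hg, hfg⟩ := Submodule.mem_sup.1 (hε a)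
    obtain ⟨f', hf', g', hg', hfg'⟩ := Submodule.mem_sup.1 (hε b)
    have hle : 𝔫 ^ r ≤ 𝔫 := Ideal.pow_le_self (by omega)
    have hf1 : f ∈ 𝔫 • (⊤ : Submodule O (O ⊗[Λ] E)) := by
      have : f = err φO φ0 h a - g := by rw [← hfg]; abel
      rw [this]
      exact sub_mem (herr a) (Submodule.smul_mono_left hle hg)
    have hf1' : f' ∈ 𝔫 • (⊤ : Submodule O (O ⊗[Λ] E)) := by
      have : f' = err φO φ0 h b - g' := by rw [← hfg']; abel
      rw [this]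
      exact sub_mem (herr b) (Submodule.smul_mono_left hle hg')
    have hg1 : g ∈ 𝔫 • (⊤ : Submodule O (O ⊗[Λ] E)) := Submodule.smul_mono_left hle hg
    have e1 : f * g' ∈ (𝔫 ^ (r + 1)) • (⊤ : Submodule O (O ⊗[Λ] E)) := by
      rw [pow_succ']; exact mul_mem_smul_top hf1 hg'
    have e2 : g * f' ∈ (𝔫 ^ (r + 1)) • (⊤ : Submodule O (O ⊗[Λ] E)) := by
      rw [pow_succ]; exact mul_mem_smul_top hg hf1'
    have e3 : g * g' ∈ (𝔫 ^ (r + 1)) • (⊤ : Submodule O (O ⊗[Λ] E)) := by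
      rw [pow_succ']; exact mul_mem_smul_top hg1 hg'
    have e0 : f * f' = 0 := baseChange_mul_baseChange F hF2 hf hf'
    have : err φO φ0 h a * err φO φ0 h b = f * g' + g * f' + g * g' := by
      rw [← hfg, ← hfg', add_mul, mul_add, mul_add, e0]; abel
    rw [this]
    exact add_mem (add_mem e1 e2) e3
  -- the derivations `δ_j`
  have hδ : ∀ j, ∃ g : E, ∀ a, ev (l j) (err φO φ0 h a) - (φ0 a * g - g * φ0 a) ∈ F := by
    intro j
    refine P ((ev (l j)) ∘ₗ err φO φ0 h) ?_ ?_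
    · intro a b
      rw [LinearMap.comp_apply, LinearMap.comp_apply, LinearMap.comp_apply, err_mul, map_add,
        map_add, ev_eq_zero (l j) (hl j) (hprod a b), ev_mul_one_tmul, ev_one_tmul_mul]
      abel
    · intro z hz
      obtain ⟨hz1, hz2⟩ := hZ z hz
      have hc : ∀ x : O ⊗[Λ] E, x * ((1 : O) ⊗ₜ[Λ] φ0 z) = ((1 : O) ⊗ₜ[Λ] φ0 z) * x := by
        intro x
        induction x with
        | zero => simp
        | tmul o y =>
          rw [Algebra.TensorProduct.tmul_mul_tmul, Algebra.TensorProduct.tmul_mul_tmul, one_mul,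
            mul_one, hz2]
        | add x y hx hy => rw [add_mul, mul_add, hx, hy]
      rw [LinearMap.comp_apply, err_eq, hz1, hc, sub_self, zero_mul, map_zero]
  choose g hg using hδ
  set G : O ⊗[Λ] E := ∑ j, e j ⊗ₜ[Λ] g j with hG
  have hGmem : G ∈ (𝔫 ^ r) • (⊤ : Submodule O (O ⊗[Λ] E)) := by
    refine sum_mem fun j _ => ?_
    have : e j ⊗ₜ[Λ] g j = (e j) • ((1 : O) ⊗ₜ[Λ] g j) := by
      rw [TensorProduct.smul_tmul', smul_eq_mul, mul_one]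
    rw [this]
    exact Submodule.smul_mem_smul (he j) Submodule.mem_top
  have hle : 𝔫 ^ r ≤ 𝔫 := Ideal.pow_le_self (by omega)
  have hGmem1 : G ∈ 𝔫 • (⊤ : Submodule O (O ⊗[Λ] E)) := Submodule.smul_mono_left hle hGmem
  have hunit : IsUnit (1 + G) := by
    refine isUnit_of_sub_one_mem (O := O) ?_
    rw [add_sub_cancel_left]
    exact Submodule.smul_mono_left hwm hGmem1
  obtain ⟨u, hu⟩ := hunit
  refine ⟨u * h, ?_, ?_⟩
  · have : ((u * h : (O ⊗[Λ] E)ˣ) : O ⊗[Λ] E) - 1 = ((h : O ⊗[Λ] E) - 1) + G * h := by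
      rw [Units.val_mul, hu]; noncomm_ring
    rw [this]
    exact add_mem hh (mul_mem_smul_top_left _ hGmem1)
  · intro a
    -- the key congruence
    have hkey : err φO φ0 h a - (((1 : O) ⊗ₜ[Λ] φ0 a) * G - G * ((1 : O) ⊗ₜ[Λ] φ0 a)) ∈
        F.baseChange O ⊔ (𝔫 ^ (r + 1)) • (⊤ : Submodule O (O ⊗[Λ] E)) := by
      obtain ⟨f, hf, x, hx, hfx⟩ := Submodule.mem_sup.1 (hε a)
      have h1 := sub_sum_mem (E := E) e l hel hx
      have h2 : ∑ j, e j ⊗ₜ[Λ] (ev (l j) x) -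
          (((1 : O) ⊗ₜ[Λ] φ0 a) * G - G * ((1 : O) ⊗ₜ[Λ] φ0 a)) ∈ F.baseChange O := by
        have : ∑ j, e j ⊗ₜ[Λ] (ev (l j) x) -
          (((1 : O) ⊗ₜ[Λ] φ0 a) * G - G * ((1 : O) ⊗ₜ[Λ] φ0 a)) =
          ∑ j, e j ⊗ₜ[Λ] (ev (l j) x - (φ0 a * g j - g j * φ0 a)) := by
          rw [hG, Finset.mul_sum, Finset.sum_mul]
          simp only [Algebra.TensorProduct.tmul_mul_tmul, one_mul, mul_one, TensorProduct.tmul_sub,
            Finset.sum_sub_distrib]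
        rw [this]
        refine sum_mem fun j _ => Submodule.tmul_mem_baseChange_of_mem _ ?_
        have hx' : x = err φO φ0 h a - f := by rw [← hfx]; abel
        have : ev (l j) x - (φ0 a * g j - g j * φ0 a) =
            (ev (l j) (err φO φ0 h a) - (φ0 a * g j - g j * φ0 a)) - ev (l j) f := by
          rw [hx', map_sub]; abel
        rw [this]
        exact sub_mem (hg j a) (ev_mem F (l j) hf)
      have : err φO φ0 h a - (((1 : O) ⊗ₜ[Λ] φ0 a) * G - G * ((1 : O) ⊗ₜ[Λ] φ0 a)) =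
        (f + (∑ j, e j ⊗ₜ[Λ] (ev (l j) x) -
          (((1 : O) ⊗ₜ[Λ] φ0 a) * G - G * ((1 : O) ⊗ₜ[Λ] φ0 a)))) +
          (x - ∑ j, e j ⊗ₜ[Λ] (ev (l j) x)) := by rw [← hfx]; abel
      rw [this]
      exact Submodule.add_mem_sup (add_mem hf h2) h1
    have h3 : G * err φO φ0 h a ∈ (𝔫 ^ (r + 1)) • (⊤ : Submodule O (O ⊗[Λ] E)) := by
      rw [pow_succ]; exact mul_mem_smul_top hGmem (herr a)
    have h4 : err φO φ0 (u * h) a =
        ((err φO φ0 h a - (((1 : O) ⊗ₜ[Λ] φ0 a) * G - G * ((1 : O) ⊗ₜ[Λ] φ0 a))) +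
          G * err φO φ0 h a) * ((u⁻¹ : (O ⊗[Λ] E)ˣ) : O ⊗[Λ] E) := by
      have hinv : (u : O ⊗[Λ] E) * ((u⁻¹ : (O ⊗[Λ] E)ˣ) : O ⊗[Λ] E) = 1 := Units.mul_inv u
      have e1 : err φO φ0 (u * h) a =
          ((u : O ⊗[Λ] E) * (err φO φ0 h a + (1 : O) ⊗ₜ[Λ] φ0 a) -
            ((1 : O) ⊗ₜ[Λ] φ0 a) * u) * ((u⁻¹ : (O ⊗[Λ] E)ˣ) : O ⊗[Λ] E) := by
        rw [err_apply, err_apply, sub_mul, mul_assoc ((1 : O) ⊗ₜ[Λ] φ0 a), hinv, mul_one,
          mul_inv_rev, Units.val_mul, Units.val_mul, sub_add_cancel]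
        noncomm_ring
      rw [e1, hu]
      congr 1
      noncomm_ring
    rw [h4]
    obtain ⟨f, hf, x, hx, hfx⟩ := Submodule.mem_sup.1
      (add_mem hkey (Submodule.mem_sup_right h3))
    rw [← hfx, add_mul]
    exact Submodule.add_mem_sup (baseChange_mul_left F hF hf _) (mul_mem_smul_top_left _ hx)

end Step

lemma smul_top_pi {O M ι : Type*} [CommRing O] [AddCommGroup M] [Module O M] [Fintype ι]
    [DecidableEq ι] (I : Ideal O) (x : ι → M) (hx : ∀ i, x i ∈ I • (⊤ : Submodule O M)) :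
    x ∈ I • (⊤ : Submodule O (ι → M)) := by
  have h1 : x = ∑ i, LinearMap.single O (fun _ : ι => M) i (x i) := by
    funext j
    simp [LinearMap.single_apply, Finset.sum_apply, Pi.single_apply]
  rw [h1]
  refine sum_mem fun i _ => ?_
  have h2 : LinearMap.single O (fun _ : ι => M) i (x i) ∈
      (I • (⊤ : Submodule O M)).map (LinearMap.single O (fun _ : ι => M) i) :=
    Submodule.mem_map_of_mem (hx i)
  rw [Submodule.map_smul''] at h2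
  exact Submodule.smul_mono le_rfl le_top h2

end Deform

/-- **The deformation theorem.** -/
theorem deformation {Λ O E 𝓡 : Type} [CommRing Λ] [CommRing O] [IsLocalRing O]
    [IsNoetherianRing O] [Algebra Λ O] [Ring E] [Algebra Λ E] [Module.Finite Λ E]
    [CommRing 𝓡] [Algebra Λ 𝓡] [Module.Finite Λ 𝓡]
    (w : O →ₐ[Λ] Λ) (hw : Augmented w)
    (F : Submodule Λ E) (hF : ∀ x ∈ F, ∀ y : E, x * y ∈ F ∧ y * x ∈ F)
    (hF2 : ∀ x ∈ F, ∀ y ∈ F, x * y = 0)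
    (φO : 𝓡 →ₐ[Λ] O ⊗[Λ] E) (φ0 : 𝓡 →ₐ[Λ] E)
    (hφ : ∀ a, Algebra.TensorProduct.lid Λ E
      (Algebra.TensorProduct.map w (AlgHom.id Λ E) (φO a)) = φ0 a)
    (Z : Set 𝓡) (hZ : ∀ z ∈ Z, φO z = 1 ⊗ₜ[Λ] φ0 z ∧ ∀ x : E, φ0 z * x = x * φ0 z)
    (P : ∀ δ : 𝓡 →ₗ[Λ] E, (∀ a b, δ (a * b) = φ0 a * δ b + δ a * φ0 b) → (∀ z ∈ Z, δ z = 0) →
      ∃ g : E, ∀ a, δ a - (φ0 a * g - g * φ0 a) ∈ F) :
    ∃ h : (O ⊗[Λ] E)ˣ, ∀ a, (h : O ⊗[Λ] E) * φO a - ((1 : O) ⊗ₜ[Λ] φ0 a) * (h : O ⊗[Λ] E) ∈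
      F.baseChange O := by
  classical
  have hφ' : ∀ a, Deform.ev w.toLinearMap (φO a) = φ0 a := by
    intro a
    rw [← hφ a]
    generalize φO a = x
    induction x with
    | zero => simp
    | tmul o e => simp
    | add x y hx hy => rw [map_add, map_add, map_add, hx, hy]
  -- approximate solutions
  have hstep : ∀ r : ℕ, 1 ≤ r → ∃ h : (O ⊗[Λ] E)ˣ,
      (h : O ⊗[Λ] E) - 1 ∈ RingHom.ker w • (⊤ : Submodule O (O ⊗[Λ] E)) ∧
      ∀ a, Deform.err φO φ0 h a ∈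
        F.baseChange O ⊔ (RingHom.ker w ^ r) • (⊤ : Submodule O (O ⊗[Λ] E)) := by
    intro r hr
    induction r, hr using Nat.le_induction with
    | base =>
      refine ⟨1, by simp, fun a => Submodule.mem_sup_right ?_⟩
      rw [pow_one]
      exact Deform.err_mem w φO φ0 hφ' 1 (by simp) a
    | succ r hr ih =>
      obtain ⟨h, hh, hε⟩ := ih
      exact Deform.step w hw F hF hF2 φO φ0 hφ' Z hZ P r hr h hh hε
  obtain ⟨S, hS⟩ := (Module.Finite.fg_top : (⊤ : Submodule Λ 𝓡).FG)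
  let T : O ⊗[Λ] E →ₗ[O] (S → (O ⊗[Λ] E) ⧸ F.baseChange O) :=
    LinearMap.pi fun s => (F.baseChange O).mkQ ∘ₗ
      (LinearMap.mulRight O (φO s) - LinearMap.mulLeft O ((1 : O) ⊗ₜ[Λ] φ0 s))
  have hT : ∀ (X : O ⊗[Λ] E) (s : S), T X s = (F.baseChange O).mkQ
      (X * φO s - ((1 : O) ⊗ₜ[Λ] φ0 s) * X) := fun X s => rfl
  obtain ⟨k, hk⟩ := Ideal.exists_pow_inf_eq_pow_smul (RingHom.ker w) T.range
  obtain ⟨h, hh, hε⟩ := hstep (k + 1) (by omega)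
  have hTh : T h ∈ (RingHom.ker w ^ (k + 1)) •
      (⊤ : Submodule O (S → (O ⊗[Λ] E) ⧸ F.baseChange O)) := by
    refine Deform.smul_top_pi _ _ fun s => ?_
    rw [hT, ← Deform.err_mul_unit]
    obtain ⟨f, hf, x, hx, hfx⟩ := Submodule.mem_sup.1 (hε s)
    rw [← hfx, add_mul, map_add]
    have h0 : (F.baseChange O).mkQ (f * (h : O ⊗[Λ] E)) = 0 := by
      rw [Submodule.mkQ_apply, Submodule.Quotient.mk_eq_zero]
      exact Deform.baseChange_mul_left F hF hf _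
    rw [h0, zero_add]
    have h2 : (F.baseChange O).mkQ (x * (h : O ⊗[Λ] E)) ∈
      ((RingHom.ker w ^ (k + 1)) • (⊤ : Submodule O (O ⊗[Λ] E))).map (F.baseChange O).mkQ :=
      Submodule.mem_map_of_mem (Deform.mul_mem_smul_top_left _ hx)
    rw [Submodule.map_smul''] at h2
    exact Submodule.smul_mono le_rfl le_top h2
  have hTh2 : T h ∈ RingHom.ker w • T.range := by
    have h3 : T h ∈ (RingHom.ker w ^ (k + 1)) •
      (⊤ : Submodule O (S → (O ⊗[Λ] E) ⧸ F.baseChange O)) ⊓ T.range := ⟨hTh, ⟨_, rfl⟩⟩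
    rw [hk (k + 1) (by omega), show k + 1 - k = 1 by omega, pow_one] at h3
    exact Submodule.smul_mono le_rfl inf_le_right h3
  obtain ⟨X, hX, hTX⟩ : ∃ X ∈ RingHom.ker w • (⊤ : Submodule O (O ⊗[Λ] E)), T X = T h := by
    rw [LinearMap.range_eq_map, ← Submodule.map_smul''] at hTh2
    obtain ⟨X, hX, h4⟩ := hTh2
    exact ⟨X, hX, h4⟩
  have hu : IsUnit ((h : O ⊗[Λ] E) - X) := by
    refine Deform.isUnit_of_sub_one_mem (O := O) ?_
    have : (h : O ⊗[Λ] E) - X - 1 = ((h : O ⊗[Λ] E) - 1) - X := by abel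
    rw [this]
    exact Submodule.smul_mono_left hw.1 (sub_mem hh hX)
  obtain ⟨u, hu⟩ := hu
  refine ⟨u, fun a => ?_⟩
  rw [hu]
  have hzero : T ((h : O ⊗[Λ] E) - X) = 0 := by rw [map_sub, hTX, sub_self]
  -- extend from the generators by linearity
  have ha : a ∈ Submodule.span Λ (S : Set 𝓡) := by rw [hS]; trivial
  refine Submodule.span_induction (p := fun a _ => ((h : O ⊗[Λ] E) - X) * φO a -
    ((1 : O) ⊗ₜ[Λ] φ0 a) * ((h : O ⊗[Λ] E) - X) ∈ F.baseChange O) ?_ ?_ ?_ ?_ ha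
  · intro s hs
    have := congrFun hzero ⟨s, hs⟩
    rw [hT, Pi.zero_apply, Submodule.mkQ_apply, Submodule.Quotient.mk_eq_zero] at this
    exact this
  · simp
  · intro a b _ _ ha hb
    have : ((h : O ⊗[Λ] E) - X) * φO (a + b) -
      ((1 : O) ⊗ₜ[Λ] φ0 (a + b)) * ((h : O ⊗[Λ] E) - X) =
      (((h : O ⊗[Λ] E) - X) * φO a - ((1 : O) ⊗ₜ[Λ] φ0 a) * ((h : O ⊗[Λ] E) - X)) +
      (((h : O ⊗[Λ] E) - X) * φO b - ((1 : O) ⊗ₜ[Λ] φ0 b) * ((h : O ⊗[Λ] E) - X)) := by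
      rw [map_add, map_add, TensorProduct.tmul_add]; noncomm_ring
    rw [this]
    exact add_mem ha hb
  · intro c a _ ha
    have : ((h : O ⊗[Λ] E) - X) * φO (c • a) -
      ((1 : O) ⊗ₜ[Λ] φ0 (c • a)) * ((h : O ⊗[Λ] E) - X) =
      (algebraMap Λ O c) • (((h : O ⊗[Λ] E) - X) * φO a -
        ((1 : O) ⊗ₜ[Λ] φ0 a) * ((h : O ⊗[Λ] E) - X)) := by
      rw [map_smul, map_smul, TensorProduct.tmul_smul, smul_sub, algebraMap_smul, algebraMap_smul,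
        mul_smul_comm, smul_mul_assoc]
    rw [this]
    exact Submodule.smul_mem _ _ ha

end Pool.Agent.W_cbb711
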