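import Mathlib
import Pool.Agent.W_cbb711b.Defs
import Pool.Agent.W_cbb711b.Deform
import Pool.Agent.W_cbb711b.CyclicDecomp

/-!
# Deformation at finite level (module P3 of the proof of MP_cbb711_ag)
-/

set_option autoImplicit false

universe u v

namespace Pool.Agent.W_cbb711

open IsLocalRing Filter TensorProduct RingTheory.Sequence

namespace FiniteLevel

section Germ

variable {Λ O E : Type} [CommRing Λ] [IsLocalRing Λ] [CommRing O] [Algebra Λ O] [Ring E]
  [Algebra Λ E]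

/-- The germs of sequences in an algebra form an algebra. -/
@[reducible] noncomputable def germAlgebra (Λ E : Type) [CommRing Λ] [Ring E] [Algebra Λ E] :
    Algebra Λ (Germ (hyperfilter ℕ : Filter ℕ) E) :=
  Algebra.ofModule (by
    intro r x y
    refine Germ.inductionOn₂ x y fun f g => ?_
    rw [← Germ.coe_smul, ← Germ.coe_mul, ← Germ.coe_mul, ← Germ.coe_smul, smul_mul_assoc]) (by
    intro r x y
    refine Germ.inductionOn₂ x y fun f g => ?_
    rw [← Germ.coe_smul, ← Germ.coe_mul, ← Germ.coe_mul, ← Germ.coe_smul, mul_smul_comm])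

attribute [local instance] germAlgebra

omit [IsLocalRing Λ] in
theorem germ_algebraMap (a : Λ) : algebraMap Λ (Germ (hyperfilter ℕ : Filter ℕ) E) a =
    ((fun _ => algebraMap Λ E a : ℕ → E) : Germ (hyperfilter ℕ : Filter ℕ) E) := by
  rw [Algebra.algebraMap_eq_smul_one, ← Germ.coe_one, ← Germ.coe_smul]
  congr 1
  funext i
  simp [Algebra.algebraMap_eq_smul_one]

/-- constant germs -/
noncomputable def constGerm (Λ E : Type) [CommRing Λ] [Ring E] [Algebra Λ E] :
    E →ₐ[Λ] Germ (hyperfilter ℕ : Filter ℕ) E :=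
  { (Germ.coeRingHom (hyperfilter ℕ : Filter ℕ)).comp (Pi.constRingHom ℕ E) with
    commutes' := fun a => (germ_algebraMap a).symm }

omit [IsLocalRing Λ] in
theorem constGerm_apply (x : E) : constGerm Λ E x =
    ((fun _ => x : ℕ → E) : Germ (hyperfilter ℕ : Filter ℕ) E) := rfl

/-- classes of sequences of scalars act -/
noncomputable def sharpGerm (Λ E : Type) [CommRing Λ] [IsLocalRing Λ] [Ring E] [Algebra Λ E]
    (N : ℕ) (hN : ∀ a ∈ maximalIdeal Λ ^ N, ∀ x : E, a • x = 0) :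
    Sharp Λ (maximalIdeal Λ) →ₐ[Λ] Germ (hyperfilter ℕ : Filter ℕ) E :=
  { Ideal.Quotient.lift (infIdeal Λ (maximalIdeal Λ))
      ((Germ.coeRingHom (hyperfilter ℕ : Filter ℕ)).comp ((algebraMap Λ E).compLeft ℕ)) (by
        intro x hx
        have h1 := (mem_infIdeal.1 hx) N
        change (((fun i => algebraMap Λ E (x i)) : ℕ → E) : Germ (hyperfilter ℕ : Filter ℕ) E) = 0
        rw [← Germ.coe_zero, Germ.coe_eq]
        filter_upwards [h1] with i hi
        have := hN _ hi 1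
        rw [← Algebra.algebraMap_eq_smul_one] at this
        exact this) with
    commutes' := fun a => (germ_algebraMap a).symm }

theorem sharpGerm_mk (N : ℕ) (hN : ∀ a ∈ maximalIdeal Λ ^ N, ∀ x : E, a • x = 0) (x : ℕ → Λ) :
    sharpGerm Λ E N hN (Sharp.mk _ x) =
      ((fun i => algebraMap Λ E (x i) : ℕ → E) : Germ (hyperfilter ℕ : Filter ℕ) E) := rfl

/-- The germ map. -/
noncomputable def Gam (N : ℕ) (hN : ∀ a ∈ maximalIdeal Λ ^ N, ∀ x : E, a • x = 0)
    (θ : O →ₐ[Λ] Sharp Λ (maximalIdeal Λ)) :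
    O ⊗[Λ] E →ₐ[Λ] Germ (hyperfilter ℕ : Filter ℕ) E :=
  Algebra.TensorProduct.lift ((sharpGerm Λ E N hN).comp θ) (constGerm Λ E) (by
    intro x y
    obtain ⟨z, hz⟩ := Sharp.mk_surjective (θ x)
    change (sharpGerm Λ E N hN (θ x)) * (constGerm Λ E y) =
      (constGerm Λ E y) * (sharpGerm Λ E N hN (θ x))
    rw [← hz, sharpGerm_mk, constGerm_apply, ← Germ.coe_mul, ← Germ.coe_mul]
    congr 1
    funext i
    exact Algebra.commutes _ _)

theorem Gam_tmul (N : ℕ) (hN : ∀ a ∈ maximalIdeal Λ ^ N, ∀ x : E, a • x = 0)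
    (θ : O →ₐ[Λ] Sharp Λ (maximalIdeal Λ)) (x : O) (y : E) (z : ℕ → Λ)
    (hz : Sharp.mk _ z = θ x) :
    Gam N hN θ (x ⊗ₜ[Λ] y) = ((fun i => z i • y : ℕ → E) : Germ (hyperfilter ℕ : Filter ℕ) E) := by
  rw [Gam, Algebra.TensorProduct.lift_tmul]
  change (sharpGerm Λ E N hN (θ x)) * (constGerm Λ E y) = _
  rw [← hz, sharpGerm_mk, constGerm_apply, ← Germ.coe_mul]
  congr 1
  funext i
  simp [Algebra.smul_def]

theorem Gam_one_tmul (N : ℕ) (hN : ∀ a ∈ maximalIdeal Λ ^ N, ∀ x : E, a • x = 0)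
    (θ : O →ₐ[Λ] Sharp Λ (maximalIdeal Λ)) (y : E) :
    Gam N hN θ (1 ⊗ₜ[Λ] y) = ((fun _ => y : ℕ → E) : Germ (hyperfilter ℕ : Filter ℕ) E) := by
  rw [Gam_tmul N hN θ 1 y (fun _ => 1) (by rw [map_one]; rfl)]
  congr 1
  funext i
  simp

omit [IsLocalRing Λ] in
/-- Elements of `O ⊗ E` as combinations of a generating family of `E`. -/
theorem exists_sum_tmul {s : ℕ} (ε : Fin s → E) (hε : Submodule.span Λ (Set.range ε) = ⊤)
    (z : O ⊗[Λ] E) : ∃ x : Fin s → O, z = ∑ k, x k ⊗ₜ[Λ] ε k := by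
  induction z with
  | zero => exact ⟨0, by simp⟩
  | add a b ha hb =>
    obtain ⟨x, rfl⟩ := ha
    obtain ⟨y, rfl⟩ := hb
    exact ⟨x + y, by simp [TensorProduct.add_tmul, Finset.sum_add_distrib]⟩
  | tmul o e =>
    have he : e ∈ Submodule.span Λ (Set.range ε) := by rw [hε]; trivial
    obtain ⟨a, rfl⟩ := (Submodule.mem_span_range_iff_exists_fun Λ).1 he
    refine ⟨fun k => a k • o, ?_⟩
    rw [TensorProduct.tmul_sum]
    exact Finset.sum_congr rfl fun k _ => by rw [TensorProduct.tmul_smul, TensorProduct.smul_tmul']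

theorem Gam_injective [IsDomain Λ] [IsNoetherianRing Λ] (hpr : (maximalIdeal Λ).IsPrincipal)
    [Module.Finite Λ E]
    (N : ℕ) (hN : ∀ a ∈ maximalIdeal Λ ^ N, ∀ x : E, a • x = 0)
    (θ : O →ₐ[Λ] Sharp Λ (maximalIdeal Λ))
    (hθ : ∀ (e : ℕ) (x : O),
      θ x ∈ (maximalIdeal Λ ^ e).map (algebraMap Λ (Sharp Λ (maximalIdeal Λ))) →
      x ∈ (maximalIdeal Λ ^ e).map (algebraMap Λ O)) :
    Function.Injective (Gam N hN θ) := by
  classical
  obtain ⟨s, ε, e, hspan, hann, hrel⟩ := exists_cyclicDecomp Λ hpr E N hN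
  obtain ⟨π, hπ⟩ := hpr.principal
  have hpow : ∀ e : ℕ, maximalIdeal Λ ^ e = Ideal.span {π ^ e} := by
    intro e
    rw [hπ, Ideal.submodule_span_eq, Ideal.span_singleton_pow]
  rw [injective_iff_map_eq_zero]
  intro z hz
  obtain ⟨x, rfl⟩ := exists_sum_tmul ε hspan z
  choose y hy using fun k => Sharp.mk_surjective (θ (x k))
  rw [map_sum] at hz
  have h1 : (∑ k, Gam N hN θ (x k ⊗ₜ[Λ] ε k)) =
      ((fun i => ∑ k, y k i • ε k : ℕ → E) : Germ (hyperfilter ℕ : Filter ℕ) E) := by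
    rw [Finset.sum_congr rfl fun k _ => Gam_tmul N hN θ (x k) (ε k) (y k) (hy k)]
    have h2 := (map_sum (Germ.coeRingHom (hyperfilter ℕ : Filter ℕ) : (ℕ → E) →+* _)
      (fun k => (fun i => y k i • ε k : ℕ → E)) Finset.univ).symm
    refine h2.trans ?_
    change ((∑ k, (fun i => y k i • ε k : ℕ → E) : ℕ → E) : Germ (hyperfilter ℕ : Filter ℕ) E) = _
    congr 1
    funext i
    simp
  rw [h1, ← Germ.coe_zero, Germ.coe_eq] at hz
  refine Finset.sum_eq_zero fun k _ => ?_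
  have h3 : ∀ᶠ i in (hyperfilter ℕ : Filter ℕ), y k i ∈ maximalIdeal Λ ^ e k := by
    filter_upwards [hz] with i hi
    exact hrel (fun k => y k i) hi k
  have h4 : θ (x k) ∈ (maximalIdeal Λ ^ e k).map (algebraMap Λ (Sharp Λ (maximalIdeal Λ))) := by
    have h5 : ∀ i, ∃ c : Λ, y k i ∈ maximalIdeal Λ ^ e k → y k i = π ^ e k * c := by
      intro i
      by_cases h : y k i ∈ maximalIdeal Λ ^ e k
      · rw [hpow, Ideal.mem_span_singleton] at h
        obtain ⟨c, hc⟩ := h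
        exact ⟨c, fun _ => hc⟩
      · exact ⟨0, fun h' => absurd h' h⟩
    choose c hc using h5
    have h6 : θ (x k) = algebraMap Λ (Sharp Λ (maximalIdeal Λ)) (π ^ e k) *
        Sharp.mk (maximalIdeal Λ) c := by
      rw [← hy k, Sharp.algebraMap_eq, Sharp.const_apply, ← map_mul, Sharp.mk_eq_mk]
      intro M
      filter_upwards [h3] with i hi
      rw [Pi.mul_apply, hc i hi, sub_self]
      exact zero_mem _
    rw [h6]
    refine Ideal.mul_mem_right _ _ (Ideal.mem_map_of_mem _ ?_)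
    rw [hpow]
    exact Ideal.mem_span_singleton_self _
  have h7 := hθ _ _ h4
  rw [hpow, Ideal.map_span, Set.image_singleton, Ideal.mem_span_singleton] at h7
  obtain ⟨x', hx'⟩ := h7
  rw [hx', ← Algebra.smul_def, TensorProduct.smul_tmul, hann k _ (by
    rw [hpow]; exact Ideal.mem_span_singleton_self _), TensorProduct.tmul_zero]

theorem Gam_baseChange (N : ℕ) (hN : ∀ a ∈ maximalIdeal Λ ^ N, ∀ x : E, a • x = 0)
    (θ : O →ₐ[Λ] Sharp Λ (maximalIdeal Λ)) (F : Submodule Λ E) (z : O ⊗[Λ] E)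
    (hz : z ∈ F.baseChange O) (f : ℕ → E)
    (hf : Gam N hN θ z = (f : Germ (hyperfilter ℕ : Filter ℕ) E)) :
    ∀ᶠ j in (hyperfilter ℕ : Filter ℕ), f j ∈ F := by
  have h : ∃ g : ℕ → E, Gam N hN θ z = (g : Germ (hyperfilter ℕ : Filter ℕ) E) ∧
      ∀ j, g j ∈ F := by
    refine Deform.baseChange_induction F (p := fun z => ∃ g : ℕ → E,
      Gam N hN θ z = (g : Germ (hyperfilter ℕ : Filter ℕ) E) ∧ ∀ j, g j ∈ F) ?_ ?_ ?_ hz
    · exact ⟨0, by rw [map_zero]; rfl, fun j => zero_mem _⟩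
    · rintro x y ⟨g, hg, hg'⟩ ⟨g', hg2, hg2'⟩
      exact ⟨g + g', by rw [map_add, hg, hg2]; rfl, fun j => add_mem (hg' j) (hg2' j)⟩
    · intro o x hx
      obtain ⟨y, hy⟩ := Sharp.mk_surjective (θ o)
      exact ⟨fun i => y i • x, Gam_tmul N hN θ o x y hy, fun j => F.smul_mem _ hx⟩
  obtain ⟨g, hg, hg'⟩ := h
  rw [hf, Germ.coe_eq] at hg
  filter_upwards [hg] with j hj
  rw [hj]
  exact hg' j

end Germ

attribute [local instance] germAlgebra

theorem eventually_mem_of_mk_mem {Λ : Type} [CommRing Λ] [IsLocalRing Λ]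
    (hpr : (maximalIdeal Λ).IsPrincipal) (N : ℕ) (x : ℕ → Λ)
    (hx : Sharp.mk (maximalIdeal Λ) x ∈
      (maximalIdeal Λ ^ N).map (algebraMap Λ (Sharp Λ (maximalIdeal Λ)))) :
    ∀ᶠ j in (hyperfilter ℕ : Filter ℕ), x j ∈ maximalIdeal Λ ^ N := by
  obtain ⟨π, hπ⟩ := hpr.principal
  have hpow : maximalIdeal Λ ^ N = Ideal.span {π ^ N} := by
    rw [hπ, Ideal.submodule_span_eq, Ideal.span_singleton_pow]
  rw [hpow, Ideal.map_span, Set.image_singleton, Ideal.mem_span_singleton] at hx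
  obtain ⟨u, hu⟩ := hx
  obtain ⟨u, rfl⟩ := Sharp.mk_surjective u
  rw [Sharp.algebraMap_eq, Sharp.const_apply, ← map_mul, Sharp.mk_eq_mk] at hu
  filter_upwards [hu N] with j hj
  have h1 : π ^ N * u j ∈ maximalIdeal Λ ^ N := by
    rw [hpow]
    exact Ideal.mul_mem_right _ _ (Ideal.mem_span_singleton_self _)
  have h2 := Ideal.add_mem _ hj h1
  rw [Pi.mul_apply, sub_add_cancel] at h2
  exact h2

theorem abstract_level {Λ E 𝓡 : Type} [CommRing Λ] [IsDomain Λ] [IsLocalRing Λ]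
    [IsNoetherianRing Λ] (hpr : (maximalIdeal Λ).IsPrincipal) [Ring E] [Algebra Λ E]
    [Module.Finite Λ E] [CommRing 𝓡] [Algebra Λ 𝓡] [Module.Finite Λ 𝓡]
    (N : ℕ) (hN1 : 1 ≤ N) (hN : ∀ a ∈ maximalIdeal Λ ^ N, ∀ x : E, a • x = 0)
    (hLM : ∀ (N m : ℕ), 1 ≤ N → ∀ c : Fin m → ℕ → Λ,
      ∀ᶠ i in (hyperfilter ℕ : Filter ℕ), LocalModel Λ N m c i)
    (F : Submodule Λ E) (hF : ∀ x ∈ F, ∀ y : E, x * y ∈ F ∧ y * x ∈ F)
    (hF2 : ∀ x ∈ F, ∀ y ∈ F, x * y = 0)
    (Z : Set 𝓡) (φ : ℕ → (𝓡 →ₐ[Λ] E)) (hZ : ∀ z ∈ Z, ∀ i j, φ i z = φ j z)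
    (hZ' : ∀ z ∈ Z, ∀ i, ∀ x : E, φ i z * x = x * φ i z)
    (hP : ∀ᶠ i in (hyperfilter ℕ : Filter ℕ), ∀ δ : 𝓡 →ₗ[Λ] E,
      (∀ a b, δ (a * b) = φ i a * δ b + δ a * φ i b) → (∀ z ∈ Z, δ z = 0) →
      ∃ g : E, ∀ a, δ a - (φ i a * g - g * φ i a) ∈ F) :
    ∀ᶠ i in (hyperfilter ℕ : Filter ℕ), ∀ᶠ j in (hyperfilter ℕ : Filter ℕ),
      ∃ h : Eˣ, ∀ a, (h : E) * φ j a - φ i a * h ∈ F := by
  classical
  have hfin : Module.Finite Λ (𝓡 →ₗ[Λ] E) := inferInstance
  obtain ⟨m, η, hη⟩ := Module.Finite.exists_fin (R := Λ) (M := 𝓡 →ₗ[Λ] E)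
  have hc : ∀ j, ∃ c : Fin m → Λ, ∑ l, c l • η l = (φ j).toLinearMap := by
    intro j
    have hj : (φ j).toLinearMap ∈ Submodule.span Λ (Set.range η) := by rw [hη]; trivial
    exact (Submodule.mem_span_range_iff_exists_fun Λ).1 hj
  choose c hc using hc
  have hcφ : ∀ j a, ∑ l, c j l • η l a = φ j a := by
    intro j a
    have := LinearMap.congr_fun (hc j) a
    simpa using this
  filter_upwards [hP, hLM N m hN1 (fun l j => c j l)] with i hPi hLMi
  obtain ⟨O, _, _, _, _, w, θ, ct, hw, hwc, hθc, hθ⟩ := hLMi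
  have hinj := Gam_injective hpr N hN θ hθ (E := E)
  -- the linear map
  let Φ : 𝓡 →ₗ[Λ] O ⊗[Λ] E := ∑ l, (TensorProduct.mk Λ O E (ct l)) ∘ₗ η l
  have hΦ : ∀ a, Φ a = ∑ l, ct l ⊗ₜ[Λ] η l a := by
    intro a
    simp [Φ]
  have hGΦ : ∀ a, Gam N hN θ (Φ a) =
      ((fun j => φ j a : ℕ → E) : Germ (hyperfilter ℕ : Filter ℕ) E) := by
    intro a
    choose y hy using fun l => Sharp.mk_surjective (θ (ct l))
    have h1 : ∀ l, ∀ᶠ j in (hyperfilter ℕ : Filter ℕ), y l j - c j l ∈ maximalIdeal Λ ^ N := by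
      intro l
      refine eventually_mem_of_mk_mem hpr N _ ?_
      have := hθc l
      rw [← hy l, ← map_sub] at this
      exact this
    rw [hΦ, map_sum, Finset.sum_congr rfl fun l _ => Gam_tmul N hN θ (ct l) (η l a) (y l) (hy l)]
    have h2 := (map_sum (Germ.coeRingHom (hyperfilter ℕ : Filter ℕ) : (ℕ → E) →+* _)
      (fun l => (fun j => y l j • η l a : ℕ → E)) Finset.univ).symm
    refine h2.trans ?_
    change ((∑ l, (fun j => y l j • η l a : ℕ → E) : ℕ → E) :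
      Germ (hyperfilter ℕ : Filter ℕ) E) = _
    rw [Germ.coe_eq]
    filter_upwards [eventually_all.2 h1] with j hj
    rw [Finset.sum_apply, ← hcφ j a]
    refine Finset.sum_congr rfl fun l _ => ?_
    have h3 := hN _ (hj l) (η l a)
    rw [sub_smul, sub_eq_zero] at h3
    exact h3
  -- the algebra homomorphism
  have hΦ1 : Φ 1 = 1 := by
    apply hinj
    rw [hGΦ, map_one, ← Germ.coe_one]
    congr 1
    funext j
    rw [map_one, Pi.one_apply]
  have hΦmul : ∀ a b, Φ (a * b) = Φ a * Φ b := by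
    intro a b
    apply hinj
    rw [hGΦ, map_mul, hGΦ, hGΦ, ← Germ.coe_mul]
    congr 1
    funext j
    rw [map_mul, Pi.mul_apply]
  let φO : 𝓡 →ₐ[Λ] O ⊗[Λ] E := AlgHom.ofLinearMap Φ hΦ1 hΦmul
  have hφO : ∀ a, φO a = Φ a := fun a => rfl
  have hred : ∀ a, Algebra.TensorProduct.lid Λ E
      (Algebra.TensorProduct.map w (AlgHom.id Λ E) (φO a)) = φ i a := by
    intro a
    rw [hφO, hΦ, map_sum, map_sum, ← hcφ i a]
    refine Finset.sum_congr rfl fun l _ => ?_
    rw [Algebra.TensorProduct.map_tmul, Algebra.TensorProduct.lid_tmul, AlgHom.id_apply]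
    have h3 := hN _ (hwc l) (η l a)
    rw [sub_smul, sub_eq_zero] at h3
    exact h3
  have hZO : ∀ z ∈ Z, φO z = 1 ⊗ₜ[Λ] φ i z ∧ ∀ x : E, φ i z * x = x * φ i z := by
    intro z hz
    refine ⟨?_, hZ' z hz i⟩
    apply hinj
    rw [hφO, hGΦ, Gam_one_tmul]
    congr 1
    funext j
    exact hZ z hz j i
  obtain ⟨h, hh⟩ := deformation w hw F hF hF2 φO (φ i) hred Z hZO hPi
  obtain ⟨f, hf⟩ := Quotient.exists_rep (Gam N hN θ (h : O ⊗[Λ] E))
  obtain ⟨g, hg⟩ := Quotient.exists_rep (Gam N hN θ ((h⁻¹ : (O ⊗[Λ] E)ˣ) : O ⊗[Λ] E))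
  have hf' : Gam N hN θ (h : O ⊗[Λ] E) = (f : Germ (hyperfilter ℕ : Filter ℕ) E) := hf.symm
  have hg' : Gam N hN θ ((h⁻¹ : (O ⊗[Λ] E)ˣ) : O ⊗[Λ] E) =
    (g : Germ (hyperfilter ℕ : Filter ℕ) E) := hg.symm
  have h1 : ∀ᶠ j in (hyperfilter ℕ : Filter ℕ), f j * g j = 1 := by
    have := congrArg (Gam N hN θ) (h.mul_inv)
    rw [map_mul, map_one, hf', hg', ← Germ.coe_mul, ← Germ.coe_one, Germ.coe_eq] at this
    exact this
  have h2 : ∀ᶠ j in (hyperfilter ℕ : Filter ℕ), g j * f j = 1 := by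
    have := congrArg (Gam N hN θ) (h.inv_mul)
    rw [map_mul, map_one, hf', hg', ← Germ.coe_mul, ← Germ.coe_one, Germ.coe_eq] at this
    exact this
  obtain ⟨T, hT⟩ := (Module.Finite.fg_top : (⊤ : Submodule Λ 𝓡).FG)
  have h3 : ∀ a : 𝓡, ∀ᶠ j in (hyperfilter ℕ : Filter ℕ), f j * φ j a - φ i a * f j ∈ F := by
    intro a
    refine Gam_baseChange N hN θ F _ (hh a) _ ?_
    rw [map_sub, map_mul, map_mul, hφO, hGΦ, Gam_one_tmul, hf']
    rfl
  have h4 : ∀ᶠ j in (hyperfilter ℕ : Filter ℕ), ∀ a ∈ T, f j * φ j a - φ i a * f j ∈ F :=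
    (Filter.eventually_all_finset T).2 fun a _ => h3 a
  filter_upwards [h1, h2, h4] with j hj1 hj2 hj4
  refine ⟨⟨f j, g j, hj1, hj2⟩, fun a => ?_⟩
  change f j * φ j a - φ i a * f j ∈ F
  have ha : a ∈ Submodule.span Λ (T : Set 𝓡) := by rw [hT]; trivial
  refine Submodule.span_induction (p := fun a _ => f j * φ j a - φ i a * f j ∈ F)
    (fun a ha => hj4 a ha) ?_ ?_ ?_ ha
  · simp
  · intro a b _ _ ha hb
    have : f j * φ j (a + b) - φ i (a + b) * f j =
      (f j * φ j a - φ i a * f j) + (f j * φ j b - φ i b * f j) := by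
      rw [map_add, map_add]; noncomm_ring
    rw [this]
    exact add_mem ha hb
  · intro c a _ ha
    have : f j * φ j (c • a) - φ i (c • a) * f j = c • (f j * φ j a - φ i a * f j) := by
      rw [map_smul, map_smul, smul_sub, mul_smul_comm, smul_mul_assoc]
    rw [this]
    exact F.smul_mem _ ha

/-- `S ⧸ 𝔪 ^ N` is finite over a ring that surjects to the residue field. -/
theorem finite_quot {Λ S : Type} [CommRing Λ] [CommRing S] [IsLocalRing S] [IsNoetherianRing S]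
    [Algebra Λ S] (hres : ∀ x : S, ∃ a : Λ, x - algebraMap Λ S a ∈ maximalIdeal S) (N : ℕ) :
    Module.Finite Λ (S ⧸ maximalIdeal S ^ N) := by
  classical
  have key : ∃ T : Finset S, ∀ x : S, ∃ y ∈ Submodule.span Λ (T : Set S),
      x - y ∈ maximalIdeal S ^ N := by
    induction N with
    | zero => exact ⟨∅, fun x => ⟨0, zero_mem _, by simp⟩⟩
    | succ N ih =>
      obtain ⟨T, hT⟩ := ih
      obtain ⟨G, hG⟩ := (isNoetherianRing_iff_ideal_fg S).1 inferInstance (maximalIdeal S ^ N)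
      have hGmem : ∀ y ∈ Submodule.span Λ (G : Set S), y ∈ maximalIdeal S ^ N := by
        intro y hy
        have : Submodule.span Λ (G : Set S) ≤ (maximalIdeal S ^ N).restrictScalars Λ := by
          rw [Submodule.span_le]
          intro g hg
          rw [← hG]
          exact Submodule.subset_span hg
        exact this hy
      have h1 : ∀ x ∈ maximalIdeal S ^ N, ∃ y ∈ Submodule.span Λ (G : Set S),
          x - y ∈ maximalIdeal S ^ (N + 1) := by
        intro x hx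
        rw [← hG] at hx
        refine Submodule.span_induction (p := fun x _ => ∃ y ∈ Submodule.span Λ (G : Set S),
          x - y ∈ maximalIdeal S ^ (N + 1)) ?_ ?_ ?_ ?_ hx
        · intro g hg
          exact ⟨g, Submodule.subset_span hg, by simp⟩
        · exact ⟨0, zero_mem _, by simp⟩
        · rintro x x' _ _ ⟨y, hy, hxy⟩ ⟨y', hy', hxy'⟩
          refine ⟨y + y', add_mem hy hy', ?_⟩
          have : x + x' - (y + y') = (x - y) + (x' - y') := by ring
          rw [this]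
          exact add_mem hxy hxy'
        · rintro s x _ ⟨y, hy, hxy⟩
          obtain ⟨a, ha⟩ := hres s
          refine ⟨a • y, Submodule.smul_mem _ _ hy, ?_⟩
          have : s • x - a • y = s * (x - y) + y * (s - algebraMap Λ S a) := by
            rw [smul_eq_mul, Algebra.smul_def]; ring
          rw [this]
          refine add_mem (Ideal.mul_mem_left _ _ hxy) ?_
          rw [pow_succ]
          exact Ideal.mul_mem_mul (hGmem y hy) ha
      refine ⟨T ∪ G, fun x => ?_⟩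
      obtain ⟨y, hy, hxy⟩ := hT x
      obtain ⟨y', hy', hxy'⟩ := h1 _ hxy
      refine ⟨y + y', add_mem (Submodule.span_mono (by simp) hy)
        (Submodule.span_mono (by simp) hy'), ?_⟩
      rw [← sub_sub]
      exact hxy'
  obtain ⟨T, hT⟩ := key
  refine ⟨?_⟩
  have h2 : (⊤ : Submodule Λ (S ⧸ maximalIdeal S ^ N)) =
      (Submodule.span Λ (T : Set S)).map
        (Ideal.Quotient.mkₐ Λ (maximalIdeal S ^ N)).toLinearMap := by
    rw [eq_comm, eq_top_iff]
    intro x _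
    obtain ⟨x, rfl⟩ := Ideal.Quotient.mk_surjective x
    obtain ⟨y, hy, hxy⟩ := hT x
    refine ⟨y, hy, ?_⟩
    exact (Ideal.Quotient.eq.2 hxy).symm
  rw [h2]
  exact Submodule.FG.map _ (Submodule.fg_span (Finset.finite_toSet T))

end FiniteLevel

open FiniteLevel in
theorem finite_level {Λ S R : Type} [CommRing Λ] [IsDomain Λ] [IsLocalRing Λ]
    [IsNoetherianRing Λ] [CommRing S] [IsLocalRing S] [IsNoetherianRing S] [CommRing R]
    [Algebra Λ S] [Algebra S R] [Module.Finite S R] [Module.Free S R]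
    (hpr : (maximalIdeal Λ).IsPrincipal)
    (hΛ : ∀ a ∈ maximalIdeal Λ, algebraMap Λ S a ∈ maximalIdeal S)
    (hres : ∀ x : S, ∃ a : Λ, x - algebraMap Λ S a ∈ maximalIdeal S)
    (hLM : ∀ (N m : ℕ), 1 ≤ N → ∀ c : Fin m → ℕ → Λ,
      ∀ᶠ i in (hyperfilter ℕ : Filter ℕ), LocalModel Λ N m c i)
    (r : ℕ) (φ : ℕ → (R →ₐ[S] Matrix (Fin r) (Fin r) S)) (n : ℕ) (hn : 1 ≤ n)
    (hP : ∀ᶠ i in (hyperfilter ℕ : Filter ℕ), ∀ δ : R →ₗ[S] Matrix (Fin r) (Fin r) S,
      (∀ a b j k, (δ (a * b) - (φ i a * δ b + δ a * φ i b)) j k ∈ maximalIdeal S ^ (2 * n)) →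
      ∃ g : Matrix (Fin r) (Fin r) S,
        ∀ a j k, (δ a - (φ i a * g - g * φ i a)) j k ∈ maximalIdeal S ^ n) :
    ∀ᶠ i in (hyperfilter ℕ : Filter ℕ), ∀ᶠ j in (hyperfilter ℕ : Filter ℕ),
      ∃ h : Matrix (Fin r) (Fin r) S, IsUnit h ∧
        ∀ a k l, (h * φ j a - φ i a * h) k l ∈ maximalIdeal S ^ n := by
  classical
  let _ : Algebra Λ R := ((algebraMap S R).comp (algebraMap Λ S)).toAlgebra
  have _ : IsScalarTower Λ S R := IsScalarTower.of_algebraMap_eq fun _ => rfl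
  obtain ⟨q, hq⟩ : ∃ q : Ideal S, q = maximalIdeal S ^ (2 * n) := ⟨_, rfl⟩
  have hqn : q ≤ maximalIdeal S ^ n := by
    rw [hq]; exact Ideal.pow_le_pow_right (by omega)
  have hqm : q ≤ maximalIdeal S := by
    rw [hq]; exact Ideal.pow_le_self (by omega)
  have hfinS : Module.Finite Λ (S ⧸ q) := by rw [hq]; exact finite_quot hres _
  have hfinR : Module.Finite Λ (R ⧸ q.map (algebraMap S R)) := by
    have : IsScalarTower Λ (S ⧸ q) (R ⧸ q.map (algebraMap S R)) :=
      IsScalarTower.of_algebraMap_eq fun _ => rfl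
    have : IsScalarTower S (S ⧸ q) (R ⧸ q.map (algebraMap S R)) :=
      IsScalarTower.of_algebraMap_eq fun _ => rfl
    have : Module.Finite S (R ⧸ q.map (algebraMap S R)) := inferInstance
    have : Module.Finite (S ⧸ q) (R ⧸ q.map (algebraMap S R)) :=
      Module.Finite.of_restrictScalars_finite S _ _
    exact Module.Finite.trans (S ⧸ q) _
  have hfinE : Module.Finite Λ (Matrix (Fin r) (Fin r) (S ⧸ q)) :=
    inferInstanceAs (Module.Finite Λ (Fin r → Fin r → S ⧸ q))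
  -- scalars
  have hkill : ∀ a ∈ maximalIdeal Λ ^ (2 * n), ∀ x : Matrix (Fin r) (Fin r) (S ⧸ q),
      a • x = 0 := by
    intro a ha x
    have h1 : algebraMap Λ S a ∈ q := by
      rw [hq]
      have h2 : (maximalIdeal Λ ^ (2 * n)).map (algebraMap Λ S) ≤ maximalIdeal S ^ (2 * n) := by
        rw [Ideal.map_pow]
        exact Ideal.pow_right_mono (Ideal.map_le_iff_le_comap.2 hΛ) _
      exact h2 (Ideal.mem_map_of_mem _ ha)
    ext k l
    rw [Matrix.smul_apply, Algebra.smul_def, Matrix.zero_apply]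
    have h3 : algebraMap Λ (S ⧸ q) a = 0 := Ideal.Quotient.eq_zero_iff_mem.2 h1
    rw [h3, zero_mul]
  -- the projection
  let pr : Matrix (Fin r) (Fin r) S →ₐ[S] Matrix (Fin r) (Fin r) (S ⧸ q) :=
    (Ideal.Quotient.mkₐ S q).mapMatrix
  have hpr_apply : ∀ (M : Matrix (Fin r) (Fin r) S) (k l : Fin r),
      pr M k l = Ideal.Quotient.mk q (M k l) := fun _ _ _ => rfl
  have hprsurj : Function.Surjective pr := by
    intro M
    choose f hf using fun k l => Ideal.Quotient.mk_surjective (M k l)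
    exact ⟨Matrix.of f, by ext k l; exact hf k l⟩
  have hpr0 : ∀ M : Matrix (Fin r) (Fin r) S, (∀ k l, M k l ∈ q) ↔ pr M = 0 := by
    intro M
    constructor
    · intro h
      ext k l
      rw [hpr_apply, Ideal.Quotient.eq_zero_iff_mem.2 (h k l)]
      rfl
    · intro h k l
      rw [← Ideal.Quotient.eq_zero_iff_mem, ← hpr_apply, h]
      rfl
  -- the submodule `F`
  let F : Submodule Λ (Matrix (Fin r) (Fin r) (S ⧸ q)) :=
    { carrier := {x | ∀ k l, x k l ∈ (maximalIdeal S ^ n).map (Ideal.Quotient.mk q)}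
      add_mem' := fun hx hy k l => add_mem (hx k l) (hy k l)
      zero_mem' := fun k l => zero_mem _
      smul_mem' := fun c x hx k l => by
        rw [Matrix.smul_apply, Algebra.smul_def]
        exact Ideal.mul_mem_left _ _ (hx k l) }
  have hFmem : ∀ x, x ∈ F ↔ ∀ k l, x k l ∈ (maximalIdeal S ^ n).map (Ideal.Quotient.mk q) :=
    fun _ => Iff.rfl
  have hprF : ∀ M : Matrix (Fin r) (Fin r) S, pr M ∈ F ↔ ∀ k l, M k l ∈ maximalIdeal S ^ n := by
    intro M
    rw [hFmem]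
    refine forall_congr' fun k => forall_congr' fun l => ?_
    rw [hpr_apply, Ideal.mem_quotient_iff_mem hqn]
  have hF : ∀ x ∈ F, ∀ y, x * y ∈ F ∧ y * x ∈ F := by
    intro x hx y
    refine ⟨fun k l => ?_, fun k l => ?_⟩
    · rw [Matrix.mul_apply]
      exact sum_mem fun j _ => Ideal.mul_mem_right _ _ (hx k j)
    · rw [Matrix.mul_apply]
      exact sum_mem fun j _ => Ideal.mul_mem_left _ _ (hx j l)
  have hF2 : ∀ x ∈ F, ∀ y ∈ F, x * y = 0 := by
    intro x hx y hy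
    ext k l
    rw [Matrix.mul_apply, Matrix.zero_apply]
    refine Finset.sum_eq_zero fun j _ => ?_
    have h1 := Ideal.mul_mem_mul (hx k j) (hy j l)
    rw [← Ideal.map_mul, ← pow_add, ← two_mul, ← hq, Ideal.map_quotient_self] at h1
    exact h1
  -- the maps
  have hker : ∀ j, ∀ a ∈ q.map (algebraMap S R),
      ((pr.comp (φ j)).restrictScalars Λ) a = 0 := by
    intro j a ha
    refine Submodule.span_induction (p := fun a _ => ((pr.comp (φ j)).restrictScalars Λ) a = 0)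
      ?_ ?_ ?_ ?_ ha
    · rintro _ ⟨s, hs, rfl⟩
      change pr (φ j (algebraMap S R s)) = 0
      rw [AlgHom.commutes, AlgHom.commutes]
      ext k l
      have hs0 : Ideal.Quotient.mk q s = 0 := Ideal.Quotient.eq_zero_iff_mem.2 hs
      rw [Matrix.algebraMap_matrix_apply]
      have : algebraMap S (S ⧸ q) s = 0 := hs0
      rw [this]
      simp
    · exact map_zero _
    · intro x y _ _ hx hy
      rw [map_add, hx, hy, add_zero]
    · intro x y _ hy
      rw [smul_eq_mul, map_mul, hy, mul_zero]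
  let φb : ℕ → (R ⧸ q.map (algebraMap S R) →ₐ[Λ] Matrix (Fin r) (Fin r) (S ⧸ q)) := fun j =>
    Ideal.Quotient.liftₐ _ ((pr.comp (φ j)).restrictScalars Λ) (hker j)
  have hφb : ∀ j a, φb j (Ideal.Quotient.mk _ a) = pr (φ j a) := fun _ _ => rfl
  let Z : Set (R ⧸ q.map (algebraMap S R)) :=
    Set.range fun s : S => Ideal.Quotient.mk (q.map (algebraMap S R)) (algebraMap S R s)
  have hφbs : ∀ j (s : S), φb j (Ideal.Quotient.mk _ (algebraMap S R s)) =
      algebraMap S (Matrix (Fin r) (Fin r) (S ⧸ q)) s := by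
    intro j s
    rw [hφb, AlgHom.commutes, AlgHom.commutes]
  have hZ : ∀ z ∈ Z, ∀ i j, φb i z = φb j z := by
    rintro _ ⟨s, rfl⟩ i j
    rw [hφbs, hφbs]
  have hZ' : ∀ z ∈ Z, ∀ i, ∀ x, φb i z * x = x * φb i z := by
    rintro _ ⟨s, rfl⟩ i x
    rw [hφbs]
    exact Algebra.commutes _ _
  have hmain := abstract_level hpr (2 * n) (by omega) hkill hLM F hF hF2 Z φb hZ hZ' (by
    filter_upwards [hP] with i hPi δ hδ hδZ
    let δS : R →ₗ[S] Matrix (Fin r) (Fin r) (S ⧸ q) :=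
      { toFun := fun a => δ (Ideal.Quotient.mk _ a)
        map_add' := fun a b => by rw [map_add, map_add]
        map_smul' := fun s a => by
          rw [Algebra.smul_def s a, map_mul, hδ, hφbs, hδZ _ ⟨s, rfl⟩, zero_mul, add_zero,
            RingHom.id_apply, Algebra.smul_def] }
    obtain ⟨δ', hδ'⟩ := Module.projective_lifting_property pr.toLinearMap δS hprsurj
    have hδ'' : ∀ a, pr (δ' a) = δ (Ideal.Quotient.mk _ a) := fun a =>
      LinearMap.congr_fun hδ' a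
    obtain ⟨g, hg⟩ := hPi δ' (by
      intro a b
      rw [← hq]
      refine (hpr0 _).2 ?_
      rw [map_sub, map_add, hδ'', map_mul (Ideal.Quotient.mk _), hδ, hφb, hφb, map_mul pr,
        map_mul pr, hδ'', hδ'', sub_self])
    refine ⟨pr g, fun a => ?_⟩
    obtain ⟨a, rfl⟩ := Ideal.Quotient.mk_surjective a
    rw [← hδ'', hφb, ← map_mul, ← map_mul, ← map_sub, ← map_sub, hprF]
    exact hg a)
  filter_upwards [hmain] with i hi
  filter_upwards [hi] with j hj
  obtain ⟨h, hh⟩ := hj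
  obtain ⟨H, hH⟩ := hprsurj h
  refine ⟨H, ?_, ?_⟩
  · rw [Matrix.isUnit_iff_isUnit_det]
    have h1 : IsUnit (Ideal.Quotient.mk q H.det) := by
      have h2 : Ideal.Quotient.mk q H.det = (pr H).det := by
        rw [RingHom.map_det]
        rfl
      rw [h2, hH, ← Matrix.isUnit_iff_isUnit_det]
      exact h.isUnit
    obtain ⟨b, hb⟩ := h1.exists_right_inv
    obtain ⟨b, rfl⟩ := Ideal.Quotient.mk_surjective b
    rw [← map_mul, ← map_one (Ideal.Quotient.mk q), Ideal.Quotient.eq] at hb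
    by_contra hnu
    have h3 : H.det ∈ maximalIdeal S := (mem_maximalIdeal _).2 hnu
    have h4 : (1 : S) ∈ maximalIdeal S := by
      have := Ideal.sub_mem _ (Ideal.mul_mem_right b _ h3) (hqm hb)
      rwa [sub_sub_cancel] at this
    exact (IsLocalRing.maximalIdeal.isMaximal S).ne_top ((Ideal.eq_top_iff_one _).mpr h4)
  · intro a
    rw [← hprF, map_sub, map_mul, map_mul, hH, ← hφb, ← hφb]
    exact hh _

end Pool.Agent.W_cbb711
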