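import Mathlib

/-!
# Coefficient fields of complete local rings of residue characteristic zero
-/

set_option autoImplicit false

universe u

namespace Pool.Agent.W_cbb711

open IsLocalRing Filter TensorProduct RingTheory.Sequence

/-- Every field extension of a field of characteristic zero is formally smooth. -/
theorem CoeffField0_formallySmooth (K : Type u) [Field K] [Algebra ℚ K] :
    Algebra.FormallySmooth ℚ K := by
  obtain ⟨s, hs⟩ := exists_isTranscendenceBasis ℚ K
  have halg : Algebra.IsAlgebraic (IntermediateField.adjoin ℚ (Set.range ((↑) : s → K))) K :=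
    hs.isAlgebraic_field
  have : Algebra.IsSeparable (IntermediateField.adjoin ℚ (Set.range ((↑) : s → K))) K :=
    inferInstance
  exact Algebra.FormallySmooth.of_algebraicIndependent_of_isSeparable hs.1

/-- In a local ring of residue characteristic zero every nonzero integer is a unit. -/
theorem CoeffField0_isUnit {A : Type u} [CommRing A] [IsLocalRing A]
    (h0 : CharZero (ResidueField A)) (q : ℤ) (hq : q ≠ 0) : IsUnit (q : A) := by
  by_contra h
  have h1 : residue A (q : A) = 0 := (residue_eq_zero_iff _).2 ((mem_maximalIdeal _).2 h)
  rw [map_intCast] at h1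
  exact hq (Int.cast_eq_zero.1 h1)

theorem exists_coefficientField_charZero {A : Type u} [CommRing A] [IsLocalRing A]
    (hA : IsAdicComplete (maximalIdeal A) A) (h0 : CharZero (ResidueField A)) :
    ∃ σ : ResidueField A →+* A, ∀ x, residue A (σ x) = x := by
  -- the rational numbers map to `A`
  let f : ℚ →+* A := IsLocalization.lift (M := nonZeroDivisors ℤ) (g := Int.castRingHom A)
    (fun y => CoeffField0_isUnit h0 y (nonZeroDivisors.ne_zero y.2))
  let _ : Algebra ℚ A := f.toAlgebra
  have : Algebra.FormallySmooth ℚ (ResidueField A) :=
    CoeffField0_formallySmooth (ResidueField A)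
  have := hA
  obtain ⟨g, hg⟩ := Algebra.FormallySmooth.exists_mkₐ_comp_eq_of_isAdicComplete
    (R := ℚ) (A := ResidueField A) (S := A) (I := maximalIdeal A)
    (RingHom.toRatAlgHom (RingHom.id (ResidueField A) : ResidueField A →+* A ⧸ maximalIdeal A))
  refine ⟨g.toRingHom, fun x => ?_⟩
  exact congrArg (fun φ => φ x) hg

end Pool.Agent.W_cbb711
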