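import Mathlib

set_option autoImplicit false

/-! # p-bases of fields of characteristic p -/

universe u

namespace Pool.Agent.W_cbb711

open IsLocalRing Filter TensorProduct RingTheory.Sequence

namespace PBasis

open Finset in
/-- Monomials in a family. -/
noncomputable def mono {ι : Type*} {k : Type*} [CommMonoid k] (b : ι → k) (e : ι →₀ ℕ) : k :=
  e.prod fun j m => b j ^ m

section
variable {ι : Type*} {k : Type*} [CommMonoid k] (b : ι → k)

theorem mono_zero : mono b 0 = 1 := Finsupp.prod_zero_index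

theorem mono_add (e f : ι →₀ ℕ) : mono b (e + f) = mono b e * mono b f := by
  classical
  exact Finsupp.prod_add_index' (fun _ => pow_zero _) (fun _ _ _ => pow_add _ _ _)

theorem mono_nsmul (n : ℕ) (e : ι →₀ ℕ) : mono b (n • e) = mono b e ^ n := by
  induction n with
  | zero => rw [zero_smul, mono_zero, pow_zero]
  | succ n ih => rw [succ_nsmul, mono_add, ih, pow_succ]

theorem mono_single (j : ι) (m : ℕ) : mono b (Finsupp.single j m) = b j ^ m :=
  Finsupp.prod_single_index (pow_zero _)

/-- Exponents modulo `q`. -/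
noncomputable def emod (q : ℕ) (e : ι →₀ ℕ) : ι →₀ ℕ := e.mapRange (· % q) (Nat.zero_mod q)

/-- Exponents divided by `q`. -/
noncomputable def ediv (q : ℕ) (e : ι →₀ ℕ) : ι →₀ ℕ := e.mapRange (· / q) (Nat.zero_div q)

theorem ediv_add_emod (q : ℕ) (e : ι →₀ ℕ) : q • ediv q e + emod q e = e := by
  ext j
  simp [ediv, emod, Nat.div_add_mod]

theorem mono_div_mod (q : ℕ) (e : ι →₀ ℕ) :
    mono b e = mono b (ediv q e) ^ q * mono b (emod q e) := by
  rw [← mono_nsmul, ← mono_add, ediv_add_emod]

theorem emod_lt {q : ℕ} (hq : 0 < q) (e : ι →₀ ℕ) (j : ι) : emod q e j < q := by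
  simp only [emod, Finsupp.mapRange_apply]
  exact Nat.mod_lt _ hq

end

section field
variable (p : ℕ) [Fact p.Prime] (k : Type u) [Field k] [CharP k p]

/-- The subfield of `p`-th powers. -/
abbrev Fp : Subfield k := (frobenius k p).fieldRange

theorem pow_mem_Fp (x : k) : x ^ p ∈ Fp p k := ⟨x, rfl⟩

instance : Algebra.IsAlgebraic (Fp p k) k := by
  constructor
  intro x
  refine IsIntegral.isAlgebraic ?_
  refine IsIntegral.of_pow (n := p) (Fact.out : p.Prime).pos ?_
  exact isIntegral_algebraMap (x := (⟨x ^ p, pow_mem_Fp p k x⟩ : Fp p k))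

/-- Exponent vectors supported on `S`, with entries below `p`. -/
def T (S : Set k) : Set (k →₀ ℕ) := {e | (∀ j, e j < p) ∧ ↑e.support ⊆ S}

/-- `p`-independence. -/
def Ind (S : Set k) : Prop := LinearIndepOn (Fp p k) (mono (id : k → k)) (T p k S)

theorem ind_sUnion (c : Set (Set k)) (hc : IsChain (· ⊆ ·) c) (hne : c.Nonempty)
    (h : ∀ s ∈ c, Ind p k s) : Ind p k (⋃₀ c) := by
  classical
  have h1 : T p k (⋃₀ c) = ⋃₀ ((T p k) '' c) := by
    ext e
    constructor
    · rintro ⟨he, hs⟩
      obtain ⟨s, hs, hes⟩ := DirectedOn.exists_mem_subset_of_finset_subset_biUnion (f := id)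
        hne hc.directedOn (s := e.support) (by simpa [Set.sUnion_eq_biUnion] using hs)
      exact ⟨_, ⟨s, hs, rfl⟩, he, hes⟩
    · rintro ⟨_, ⟨s, hs, rfl⟩, he, hes⟩
      exact ⟨he, hes.trans (Set.subset_sUnion_of_mem hs)⟩
  unfold Ind
  rw [h1]
  refine linearIndepOn_sUnion_of_directed ?_ ?_
  · rintro _ ⟨s, hs, rfl⟩ _ ⟨t, ht, rfl⟩
    rcases hc.total hs ht with hst | hst
    · exact ⟨_, ⟨t, ht, rfl⟩, fun e he => ⟨he.1, he.2.trans hst⟩, subset_rfl⟩
    · exact ⟨_, ⟨s, hs, rfl⟩, subset_rfl, fun e he => ⟨he.1, he.2.trans hst⟩⟩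
  · rintro _ ⟨s, hs, rfl⟩
    exact h s hs

theorem ind_empty : Ind p k ∅ := by
  have h : T p k ∅ ⊆ {0} := by
    rintro e ⟨-, he⟩
    have : e.support = ∅ := by
      rw [← Finset.coe_eq_empty]
      exact Set.subset_empty_iff.1 he
    exact Finsupp.support_eq_empty.1 this
  refine LinearIndepOn.mono ?_ h
  rw [linearIndepOn_singleton_iff]
  rw [mono_zero]
  exact one_ne_zero

theorem exists_maximal : ∃ S : Set k, Maximal (Ind p k) S := by
  obtain ⟨m, -, hm⟩ := zorn_subset_nonempty {S | Ind p k S}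
    (fun c hc hch hne => ⟨⋃₀ c, ind_sUnion p k c hch hne fun s hs => hc hs,
      fun s hs => Set.subset_sUnion_of_mem hs⟩) ∅ (ind_empty p k)
  exact ⟨m, hm⟩

theorem mono_mem (S : Set k) (e : k →₀ ℕ) (he : ↑e.support ⊆ S) :
    mono (id : k → k) e ∈ IntermediateField.adjoin (Fp p k) S := by
  refine prod_mem fun j hj => pow_mem (IntermediateField.subset_adjoin _ _ (he hj)) _

theorem ind_insert (S : Set k) (hS : Ind p k S) (x : k)
    (hx : x ∉ IntermediateField.adjoin (Fp p k) S) : Ind p k (insert x S) := by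
  classical
  have hp : p.Prime := Fact.out
  let K := IntermediateField.adjoin (Fp p k) S
  have hirr : Irreducible (Polynomial.X ^ p - Polynomial.C (⟨x ^ p, by
      exact K.algebraMap_mem ⟨x ^ p, pow_mem_Fp p k x⟩⟩ : K)) := by
    refine X_pow_sub_C_irreducible_of_prime hp fun b hb => hx ?_
    have h1 : (b : k) ^ p = x ^ p := congrArg Subtype.val hb
    have h2 : (b : k) = x := frobenius_inj k p h1
    rw [← h2]
    exact b.2
  have hmin : minpoly K x = Polynomial.X ^ p - Polynomial.C (⟨x ^ p, by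
      exact K.algebraMap_mem ⟨x ^ p, pow_mem_Fp p k x⟩⟩ : K) := by
    refine (minpoly.eq_of_irreducible_of_monic hirr ?_ ?_).symm
    · simp only [map_sub, map_pow, Polynomial.aeval_X, Polynomial.aeval_C]
      exact sub_self _
    · exact Polynomial.monic_X_pow_sub_C _ hp.ne_zero
  have hdeg : (minpoly K x).natDegree = p := by
    rw [hmin, Polynomial.natDegree_X_pow_sub_C]
  have hpow : LinearIndependent K fun i : Fin p => x ^ (i : ℕ) := by
    have := linearIndependent_pow (K := K) x
    rw [hdeg] at this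
    exact this
  let v : T p k S → K := fun e => ⟨mono (id : k → k) e.1, mono_mem p k S e.1 e.2.2⟩
  have hv : LinearIndependent (Fp p k) v := by
    refine LinearIndependent.of_comp (K.val.toLinearMap) ?_
    exact hS
  have hvp := linearIndependent_smul hv hpow
  have hxS : x ∉ S := fun h => hx (IntermediateField.subset_adjoin _ _ h)
  have hsub : ∀ e : T p k (insert x S), e.1.erase x ∈ T p k S := by
    rintro ⟨e, he, hes⟩
    refine ⟨fun j => ?_, ?_⟩
    · by_cases hj : j = x
      · subst hj
        rw [Finsupp.erase_same]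
        exact hp.pos
      · rw [Finsupp.erase_ne hj]
        exact he j
    · intro j hj
      rw [Finsupp.support_erase, Finset.coe_erase] at hj
      exact (Set.mem_insert_iff.1 (hes hj.1)).resolve_left hj.2
  let g : T p k (insert x S) → T p k S × Fin p := fun e =>
    (⟨e.1.erase x, hsub e⟩, ⟨e.1 x, e.2.1 x⟩)
  have hg : Function.Injective g := by
    intro e f hef
    have h1 : e.1.erase x = f.1.erase x := congrArg Subtype.val (congrArg Prod.fst hef)
    have h2 : e.1 x = f.1 x := congrArg Fin.val (congrArg Prod.snd hef)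
    refine Subtype.ext ?_
    rw [← Finsupp.single_add_erase x e.1, ← Finsupp.single_add_erase x f.1, h1, h2]
  have h3 := hvp.comp g hg
  have h4 : (fun e : T p k (insert x S) => mono (id : k → k) e.1) =
      (fun q : T p k S × Fin p => v q.1 • x ^ (q.2 : ℕ)) ∘ g := by
    funext e
    show mono (id : k → k) e.1 = mono (id : k → k) (e.1.erase x) * x ^ (e.1 x)
    conv_lhs => rw [← Finsupp.single_add_erase x e.1, mono_add, mono_single, mul_comm]
    rfl
  show LinearIndependent _ (fun e : T p k (insert x S) => mono (id : k → k) e.1)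
  rw [h4]
  exact h3

theorem exists_gen : ∃ S : Set k, Ind p k S ∧ Algebra.adjoin (Fp p k) S = ⊤ := by
  obtain ⟨S, hS⟩ := exists_maximal p k
  refine ⟨S, hS.prop, ?_⟩
  have h : ∀ x, x ∈ IntermediateField.adjoin (Fp p k) S := by
    intro x
    by_contra hx
    have h1 := hS.le_of_ge (ind_insert p k S hS.prop x hx) (Set.subset_insert x S)
    exact hx (IntermediateField.subset_adjoin _ _ (h1 (Set.mem_insert x S)))
  rw [← IntermediateField.adjoin_toSubalgebra]
  exact top_unique fun x _ => h x

end field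

section levels
variable (p : ℕ) [Fact p.Prime] {k : Type u} [Field k] [CharP k p] {ι : Type u} (b : ι → k)

/-- Independence at level `n`. -/
def IndN (n : ℕ) : Prop :=
  ∀ (s : Finset (ι →₀ ℕ)) (c : (ι →₀ ℕ) → k), (∀ e ∈ s, ∀ j, e j < p ^ n) →
    ∑ e ∈ s, c e ^ (p ^ n) * mono b e = 0 → ∀ e ∈ s, c e = 0

omit [Fact p.Prime] [CharP k p] in
theorem indN_zero : IndN p b 0 := by
  classical
  intro s c hs h0 e he
  have h1 : ∀ f ∈ s, f = 0 := by
    intro f hf
    ext j
    have := hs f hf j
    rw [pow_zero, Nat.lt_one_iff] at this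
    exact this
  have h2 : s = {0} := by
    ext f
    rw [Finset.mem_singleton]
    refine ⟨h1 f, ?_⟩
    rintro rfl
    rw [← h1 e he]
    exact he
  rw [h1 e he]
  rw [h2, Finset.sum_singleton, mono_zero, mul_one, pow_zero, pow_one] at h0
  exact h0

theorem indN_succ (h1 : IndN p b 1) (n : ℕ) (hn : IndN p b n) : IndN p b (n + 1) := by
  classical
  have hp : p.Prime := Fact.out
  intro s c hs h0 e₀ he₀
  let A : (ι →₀ ℕ) → k := fun r =>
    ∑ e ∈ s.filter fun e => emod p e = r, c e ^ (p ^ n) * mono b (ediv p e)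
  have hA : ∀ r, A r ^ (p ^ 1) * mono b r =
      ∑ e ∈ s.filter fun e => emod p e = r, c e ^ (p ^ (n + 1)) * mono b e := by
    intro r
    rw [pow_one, sum_pow_char, Finset.sum_mul]
    refine Finset.sum_congr rfl fun e he => ?_
    rw [(Finset.mem_filter.1 he).2.symm, mul_pow, ← pow_mul, ← pow_succ, mul_assoc,
      ← mono_div_mod]
  have hA0 : ∑ r ∈ s.image (emod p), A r ^ (p ^ 1) * mono b r = 0 := by
    rw [← h0, ← Finset.sum_fiberwise_of_maps_to
      (fun e (he : e ∈ s) => Finset.mem_image_of_mem (emod p) he)]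
    exact Finset.sum_congr rfl fun r _ => hA r
  have hA1 : A (emod p e₀) = 0 := by
    refine h1 _ _ ?_ hA0 _ (Finset.mem_image_of_mem _ he₀)
    intro r hr j
    obtain ⟨e, -, rfl⟩ := Finset.mem_image.1 hr
    rw [pow_one]
    exact emod_lt hp.pos e j
  have hinj : ∀ e ∈ s.filter (fun e => emod p e = emod p e₀),
      ∀ f ∈ s.filter (fun e => emod p e = emod p e₀), ediv p e = ediv p f → e = f := by
    intro e he f hf hef
    rw [← ediv_add_emod p e, ← ediv_add_emod p f, hef, (Finset.mem_filter.1 he).2,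
      (Finset.mem_filter.1 hf).2]
  have h2 := hn ((s.filter fun e => emod p e = emod p e₀).image (ediv p))
    (fun f => c (p • f + emod p e₀)) ?_ ?_ (ediv p e₀)
    (Finset.mem_image_of_mem _ (Finset.mem_filter.2 ⟨he₀, rfl⟩))
  · have h3 : c (p • ediv p e₀ + emod p e₀) = 0 := h2
    rwa [ediv_add_emod] at h3
  · intro f hf j
    obtain ⟨e, he, rfl⟩ := Finset.mem_image.1 hf
    have h3 := hs e (Finset.mem_filter.1 he).1 j
    simp only [ediv, Finsupp.mapRange_apply]
    refine Nat.div_lt_of_lt_mul ?_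
    rwa [← pow_succ']
  · rw [Finset.sum_image hinj, ← hA1]
    refine Finset.sum_congr rfl fun e he => ?_
    rw [← (Finset.mem_filter.1 he).2, ediv_add_emod]

theorem indN_one {S : Set k} (hS : Ind p k S) : IndN p (Subtype.val : S → k) 1 := by
  classical
  intro s c hs h0 e he
  have hmono : ∀ e : S →₀ ℕ, mono (id : k → k) (e.mapDomain Subtype.val) =
      mono (Subtype.val : S → k) e := by
    intro e
    exact Finsupp.prod_mapDomain_index_inj Subtype.val_injective
  have hT : ∀ e : {e // e ∈ s}, (e.1.mapDomain Subtype.val : k →₀ ℕ) ∈ T p k S := by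
    rintro ⟨e, he⟩
    refine ⟨fun j => ?_, ?_⟩
    · by_cases hj : j ∈ S
      · have h1 : (e.mapDomain Subtype.val : k →₀ ℕ) j = e ⟨j, hj⟩ :=
          Finsupp.mapDomain_apply Subtype.val_injective e ⟨j, hj⟩
        rw [h1]
        simpa using hs e he ⟨j, hj⟩
      · have h1 : (e.mapDomain Subtype.val : k →₀ ℕ) j = 0 := by
          refine Finsupp.mapDomain_of_notMem_range e j ?_
          rintro ⟨⟨y, hy⟩, rfl⟩
          exact hj hy
        rw [h1]
        exact (Fact.out : p.Prime).pos
    · intro j hj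
      have := Finsupp.mapDomain_support hj
      obtain ⟨y, -, rfl⟩ := Finset.mem_image.1 this
      exact y.2
  let g : {e // e ∈ s} → T p k S := fun e => ⟨_, hT e⟩
  have hg : Function.Injective g := by
    intro e f hef
    exact Subtype.ext (Finsupp.mapDomain_injective Subtype.val_injective
      (congrArg Subtype.val hef))
  have h1 : LinearIndependent (Fp p k) fun e : {e // e ∈ s} =>
      mono (Subtype.val : S → k) e.1 := by
    have := LinearIndependent.comp (R := Fp p k) hS g hg
    have h2 : (fun e : {e // e ∈ s} => mono (Subtype.val : S → k) e.1) =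
        (fun e : T p k S => mono (id : k → k) e.1) ∘ g := by
      funext e
      exact (hmono e.1).symm
    rw [h2]
    exact this
  rw [Fintype.linearIndependent_iff] at h1
  have h2 := h1 (fun e => ⟨c e.1 ^ p, pow_mem_Fp p k _⟩) ?_ ⟨e, he⟩
  · exact pow_eq_zero_iff (Fact.out : p.Prime).ne_zero |>.1 (congrArg Subtype.val h2)
  · rw [← h0, ← Finset.sum_coe_sort s]
    refine Finset.sum_congr rfl fun e _ => ?_
    rw [pow_one]
    rfl

/-- Evaluation at level `n`. -/
noncomputable def ev (n : ℕ) : MvPolynomial ι k →+* k :=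
  MvPolynomial.eval₂Hom (iterateFrobenius k p n) b

theorem ev_C (n : ℕ) (a : k) : ev p b n (MvPolynomial.C a) = a ^ (p ^ n) := by
  simp [ev, iterateFrobenius_def]

theorem ev_X (n : ℕ) (j : ι) : ev p b n (MvPolynomial.X j) = b j := by
  simp [ev]

theorem ev_monomial (n : ℕ) (e : ι →₀ ℕ) (a : k) :
    ev p b n (MvPolynomial.monomial e a) = a ^ (p ^ n) * mono b e := by
  simp [ev, iterateFrobenius_def, mono]

theorem ev_surj (hgen : Algebra.adjoin (Fp p k) (Set.range b) = ⊤) (n : ℕ) :
    ∀ x, x ∈ (ev p b n).range := by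
  induction n with
  | zero =>
    intro x
    exact ⟨MvPolynomial.C x, by rw [ev_C, pow_zero, pow_one]⟩
  | succ n ih =>
    have h1 : ∀ P : MvPolynomial ι k, (ev p b n P) ^ p ∈ (ev p b (n + 1)).range := by
      intro P
      induction P using MvPolynomial.induction_on with
      | C a =>
        refine ⟨MvPolynomial.C a, ?_⟩
        rw [ev_C, ev_C, ← pow_mul, ← pow_succ]
      | add P Q hP hQ =>
        rw [map_add, add_pow_char]
        exact add_mem hP hQ
      | mul_X P j hP =>
        rw [map_mul, ev_X, mul_pow]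
        have hj : b j ∈ (ev p b (n + 1)).range := ⟨MvPolynomial.X j, ev_X p b _ j⟩
        exact mul_mem hP (pow_mem hj _)
    intro x
    have hx : x ∈ Algebra.adjoin (Fp p k) (Set.range b) := by
      rw [hgen]
      trivial
    induction hx using Algebra.adjoin_induction with
    | mem x hx =>
      obtain ⟨j, rfl⟩ := hx
      exact ⟨MvPolynomial.X j, ev_X p b _ j⟩
    | algebraMap r =>
      obtain ⟨r, y, rfl⟩ := r
      obtain ⟨P, hP⟩ := ih y
      have := h1 P
      rw [hP] at this
      exact this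
    | add x y _ _ hx hy => exact add_mem hx hy
    | mul x y _ _ hx hy => exact mul_mem hx hy

theorem reduce (n : ℕ) (P : MvPolynomial ι k) : ∃ c : (ι →₀ ℕ) →₀ k,
    (∀ e ∈ c.support, ∀ j, e j < p ^ n) ∧
    ev p b n P = c.sum fun e a => a ^ (p ^ n) * mono b e := by
  classical
  have hp : p.Prime := Fact.out
  induction P using MvPolynomial.induction_on' with
  | monomial e a =>
    refine ⟨Finsupp.single (emod (p ^ n) e) (a * mono b (ediv (p ^ n) e)), ?_, ?_⟩
    · intro f hf j
      rw [Finset.mem_singleton.1 (Finsupp.support_single_subset hf)]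
      exact emod_lt (pow_pos hp.pos n) e j
    · rw [Finsupp.sum_single_index (by rw [zero_pow (pow_pos hp.pos n).ne', zero_mul]),
        ev_monomial, mul_pow, mul_assoc, ← mono_div_mod]
  | add P Q hP hQ =>
    obtain ⟨c, hc, hcP⟩ := hP
    obtain ⟨d, hd, hdQ⟩ := hQ
    refine ⟨c + d, ?_, ?_⟩
    · intro f hf
      rcases Finset.mem_union.1 (Finsupp.support_add hf) with h | h
      · exact hc f h
      · exact hd f h
    · rw [map_add, hcP, hdQ, Finsupp.sum_add_index']
      · intro e
        rw [zero_pow (pow_pos hp.pos n).ne', zero_mul]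
      · intro e x y
        rw [add_pow_char_pow, add_mul]

end levels

end PBasis

open PBasis in
theorem exists_pbasis (p : ℕ) [Fact p.Prime] (k : Type u) [Field k] [CharP k p] :
    ∃ (ι : Type u) (b : ι → k), ∀ n : ℕ,
      (∀ x : k, ∃ c : (ι →₀ ℕ) →₀ k, (∀ e ∈ c.support, ∀ j, e j < p ^ n) ∧
        x = c.sum fun e a => a ^ (p ^ n) * e.prod fun j m => b j ^ m) ∧
      (∀ c : (ι →₀ ℕ) →₀ k, (∀ e ∈ c.support, ∀ j, e j < p ^ n) →
        (c.sum fun e a => a ^ (p ^ n) * e.prod fun j m => b j ^ m) = 0 → c = 0) := by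
  obtain ⟨S, hS, hgen⟩ := exists_gen p k
  refine ⟨S, Subtype.val, fun n => ⟨fun x => ?_, fun c hc h0 => ?_⟩⟩
  · obtain ⟨P, hP⟩ := ev_surj p (Subtype.val : S → k) (by rw [Subtype.range_val]; exact hgen) n x
    obtain ⟨c, hc, hcP⟩ := reduce p (Subtype.val : S → k) n P
    exact ⟨c, hc, hP.symm.trans hcP⟩
  · have hI : ∀ n, IndN p (Subtype.val : S → k) n := by
      intro n
      induction n with
      | zero => exact indN_zero p _
      | succ n ih => exact indN_succ p _ (indN_one p hS) n ih
    ext e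
    by_cases he : e ∈ c.support
    · exact hI n c.support c hc h0 e he
    · exact Finsupp.notMem_support_iff.1 he

end Pool.Agent.W_cbb711
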