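import Mathlib
import Pool.Agent.W_cbb711b.PBasis

set_option autoImplicit false

/-!
# Coefficient rings in residue characteristic `p` (the residue field may be imperfect)
-/

universe u

namespace Pool.Agent.W_cbb711

namespace CoeffRing

open Finset

theorem choose_prime_pow {p n k : ℕ} (hp : p.Prime) (hk0 : k ≠ 0) (hk : k < p ^ n) :
    ∃ v < n, ∃ k' m : ℕ, k = p ^ v * k' ∧ (p ^ n).choose k = p ^ (n - v) * m := by
  obtain ⟨v, k', hk', hkv⟩ := Nat.exists_eq_pow_mul_and_not_dvd hk0 p hp.ne_one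
  have hv : v < n := by
    by_contra hcon
    have h1 : p ^ n ≤ p ^ v := Nat.pow_le_pow_right hp.pos (by omega)
    have h2 : k' ≠ 0 := by
      rintro rfl
      exact hk' (dvd_zero p)
    have h3 : p ^ v ≤ p ^ v * k' := Nat.le_mul_of_pos_right _ (Nat.pos_of_ne_zero h2)
    omega
  refine ⟨v, hv, k', ?_⟩
  have hdvd : p ^ (n - v) ∣ (p ^ n).choose k := by
    obtain ⟨j, rfl⟩ : ∃ j, k = j + 1 := ⟨k - 1, by omega⟩
    obtain ⟨q, hq⟩ : ∃ q, p ^ n = q + 1 := ⟨p ^ n - 1, by have := Nat.pow_pos hp.pos (n := n); omega⟩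
    have h1 := Nat.add_one_mul_choose_eq q j
    rw [← hq] at h1
    -- p^n * choose q j = choose (p^n) (j+1) * (j+1)
    have h2 : p ^ v * (p ^ (n - v) * q.choose j) = p ^ v * ((p ^ n).choose (j + 1) * k') := by
      rw [← mul_assoc, ← pow_add, show v + (n - v) = n by omega, h1, hkv]
      ring
    have h3 := Nat.eq_of_mul_eq_mul_left (Nat.pow_pos hp.pos) h2
    have h4 : p ^ (n - v) ∣ (p ^ n).choose (j + 1) * k' := ⟨_, h3.symm⟩
    refine Nat.Coprime.dvd_of_dvd_mul_right ?_ h4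
    exact Nat.Coprime.pow_left _ ((Nat.Prime.coprime_iff_not_dvd hp).2 hk')
  obtain ⟨m, hm⟩ := hdvd
  exact ⟨m, hkv, hm⟩

section main

variable (p : ℕ) {A : Type u} [CommRing A] {ι : Type u} (b : ι → A)

/-- The subring generated by the `p ^ n`-th powers and the `b j`. -/
def S (n : ℕ) : Subring A := Subring.closure (Set.range (fun x : A => x ^ p ^ n) ∪ Set.range b)

/-- Monomials in the `b j`. -/
noncomputable def mon (e : ι →₀ ℕ) : A := e.prod fun j m => b j ^ m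

/-- Evaluation of a family of coefficients. -/
noncomputable def ev (n : ℕ) (c : (ι →₀ ℕ) →₀ A) : A := c.sum fun e a => a ^ (p ^ n) * mon b e

theorem pow_mem (n : ℕ) (x : A) : x ^ p ^ n ∈ S p b n :=
  Subring.subset_closure (Or.inl ⟨x, rfl⟩)

theorem b_mem (n : ℕ) (j : ι) : b j ∈ S p b n := Subring.subset_closure (Or.inr ⟨j, rfl⟩)

theorem mon_mem (n : ℕ) (e : ι →₀ ℕ) : mon b e ∈ S p b n := by
  unfold mon
  exact Subring.prod_mem _ fun j _ => Subring.pow_mem _ (b_mem p b n j) _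

theorem mon_add (e f : ι →₀ ℕ) : mon b (e + f) = mon b e * mon b f := by
  unfold mon
  exact Finsupp.prod_add_index' (fun _ => pow_zero _) (fun _ _ _ => pow_add _ _ _)

theorem mon_zero : mon b 0 = 1 := by
  unfold mon
  exact Finsupp.prod_zero_index

theorem mon_nsmul (q : ℕ) (e : ι →₀ ℕ) : mon b (q • e) = mon b e ^ q := by
  induction q with
  | zero => rw [zero_smul, pow_zero, mon_zero]
  | succ q ih => rw [succ_nsmul, mon_add, ih, pow_succ]

theorem ev_mem (n : ℕ) (c : (ι →₀ ℕ) →₀ A) : ev p b n c ∈ S p b n := by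
  unfold ev
  exact Subring.sum_mem _ fun e _ => Subring.mul_mem _ (pow_mem p b n _) (mon_mem p b n e)

variable {p} in
theorem ev_eq (hp : p.Prime) (n : ℕ) (c : (ι →₀ ℕ) →₀ A) (U : Finset (ι →₀ ℕ))
    (hU : c.support ⊆ U) : ev p b n c = ∑ e ∈ U, c e ^ (p ^ n) * mon b e := by
  unfold ev
  refine Finsupp.sum_of_support_subset c hU _ ?_
  intro e _
  rw [zero_pow (Nat.pow_pos hp.pos).ne', zero_mul]

theorem S_anti (n : ℕ) : S p b (n + 1) ≤ S p b n := by
  unfold S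
  rw [Subring.closure_le]
  rintro x (⟨y, rfl⟩ | ⟨j, rfl⟩)
  · have : y ^ p ^ (n + 1) = (y ^ p) ^ p ^ n := by
      rw [← pow_mul, pow_succ, mul_comm]
    show y ^ p ^ (n + 1) ∈ _
    rw [this]
    exact pow_mem p b n _
  · exact b_mem p b n j

variable (𝔫 : Ideal A)

/-- `J n = p S n + 𝔫 ^ (n + 1)`. -/
def J (n : ℕ) : AddSubgroup A where
  carrier := {v | ∃ s ∈ S p b n, v - p * s ∈ 𝔫 ^ (n + 1)}
  zero_mem' := ⟨0, Subring.zero_mem _, by simp⟩
  add_mem' := by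
    rintro x y ⟨s, hs, hx⟩ ⟨t, ht, hy⟩
    refine ⟨s + t, Subring.add_mem _ hs ht, ?_⟩
    have := Ideal.add_mem _ hx hy
    convert this using 1
    ring
  neg_mem' := by
    rintro x ⟨s, hs, hx⟩
    refine ⟨-s, Subring.neg_mem _ hs, ?_⟩
    have := Ideal.neg_mem_iff _ |>.2 hx
    convert this using 1
    ring

theorem mem_J {n : ℕ} {v : A} : v ∈ J p b 𝔫 n ↔ ∃ s ∈ S p b n, v - p * s ∈ 𝔫 ^ (n + 1) := Iff.rfl

theorem J_of_pow {n : ℕ} {v : A} (h : v ∈ 𝔫 ^ (n + 1)) : v ∈ J p b 𝔫 n :=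
  ⟨0, Subring.zero_mem _, by simpa using h⟩

theorem J_of_S {n : ℕ} {s : A} (h : s ∈ S p b n) : (p : A) * s ∈ J p b 𝔫 n :=
  ⟨s, h, by simp⟩

theorem J_mul {n : ℕ} {s v : A} (hs : s ∈ S p b n) (hv : v ∈ J p b 𝔫 n) : s * v ∈ J p b 𝔫 n := by
  obtain ⟨t, ht, hv⟩ := hv
  refine ⟨s * t, Subring.mul_mem _ hs ht, ?_⟩
  have := Ideal.mul_mem_left _ s hv
  convert this using 1
  ring

variable {p}
variable {b 𝔫}
variable (hp : p.Prime) (hpn : (p : A) ∈ 𝔫)
  (hspan : ∀ (n : ℕ) (x : A), ∃ c, x - ev p b n c ∈ 𝔫)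
  (hind : ∀ (n : ℕ) (c : (ι →₀ ℕ) →₀ A), (∀ e ∈ c.support, ∀ j, e j < p ^ n) →
    ev p b n c ∈ 𝔫 → ∀ e, c e ∈ 𝔫)

include hpn hspan in
theorem star (n i : ℕ) (hi : i ≤ n) (x : A) :
    ∃ s ∈ S p b n, (p : A) ^ i * x ^ p ^ (n - i) - (p : A) ^ i * s ∈ 𝔫 ^ (n + 1) := by
  obtain ⟨c, hc⟩ := hspan n x
  refine ⟨ev p b n c ^ p ^ (n - i), Subring.pow_mem _ (ev_mem p b n c) _, ?_⟩
  have h1 : x ≡ ev p b n c [SMOD 𝔫] := SModEq.sub_mem.2 hc
  have h2 := SModEq.sub_mem.1 (SModEq.pow_pow_add_one hpn h1 (n - i))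
  have h3 : (p : A) ^ i * (x ^ p ^ (n - i) - ev p b n c ^ p ^ (n - i)) ∈
      𝔫 ^ i * 𝔫 ^ (n - i + 1) := Ideal.mul_mem_mul (Ideal.pow_mem_pow hpn i) h2
  rw [← pow_add, show i + (n - i + 1) = n + 1 by omega] at h3
  rwa [← mul_sub]

include hp hpn hspan in
theorem add_pow_mem (n : ℕ) (x y : A) :
    (x + y) ^ p ^ n - x ^ p ^ n - y ^ p ^ n ∈ J p b 𝔫 n := by
  rw [add_pow_prime_pow_eq' hp x y n]
  have : x ^ p ^ n + y ^ p ^ n +
      p * ∑ k ∈ Ioo 0 (p ^ n), x ^ k * y ^ (p ^ n - k) * ↑((p ^ n).choose k / p) -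
      x ^ p ^ n - y ^ p ^ n =
      ∑ k ∈ Ioo 0 (p ^ n), (p : A) * (x ^ k * y ^ (p ^ n - k) * ↑((p ^ n).choose k / p)) := by
    rw [mul_sum]; ring
  rw [this]
  refine AddSubgroup.sum_mem _ fun k hk => ?_
  rw [mem_Ioo] at hk
  obtain ⟨v, hv, k', m, hkv, hm⟩ := choose_prime_pow hp (by omega : k ≠ 0) hk.2
  have e1 : (p : A) * (x ^ k * y ^ (p ^ n - k) * ((((p ^ n).choose k / p : ℕ) : A))) =
      x ^ k * y ^ (p ^ n - k) * (((p ^ n).choose k : ℕ) : A) := by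
    have h1 : (p ^ n).choose k = p * ((p ^ n).choose k / p) :=
      (Nat.mul_div_cancel' (hp.dvd_choose_pow (by omega) (by omega))).symm
    conv_rhs => rw [h1]
    push_cast
    ring
  rw [e1]
  have e2 : p ^ n - k = p ^ v * (p ^ (n - v) - k') := by
    rw [Nat.mul_sub, ← pow_add, show v + (n - v) = n by omega, hkv]
  have e3 : x ^ k * y ^ (p ^ n - k) = (x ^ k' * y ^ (p ^ (n - v) - k')) ^ p ^ v := by
    rw [e2, hkv, mul_pow, ← pow_mul, ← pow_mul, mul_comm (p ^ v) k', mul_comm (p ^ v) (_ - _)]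
  obtain ⟨s, hs, hs'⟩ := star (b := b) hpn hspan n (n - v) (by omega)
    (x ^ k' * y ^ (p ^ (n - v) - k'))
  rw [show n - (n - v) = v by omega] at hs'
  rw [e3, hm]
  refine ⟨m * (p ^ (n - v - 1) * s), Subring.mul_mem _ (natCast_mem _ _)
    (Subring.mul_mem _ (Subring.pow_mem _ (natCast_mem _ _) _) hs), ?_⟩
  have h4 := Ideal.mul_mem_left _ (m : A) hs'
  convert h4 using 1
  have h5 : (p : A) ^ (n - v) = p * p ^ (n - v - 1) := by
    rw [← pow_succ', show n - v - 1 + 1 = n - v by omega]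
  push_cast
  rw [h5]
  ring

include hp hpn hspan in
theorem ev_add_mem (n : ℕ) (c d : (ι →₀ ℕ) →₀ A) :
    ev p b n (c + d) - ev p b n c - ev p b n d ∈ J p b 𝔫 n := by
  classical
  rw [ev_eq b hp n (c + d) (c.support ∪ d.support) Finsupp.support_add,
    ev_eq b hp n c (c.support ∪ d.support) subset_union_left,
    ev_eq b hp n d (c.support ∪ d.support) subset_union_right, ← sum_sub_distrib,
    ← sum_sub_distrib]
  refine AddSubgroup.sum_mem _ fun e _ => ?_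
  have h1 := J_mul p b 𝔫 (mon_mem p b n e) (add_pow_mem hp hpn hspan n (c e) (d e))
  convert h1 using 1
  rw [Finsupp.add_apply]
  ring

/-- Elements congruent to a reduced expression. -/
def T (p : ℕ) (b : ι → A) (𝔫 : Ideal A) (n : ℕ) : Set A :=
  {v | ∃ c : (ι →₀ ℕ) →₀ A, (∀ e ∈ c.support, ∀ j, e j < p ^ n) ∧ v - ev p b n c ∈ J p b 𝔫 n}

include hp hpn hspan in
theorem T_add {n : ℕ} {v w : A} (hv : v ∈ T p b 𝔫 n) (hw : w ∈ T p b 𝔫 n) :
    v + w ∈ T p b 𝔫 n := by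
  classical
  obtain ⟨c, hc, hv⟩ := hv
  obtain ⟨d, hd, hw⟩ := hw
  refine ⟨c + d, ?_, ?_⟩
  · intro e he j
    rcases mem_union.1 (Finsupp.support_add he) with h | h
    · exact hc e h j
    · exact hd e h j
  · have h1 := AddSubgroup.sub_mem _ (AddSubgroup.add_mem _ hv hw)
      (ev_add_mem hp hpn hspan n c d)
    convert h1 using 1
    ring

theorem T_zero (n : ℕ) : (0 : A) ∈ T p b 𝔫 n := by
  refine ⟨0, ?_, ?_⟩
  · intro e he
    simp at he
  · simp [ev]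

theorem T_congr {n : ℕ} {v w : A} (hv : v ∈ T p b 𝔫 n) (h : w - v ∈ J p b 𝔫 n) :
    w ∈ T p b 𝔫 n := by
  obtain ⟨c, hc, hv⟩ := hv
  refine ⟨c, hc, ?_⟩
  have := AddSubgroup.add_mem _ h hv
  convert this using 1
  ring

include hp hpn hspan in
theorem T_sum {n : ℕ} {κ : Type*} (s : Finset κ) (f : κ → A) (hf : ∀ k ∈ s, f k ∈ T p b 𝔫 n) :
    ∑ k ∈ s, f k ∈ T p b 𝔫 n := by
  classical
  induction s using Finset.induction_on with
  | empty => simpa using T_zero n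
  | insert a s ha ih =>
    rw [sum_insert ha]
    exact T_add hp hpn hspan (hf a (mem_insert_self _ _))
      (ih fun k hk => hf k (mem_insert_of_mem hk))

include hp in
theorem T_mon (n : ℕ) (a : A) (e : ι →₀ ℕ) : a ^ p ^ n * mon b e ∈ T p b 𝔫 n := by
  classical
  set q := p ^ n with hq
  have hq0 : 0 < q := Nat.pow_pos hp.pos
  set e1 : ι →₀ ℕ := e.mapRange (· / q) (Nat.zero_div q)
  set e2 : ι →₀ ℕ := e.mapRange (· % q) (Nat.zero_mod q)
  have he : e = q • e1 + e2 := by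
    ext j
    simp only [e1, e2, Finsupp.add_apply, Finsupp.smul_apply, Finsupp.mapRange_apply, smul_eq_mul]
    exact (Nat.div_add_mod (e j) q).symm
  refine ⟨Finsupp.single e2 (a * mon b e1), ?_, ?_⟩
  · intro f hf j
    have := Finsupp.support_single_subset hf
    rw [mem_singleton] at this
    subst this
    simp only [e2, Finsupp.mapRange_apply]
    exact Nat.mod_lt _ hq0
  · have h1 : ev p b n (Finsupp.single e2 (a * mon b e1)) = a ^ q * mon b e := by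
      unfold ev
      rw [Finsupp.sum_single_index]
      · rw [← hq, mul_pow]
        conv_rhs => rw [he, mon_add, mon_nsmul]
        ring
      · rw [← hq, zero_pow hq0.ne', zero_mul]
    rw [h1, sub_self]
    exact AddSubgroup.zero_mem _

include hp hpn hspan in
theorem T_ev (n : ℕ) (c : (ι →₀ ℕ) →₀ A) : ev p b n c ∈ T p b 𝔫 n :=
  T_sum hp hpn hspan _ _ fun e _ => T_mon hp n _ e

include hp hpn hspan in
theorem T_ev_mul (n : ℕ) (c d : (ι →₀ ℕ) →₀ A) : ev p b n c * ev p b n d ∈ T p b 𝔫 n := by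
  unfold ev Finsupp.sum
  rw [sum_mul_sum]
  refine T_sum hp hpn hspan _ _ fun e _ => T_sum hp hpn hspan _ _ fun f _ => ?_
  have : c e ^ p ^ n * mon b e * (d f ^ p ^ n * mon b f) =
      (c e * d f) ^ p ^ n * mon b (e + f) := by
    rw [mon_add, mul_pow]; ring
  rw [this]
  exact T_mon hp n _ _

include hp hpn hspan in
theorem S_sub_T (n : ℕ) {v : A} (hv : v ∈ S p b n) : v ∈ T p b 𝔫 n := by
  have hv' : v ∈ Subring.closure (Set.range (fun x : A => x ^ p ^ n) ∪ Set.range b) := hv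
  induction hv' using Subring.closure_induction with
  | mem x hx =>
    rcases hx with ⟨y, rfl⟩ | ⟨j, rfl⟩
    · have := T_mon (b := b) (𝔫 := 𝔫) hp n y 0
      rwa [mon_zero, mul_one] at this
    · have := T_mon (b := b) (𝔫 := 𝔫) hp n 1 (Finsupp.single j 1)
      have h2 : mon b (Finsupp.single j 1) = b j := by
        simp [mon]
      rwa [h2, one_pow, one_mul] at this
  | zero => exact T_zero n
  | one =>
    have := T_mon (b := b) (𝔫 := 𝔫) hp n 1 0
    rwa [mon_zero, mul_one, one_pow] at this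
  | add x y hx hy ihx ihy => exact T_add hp hpn hspan (ihx hx) (ihy hy)
  | neg x hx ih =>
    obtain ⟨c, hc, hv⟩ := ih hx
    refine T_congr (T_ev hp hpn hspan n (-c)) ?_
    have h1 := ev_add_mem (b := b) hp hpn hspan n c (-c)
    have h0 : ev p b n (0 : (ι →₀ ℕ) →₀ A) = 0 := by simp [ev]
    rw [add_neg_cancel, h0] at h1
    have := AddSubgroup.sub_mem _ h1 hv
    convert this using 1
    ring
  | mul x y hx hy ihx ihy =>
    obtain ⟨c, hc, hv⟩ := ihx hx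
    obtain ⟨d, hd, hw⟩ := ihy hy
    refine T_congr (T_ev_mul hp hpn hspan n c d) ?_
    have h1 := J_mul p b 𝔫 (show x ∈ S p b n from hx) hw
    have h2 := J_mul p b 𝔫 (ev_mem p b n d) hv
    have := AddSubgroup.add_mem _ h1 h2
    convert this using 1
    ring

include hp hpn hspan hind in
theorem key (n : ℕ) {v : A} (hv : v ∈ S p b n) (hv' : v ∈ 𝔫) : v ∈ J p b 𝔫 n := by
  obtain ⟨c, hc, h⟩ := S_sub_T hp hpn hspan n hv
  have hJ : ∀ w ∈ J p b 𝔫 n, w ∈ 𝔫 := by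
    rintro w ⟨s, _, hw⟩
    have h1 : w - p * s ∈ 𝔫 := Ideal.pow_le_self (by omega) hw
    have h2 : (p : A) * s ∈ 𝔫 := Ideal.mul_mem_right _ _ hpn
    have := Ideal.add_mem _ h1 h2
    simpa using this
  have hev : ev p b n c ∈ 𝔫 := by
    have := Ideal.sub_mem _ hv' (hJ _ h)
    simpa using this
  have hce := hind n c hc hev
  have hev' : ev p b n c ∈ 𝔫 ^ (n + 1) := by
    unfold ev
    refine Ideal.sum_mem _ fun e _ => Ideal.mul_mem_right _ _ ?_
    have h1 : n + 1 ≤ p ^ n := Nat.lt_pow_self hp.one_lt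
    exact Ideal.pow_le_pow_right h1 (Ideal.pow_mem_pow (hce e) _)
  have := AddSubgroup.add_mem _ h (J_of_pow p b 𝔫 hev')
  simpa using this

variable (p b 𝔫) in
/-- `W n = S n + 𝔫 ^ (n + 1)` -/
def W (n : ℕ) : Subring A :=
  ((S p b n).map (Ideal.Quotient.mk (𝔫 ^ (n + 1)))).comap (Ideal.Quotient.mk (𝔫 ^ (n + 1)))

theorem mem_W {n : ℕ} {v : A} : v ∈ W p b 𝔫 n ↔ ∃ s ∈ S p b n, v - s ∈ 𝔫 ^ (n + 1) := by
  unfold W
  rw [Subring.mem_comap, Subring.mem_map]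
  constructor
  · rintro ⟨s, hs, h⟩
    exact ⟨s, hs, Ideal.Quotient.eq.1 h.symm⟩
  · rintro ⟨s, hs, h⟩
    exact ⟨s, hs, (Ideal.Quotient.eq.2 h).symm⟩

theorem W_congr {n : ℕ} {v w : A} (hv : v ∈ W p b 𝔫 n) (h : w - v ∈ 𝔫 ^ (n + 1)) :
    w ∈ W p b 𝔫 n := by
  rw [mem_W] at hv ⊢
  obtain ⟨s, hs, hv⟩ := hv
  refine ⟨s, hs, ?_⟩
  have := Ideal.add_mem _ h hv
  convert this using 1
  ring

theorem W_anti (n : ℕ) : W p b 𝔫 (n + 1) ≤ W p b 𝔫 n := by
  intro v hv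
  rw [mem_W] at hv ⊢
  obtain ⟨s, hs, hv⟩ := hv
  exact ⟨s, S_anti p b n hs, Ideal.pow_le_pow_right (by omega) hv⟩

theorem W_antitone : Antitone (W p b 𝔫) := antitone_nat_of_succ_le W_anti

include hpn hspan in
/-- `S n` is contained in `S (n + 1) + 𝔫 ^ (n + 1)`. -/
theorem S_lift (n : ℕ) {v : A} (hv : v ∈ S p b n) :
    ∃ s ∈ S p b (n + 1), v - s ∈ 𝔫 ^ (n + 1) := by
  have h : S p b n ≤ ((S p b (n + 1)).map (Ideal.Quotient.mk (𝔫 ^ (n + 1)))).comap
      (Ideal.Quotient.mk (𝔫 ^ (n + 1))) := by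
    unfold S
    rw [Subring.closure_le]
    rintro x (⟨y, rfl⟩ | ⟨j, rfl⟩)
    · obtain ⟨c, hc⟩ := hspan (n + 1) y
      have h1 : y ≡ ev p b (n + 1) c [SMOD 𝔫] := SModEq.sub_mem.2 hc
      have h2 := SModEq.sub_mem.1 (SModEq.pow_pow_add_one hpn h1 n)
      exact Subring.mem_comap.2 (Subring.mem_map.2 ⟨ev p b (n + 1) c ^ p ^ n,
        Subring.pow_mem _ (ev_mem p b (n + 1) c) _, (Ideal.Quotient.eq.2 h2).symm⟩)
    · exact Subring.mem_comap.2 (Subring.mem_map.2 ⟨b j, b_mem p b (n + 1) j, rfl⟩)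
  have := h hv
  rw [Subring.mem_comap, Subring.mem_map] at this
  obtain ⟨s, hs, h⟩ := this
  exact ⟨s, hs, Ideal.Quotient.eq.1 h.symm⟩

include hpn hspan in
theorem W_lift (n : ℕ) {v : A} (hv : v ∈ W p b 𝔫 n) :
    ∃ s ∈ W p b 𝔫 (n + 1), s - v ∈ 𝔫 ^ (n + 1) := by
  rw [mem_W] at hv
  obtain ⟨s, hs, hv⟩ := hv
  obtain ⟨t, ht, hst⟩ := S_lift hpn hspan n hs
  refine ⟨t, mem_W.2 ⟨t, ht, by simp⟩, ?_⟩
  have := Ideal.neg_mem_iff _ |>.2 (Ideal.add_mem _ hv hst)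
  convert this using 1
  ring

include hpn hspan in
/-- Every element of `W n` is congruent modulo `𝔫 ^ (n + 1)` to an element of `⋂ W m`. -/
theorem W_surj [IsAdicComplete 𝔫 A] (n : ℕ) {v : A} (hv : v ∈ W p b 𝔫 n) :
    ∃ s, (∀ m, s ∈ W p b 𝔫 m) ∧ s - v ∈ 𝔫 ^ (n + 1) := by
  classical
  choose! g hg1 hg2 using fun m (v : A) (hv : v ∈ W p b 𝔫 m) => W_lift (b := b) hpn hspan m hv
  -- sequence f k ∈ W (n + k)
  let f : ℕ → A := fun k => Nat.rec v (fun k a => g (n + k) a) k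
  have hf0 : f 0 = v := rfl
  have hfs : ∀ k, f (k + 1) = g (n + k) (f k) := fun k => rfl
  have hfW : ∀ k, f k ∈ W p b 𝔫 (n + k) := by
    intro k
    induction k with
    | zero => exact hv
    | succ k ih =>
      rw [hfs]
      exact hg1 _ _ ih
  have hfd : ∀ k, f (k + 1) - f k ∈ 𝔫 ^ (n + k + 1) := by
    intro k
    rw [hfs]
    exact hg2 _ _ (hfW k)
  have hfd' : ∀ k l, k ≤ l → f l - f k ∈ 𝔫 ^ (n + k + 1) := by
    intro k l hkl
    induction l, hkl using Nat.le_induction with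
    | base => simp
    | succ l hkl ih =>
      have h1 : f (l + 1) - f l ∈ 𝔫 ^ (n + k + 1) := Ideal.pow_le_pow_right (by omega) (hfd l)
      have := Ideal.add_mem _ h1 ih
      convert this using 1
      ring
  obtain ⟨L, hL⟩ := IsPrecomplete.prec (I := 𝔫) (M := A) inferInstance (f := f) (by
    intro m k hmk
    rw [SModEq.sub_mem, smul_eq_mul, Ideal.mul_top]
    have h1 := hfd' m k hmk
    have h2 : f k - f m ∈ 𝔫 ^ m := Ideal.pow_le_pow_right (by omega) h1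
    have := Ideal.neg_mem_iff _ |>.2 h2
    convert this using 1
    ring)
  have hL' : ∀ k, f k - L ∈ 𝔫 ^ k := by
    intro k
    have := hL k
    rwa [SModEq.sub_mem, smul_eq_mul, Ideal.mul_top] at this
  have hLk : ∀ k, L - f k ∈ 𝔫 ^ (n + k + 1) := by
    intro k
    have h1 := hfd' k (n + k + 1) (by omega)
    have h2 := hL' (n + k + 1)
    have := Ideal.sub_mem _ h1 h2
    convert this using 1
    ring
  refine ⟨L, ?_, ?_⟩
  · intro m
    have h1 : L ∈ W p b 𝔫 (n + m) := W_congr (hfW m) (hLk m)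
    exact W_antitone (by omega) h1
  · have := hLk 0
    rwa [hf0, add_zero] at this

include hp hpn hspan hind in
theorem exists_V [IsAdicComplete 𝔫 A]
    (hAR : (p : A) = 0 ∨ ∃ c : ℕ, ∀ (n : ℕ) (x : A), (p : A) * x ∈ 𝔫 ^ (n + c) → x ∈ 𝔫 ^ n) :
    ∃ V : Subring A, (∀ x : A, ∃ v ∈ V, x - v ∈ 𝔫) ∧
      (∀ v ∈ V, v ∈ 𝔫 → ∃ w ∈ V, v = p * w) ∧
      (∀ (f : ℕ → A) (x : A), (∀ n, f n ∈ V) → (∀ n, f n - x ∈ 𝔫 ^ n) → x ∈ V) := by
  have hV : ∀ v, v ∈ (⨅ n, W p b 𝔫 n) ↔ ∀ n, v ∈ W p b 𝔫 n := fun v => Subring.mem_iInf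
  have hclosed : ∀ (f : ℕ → A) (x : A), (∀ n, f n ∈ (⨅ n, W p b 𝔫 n)) →
      (∀ n, f n - x ∈ 𝔫 ^ n) → x ∈ (⨅ n, W p b 𝔫 n) := by
    intro f x hf hx
    rw [hV]
    intro n
    refine W_congr ((hV _).1 (hf (n + 1)) n) ?_
    have := Ideal.neg_mem_iff _ |>.2 (hx (n + 1))
    convert this using 1
    ring
  have hzero : ∀ v : A, (∀ n, v ∈ 𝔫 ^ n) → v = 0 := by
    intro v hv
    refine IsHausdorff.haus (I := 𝔫) (M := A) inferInstance v fun n => ?_
    rw [SModEq.sub_mem, smul_eq_mul, Ideal.mul_top, sub_zero]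
    exact hv n
  refine ⟨⨅ n, W p b 𝔫 n, ?_, ?_, hclosed⟩
  · intro x
    have hx : x ∈ W p b 𝔫 0 := by
      rw [mem_W]
      refine ⟨x, ?_, by simp⟩
      have := pow_mem p b 0 x
      simpa using this
    obtain ⟨s, hs, hsx⟩ := W_surj (b := b) hpn hspan 0 hx
    refine ⟨s, (hV s).2 hs, ?_⟩
    rw [zero_add, pow_one] at hsx
    have := Ideal.neg_mem_iff _ |>.2 hsx
    convert this using 1
    ring
  · intro v hv hvn
    rw [hV] at hv
    have h1 : ∀ n, ∃ w, (∀ m, w ∈ W p b 𝔫 m) ∧ v - p * w ∈ 𝔫 ^ (n + 1) := by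
      intro n
      obtain ⟨s, hs, hvs⟩ := mem_W.1 (hv n)
      have hsn : s ∈ 𝔫 := by
        have h2 : v - s ∈ 𝔫 := Ideal.pow_le_self (by omega) hvs
        have := Ideal.sub_mem _ hvn h2
        simpa using this
      obtain ⟨t, ht, hst⟩ := key hp hpn hspan hind n hs hsn
      obtain ⟨w, hw, hwt⟩ := W_surj (b := b) hpn hspan n (v := t) (mem_W.2 ⟨t, ht, by simp⟩)
      refine ⟨w, hw, ?_⟩
      have h3 := Ideal.mul_mem_left _ (p : A) hwt
      have := Ideal.sub_mem _ (Ideal.add_mem _ hvs hst) h3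
      convert this using 1
      ring
    choose w hw hvw using h1
    rcases hAR with h0 | ⟨c, hc⟩
    · refine ⟨0, Subring.zero_mem _, ?_⟩
      rw [mul_zero]
      apply hzero
      intro n
      have := hvw n
      rw [h0, zero_mul, sub_zero] at this
      exact Ideal.pow_le_pow_right (by omega) this
    · have hcau : ∀ m k, m ≤ k → w (m + c) - w (k + c) ∈ 𝔫 ^ m := by
        intro m k hmk
        apply hc
        have e1 := hvw (m + c)
        have e2 := Ideal.pow_le_pow_right (by omega : m + c + 1 ≤ k + c + 1) (hvw (k + c))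
        have := Ideal.pow_le_pow_right (by omega : m + c ≤ m + c + 1) (Ideal.sub_mem _ e2 e1)
        convert this using 1
        ring
      obtain ⟨L, hL⟩ := IsPrecomplete.prec (I := 𝔫) (M := A) inferInstance
        (f := fun k => w (k + c)) (by
          intro m k hmk
          rw [SModEq.sub_mem, smul_eq_mul, Ideal.mul_top]
          exact hcau m k hmk)
      have hL' : ∀ k, w (k + c) - L ∈ 𝔫 ^ k := by
        intro k
        have := hL k
        rwa [SModEq.sub_mem, smul_eq_mul, Ideal.mul_top] at this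
      refine ⟨L, hclosed (fun k => w (k + c)) L (fun n => (hV _).2 (hw _)) hL', ?_⟩
      have : v - p * L = 0 := by
        apply hzero
        intro n
        have e1 := Ideal.pow_le_pow_right (by omega : n ≤ n + c + 1) (hvw (n + c))
        have e2 := Ideal.mul_mem_left _ (p : A) (hL' n)
        have := Ideal.add_mem _ e1 e2
        convert this using 1
        ring
      exact sub_eq_zero.1 this

end main

end CoeffRing

/-- The statement of task A1 for one field. -/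
def CoeffRing.HasPBasis (p : ℕ) (k : Type u) [Field k] : Prop :=
    ∃ (ι : Type u) (b : ι → k), ∀ n : ℕ,
      (∀ x : k, ∃ c : (ι →₀ ℕ) →₀ k, (∀ e ∈ c.support, ∀ j, e j < p ^ n) ∧
        x = c.sum fun e a => a ^ (p ^ n) * e.prod fun j m => b j ^ m) ∧
      (∀ c : (ι →₀ ℕ) →₀ k, (∀ e ∈ c.support, ∀ j, e j < p ^ n) →
        (c.sum fun e a => a ^ (p ^ n) * e.prod fun j m => b j ^ m) = 0 → c = 0)

open CoeffRing in
theorem exists_coefficient_subring_of_pbasis (p : ℕ) [Fact p.Prime] {A : Type u} [CommRing A]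
    (𝔫 : Ideal A) [IsAdicComplete 𝔫 A] (hmax : 𝔫.IsMaximal) (hp : (p : A) ∈ 𝔫)
    (hAR : (p : A) = 0 ∨ ∃ c : ℕ, ∀ (n : ℕ) (x : A), (p : A) * x ∈ 𝔫 ^ (n + c) → x ∈ 𝔫 ^ n)
    (hbasis : ∀ (k : Type u) [Field k] [CharP k p], HasPBasis p k) :
    ∃ V : Subring A, (∀ x : A, ∃ v ∈ V, x - v ∈ 𝔫) ∧
      (∀ v ∈ V, v ∈ 𝔫 → ∃ w ∈ V, v = p * w) ∧
      (∀ (f : ℕ → A) (x : A), (∀ n, f n ∈ V) → (∀ n, f n - x ∈ 𝔫 ^ n) → x ∈ V) := by
  classical
  have hpp : p.Prime := Fact.out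
  let _ : Field (A ⧸ 𝔫) := Ideal.Quotient.field 𝔫
  have : CharP (A ⧸ 𝔫) p := by
    have h0 : (p : A ⧸ 𝔫) = 0 := by
      have : Ideal.Quotient.mk 𝔫 (p : A) = 0 := Ideal.Quotient.eq_zero_iff_mem.2 hp
      simpa using this
    have := CharP.ringChar_of_prime_eq_zero hpp h0
    exact this ▸ ringChar.charP (A ⧸ 𝔫)
  obtain ⟨ι, γ, hγ⟩ := hbasis (A ⧸ 𝔫)
  -- a lift fixing 0
  have hlift : ∃ L : A ⧸ 𝔫 → A, L 0 = 0 ∧ ∀ x, Ideal.Quotient.mk 𝔫 (L x) = x := by
    refine ⟨fun x => if x = 0 then 0 else (Ideal.Quotient.mk_surjective x).choose, by simp, ?_⟩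
    intro x
    by_cases hx : x = 0
    · simp [hx]
    · simp only [hx, if_false]
      exact (Ideal.Quotient.mk_surjective x).choose_spec
  obtain ⟨L, hL0, hL⟩ := hlift
  have hred : ∀ (n : ℕ) (c : (ι →₀ ℕ) →₀ A), Ideal.Quotient.mk 𝔫 (ev p (fun j => L (γ j)) n c) =
      (c.mapRange (Ideal.Quotient.mk 𝔫) (map_zero _)).sum fun e a =>
        a ^ (p ^ n) * e.prod fun j m => γ j ^ m := by
    intro n c
    rw [Finsupp.sum_mapRange_index]
    · unfold ev mon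
      simp only [Finsupp.sum, Finsupp.prod, map_sum, map_mul, map_pow, map_prod, hL]
    · intro e
      rw [zero_pow (Nat.pow_pos hpp.pos).ne', zero_mul]
  refine exists_V (b := fun j => L (γ j)) hpp hp ?_ ?_ hAR
  · intro n x
    obtain ⟨c, _, hc⟩ := (hγ n).1 (Ideal.Quotient.mk 𝔫 x)
    refine ⟨c.mapRange L hL0, ?_⟩
    rw [← Ideal.Quotient.eq, hred]
    have : (c.mapRange L hL0).mapRange (Ideal.Quotient.mk 𝔫) (map_zero _) = c := by
      ext e
      simp only [Finsupp.mapRange_apply, hL]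
    rw [this]
    exact hc
  · intro n c hc hev e
    have h1 := hred n c
    rw [Ideal.Quotient.eq_zero_iff_mem.2 hev] at h1
    have h2 := (hγ n).2 (c.mapRange (Ideal.Quotient.mk 𝔫) (map_zero _)) (by
      intro e he j
      exact hc e (Finsupp.support_mapRange he) j) h1.symm
    have h3 : (c.mapRange (Ideal.Quotient.mk 𝔫) (map_zero _)) e = 0 := by rw [h2]; rfl
    rw [Finsupp.mapRange_apply] at h3
    exact Ideal.Quotient.eq_zero_iff_mem.1 h3

theorem exists_coefficient_subring (p : ℕ) [Fact p.Prime] {A : Type u} [CommRing A]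
    (𝔫 : Ideal A) [IsAdicComplete 𝔫 A] (hmax : 𝔫.IsMaximal) (hp : (p : A) ∈ 𝔫)
    (hAR : (p : A) = 0 ∨ ∃ c : ℕ, ∀ (n : ℕ) (x : A), (p : A) * x ∈ 𝔫 ^ (n + c) → x ∈ 𝔫 ^ n) :
    ∃ V : Subring A, (∀ x : A, ∃ v ∈ V, x - v ∈ 𝔫) ∧
      (∀ v ∈ V, v ∈ 𝔫 → ∃ w ∈ V, v = p * w) ∧
      (∀ (f : ℕ → A) (x : A), (∀ n, f n ∈ V) → (∀ n, f n - x ∈ 𝔫 ^ n) → x ∈ V) :=
  exists_coefficient_subring_of_pbasis p 𝔫 hmax hp hAR fun k _ _ => exists_pbasis p k

end Pool.Agent.W_cbb711
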