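import Mathlib
import Pool.Agent.W_cbb711.ExistsNorm
import Pool.Agent.W_cbb711b.Defs
import Pool.Agent.W_cbb711b.CoeffRing
import Pool.Agent.W_cbb711b.CoeffField0

/-!
# Existence of coefficient rings (task K1 of MP_cbb711_ag)
-/

set_option autoImplicit false

universe u

namespace Pool.Agent.W_cbb711

open IsLocalRing Filter TensorProduct RingTheory.Sequence

namespace CoeffRingPack

theorem smodEq_iff {A : Type u} [CommRing A] (I : Ideal A) (n : ℕ) (x y : A) :
    x ≡ y [SMOD (I ^ n • ⊤ : Submodule A A)] ↔ x - y ∈ I ^ n := by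
  rw [SModEq.sub_mem, Ideal.smul_eq_mul, Ideal.mul_top]

theorem haus {A : Type u} [CommRing A] {I : Ideal A} (h : IsHausdorff I A) {x : A}
    (hx : ∀ n, x ∈ I ^ n) : x = 0 := by
  refine h.haus x fun n => ?_
  rw [smodEq_iff, sub_zero]
  exact hx n

theorem prec {A : Type u} [CommRing A] {I : Ideal A} (h : IsPrecomplete I A) (f : ℕ → A)
    (hf : ∀ m n, m ≤ n → f m - f n ∈ I ^ m) : ∃ L, ∀ n, f n - L ∈ I ^ n := by
  obtain ⟨L, hL⟩ := h.prec' f fun {m n} hmn => (smodEq_iff I m _ _).2 (hf m n hmn)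
  exact ⟨L, fun n => (smodEq_iff I n _ _).1 (hL n)⟩

/-- Artin-Rees for a principal ideal of a Noetherian domain. -/
theorem artinRees_domain {A : Type u} [CommRing A] [IsDomain A] [IsNoetherianRing A] (I : Ideal A)
    (p : A) (hp : p ≠ 0) : ∃ c : ℕ, ∀ (n : ℕ) (x : A), p * x ∈ I ^ (n + c) → x ∈ I ^ n := by
  obtain ⟨c, hc⟩ := Ideal.exists_pow_inf_eq_pow_smul I (Ideal.span {p} : Submodule A A)
  refine ⟨c, fun n x hx => ?_⟩
  have h1 := hc (n + c) (Nat.le_add_left c n)
  rw [Nat.add_sub_cancel] at h1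
  have h2 : p * x ∈ (I ^ (n + c) • ⊤ ⊓ (Ideal.span {p} : Submodule A A) : Submodule A A) := by
    refine ⟨?_, Ideal.mul_mem_right _ _ (Ideal.mem_span_singleton_self p)⟩
    rw [Ideal.smul_eq_mul, Ideal.mul_top]
    exact hx
  rw [h1] at h2
  have h3 : p * x ∈ I ^ n * Ideal.span {p} := by
    have h4 : (I ^ n • (I ^ c • ⊤ ⊓ (Ideal.span {p} : Submodule A A)) : Submodule A A) ≤
        I ^ n • (Ideal.span {p} : Submodule A A) := Submodule.smul_mono le_rfl inf_le_right
    exact h4 h2
  rw [Ideal.mem_mul_span_singleton] at h3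
  obtain ⟨z, hz, hzx⟩ := h3
  have : x = z := by
    apply mul_left_cancel₀ hp
    rw [← hzx, mul_comm]
  rw [this]
  exact hz

section

variable {A : Type u} [CommRing A] [IsDomain A] [IsLocalRing A] {V : Subring A} {p : ℕ}

omit [IsDomain A] in
theorem isUnit_of_notMem
    (h1 : ∀ x : A, ∃ v ∈ V, x - v ∈ maximalIdeal A)
    (h3 : ∀ (f : ℕ → A) (x : A), (∀ n, f n ∈ V) → (∀ n, f n - x ∈ maximalIdeal A ^ n) → x ∈ V)
    (v : V) (hv : (v : A) ∉ maximalIdeal A) : IsUnit v := by
  have hu : IsUnit (v : A) := by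
    by_contra h
    exact hv ((mem_maximalIdeal _).2 h)
  obtain ⟨a, ha⟩ := hu.exists_right_inv
  obtain ⟨w, hw, hwa⟩ := h1 a
  have hm : (v : A) * w - 1 ∈ maximalIdeal A := by
    have : (v : A) * w - 1 = (v : A) * -(a - w) := by
      rw [mul_neg, mul_sub, ha]; ring
    rw [this]
    exact Ideal.mul_mem_left _ _ (neg_mem hwa)
  set m : A := 1 - (v : A) * w with hmdef
  have hm' : m ∈ maximalIdeal A := by
    have : m = -((v : A) * w - 1) := by rw [hmdef]; ring
    rw [this]
    exact neg_mem hm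
  have hmV : m ∈ V := V.sub_mem V.one_mem (V.mul_mem v.2 hw)
  have hu2 : IsUnit (1 - m) := by
    by_contra h
    have h4 := (mem_maximalIdeal _).2 h
    have h5 : (1 : A) ∈ maximalIdeal A := by
      have : (1 : A) = (1 - m) + m := by ring
      rw [this]
      exact Ideal.add_mem _ h4 hm'
    exact (Ideal.ne_top_iff_one _).1 (maximalIdeal.isMaximal A).ne_top h5
  obtain ⟨u, hu⟩ := hu2.exists_right_inv
  have huV : u ∈ V := by
    refine h3 (fun n => ∑ k ∈ Finset.range n, m ^ k) u
      (fun n => V.sum_mem fun k _ => V.pow_mem hmV k) fun n => ?_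
    have h4 : (∑ k ∈ Finset.range n, m ^ k) * (1 - m) = 1 - m ^ n := by
      rw [geom_sum_mul_neg]
    have h5 : ∑ k ∈ Finset.range n, m ^ k - u = -(u * m ^ n) := by
      have h6 : ∑ k ∈ Finset.range n, m ^ k =
          ((∑ k ∈ Finset.range n, m ^ k) * (1 - m)) * u := by
        rw [mul_assoc, hu, mul_one]
      rw [h6, h4]
      ring
    rw [h5]
    exact neg_mem (Ideal.mul_mem_left _ _ (Ideal.pow_mem_pow hm' n))
  refine IsUnit.of_mul_eq_one (⟨w, hw⟩ * ⟨u, huV⟩) ?_
  apply Subtype.ext
  show (v : A) * (w * u) = 1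
  rw [← mul_assoc]
  have : (v : A) * w = 1 - m := by rw [hmdef]; ring
  rw [this, hu]

theorem isLocalRing
    (h1 : ∀ x : A, ∃ v ∈ V, x - v ∈ maximalIdeal A)
    (h3 : ∀ (f : ℕ → A) (x : A), (∀ n, f n ∈ V) → (∀ n, f n - x ∈ maximalIdeal A ^ n) → x ∈ V) :
    IsLocalRing V := by
  refine IsLocalRing.of_isUnit_or_isUnit_one_sub_self fun v => ?_
  by_cases hv : (v : A) ∈ maximalIdeal A
  · right
    refine isUnit_of_notMem h1 h3 _ fun h => ?_
    have h5 : (1 : A) ∈ maximalIdeal A := by
      have : (1 : A) = ((1 - v : V) : A) + (v : A) := by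
        show (1 : A) = (1 - (v : A)) + v
        ring
      rw [this]
      exact Ideal.add_mem _ h hv
    exact (Ideal.ne_top_iff_one _).1 (maximalIdeal.isMaximal A).ne_top h5
  · exact Or.inl (isUnit_of_notMem h1 h3 v hv)

theorem mem_max [IsLocalRing V]
    (h1 : ∀ x : A, ∃ v ∈ V, x - v ∈ maximalIdeal A)
    (h3 : ∀ (f : ℕ → A) (x : A), (∀ n, f n ∈ V) → (∀ n, f n - x ∈ maximalIdeal A ^ n) → x ∈ V)
    (v : V) : v ∈ maximalIdeal V ↔ (v : A) ∈ maximalIdeal A := by
  constructor
  · intro h
    by_contra hv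
    exact (mem_maximalIdeal _).1 h (isUnit_of_notMem h1 h3 v hv)
  · intro h
    rw [mem_maximalIdeal, mem_nonunits_iff]
    intro hu
    have hu2 : IsUnit (v : A) := hu.map V.subtype
    exact (mem_maximalIdeal _).1 h hu2

end

/-- The coefficient ring in residue characteristic `p`. -/
theorem of_subring (A : Type) [CommRing A] [IsDomain A] [IsLocalRing A]
    [IsNoetherianRing A] (hA : IsAdicComplete (maximalIdeal A) A) (p : ℕ) (hp : p.Prime)
    (hpA : (p : A) ∈ maximalIdeal A) (V : Subring A)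
    (h1 : ∀ x : A, ∃ v ∈ V, x - v ∈ maximalIdeal A)
    (h2 : ∀ v ∈ V, v ∈ maximalIdeal A → ∃ w ∈ V, v = p * w)
    (h3 : ∀ (f : ℕ → A) (x : A), (∀ n, f n ∈ V) → (∀ n, f n - x ∈ maximalIdeal A ^ n) → x ∈ V) :
    ∃ (Λ : Type) (_ : CommRing Λ) (_ : IsDomain Λ) (_ : IsLocalRing Λ) (_ : IsNoetherianRing Λ)
      (_ : IsAdicComplete (maximalIdeal Λ) Λ) (f : Λ →+* A),
      Function.Injective f ∧ (∀ a ∈ maximalIdeal Λ, f a ∈ maximalIdeal A) ∧
      (∀ x : A, ∃ a : Λ, x - f a ∈ maximalIdeal A) ∧
      (IsField Λ ∨ ∃ p : ℕ, p.Prime ∧ (p : Λ) ≠ 0 ∧ maximalIdeal Λ = Ideal.span {(p : Λ)}) := by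
  have hloc : IsLocalRing V := isLocalRing h1 h3
  have hmem := mem_max (V := V) h1 h3
  have hcast : ((p : V) : A) = p := rfl
  have hmax : maximalIdeal V = Ideal.span {(p : V)} := by
    apply le_antisymm
    · intro v hv
      obtain ⟨w, hw, hvw⟩ := h2 v v.2 ((hmem v).1 hv)
      rw [Ideal.mem_span_singleton]
      exact ⟨⟨w, hw⟩, Subtype.ext hvw⟩
    · rw [Ideal.span_le, Set.singleton_subset_iff]
      exact (hmem _).2 hpA
  have hsurj : ∀ x : A, ∃ a : V, x - V.subtype a ∈ maximalIdeal A := by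
    intro x
    obtain ⟨v, hv, hx⟩ := h1 x
    exact ⟨⟨v, hv⟩, hx⟩
  have hinj : Function.Injective V.subtype := Subtype.val_injective
  by_cases hp0 : (p : A) = 0
  · -- a field
    have hbot : maximalIdeal V = ⊥ := by
      rw [hmax]
      have : (p : V) = 0 := Subtype.ext (by rw [hcast, hp0]; rfl)
      rw [this]
      simp
    have hF : IsField V := isField_iff_maximalIdeal_eq.2 hbot
    have hN : IsNoetherianRing V := by
      rw [isNoetherianRing_iff_ideal_fg]
      intro I
      by_cases hI : I = ⊤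
      · rw [hI]
        exact ⟨{1}, by simp⟩
      · have : I = ⊥ := le_bot_iff.1 (hbot ▸ le_maximalIdeal hI)
        rw [this]
        exact Submodule.fg_bot
    have hC : IsAdicComplete (maximalIdeal V) V := by
      rw [hbot]
      infer_instance
    exact ⟨V, inferInstance, inferInstance, hloc, hN, hC, V.subtype, hinj,
      fun a ha => (hmem a).1 ha, hsurj, Or.inl hF⟩
  · -- a discrete valuation ring
    have hpV : (p : V) ≠ 0 := by
      intro h
      apply hp0
      rw [← hcast, h]
      rfl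
    have hmax_ne : ∀ n, ¬ ((p : A) ^ n = 0) := fun n => pow_ne_zero n hp0
    have hfact : ∀ v : V, v ≠ 0 → ∃ (n : ℕ) (w : V), IsUnit w ∧ v = (p : V) ^ n * w := by
      intro v hv
      have hex : ∃ n, ¬ (p : V) ^ n ∣ v := by
        by_contra hcon
        push Not at hcon
        apply hv
        apply Subtype.ext
        show (v : A) = 0
        refine haus hA.toIsHausdorff fun n => ?_
        obtain ⟨w, hw⟩ := hcon n
        rw [hw]
        show ((p : A) ^ n) * (w : A) ∈ _
        exact Ideal.mul_mem_right _ _ (Ideal.pow_mem_pow hpA n)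
      classical
      have hn := Nat.find_spec hex
      have hn0 : Nat.find hex ≠ 0 := by
        intro h
        rw [h, pow_zero] at hn
        exact hn (one_dvd v)
      obtain ⟨k, hk⟩ := Nat.exists_eq_succ_of_ne_zero hn0
      have hk' : (p : V) ^ k ∣ v := by
        by_contra hcon
        have := Nat.find_min' hex hcon
        omega
      obtain ⟨w, hw⟩ := hk'
      refine ⟨k, w, ?_, hw⟩
      by_contra hwu
      have hwm : w ∈ maximalIdeal V := (mem_maximalIdeal _).2 hwu
      rw [hmax, Ideal.mem_span_singleton] at hwm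
      obtain ⟨w', hw'⟩ := hwm
      apply hn
      rw [hk]
      refine ⟨w', ?_⟩
      rw [hw, hw', Nat.succ_eq_add_one, pow_succ, mul_assoc]
    have hirr : Irreducible (p : V) := by
      have hprime : Prime (p : V) := by
        rw [← Ideal.span_singleton_prime hpV, ← hmax]
        exact (maximalIdeal.isMaximal V).isPrime
      exact hprime.irreducible
    have hDVR : IsDiscreteValuationRing V := by
      refine IsDiscreteValuationRing.ofHasUnitMulPowIrreducibleFactorization ⟨(p : V), hirr, ?_⟩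
      intro x hx
      obtain ⟨n, w, hw, hxw⟩ := hfact x hx
      refine ⟨n, ⟨hw.unit, ?_⟩⟩
      rw [hxw, IsUnit.unit_spec]
    have hN : IsNoetherianRing V := inferInstance
    have hpow : ∀ (n : ℕ) (v : V), v ∈ maximalIdeal V ^ n ↔ (p : V) ^ n ∣ v := by
      intro n v
      rw [hmax, Ideal.span_singleton_pow, Ideal.mem_span_singleton]
    have hpowA : ∀ (n : ℕ) (v : V), v ∈ maximalIdeal V ^ n → (v : A) ∈ maximalIdeal A ^ n := by
      intro n v hv
      obtain ⟨w, hw⟩ := (hpow n v).1 hv
      rw [hw]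
      show ((p : A) ^ n) * (w : A) ∈ _
      exact Ideal.mul_mem_right _ _ (Ideal.pow_mem_pow hpA n)
    have hH : IsHausdorff (maximalIdeal V) V := by
      refine ⟨fun x hx => ?_⟩
      apply Subtype.ext
      show (x : A) = 0
      refine haus hA.toIsHausdorff fun n => hpowA n x ?_
      have := hx n
      rwa [smodEq_iff, sub_zero] at this
    have hP : IsPrecomplete (maximalIdeal V) V := by
      refine ⟨fun f hf => ?_⟩
      have hf' : ∀ m n, m ≤ n → f m - f n ∈ maximalIdeal V ^ m := by
        intro m n hmn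
        exact (smodEq_iff _ _ _ _).1 (hf hmn)
      obtain ⟨L, hL⟩ := prec hA.toIsPrecomplete (fun n => (f n : A)) fun m n hmn =>
        hpowA m _ (hf' m n hmn)
      have hLV : L ∈ V := h3 (fun n => (f n : A)) L (fun n => (f n).2) hL
      refine ⟨⟨L, hLV⟩, fun n => ?_⟩
      rw [smodEq_iff, hpow]
      by_cases hzero : f n - ⟨L, hLV⟩ = 0
      · rw [hzero]
        exact dvd_zero _
      obtain ⟨k, u, hu, hk⟩ := hfact _ hzero
      by_cases hkn : n ≤ k
      · rw [hk]
        exact Dvd.dvd.mul_right (pow_dvd_pow _ hkn) _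
      exfalso
      push Not at hkn
      -- `p ^ k` is in all powers of the maximal ideal
      apply hmax_ne k
      refine haus hA.toIsHausdorff fun m => ?_
      -- take `m' ≥ n, m`
      have hm1 : n ≤ max n m := le_max_left _ _
      obtain ⟨w, hw⟩ := (hpow n _).1 (hf' n (max n m) hm1)
      have hunit : IsUnit ((p : V) ^ (n - k) * w - u) := by
        have h5 : (p : V) ^ (n - k) * w ∈ maximalIdeal V := by
          refine Ideal.mul_mem_right _ _ ?_
          have h6 : n - k = (n - k - 1) + 1 := by omega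
          rw [h6, pow_succ]
          refine Ideal.mul_mem_left _ _ ?_
          rw [hmax]
          exact Ideal.mem_span_singleton_self _
        by_contra hcon
        have h7 : (p : V) ^ (n - k) * w - u ∈ maximalIdeal V := (mem_maximalIdeal _).2 hcon
        have h8 : u ∈ maximalIdeal V := by
          have : u = (p : V) ^ (n - k) * w - ((p : V) ^ (n - k) * w - u) := by ring
          rw [this]
          exact Ideal.sub_mem _ h5 h7
        exact (mem_maximalIdeal _).1 h8 hu
      have heq : (⟨L, hLV⟩ : V) - f (max n m) = (p : V) ^ k * ((p : V) ^ (n - k) * w - u) := by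
        have h5 : (p : V) ^ n = (p : V) ^ k * (p : V) ^ (n - k) := by
          rw [← pow_add]
          congr 1
          omega
        have h6 : (⟨L, hLV⟩ : V) - f (max n m) =
            (f n - f (max n m)) - (f n - ⟨L, hLV⟩) := by ring
        rw [h6, hw, hk, h5]
        ring
      obtain ⟨t, ht⟩ := hunit.exists_right_inv
      have heq2 : (p : V) ^ k = ((⟨L, hLV⟩ : V) - f (max n m)) * t := by
        rw [heq, mul_assoc, ht, mul_one]
      have heq3 : (p : A) ^ k = (L - (f (max n m) : A)) * (t : A) :=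
        congrArg (Subtype.val) heq2
      rw [heq3]
      refine Ideal.mul_mem_right _ _ ?_
      have h9 : L - (f (max n m) : A) = -((f (max n m) : A) - L) := by ring
      rw [h9]
      exact neg_mem (Ideal.pow_le_pow_right (le_max_right n m) (hL (max n m)))
    have hC : IsAdicComplete (maximalIdeal V) V := { toIsHausdorff := hH, toIsPrecomplete := hP }
    exact ⟨V, inferInstance, inferInstance, hloc, hN, hC, V.subtype, hinj,
      fun a ha => (hmem a).1 ha, hsurj, Or.inr ⟨p, hp, hpV, hmax⟩⟩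

end CoeffRingPack

open CoeffRingPack in
theorem exists_coefficientRing (A : Type) [CommRing A] [IsDomain A] [IsLocalRing A]
    [IsNoetherianRing A] (hA : IsAdicComplete (maximalIdeal A) A) :
    ∃ (Λ : Type) (_ : CommRing Λ) (_ : IsDomain Λ) (_ : IsLocalRing Λ) (_ : IsNoetherianRing Λ)
      (_ : IsAdicComplete (maximalIdeal Λ) Λ) (f : Λ →+* A),
      Function.Injective f ∧ (∀ a ∈ maximalIdeal Λ, f a ∈ maximalIdeal A) ∧
      (∀ x : A, ∃ a : Λ, x - f a ∈ maximalIdeal A) ∧
      (IsField Λ ∨ ∃ p : ℕ, p.Prime ∧ (p : Λ) ≠ 0 ∧ maximalIdeal Λ = Ideal.span {(p : Λ)}) := by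
  obtain ⟨p, hp⟩ := CharP.exists (ResidueField A)
  rcases CharP.char_is_prime_or_zero (ResidueField A) p with hprime | h0
  · have : Fact p.Prime := ⟨hprime⟩
    have hpA : (p : A) ∈ maximalIdeal A := by
      rw [← residue_eq_zero_iff, map_natCast]
      exact CharP.cast_eq_zero _ p
    have hAR : (p : A) = 0 ∨ ∃ c : ℕ, ∀ (n : ℕ) (x : A),
        (p : A) * x ∈ maximalIdeal A ^ (n + c) → x ∈ maximalIdeal A ^ n := by
      by_cases h : (p : A) = 0
      · exact Or.inl h
      · exact Or.inr (artinRees_domain _ _ h)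
    have := hA
    obtain ⟨V, h1, h2, h3⟩ := exists_coefficient_subring p (maximalIdeal A)
      (maximalIdeal.isMaximal A) hpA hAR
    exact of_subring A hA p hprime hpA V h1 h2 h3
  · subst h0
    have hc : CharZero (ResidueField A) := CharP.charP_to_charZero _
    obtain ⟨σ, hσ⟩ := exists_coefficientField_charZero hA hc
    have hbot : maximalIdeal (ResidueField A) = ⊥ :=
      isField_iff_maximalIdeal_eq.1 (Field.toIsField (ResidueField A))
    have hC : IsAdicComplete (maximalIdeal (ResidueField A)) (ResidueField A) := by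
      rw [hbot]
      infer_instance
    refine ⟨ResidueField A, inferInstance, inferInstance, inferInstance, inferInstance, hC, σ,
      σ.injective, ?_, ?_, Or.inl (Field.toIsField _)⟩
    · intro a ha
      rw [hbot] at ha
      rw [(Submodule.mem_bot _).1 ha, map_zero]
      exact Ideal.zero_mem _
    · intro x
      refine ⟨residue A x, ?_⟩
      rw [← residue_eq_zero_iff, map_sub, hσ, sub_self]

end Pool.Agent.W_cbb711
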