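import Mathlib
import Pool.Agent.W_cbb711b.Defs

set_option autoImplicit false
set_option linter.style.haveILetI false
universe u
namespace Pool.Agent.W_cbb711
open IsLocalRing Filter TensorProduct RingTheory.Sequence

/-- A maximal subfield containing all `p`-th powers and not containing `b`. -/
theorem SGPField_max (p : ℕ) [Fact p.Prime] (K : Type u) [Field K] [CharP K p] (b : K)
    (hb : ∀ x : K, x ^ p ≠ b) :
    ∃ E : Subfield K, (∀ x : K, x ^ p ∈ E) ∧ b ∉ E ∧
      ∀ E' : Subfield K, E ≤ E' → b ∉ E' → E' = E := by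
  haveI : ExpChar K p := ExpChar.prime Fact.out
  have H1 : ∀ c ⊆ {E : Subfield K | (∀ x : K, x ^ p ∈ E) ∧ b ∉ E}, IsChain (· ≤ ·) c → ∀ y ∈ c,
      ∃ ub ∈ {E : Subfield K | (∀ x : K, x ^ p ∈ E) ∧ b ∉ E}, ∀ z ∈ c, z ≤ ub := by
    intro c hc hchain y hy
    refine ⟨sSup c, ⟨fun x => ?_, ?_⟩, fun z hz => le_sSup hz⟩
    · exact (le_sSup hy : y ≤ sSup c) ((hc hy).1 x)
    · rw [Subfield.mem_sSup_of_directedOn ⟨y, hy⟩ hchain.directedOn]
      rintro ⟨s, hs, hbs⟩
      exact (hc hs).2 hbs
  have H2 : (frobenius K p).fieldRange ∈ {E : Subfield K | (∀ x : K, x ^ p ∈ E) ∧ b ∉ E} :=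
    ⟨fun x => ⟨x, rfl⟩, by rintro ⟨x, hx⟩; exact hb x hx⟩
  obtain ⟨E, hE, hmax⟩ := zorn_le_nonempty₀ _ H1 _ H2
  refine ⟨E, hmax.prop.1, hmax.prop.2, fun E' h1 h2 => ?_⟩
  exact le_antisymm (hmax.le_of_ge ⟨fun x => h1 (hmax.prop.1 x), h2⟩ h1) h1

theorem SGPField_minpoly (p : ℕ) [Fact p.Prime] (K : Type u) [Field K] [CharP K p]
    (E : Subfield K) (hE : ∀ x : K, x ^ p ∈ E) (x : K) (hx : x ∉ E) :
    IsIntegral E x ∧ minpoly E x = Polynomial.X ^ p - Polynomial.C (⟨x ^ p, hE x⟩ : E) := by
  haveI : ExpChar K p := ExpChar.prime Fact.out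
  have hp : p.Prime := Fact.out
  have hirr : Irreducible (Polynomial.X ^ p - Polynomial.C (⟨x ^ p, hE x⟩ : E)) := by
    refine X_pow_sub_C_irreducible_of_prime hp fun y hy => hx ?_
    have h1 : (y : K) ^ p = x ^ p := by
      have := congrArg (algebraMap E K) hy
      rw [map_pow] at this
      exact this
    have h2 : (y : K) = x := frobenius_inj K p h1
    rw [← h2]; exact y.2
  have hmonic : (Polynomial.X ^ p - Polynomial.C (⟨x ^ p, hE x⟩ : E)).Monic :=
    Polynomial.monic_X_pow_sub_C _ hp.ne_zero
  have heval : Polynomial.aeval x (Polynomial.X ^ p - Polynomial.C (⟨x ^ p, hE x⟩ : E)) = 0 := by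
    rw [map_sub, map_pow, Polynomial.aeval_X, Polynomial.aeval_C]
    exact sub_self _
  exact ⟨⟨_, hmonic, heval⟩, (minpoly.eq_of_irreducible_of_monic hirr heval hmonic).symm⟩

theorem SGPField_finrank (p : ℕ) [Fact p.Prime] (K : Type u) [Field K] [CharP K p]
    (E : Subfield K) (hE : ∀ x : K, x ^ p ∈ E) (x : K) (hx : x ∉ E) :
    Module.finrank E (IntermediateField.adjoin E {x}) = p := by
  obtain ⟨h1, h2⟩ := SGPField_minpoly p K E hE x hx
  rw [IntermediateField.adjoin.finrank h1, h2, Polynomial.natDegree_X_pow_sub_C]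

theorem SGP_field (p : ℕ) [Fact p.Prime] (K : Type u) [Field K] [CharP K p] : SGP p K := by
  have hp : p.Prime := Fact.out
  intro b hb
  by_contra hcon
  push Not at hcon
  obtain ⟨E, hE, hbE, hmax⟩ := SGPField_max p K b hcon
  have hpe := SGPField_minpoly p K E hE b hbE
  have hadj : ∀ x : K, x ∈ IntermediateField.adjoin E {b} := by
    intro x
    by_cases hx : x ∈ E
    · exact (IntermediateField.adjoin E {b}).algebraMap_mem ⟨x, hx⟩
    · have hbx : b ∈ IntermediateField.adjoin E {x} := by
        by_contra hcon2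
        have h3 := hmax (IntermediateField.adjoin E {x}).toSubfield
          (fun y hy => (IntermediateField.adjoin E {x}).algebraMap_mem ⟨y, hy⟩) hcon2
        apply hx
        rw [← h3]
        exact IntermediateField.mem_adjoin_simple_self E x
      have hle : IntermediateField.adjoin E {b} ≤ IntermediateField.adjoin E {x} := by
        rw [IntermediateField.adjoin_simple_le_iff]; exact hbx
      haveI : FiniteDimensional E (IntermediateField.adjoin E {x}) :=
        IntermediateField.adjoin.finiteDimensional (SGPField_minpoly p K E hE x hx).1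
      have heq := IntermediateField.eq_of_le_of_finrank_eq hle
        (by rw [SGPField_finrank p K E hE b hbE, SGPField_finrank p K E hE x hx])
      rw [heq]
      exact IntermediateField.mem_adjoin_simple_self E x
  have htop : Algebra.adjoin E {b} = ⊤ := by
    rw [← IntermediateField.adjoin_simple_toSubalgebra_of_isAlgebraic hpe.1.isAlgebraic, eq_top_iff]
    intro x _
    exact hadj x
  have hd : KaehlerDifferential.D E K b ≠ 0 := by
    intro h0
    have hD : KaehlerDifferential.D E K = 0 :=
      Derivation.ext_of_adjoin_eq_top {b} htop (by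
        intro y hy
        rw [Set.mem_singleton_iff.1 hy, h0]; rfl)
    have hsub : Subsingleton (Ω[K⁄E]) := by
      have h1 := KaehlerDifferential.span_range_derivation E K
      have h2 : Set.range (KaehlerDifferential.D E K) ⊆ {0} := by
        rintro _ ⟨y, rfl⟩
        rw [hD]; rfl
      have h3 : (⊤ : Submodule K (Ω[K⁄E])) ≤ ⊥ := by
        rw [← h1, Submodule.span_le]
        exact h2
      exact (Submodule.subsingleton_iff K).1 (subsingleton_of_bot_eq_top (le_antisymm bot_le h3))
    haveI hunr : Algebra.FormallyUnramified E K := ⟨hsub⟩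
    haveI hfin : Module.Finite E K := by
      have h1 : IntermediateField.adjoin E {b} = ⊤ := eq_top_iff.2 fun x _ => hadj x
      haveI : FiniteDimensional E (IntermediateField.adjoin E {b}) :=
        IntermediateField.adjoin.finiteDimensional hpe.1
      rw [h1] at this
      exact Module.Finite.equiv IntermediateField.topEquiv.toLinearEquiv
    have hsep : Algebra.IsSeparable E K := (Algebra.FormallyUnramified.iff_isSeparable E K).1 hunr
    have h5 : (minpoly E b).Separable := Algebra.IsSeparable.isSeparable E b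
    rw [hpe.2] at h5
    have h6 : Polynomial.derivative (Polynomial.X ^ p - Polynomial.C (⟨b ^ p, hE b⟩ : E)) = 0 := by
      haveI : CharP E p := (algebraMap E K).charP (algebraMap E K).injective p
      rw [Polynomial.derivative_sub, Polynomial.derivative_X_pow, Polynomial.derivative_C,
        CharP.cast_eq_zero, Polynomial.C_0, zero_mul, sub_zero]
    have h7 : IsUnit (Polynomial.X ^ p - Polynomial.C (⟨b ^ p, hE b⟩ : E)) := by
      unfold Polynomial.Separable at h5
      rw [h6] at h5
      exact isCoprime_zero_right.1 h5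
    have h8 := Polynomial.natDegree_eq_zero_of_isUnit h7
    rw [Polynomial.natDegree_X_pow_sub_C] at h8
    exact hp.ne_zero h8
  have hf : ∃ f : Module.Dual K (Ω[K⁄E]), f (KaehlerDifferential.D E K b) ≠ 0 := by
    by_contra hcon3
    push Not at hcon3
    exact hd ((Module.forall_dual_apply_eq_zero_iff K _).1 hcon3)
  obtain ⟨f, hf⟩ := hf
  exact hf (hb ((f.compDer (KaehlerDifferential.D E K)).restrictScalars ℤ))

theorem SGPField_ofAdd {R : Type u} [CommRing R] (b : R)
    (hb : ∀ D : Derivation ℤ R R, D b = 0) (f : R →+ R)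
    (hf : ∀ x y, f (x * y) = x * f y + y * f x) : f b = 0 :=
  hb { toLinearMap := f.toIntLinearMap
       map_one_eq_zero' := by
        have h := hf 1 1
        simp only [one_mul] at h
        exact left_eq_add.1 h
       leibniz' := hf }

/-- The additive map of power series given by an additive map of the coefficients. -/
noncomputable def SGPField_coeffMap {A : Type u} [CommRing A] (D : A →+ A) :
    PowerSeries A →+ PowerSeries A where
  toFun f := PowerSeries.mk fun n => D (PowerSeries.coeff n f)
  map_zero' := by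
    ext n
    simp only [PowerSeries.coeff_mk, map_zero]
  map_add' f g := by
    ext n
    simp only [PowerSeries.coeff_mk, map_add]

theorem SGPField_coeffMap_apply {A : Type u} [CommRing A] (D : A →+ A)
    (f : PowerSeries A) (n : ℕ) :
    PowerSeries.coeff n (SGPField_coeffMap D f) = D (PowerSeries.coeff n f) :=
  PowerSeries.coeff_mk n fun n => D (PowerSeries.coeff n f)

theorem SGPField_coeffMap_mul {A : Type u} [CommRing A] (D : A →+ A)
    (hD : ∀ x y, D (x * y) = x * D y + y * D x) (f g : PowerSeries A) :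
    SGPField_coeffMap D (f * g) = f * SGPField_coeffMap D g + g * SGPField_coeffMap D f := by
  ext n
  rw [mul_comm g, SGPField_coeffMap_apply, map_add, PowerSeries.coeff_mul, map_sum,
    PowerSeries.coeff_mul, PowerSeries.coeff_mul, ← Finset.sum_add_distrib]
  refine Finset.sum_congr rfl fun ij _ => ?_
  rw [hD, SGPField_coeffMap_apply, SGPField_coeffMap_apply]
  ring

/-- Frobenius of a power series. -/
theorem SGPField_pow (p : ℕ) [Fact p.Prime] {A : Type u} [CommRing A] [CharP A p]
    (f : PowerSeries A) (n : ℕ) :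
    PowerSeries.coeff n (f ^ p) = if p ∣ n then PowerSeries.coeff (n / p) f ^ p else 0 := by
  have hp : p.Prime := Fact.out
  haveI : ExpChar A p := ExpChar.prime Fact.out
  have h1 : PowerSeries.coeff n (f ^ p) =
      PowerSeries.coeff n (((PowerSeries.trunc (n + 1) f : Polynomial A) : PowerSeries A) ^ p) := by
    rw [← PowerSeries.coeff_coe_trunc_of_lt (Nat.lt_succ_self n),
      ← PowerSeries.coeff_coe_trunc_of_lt (f := _ ^ p) (Nat.lt_succ_self n)]
    rw [PowerSeries.trunc_trunc_pow]
  rw [h1, ← Polynomial.coe_pow, Polynomial.coeff_coe, ← Polynomial.map_frobenius_expand,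
    Polynomial.coeff_map, Polynomial.coeff_expand hp.pos]
  split_ifs with h
  · rw [PowerSeries.coeff_trunc, if_pos (lt_of_le_of_lt (Nat.div_le_self n p) (Nat.lt_succ_self n))]
    rfl
  · exact map_zero _

theorem SGP.powerSeries (p : ℕ) [Fact p.Prime] {A : Type u} [CommRing A] [IsDomain A] [CharP A p]
    (h : SGP p A) : SGP p (PowerSeries A) := by
  have hp : p.Prime := Fact.out
  intro b hb
  have h1 : ∀ n, ∃ x : A, x ^ p = PowerSeries.coeff n b := by
    intro n
    refine h _ fun D => ?_
    have h3 := SGPField_ofAdd b hb (SGPField_coeffMap (D : A →ₗ[ℤ] A).toAddMonoidHom)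
      (SGPField_coeffMap_mul _ fun x y => D.leibniz x y)
    have h4 := SGPField_coeffMap_apply (D : A →ₗ[ℤ] A).toAddMonoidHom b n
    rw [h3, map_zero] at h4
    exact h4.symm
  choose x hx using h1
  have h2 : ∀ n, ¬ p ∣ n → PowerSeries.coeff n b = 0 := by
    intro n hn
    have hn0 : n ≠ 0 := fun h0 => hn (h0 ▸ dvd_zero p)
    obtain ⟨m, rfl⟩ := Nat.exists_eq_succ_of_ne_zero hn0
    have h3 := SGPField_ofAdd b hb
      (PowerSeries.derivative A : PowerSeries A →ₗ[A] PowerSeries A).toAddMonoidHom
      fun x y => (PowerSeries.derivative A).leibniz x y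
    have h4 : (PowerSeries.derivative A) b = 0 := h3
    have h5 : PowerSeries.coeff m ((PowerSeries.derivative A) b) = 0 := by rw [h4, map_zero]
    rw [PowerSeries.coeff_derivative] at h5
    rcases mul_eq_zero.1 h5 with h6 | h6
    · exact h6
    · exfalso
      apply hn
      rw [← CharP.cast_eq_zero_iff A p]
      push_cast
      exact h6
  refine ⟨PowerSeries.mk fun n => x (p * n), ?_⟩
  ext n
  rw [SGPField_pow p]
  split_ifs with hn
  · rw [PowerSeries.coeff_mk, Nat.mul_div_cancel' hn, hx]
  · exact (h2 n hn).symm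

end Pool.Agent.W_cbb711
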