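import Mathlib
import Pool.Agent.W_cbb711.ExistsNorm
import Pool.Agent.W_cbb711b.Defs
import Pool.Agent.W_cbb711b.SGPField
import Pool.Agent.W_cbb711b.CoeffRingPack

set_option autoImplicit false

universe u

namespace Pool.Agent.W_cbb711

open IsLocalRing Filter TensorProduct RingTheory.Sequence Pointwise

/-- The base rings used here. -/
structure GoodBase (Λ S : Type) [CommRing Λ] [IsLocalRing Λ] [CommRing S] (ys : List S)
    (j : Λ →+* S) : Prop where
  isDomain : IsDomain S
  isLocal : IsLocalRing S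
  noeth : IsNoetherianRing S
  ofList : Ideal.ofList ys = maximalIdeal S
  reg : IsRegular S ys
  complete : IsAdicComplete (maximalIdeal S) S
  surj : ∀ x : S, ∃ a : Λ, x - j a ∈ maximalIdeal S
  map_mem : ∀ a ∈ maximalIdeal Λ, j a ∈ maximalIdeal S
  char : CharZero S ∨ ∃ p : ℕ, p.Prime ∧ CharP S p ∧ SGP p S

/-- `S⟦X⟧ / X = S` as `S`-modules. -/
noncomputable def GoodBase_quotEquiv (S : Type*) [CommRing S] :
    QuotSMulTop (PowerSeries.X : PowerSeries S) (PowerSeries S) ≃ₗ[S] S := by
  let f : PowerSeries S →ₗ[S] S := PowerSeries.coeff 0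
  let N : Submodule S (PowerSeries S) :=
    ((PowerSeries.X : PowerSeries S) • (⊤ : Submodule (PowerSeries S) (PowerSeries S))).restrictScalars S
  have hN : N = LinearMap.ker f := by
    ext F
    change F ∈ (PowerSeries.X : PowerSeries S) • (⊤ : Submodule (PowerSeries S) (PowerSeries S)) ↔
      PowerSeries.coeff 0 F = 0
    rw [Submodule.mem_smul_pointwise_iff_exists, PowerSeries.coeff_zero_eq_constantCoeff_apply,
      ← PowerSeries.X_dvd_iff]
    constructor
    · rintro ⟨G, -, rfl⟩
      exact ⟨G, rfl⟩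
    · rintro ⟨G, rfl⟩
      exact ⟨G, trivial, rfl⟩
  have hf : Function.Surjective f := fun a => ⟨PowerSeries.C a, by
    change PowerSeries.coeff 0 (PowerSeries.C a) = a
    rw [PowerSeries.coeff_zero_eq_constantCoeff_apply, PowerSeries.constantCoeff_C]⟩
  exact (Submodule.Quotient.restrictScalarsEquiv S ((PowerSeries.X : PowerSeries S) •
    (⊤ : Submodule (PowerSeries S) (PowerSeries S)))).symm.trans
    ((Submodule.quotEquivOfEq N _ hN).trans (f.quotKerEquivOfSurjective hf))

theorem GoodBase.powerSeries {Λ S : Type} [CommRing Λ] [IsLocalRing Λ] [CommRing S] {ys : List S}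
    {j : Λ →+* S} (h : GoodBase Λ S ys j) :
    GoodBase Λ (PowerSeries S) (ys.map (PowerSeries.C : S →+* PowerSeries S) ++ [PowerSeries.X])
      ((PowerSeries.C : S →+* PowerSeries S).comp j) := by
  have := h.isDomain
  have := h.isLocal
  have := h.noeth
  have := h.complete
  have hpre : IsPrecomplete (maximalIdeal (PowerSeries S)) (PowerSeries S) :=
    isPrecomplete_powerSeries
  have hha : IsHausdorff (maximalIdeal (PowerSeries S)) (PowerSeries S) := inferInstance
  have hX : IsSMulRegular (PowerSeries S) (PowerSeries.X : PowerSeries S) := by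
    intro a b hab
    exact mul_left_cancel₀ PowerSeries.X_ne_zero hab
  have hw : IsWeaklyRegular (QuotSMulTop (PowerSeries.X : PowerSeries S) (PowerSeries S))
      (ys.map (algebraMap S (PowerSeries S))) := by
    rw [isWeaklyRegular_map_algebraMap_iff]
    rw [(GoodBase_quotEquiv S).isWeaklyRegular_congr]
    exact h.reg.1
  have hw2 : IsWeaklyRegular (PowerSeries S)
      (PowerSeries.X :: ys.map (algebraMap S (PowerSeries S))) := by
    rw [isWeaklyRegular_cons_iff]
    exact ⟨hX, hw⟩
  have hmem : ∀ r ∈ PowerSeries.X :: ys.map (algebraMap S (PowerSeries S)),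
      r ∈ maximalIdeal (PowerSeries S) := by
    intro r hr
    rw [List.mem_cons, List.mem_map] at hr
    rcases hr with rfl | ⟨y, hy, rfl⟩
    · exact X_mem_maximalIdeal
    · apply C_mem_maximalIdeal
      rw [← h.ofList]
      exact Ideal.subset_span hy
  refine ⟨inferInstance, inferInstance, inferInstance, ofList_powerSeries h.ofList, ?_,
    ⟨⟩, ?_, ?_, ?_⟩
  · have h1 : IsRegular (PowerSeries S) (PowerSeries.X :: ys.map (algebraMap S (PowerSeries S))) :=
      IsRegular.of_isWeaklyRegular_of_mem_maximalIdeal _ hmem hw2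
    refine IsLocalRing.isRegular_of_perm h1 ?_
    have h2 := List.perm_append_comm (l₁ := [(PowerSeries.X : PowerSeries S)])
      (l₂ := ys.map (algebraMap S (PowerSeries S)))
    exact h2
  · intro x
    obtain ⟨a, ha⟩ := h.surj (PowerSeries.constantCoeff x)
    refine ⟨a, ?_⟩
    apply mem_of_constantCoeff_mem
    rw [map_sub, RingHom.comp_apply, PowerSeries.constantCoeff_C]
    exact ha
  · intro a ha
    exact C_mem_maximalIdeal (h.map_mem a ha)
  · rcases h.char with h0 | ⟨p, hp, hc, hs⟩
    · left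
      exact charZero_of_injective_ringHom (f := (PowerSeries.C : S →+* PowerSeries S))
        PowerSeries.C_injective
    · right
      have : Fact p.Prime := ⟨hp⟩
      refine ⟨p, hp, ?_, SGP.powerSeries p hs⟩
      exact charP_of_injective_ringHom (f := (PowerSeries.C : S →+* PowerSeries S))
        PowerSeries.C_injective p


theorem exists_goodTower (R : Type) [CommRing R] [IsLocalRing R]
    (hR : IsAdicComplete (maximalIdeal R) R) (Λ : Type) [CommRing Λ] [IsLocalRing Λ]
    (xs : List R) (hxs : ∀ x ∈ xs, x ∈ maximalIdeal R) :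
    ∀ (S₀ : Type) [CommRing S₀] (ys₀ : List S₀) (j₀ : Λ →+* S₀) (_ : GoodBase Λ S₀ ys₀ j₀)
      (φ : S₀ →+* R),
      ∃ (S : Type) (_ : CommRing S) (ys : List S) (j : Λ →+* S) (f : S →+* R),
        GoodBase Λ S ys j ∧ ys.map f = ys₀.map φ ++ xs ∧ f.comp j = φ.comp j₀ := by
  induction xs with
  | nil =>
    intro S₀ _ ys₀ j₀ h₀ φ
    exact ⟨S₀, inferInstance, ys₀, j₀, φ, h₀, by simp, rfl⟩
  | cons x xs ih =>
    intro S₀ _ ys₀ j₀ h₀ φ
    obtain ⟨ψ, hψ, hψX⟩ := exists_eval hR φ (hxs x (by simp))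
    obtain ⟨S, i, ys, j, f, hb, hf, hj⟩ := ih (fun y hy => hxs y (by simp [hy]))
      (PowerSeries S₀) _ _ h₀.powerSeries ψ
    refine ⟨S, i, ys, j, f, hb, ?_, ?_⟩
    · rw [hf]
      simp only [List.map_append, List.map_map, List.map_cons, List.map_nil, hψX,
        List.append_assoc, List.singleton_append]
      congr 1
      apply List.map_congr_left
      intro a _
      exact hψ a
    · rw [hj, ← RingHom.comp_assoc]
      congr 1
      exact RingHom.ext hψ

/-- Approximation of a local ring by finite modules over a ring which surjects onto its residue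
field. -/
theorem GoodBase_approx (R : Type*) [CommRing R] [IsLocalRing R] [IsNoetherianRing R]
    (S : Type*) [CommRing S] [Algebra S R]
    (hres : ∀ x : R, ∃ s : S, x - algebraMap S R s ∈ maximalIdeal R) (k : ℕ) :
    ∃ N : Submodule S R, N.FG ∧ ∀ x : R, ∃ y ∈ N, x - y ∈ maximalIdeal R ^ k := by
  induction k with
  | zero => exact ⟨⊥, Submodule.fg_bot, fun x => ⟨0, Submodule.zero_mem _, by simp⟩⟩
  | succ k ih =>
    obtain ⟨N, hN, hx⟩ := ih
    obtain ⟨G, hG⟩ := (IsNoetherian.noetherian (maximalIdeal R ^ k) : (maximalIdeal R ^ k).FG)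
    refine ⟨N ⊔ Submodule.span S (G : Set R), hN.sup ⟨G, rfl⟩, ?_⟩
    have key : ∀ z ∈ maximalIdeal R ^ k, ∃ y ∈ Submodule.span S (G : Set R),
        z - y ∈ maximalIdeal R ^ (k + 1) := by
      intro z hz
      rw [← hG] at hz
      induction hz using Submodule.span_induction with
      | mem g hg => exact ⟨g, Submodule.subset_span hg, by simp⟩
      | zero => exact ⟨0, Submodule.zero_mem _, by simp⟩
      | add a b _ _ ha hb =>
        obtain ⟨y, hy, hy'⟩ := ha
        obtain ⟨z, hz, hz'⟩ := hb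
        refine ⟨y + z, Submodule.add_mem _ hy hz, ?_⟩
        have := Ideal.add_mem _ hy' hz'
        rwa [sub_add_sub_comm] at this
      | smul c a ha' ha =>
        obtain ⟨y, hy, hy'⟩ := ha
        obtain ⟨s, hs⟩ := hres c
        refine ⟨s • y, Submodule.smul_mem _ s hy, ?_⟩
        have h1 : c • a - s • y = (c - algebraMap S R s) * a + algebraMap S R s * (a - y) := by
          rw [smul_eq_mul, Algebra.smul_def]
          ring
        rw [h1]
        refine Ideal.add_mem _ ?_ (Ideal.mul_mem_left _ _ hy')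
        rw [pow_succ']
        refine Ideal.mul_mem_mul hs ?_
        rw [← hG]
        exact ha'
    intro x
    obtain ⟨y, hy, hxy⟩ := hx x
    obtain ⟨z, hz, hz'⟩ := key _ hxy
    refine ⟨y + z, Submodule.add_mem_sup hy hz, ?_⟩
    rwa [sub_sub] at hz'

/-- Finiteness over the base. -/
theorem finite_of_goodBase (R : Type) [CommRing R] [IsLocalRing R] [IsNoetherianRing R]
    (hR : IsAdicComplete (maximalIdeal R) R)
    (S : Type) [CommRing S] [IsLocalRing S] [IsNoetherianRing S]
    [IsPrecomplete (maximalIdeal S) S] (ys : List S) (hofl : Ideal.ofList ys = maximalIdeal S)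
    [Algebra S R]
    (hres : ∀ x : R, ∃ s : S, x - algebraMap S R s ∈ maximalIdeal R)
    (hys : ∀ y ∈ ys, algebraMap S R y ∈ maximalIdeal R)
    (hdim : ringKrullDim (R ⧸ Ideal.ofList (ys.map (algebraMap S R))) ≤ 0) :
    Module.Finite S R := by
  set J := Ideal.ofList (ys.map (algebraMap S R)) with hJ
  have hJle : J ≤ maximalIdeal R := by
    rw [hJ, Ideal.ofList, Ideal.span_le]
    intro x hx
    rw [Set.mem_ofPred_eq, List.mem_map] at hx
    obtain ⟨y, hy, rfl⟩ := hx
    exact hys y hy
  have hJne : J ≠ ⊤ := fun h =>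
    (IsLocalRing.maximalIdeal.isMaximal R).ne_top (top_le_iff.mp (h ▸ hJle))
  have hnt : Nontrivial (R ⧸ J) := Ideal.Quotient.nontrivial_iff.mpr hJne
  have hloc : IsLocalRing (R ⧸ J) :=
    IsLocalRing.of_surjective' (Ideal.Quotient.mk J) Ideal.Quotient.mk_surjective
  have hdim0 : Ring.KrullDimLE 0 (R ⧸ J) := by
    rw [Ring.krullDimLE_iff]
    exact_mod_cast hdim
  have hart : IsArtinianRing (R ⧸ J) := by
    rw [isArtinianRing_iff_isNoetherianRing_krullDimLE_zero]
    exact ⟨inferInstance, hdim0⟩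
  -- a power of the maximal ideal is in `J`
  obtain ⟨n, hn⟩ : ∃ n, maximalIdeal R ^ n ≤ J := by
    obtain ⟨n, hn⟩ := IsArtinianRing.isNilpotent_jacobson_bot (R := R ⧸ J)
    rw [IsLocalRing.jacobson_eq_maximalIdeal ⊥ bot_ne_top] at hn
    refine ⟨n, ?_⟩
    have h1 : (maximalIdeal R).map (Ideal.Quotient.mk J) ≤ maximalIdeal (R ⧸ J) := by
      rw [Ideal.map_le_iff_le_comap]
      intro x hx
      rw [Ideal.mem_comap]
      by_contra hcon
      rw [mem_maximalIdeal, mem_nonunits_iff, not_not] at hcon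
      obtain ⟨b, hb⟩ := hcon.exists_right_inv
      obtain ⟨b, rfl⟩ := Ideal.Quotient.mk_surjective b
      rw [← map_mul, ← map_one (Ideal.Quotient.mk J), Ideal.Quotient.eq] at hb
      have h2 := hJle hb
      have h3 : (1 : R) ∈ maximalIdeal R := by
        have := Ideal.sub_mem _ (Ideal.mul_mem_right b _ hx) h2
        rwa [sub_sub_cancel] at this
      exact (Ideal.ne_top_iff_one _).1 (IsLocalRing.maximalIdeal.isMaximal R).ne_top h3
    have h2 : (maximalIdeal R ^ n).map (Ideal.Quotient.mk J) ≤ ⊥ := by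
      rw [Ideal.map_pow]
      refine (Ideal.pow_right_mono h1 n).trans ?_
      rw [hn]
      exact le_rfl
    rw [Ideal.map_le_iff_le_comap, ← RingHom.ker_eq_comap_bot, Ideal.mk_ker] at h2
    exact h2
  have hJI : J = (maximalIdeal S).map (algebraMap S R) := by
    rw [← hofl, Ideal.map_ofList]
  have hhaus : IsHausdorff (maximalIdeal S) R := by
    rw [← IsHausdorff.map_algebraMap_iff (S := R), ← hJI]
    have h1 : IsHausdorff (maximalIdeal R) R := hR.toIsHausdorff
    constructor
    intro x hx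
    apply h1.haus
    intro n
    have h2 := hx n
    rw [SModEq.zero] at h2 ⊢
    exact Submodule.smul_mono_left (Ideal.pow_right_mono hJle n) h2
  obtain ⟨N, hNfg, hN⟩ := GoodBase_approx R S hres n
  have hNfin : Module.Finite S N := Module.Finite.iff_fg.2 hNfg
  have hprec : IsPrecomplete (maximalIdeal S) N := isPrecomplete_of_finite _ _
  have hsurj : Function.Surjective N.subtype := by
    apply surjective_of_mkQ_comp_surjective (I := maximalIdeal S)
    intro y
    obtain ⟨z, rfl⟩ := Submodule.mkQ_surjective _ y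
    obtain ⟨y, hy, hzy⟩ := hN z
    refine ⟨⟨y, hy⟩, ?_⟩
    rw [LinearMap.comp_apply, Submodule.mkQ_apply, Submodule.mkQ_apply, Submodule.Quotient.eq,
      Submodule.subtype_apply, Ideal.smul_top_eq_map, ← hJI]
    have := hn hzy
    rw [← neg_sub]
    exact neg_mem this
  exact Module.Finite.of_surjective N.subtype hsurj


theorem GoodBase_dim_le {A B : Type*} [CommRing A] [CommRing B] [Algebra A B]
    [Algebra.IsIntegral A B] : ringKrullDim B ≤ ringKrullDim A := by
  refine Order.krullDim_le_of_strictMono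
    (fun P : PrimeSpectrum B => PrimeSpectrum.comap (algebraMap A B) P) ?_
  intro P Q h
  have := P.isPrime
  exact Ideal.IsIntegral.comap_lt_comap (R := A) (I := P.asIdeal) (J := Q.asIdeal) h

theorem GoodBase_sop (A : Type*) [CommRing A] [IsLocalRing A] [IsNoetherianRing A] (d : ℕ)
    (hd : ringKrullDim A = d) :
    ∃ xs : List A, xs.length = d ∧ (∀ x ∈ xs, x ∈ maximalIdeal A) ∧
      ringKrullDim (A ⧸ Ideal.ofList xs) ≤ 0 := by
  obtain ⟨s, hs, hcard⟩ := Ideal.exists_finset_card_eq_height_of_isNoetherianRing (maximalIdeal A)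
  have hart := IsLocalRing.quotient_artinian_of_mem_minimalPrimes_of_isLocalRing _ hs
  have hspan : Ideal.ofList s.toList = Ideal.span (s : Set A) := by
    rw [Ideal.ofList]
    congr 1
    ext x
    simp
  refine ⟨s.toList, ?_, ?_, ?_⟩
  · rw [Finset.length_toList]
    have h1 : ((s.card : ℕ∞) : WithBot ℕ∞) = ringKrullDim A := by
      rw [hcard, IsLocalRing.maximalIdeal_height_eq_ringKrullDim]
    rw [hd] at h1
    exact_mod_cast h1
  · intro x hx
    rw [Finset.mem_toList] at hx
    exact hs.1.2 (Ideal.subset_span hx)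
  · rw [hspan]
    have h0 : Ring.KrullDimLE 0 (A ⧸ Ideal.span (s : Set A)) := inferInstance
    rw [Ring.krullDimLE_iff] at h0
    exact_mod_cast h0

/-- A system of parameters starting with a given regular element. -/
theorem GoodBase_sop_cons (A : Type*) [CommRing A] [IsLocalRing A] [IsNoetherianRing A] (d : ℕ)
    (hd : ringKrullDim A = d) (x : A) (hx : x ∈ maximalIdeal A) (hreg : IsSMulRegular A x) :
    ∃ xs : List A, ([x] ++ xs).length = d ∧ (∀ x ∈ xs, x ∈ maximalIdeal A) ∧
      ringKrullDim (A ⧸ Ideal.ofList ([x] ++ xs)) ≤ 0 := by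
  have h1 := ringKrullDim_quotient_span_singleton_succ_eq_ringKrullDim hreg hx
  have hne : Ideal.span {x} ≠ ⊤ := by
    intro h
    rw [Ideal.span_singleton_eq_top] at h
    exact (mem_nonunits_iff.1 ((mem_maximalIdeal _).1 hx)) h
  have hnt : Nontrivial (A ⧸ Ideal.span {x}) := Ideal.Quotient.nontrivial_iff.mpr hne
  have hloc : IsLocalRing (A ⧸ Ideal.span {x}) :=
    IsLocalRing.of_surjective' (Ideal.Quotient.mk _) Ideal.Quotient.mk_surjective
  have h0 : 0 ≤ ringKrullDim (A ⧸ Ideal.span {x}) := ringKrullDim_nonneg_of_nontrivial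
  have h2 : ringKrullDim (A ⧸ Ideal.span {x}) ≤ d := by
    rw [← hd, ← h1]
    exact le_add_of_nonneg_right (by norm_num)
  obtain ⟨e, he⟩ := exists_nat_eq h0 h2
  rw [he, hd] at h1
  have h3 : e + 1 = d := by exact_mod_cast h1
  obtain ⟨ys, hlen, hmem, hdim⟩ := GoodBase_sop (A ⧸ Ideal.span {x}) e he
  obtain ⟨xs, rfl⟩ : ∃ xs : List A, xs.map (Ideal.Quotient.mk (Ideal.span {x})) = ys :=
    ⟨ys.map (Function.surjInv Ideal.Quotient.mk_surjective), by
      rw [List.map_map]
      conv_rhs => rw [← List.map_id ys]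
      apply List.map_congr_left
      intro y _
      exact Function.surjInv_eq Ideal.Quotient.mk_surjective y⟩
  refine ⟨xs, ?_, ?_, ?_⟩
  · rw [List.length_append, List.length_singleton, ← h3, ← hlen, List.length_map]
    ring
  · intro y hy
    rw [mem_maximalIdeal, mem_nonunits_iff]
    intro hu
    have h4 := hmem _ (List.mem_map_of_mem hy)
    rw [mem_maximalIdeal, mem_nonunits_iff] at h4
    exact h4 (hu.map _)
  · refine le_trans ?_ hdim
    have hle : Ideal.ofList xs ≤ Ideal.comap (Ideal.Quotient.mk (Ideal.span {x}))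
        (Ideal.ofList (xs.map (Ideal.Quotient.mk (Ideal.span {x})))) := by
      rw [← Ideal.map_ofList]
      exact Ideal.le_comap_map
    have hle2 : Ideal.comap (Ideal.Quotient.mk (Ideal.span {x}))
        (Ideal.ofList (xs.map (Ideal.Quotient.mk (Ideal.span {x})))) ≤
        Ideal.ofList ([x] ++ xs) := by
      rw [← Ideal.map_ofList, Ideal.comap_map_of_surjective _ Ideal.Quotient.mk_surjective,
        ← RingHom.ker_eq_comap_bot, Ideal.mk_ker, Ideal.ofList_append, Ideal.ofList_singleton,
        sup_comm]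
    -- `A / (x, xs)` is a quotient of `(A / x) / xs`
    let f : (A ⧸ Ideal.span {x}) ⧸ Ideal.ofList (xs.map (Ideal.Quotient.mk (Ideal.span {x}))) →+*
        A ⧸ Ideal.ofList ([x] ++ xs) :=
      Ideal.Quotient.lift _ (Ideal.Quotient.factor (by
        rw [Ideal.ofList_append, Ideal.ofList_singleton]
        exact le_sup_left)) (by
        intro a ha
        obtain ⟨a, rfl⟩ := Ideal.Quotient.mk_surjective a
        rw [Ideal.Quotient.factor_mk, Ideal.Quotient.eq_zero_iff_mem]
        exact hle2 ha)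
    refine ringKrullDim_le_of_surjective f ?_
    apply Ideal.Quotient.lift_surjective_of_surjective
    exact Ideal.Quotient.factor_surjective _

/-- The dimension of a good base. -/
theorem GoodBase.dim {Λ S : Type} [CommRing Λ] [IsLocalRing Λ] [CommRing S] {ys : List S}
    {j : Λ →+* S} (h : GoodBase Λ S ys j) : ringKrullDim S = (ys.length : WithBot ℕ∞) := by
  have := h.isLocal
  have := h.noeth
  have h1 := ringKrullDim_add_length_eq_ringKrullDim_of_isRegular _ h.reg
  rw [h.ofList] at h1
  let _ := Ideal.Quotient.field (maximalIdeal S)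
  have h2 : ringKrullDim (S ⧸ maximalIdeal S) = 0 := ringKrullDim_eq_zero_of_field _
  rw [← h1, h2, zero_add]

/-- An integral extension of a domain by a ring of the same finite dimension is injective. -/
theorem GoodBase_injective {S A : Type*} [CommRing S] [IsDomain S] [CommRing A] [IsDomain A]
    [Algebra S A] [Module.Finite S A] (d : ℕ) (hS : ringKrullDim S = d) (hA : ringKrullDim A = d) :
    Function.Injective (algebraMap S A) := by
  rw [injective_iff_map_eq_zero]
  by_contra hcon
  push Not at hcon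
  obtain ⟨a, ha, ha0⟩ := hcon
  have hP : (RingHom.ker (algebraMap S A)).IsPrime := RingHom.ker_isPrime _
  have hbot : (⊥ : Ideal S).IsPrime := Ideal.isPrime_bot
  have h1 := ringKrullDim_quotient_add_one_le (p := (⊥ : Ideal S))
    (q := RingHom.ker (algebraMap S A)) bot_le (x := a) ha (by simpa using ha0)
  have h2 : ringKrullDim (S ⧸ (⊥ : Ideal S)) = d := by
    rw [← hS]
    exact ringKrullDim_eq_of_ringEquiv (RingEquiv.quotientBot S)
  rw [h2] at h1
  let f : S ⧸ RingHom.ker (algebraMap S A) →+* A := RingHom.kerLift (algebraMap S A)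
  let _ : Algebra (S ⧸ RingHom.ker (algebraMap S A)) A := f.toAlgebra
  have : IsScalarTower S (S ⧸ RingHom.ker (algebraMap S A)) A := by
    refine IsScalarTower.of_algebraMap_eq fun x => ?_
    rfl
  have : Module.Finite (S ⧸ RingHom.ker (algebraMap S A)) A :=
    Module.Finite.of_restrictScalars_finite S _ _
  have : Algebra.IsIntegral (S ⧸ RingHom.ker (algebraMap S A)) A :=
    Algebra.IsIntegral.of_finite _ _
  have h3 := GoodBase_dim_le (A := S ⧸ RingHom.ker (algebraMap S A)) (B := A)
  rw [hA] at h3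
  have h4 : ((d : ℕ) : WithBot ℕ∞) + 1 ≤ d := by
    refine le_trans ?_ h1
    gcongr
  have h5 : d + 1 ≤ d := by exact_mod_cast h4
  omega

/-- The coefficient ring as a good base. -/
theorem GoodBase_coeff (Λ : Type) [CommRing Λ] [IsDomain Λ] [IsLocalRing Λ] [IsNoetherianRing Λ]
    (hc : IsAdicComplete (maximalIdeal Λ) Λ)
    (h : IsField Λ ∨ ∃ p : ℕ, p.Prime ∧ (p : Λ) ≠ 0 ∧ maximalIdeal Λ = Ideal.span {(p : Λ)}) :
    (IsField Λ ∧ GoodBase Λ Λ [] (RingHom.id Λ)) ∨
    ∃ p : ℕ, p.Prime ∧ (p : Λ) ≠ 0 ∧ (p : Λ) ∈ maximalIdeal Λ ∧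
      GoodBase Λ Λ [(p : Λ)] (RingHom.id Λ) := by
  rcases h with h | ⟨p, hp, hp0, hm⟩
  · left
    refine ⟨h, inferInstance, inferInstance, inferInstance, ?_, IsRegular.nil _ _, hc, ?_, ?_, ?_⟩
    · rw [Ideal.ofList_nil, IsLocalRing.isField_iff_maximalIdeal_eq.1 h]
    · intro x
      exact ⟨x, by simp⟩
    · intro a ha
      exact ha
    · obtain ⟨p, hp⟩ := CharP.exists Λ
      rcases CharP.char_is_prime_or_zero Λ p with h1 | h1
      · right
        refine ⟨p, h1, hp, ?_⟩
        have : Fact p.Prime := ⟨h1⟩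
        let _ : Field Λ := h.toField
        exact SGP_field p Λ
      · left
        subst h1
        exact CharP.charP_to_charZero Λ
  · right
    have hpm : (p : Λ) ∈ maximalIdeal Λ := by
      rw [hm]
      exact Ideal.mem_span_singleton_self _
    refine ⟨p, hp, hp0, hpm, inferInstance, inferInstance, inferInstance, ?_, ?_, hc, ?_, ?_, ?_⟩
    · rw [Ideal.ofList_singleton, hm]
    · refine IsRegular.of_isWeaklyRegular_of_mem_maximalIdeal _ ?_ ?_
      · intro r hr
        rw [List.mem_singleton] at hr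
        rw [hr]
        exact hpm
      · rw [isWeaklyRegular_singleton_iff]
        intro a b hab
        exact mul_left_cancel₀ hp0 hab
    · intro x
      exact ⟨x, by simp⟩
    · intro a ha
      exact ha
    · left
      obtain ⟨c, hc⟩ := CharP.exists Λ
      rcases CharP.char_is_prime_or_zero Λ c with h1 | h1
      · exfalso
        have h2 : (c : Λ) = 0 := CharP.cast_eq_zero Λ c
        have h3 : c ≠ p := by
          rintro rfl
          exact hp0 h2
        have h4 : IsCoprime (c : ℤ) (p : ℤ) :=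
          Nat.isCoprime_iff_coprime.2 ((Nat.coprime_primes h1 hp).2 h3)
        obtain ⟨u, v, huv⟩ := h4
        have h5 := congrArg (fun z : ℤ => (z : Λ)) huv
        simp only [Int.cast_add, Int.cast_mul, Int.cast_natCast, Int.cast_one, h2, mul_zero,
          zero_add] at h5
        have h6 : (1 : Λ) ∈ maximalIdeal Λ := by
          rw [← h5]
          exact Ideal.mul_mem_left _ _ hpm
        exact (Ideal.ne_top_iff_one _).1 (IsLocalRing.maximalIdeal.isMaximal Λ).ne_top h6
      · subst h1
        exact CharP.charP_to_charZero Λ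

/-- A tower over a coefficient ring with a given system of parameters is finite. -/
theorem GoodBase_finite (A : Type) [CommRing A] [IsLocalRing A]
    [IsNoetherianRing A] (hA : IsAdicComplete (maximalIdeal A) A)
    (Λ : Type) [CommRing Λ] [IsLocalRing Λ] (f : Λ →+* A)
    (hmax : ∀ a ∈ maximalIdeal Λ, f a ∈ maximalIdeal A)
    (hres : ∀ x : A, ∃ a : Λ, x - f a ∈ maximalIdeal A)
    (ys₀ : List Λ) (h₀ : GoodBase Λ Λ ys₀ (RingHom.id Λ)) (xs : List A)
    (hxs : ∀ x ∈ xs, x ∈ maximalIdeal A)
    (hdim : ringKrullDim (A ⧸ Ideal.ofList (ys₀.map f ++ xs)) ≤ 0) :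
    ∃ (S : Type) (_ : CommRing S) (ys : List S) (j : Λ →+* S) (φ : S →+* A),
      GoodBase Λ S ys j ∧ ys.map φ = ys₀.map f ++ xs ∧
      (letI := φ.toAlgebra; Module.Finite S A) := by
  obtain ⟨S, iS, ys, j, φ, hb, hmap, hj⟩ := exists_goodTower A hA Λ xs hxs Λ ys₀ (RingHom.id Λ) h₀ f
  refine ⟨S, iS, ys, j, φ, hb, hmap, ?_⟩
  have := hb.isLocal
  have := hb.noeth
  have := hb.complete
  let _ : Algebra S A := φ.toAlgebra
  have hmap' : ys.map (algebraMap S A) = ys₀.map f ++ xs := hmap
  refine finite_of_goodBase A hA S ys hb.ofList ?_ ?_ ?_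
  · intro x
    obtain ⟨a, ha⟩ := hres x
    refine ⟨j a, ?_⟩
    have h1 : algebraMap S A (j a) = f a := congrArg (fun g : Λ →+* A => g a) hj
    rw [h1]
    exact ha
  · intro y hy
    have h1 : algebraMap S A y ∈ ys₀.map f ++ xs := by
      rw [← hmap']
      exact List.mem_map_of_mem hy
    rw [List.mem_append, List.mem_map] at h1
    rcases h1 with ⟨z, hz, hz'⟩ | h1
    · rw [← hz']
      apply hmax
      rw [← h₀.ofList]
      exact Ideal.subset_span hz
    · exact hxs _ h1
  · rw [hmap']
    exact hdim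


theorem exists_goodBase (A : Type) [CommRing A] [IsDomain A] [IsLocalRing A]
    [IsNoetherianRing A] (hA : IsAdicComplete (maximalIdeal A) A) :
    ∃ (B : Type) (_ : CommRing B) (_ : IsDomain B) (_ : IsLocalRing B) (_ : IsNoetherianRing B)
      (_ : IsAdicComplete (maximalIdeal B) B) (_ : Algebra B A) (ys : List B),
      Module.Finite B A ∧ Function.Injective (algebraMap B A) ∧
      Ideal.ofList ys = maximalIdeal B ∧ IsRegular B ys ∧
      (ys.length : WithBot ℕ∞) = ringKrullDim A ∧
      (CharZero B ∨ ∃ p : ℕ, p.Prime ∧ CharP B p ∧ SGP p B) := by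
  obtain ⟨Λ, _, _, _, _, hΛ, f, hinj, hmax, hres, hcase⟩ := exists_coefficientRing A hA
  obtain ⟨d, hd⟩ : ∃ d : ℕ, ringKrullDim A = d := by
    have h1 : (maximalIdeal A).FiniteHeight := inferInstance
    have h2 := IsLocalRing.maximalIdeal_height_eq_ringKrullDim (R := A)
    have h3 : (maximalIdeal A).height ≠ ⊤ :=
      Ideal.height_ne_top (IsLocalRing.maximalIdeal.isMaximal A).ne_top
    obtain ⟨d, hd⟩ := ENat.ne_top_iff_exists.1 h3
    refine ⟨d, ?_⟩
    rw [← h2, ← hd]
    rfl
  obtain ⟨ys₀, xs, h₀, hlen, hxs, hdim⟩ : ∃ (ys₀ : List Λ) (xs : List A),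
      GoodBase Λ Λ ys₀ (RingHom.id Λ) ∧ (ys₀.map f ++ xs).length = d ∧
      (∀ x ∈ xs, x ∈ maximalIdeal A) ∧
      ringKrullDim (A ⧸ Ideal.ofList (ys₀.map f ++ xs)) ≤ 0 := by
    rcases GoodBase_coeff Λ hΛ hcase with ⟨-, h₀⟩ | ⟨p, hp, hp0, hpm, h₀⟩
    · obtain ⟨xs, hlen, hxs, hdim⟩ := GoodBase_sop A d hd
      exact ⟨[], xs, h₀, hlen, hxs, hdim⟩
    · have hfp : f (p : Λ) ≠ 0 := fun h => hp0 (hinj (by rw [h, map_zero]))
      obtain ⟨xs, hlen, hxs, hdim⟩ := GoodBase_sop_cons A d hd (f (p : Λ)) (hmax _ hpm)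
        (fun a b hab => mul_left_cancel₀ hfp hab)
      exact ⟨[(p : Λ)], xs, h₀, hlen, hxs, hdim⟩
  obtain ⟨S, _, ys, j, φ, hb, hmap, hfin⟩ :=
    GoodBase_finite A hA Λ f hmax hres ys₀ h₀ xs hxs hdim
  have := hb.isDomain
  have := hb.isLocal
  have := hb.noeth
  have hylen : ys.length = d := by
    rw [← hlen, ← hmap, List.length_map]
  let _ : Algebra S A := φ.toAlgebra
  have hfin' : Module.Finite S A := hfin
  refine ⟨S, inferInstance, inferInstance, inferInstance, inferInstance, hb.complete,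
    inferInstance, ys, hfin', ?_, hb.ofList, hb.reg, ?_, hb.char⟩
  · refine GoodBase_injective d ?_ hd
    rw [hb.dim, hylen]
  · rw [hd, hylen]

theorem exists_goodNormalisation (R : Type) [CommRing R] [IsDomain R] [IsLocalRing R]
    [IsNoetherianRing R] (hR : IsAdicComplete (maximalIdeal R) R) (d : ℕ)
    (hd : ringKrullDim R = d) (hCM : DepthGE R R d) :
    ∃ (Λ S : Type) (_ : CommRing Λ) (_ : IsDomain Λ) (_ : IsLocalRing Λ) (_ : IsNoetherianRing Λ)
      (_ : IsAdicComplete (maximalIdeal Λ) Λ) (_ : CommRing S) (_ : IsDomain S)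
      (_ : IsLocalRing S) (_ : IsNoetherianRing S) (_ : IsAdicComplete (maximalIdeal S) S)
      (_ : Algebra Λ S) (_ : Algebra S R),
      (IsField Λ ∨ ∃ p : ℕ, p.Prime ∧ (p : Λ) ≠ 0 ∧ maximalIdeal Λ = Ideal.span {(p : Λ)}) ∧
      (∀ a ∈ maximalIdeal Λ, algebraMap Λ S a ∈ maximalIdeal S) ∧
      (∀ x : S, ∃ a : Λ, x - algebraMap Λ S a ∈ maximalIdeal S) ∧
      Normalisation S R d ∧
      (CharZero S ∨ ∃ p : ℕ, p.Prime ∧ CharP S p ∧ SGP p S) := by
  obtain ⟨Λ, _, _, _, _, hΛ, f, hinj, hmax, hres, hcase⟩ := exists_coefficientRing R hR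
  obtain ⟨ys₀, xs, h₀, hlen, hreg⟩ : ∃ (ys₀ : List Λ) (xs : List R),
      GoodBase Λ Λ ys₀ (RingHom.id Λ) ∧ (ys₀.map f ++ xs).length = d ∧
      IsRegular R (ys₀.map f ++ xs) := by
    rcases GoodBase_coeff Λ hΛ hcase with ⟨-, h₀⟩ | ⟨p, hp, hp0, hpm, h₀⟩
    · obtain ⟨xs, hlen, hmem, hreg⟩ := hCM
      exact ⟨[], xs, h₀, by simpa using hlen, by simpa using hreg⟩
    · have hfp : f (p : Λ) ≠ 0 := fun h => hp0 (hinj (by rw [h, map_zero]))
      have hd1 : ∃ e, d = e + 1 := by
        rcases d with _ | e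
        · exfalso
          have h0 : Ring.KrullDimLE 0 R := by
            rw [Ring.krullDimLE_iff, hd]
          have hf : IsField R := Ring.KrullDimLE.isField_of_isDomain
          have h1 := hmax _ hpm
          rw [IsLocalRing.isField_iff_maximalIdeal_eq.1 hf] at h1
          exact hfp (by simpa using h1)
        · exact ⟨e, rfl⟩
      obtain ⟨e, rfl⟩ := hd1
      have hreg : IsSMulRegular R (f (p : Λ)) := fun a b hab => mul_left_cancel₀ hfp hab
      obtain ⟨xs, hlen, hmem, hreg'⟩ := hCM.quotSMulTop (hmax _ hpm) hreg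
      refine ⟨[(p : Λ)], xs, h₀, ?_, ?_⟩
      · simp [hlen]
      · simp only [List.map_cons, List.map_nil, List.singleton_append]
        rw [isRegular_cons_iff]
        exact ⟨hreg, hreg'⟩
  have hmem := mem_maximalIdeal_of_isRegular hreg
  obtain ⟨S, _, ys, j, φ, hb, hmap, hfin⟩ :=
    GoodBase_finite R hR Λ f hmax hres ys₀ h₀ xs (fun x hx => hmem x (by simp [hx])) (by
      have h1 := ringKrullDim_add_length_eq_ringKrullDim_of_isRegular _ hreg
      rw [hd, hlen] at h1
      have h2 : ringKrullDim (R ⧸ Ideal.ofList (ys₀.map f ++ xs)) + (d : WithBot ℕ∞) ≤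
          0 + (d : WithBot ℕ∞) := by
        rw [zero_add]
        exact h1.le
      exact (ENat.WithBot.add_le_add_natCast_right_iff).1 h2)
  have := hb.isDomain
  have := hb.isLocal
  have := hb.noeth
  let _ : Algebra S R := φ.toAlgebra
  let _ : Algebra Λ S := j.toAlgebra
  have hfin' : Module.Finite S R := hfin
  have hmap' : ys.map (algebraMap S R) = ys₀.map f ++ xs := hmap
  refine ⟨Λ, S, inferInstance, inferInstance, inferInstance, inferInstance, hΛ, inferInstance,
    inferInstance, inferInstance, inferInstance, hb.complete, inferInstance, inferInstance,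
    hcase, hb.map_mem, hb.surj, ⟨hfin', ys, ?_, hb.ofList, ?_⟩, hb.char⟩
  · rw [← hlen, ← hmap, List.length_map]
  · rw [hmap']
    exact hreg

end Pool.Agent.W_cbb711
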