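import Mathlib
import Pool.Agent.W_cbb711b.Defs

/-!
# Local models over a field (task I of MP_cbb711_ag)
-/

set_option autoImplicit false

universe u

namespace Pool.Agent.W_cbb711

open IsLocalRing Filter TensorProduct RingTheory.Sequence

namespace LocField

variable {K : Type} [Field K]

theorem maxIdeal_eq (K : Type) [Field K] : maximalIdeal K = ⊥ :=
  IsLocalRing.isField_iff_maximalIdeal_eq.1 (Field.toIsField K)

theorem mk_eq_zero_iff (x : ℕ → K) : Sharp.mk (maximalIdeal K) x = 0 ↔
    ∀ᶠ i in (hyperfilter ℕ : Filter ℕ), x i = 0 := by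
  rw [Sharp.mk_eq_zero]
  constructor
  · intro h
    filter_upwards [h 1] with i hi
    rw [maxIdeal_eq, pow_one] at hi
    simpa using hi
  · intro h N
    filter_upwards [h] with i hi
    rw [hi]
    exact Ideal.zero_mem _

theorem isUnit_of_ne_zero (x : Sharp K (maximalIdeal K)) (hx : x ≠ 0) : IsUnit x := by
  obtain ⟨x, rfl⟩ := Sharp.mk_surjective x
  have h : ∀ᶠ i in (hyperfilter ℕ : Filter ℕ), x i ≠ 0 := by
    rw [Ne, mk_eq_zero_iff] at hx
    exact (Ultrafilter.eventually_not (f := hyperfilter ℕ)).2 hx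
  refine IsUnit.of_mul_eq_one (Sharp.mk (maximalIdeal K) fun i => (x i)⁻¹) ?_
  rw [← map_mul, ← sub_eq_zero, ← map_one (Sharp.mk (maximalIdeal K)), ← map_sub,
    mk_eq_zero_iff]
  filter_upwards [h] with i hi
  simp [hi]

/-- Bases of the graded pieces of an augmented Noetherian algebra over a field. -/
theorem augmented_field {O : Type} [CommRing O] [IsLocalRing O] [IsNoetherianRing O]
    [Algebra K O] (w : O →ₐ[K] K) : Augmented w := by
  have hne : RingHom.ker w ≠ ⊤ := by
    intro h
    have h1 : (1 : O) ∈ RingHom.ker w := by rw [h]; trivial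
    rw [RingHom.mem_ker, map_one] at h1
    exact one_ne_zero h1
  refine ⟨le_maximalIdeal hne, fun r _ => ?_⟩
  set n := RingHom.ker w with hn
  let W : Submodule K O := (n ^ (r + 1)).restrictScalars K
  let U' : Submodule K O := (n ^ r).restrictScalars K
  let U : Submodule K (O ⧸ W) := U'.map W.mkQ
  have hW : ∀ x, x ∈ W ↔ x ∈ n ^ (r + 1) := fun x => Iff.rfl
  have hU' : ∀ x, x ∈ U' ↔ x ∈ n ^ r := fun x => Iff.rfl
  -- `U` is finite dimensional
  have hfin : Module.Finite K U := by
    obtain ⟨G, hG⟩ := (isNoetherianRing_iff_ideal_fg O).1 inferInstance (n ^ r)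
    refine Module.Finite.iff_fg.2 ?_
    have hspan : U = Submodule.span K (W.mkQ '' (G : Set O)) := by
      apply le_antisymm
      · rintro _ ⟨x, hx, rfl⟩
        have hx' : x ∈ n ^ r := hx
        rw [← hG] at hx'
        refine Submodule.span_induction (p := fun x _ => W.mkQ x ∈
          Submodule.span K (W.mkQ '' (G : Set O))) ?_ ?_ ?_ ?_ hx'
        · intro g hg
          exact Submodule.subset_span ⟨g, hg, rfl⟩
        · rw [map_zero]
          exact Submodule.zero_mem _
        · intro x y _ _ hx hy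
          rw [map_add]
          exact Submodule.add_mem _ hx hy
        · intro a x hx hxs
          have hx2 : x ∈ n ^ r := by rw [← hG]; exact hx
          have h1 : a * x - (w a) • x ∈ W := by
            rw [hW, Algebra.smul_def, ← sub_mul, pow_succ', ]
            refine Ideal.mul_mem_mul ?_ hx2
            rw [hn, RingHom.mem_ker, map_sub]
            simp
          have h2 : W.mkQ (a • x) = (w a) • W.mkQ x := by
            rw [← map_smul, ← sub_eq_zero, ← map_sub, Submodule.mkQ_apply,
              Submodule.Quotient.mk_eq_zero]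
            exact h1
          rw [h2]
          exact Submodule.smul_mem _ _ hxs
      · rw [Submodule.span_le]
        rintro _ ⟨g, hg, rfl⟩
        refine ⟨g, ?_, rfl⟩
        rw [SetLike.mem_coe, hU', ← hG]
        exact Submodule.subset_span hg
    rw [hspan]
    exact Submodule.fg_span (G.finite_toSet.image _)
  let b := Module.finBasis K U
  have hb : ∀ j, ∃ x ∈ n ^ r, W.mkQ x = (b j : O ⧸ W) := by
    intro j
    obtain ⟨x, hx, hxj⟩ := (b j).2
    exact ⟨x, hx, hxj⟩
  choose e he1 he2 using hb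
  have hl : ∀ j, ∃ g : (O ⧸ W) →ₗ[K] K, g ∘ₗ U.subtype = b.coord j := fun j =>
    LinearMap.exists_extend (b.coord j)
  choose g hg using hl
  refine ⟨Module.finrank K U, e, fun j => g j ∘ₗ W.mkQ, he1, ?_, ?_⟩
  · intro j x hx
    have hx' : x ∈ W := hx
    rw [LinearMap.comp_apply, Submodule.mkQ_apply, (Submodule.Quotient.mk_eq_zero W).2 hx',
      map_zero]
  · intro x hx
    have hxU : W.mkQ x ∈ U := ⟨x, hx, rfl⟩
    have h1 : ∀ j, g j (W.mkQ x) = b.coord j ⟨W.mkQ x, hxU⟩ := by
      intro j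
      rw [← hg j]
      rfl
    have h2 : W.mkQ x = ∑ j, g j (W.mkQ x) • W.mkQ (e j) := by
      have h3 := b.sum_repr ⟨W.mkQ x, hxU⟩
      have h4 : W.mkQ x = ((∑ i, (b.repr ⟨W.mkQ x, hxU⟩) i • b i : U) : O ⧸ W) := by
        rw [h3]
      refine h4.trans ?_
      rw [Submodule.coe_sum]
      refine Finset.sum_congr rfl fun j _ => ?_
      rw [he2, Submodule.coe_smul, h1]
      rfl
    have h3 : x - ∑ j, algebraMap K O ((g j ∘ₗ W.mkQ) x) * e j ∈ W := by
      rw [← Submodule.Quotient.mk_eq_zero W, ← Submodule.mkQ_apply, map_sub, map_sum, sub_eq_zero]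
      conv_lhs => rw [h2]
      refine Finset.sum_congr rfl fun j _ => ?_
      rw [← Algebra.smul_def, map_smul]
      rfl
    exact h3

theorem exists_localization {O₀ S : Type} [CommRing O₀] [Algebra K O₀] [IsNoetherianRing O₀]
    [CommRing S] [Algebra K S] (hS : ∀ x : S, x ≠ 0 → IsUnit x) (w₀ : O₀ →ₐ[K] K)
    (θ₀ : O₀ →ₐ[K] S) (hθ₀ : Function.Injective θ₀) :
    ∃ (O : Type) (_ : CommRing O) (_ : IsLocalRing O) (_ : IsNoetherianRing O) (_ : Algebra K O)
      (w : O →ₐ[K] K) (θ : O →ₐ[K] S) (ι : O₀ → O), Function.Injective θ ∧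
      (∀ a, w (ι a) = w₀ a) ∧ ∀ a, θ (ι a) = θ₀ a := by
  have hprime : (RingHom.ker w₀).IsPrime := RingHom.ker_isPrime _
  have hmem : ∀ y : (RingHom.ker w₀).primeCompl, w₀ y ≠ 0 := by
    intro y hy
    exact y.2 hy
  let O := Localization.AtPrime (RingHom.ker w₀)
  let w : O →ₐ[K] K := IsLocalization.liftAlgHom (M := (RingHom.ker w₀).primeCompl) (f := w₀)
    (fun y => IsUnit.mk0 _ (hmem y))
  let θ : O →ₐ[K] S :=
    IsLocalization.liftAlgHom (M := (RingHom.ker w₀).primeCompl) (f := θ₀)
    (fun y => hS _ (by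
      intro h
      have h1 : (y : O₀) = 0 := hθ₀ (by rw [h, map_zero])
      exact hmem y (by rw [h1, map_zero])))
  refine ⟨O, inferInstance, inferInstance,
    IsLocalization.isNoetherianRing (RingHom.ker w₀).primeCompl _ inferInstance, inferInstance,
    w, θ, algebraMap O₀ O, ?_, fun a => IsLocalization.lift_eq _ _,
    fun a => IsLocalization.lift_eq _ _⟩
  rw [injective_iff_map_eq_zero]
  intro x hx
  obtain ⟨a, s, rfl⟩ := IsLocalization.exists_mk'_eq (RingHom.ker w₀).primeCompl x
  have h1 : θ (algebraMap O₀ O a) = 0 := by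
    have h2 : algebraMap O₀ O a = IsLocalization.mk' O a s * algebraMap O₀ O s := by
      rw [IsLocalization.mk'_spec]
    rw [h2, map_mul, hx, zero_mul]
  have h2 : θ₀ a = 0 := by
    rw [← h1]
    exact (IsLocalization.lift_eq _ _).symm
  have h3 : a = 0 := hθ₀ (by rw [h2, map_zero])
  rw [h3, IsLocalization.mk'_zero]

theorem isDomain_sharp (K : Type) [Field K] : IsDomain (Sharp K (maximalIdeal K)) := by
  have : Nontrivial (Sharp K (maximalIdeal K)) := by
    refine ⟨⟨0, 1, ?_⟩⟩
    intro h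
    have h1 : Sharp.mk (maximalIdeal K) 1 = 0 := by rw [map_one, h]
    rw [mk_eq_zero_iff] at h1
    obtain ⟨i, hi⟩ := h1.exists
    exact one_ne_zero hi
  have : NoZeroDivisors (Sharp K (maximalIdeal K)) := by
    refine ⟨fun {a b} hab => ?_⟩
    by_cases ha : a = 0
    · exact Or.inl ha
    · right
      exact ((isUnit_of_ne_zero a ha).mul_right_eq_zero).1 hab
  exact NoZeroDivisors.to_isDomain _

/-- Evaluation at the sequence of points. -/
noncomputable def phi {m : ℕ} (c : Fin m → ℕ → K) :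
    MvPolynomial (Fin m) K →ₐ[K] Sharp K (maximalIdeal K) :=
  MvPolynomial.aeval fun l => Sharp.mk (maximalIdeal K) (c l)

/-- Evaluation at one point. -/
noncomputable def ev {m : ℕ} (c : Fin m → ℕ → K) (i : ℕ) : MvPolynomial (Fin m) K →ₐ[K] K :=
  MvPolynomial.aeval fun l => c l i

theorem phi_X {m : ℕ} (c : Fin m → ℕ → K) (l : Fin m) :
    phi c (MvPolynomial.X l) = Sharp.mk (maximalIdeal K) (c l) := MvPolynomial.aeval_X _ _

theorem ev_X {m : ℕ} (c : Fin m → ℕ → K) (i : ℕ) (l : Fin m) :
    ev c i (MvPolynomial.X l) = c l i := MvPolynomial.aeval_X _ _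

theorem phi_eq {m : ℕ} (c : Fin m → ℕ → K) (f : MvPolynomial (Fin m) K) :
    phi c f = Sharp.mk (maximalIdeal K) fun i => ev c i f := by
  induction f using MvPolynomial.induction_on with
  | C a =>
    rw [MvPolynomial.algHom_C]
    simp only [MvPolynomial.algHom_C]
    rfl
  | add f g hf hg =>
    rw [map_add, hf, hg, ← map_add]
    congr 1
    funext i
    rw [map_add]
    rfl
  | mul_X f l hf =>
    rw [map_mul, hf, phi_X, ← map_mul]
    congr 1
    funext i
    rw [map_mul, ev_X]
    rfl

theorem eventually_ker {m : ℕ} (c : Fin m → ℕ → K) :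
    ∀ᶠ i in (hyperfilter ℕ : Filter ℕ), RingHom.ker (phi c) ≤ RingHom.ker (ev c i) := by
  obtain ⟨G, hG⟩ := (isNoetherianRing_iff_ideal_fg _).1 inferInstance (RingHom.ker (phi c))
  have h1 : ∀ g ∈ G, ∀ᶠ i in (hyperfilter ℕ : Filter ℕ), ev c i g = 0 := by
    intro g hg
    have h2 : g ∈ RingHom.ker (phi c) := by
      rw [← hG]
      exact Ideal.subset_span hg
    rw [RingHom.mem_ker, phi_eq, mk_eq_zero_iff] at h2
    exact h2
  have h3 : ∀ᶠ i in (hyperfilter ℕ : Filter ℕ), ∀ g ∈ G, ev c i g = 0 := by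
    rw [← Finset.eventually_all] at h1
    exact h1
  filter_upwards [h3] with i hi
  rw [← hG, Ideal.span_le]
  intro g hg
  exact hi g hg

end LocField

open LocField in
theorem localModel_field (K : Type) [Field K] (N m : ℕ) (hN : 1 ≤ N) (c : Fin m → ℕ → K) :
    ∀ᶠ i in (hyperfilter ℕ : Filter ℕ), LocalModel K N m c i := by
  filter_upwards [eventually_ker c] with i hi
  have hdom := isDomain_sharp K
  obtain ⟨O, _, _, _, _, w, θ, ι, hθ, hw1, hθ1⟩ := exists_localization
    (O₀ := MvPolynomial (Fin m) K ⧸ RingHom.ker (phi c)) (S := Sharp K (maximalIdeal K))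
    isUnit_of_ne_zero (Ideal.Quotient.liftₐ _ (ev c i) hi)
    (Ideal.Quotient.liftₐ _ (phi c) fun a ha => ha) (by
      rw [injective_iff_map_eq_zero]
      intro a ha
      obtain ⟨a, rfl⟩ := Ideal.Quotient.mk_surjective a
      rw [Ideal.Quotient.eq_zero_iff_mem, RingHom.mem_ker]
      exact ha)
  refine ⟨O, inferInstance, inferInstance, inferInstance, inferInstance, w, θ,
    fun l => ι (Ideal.Quotient.mk _ (MvPolynomial.X l)), augmented_field w, ?_, ?_, ?_⟩
  · intro l
    rw [hw1]
    have h1 : (Ideal.Quotient.liftₐ (RingHom.ker (phi c)) (ev c i) hi)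
        (Ideal.Quotient.mk _ (MvPolynomial.X l)) = c l i := ev_X c i l
    rw [h1, sub_self]
    exact Ideal.zero_mem _
  · intro l
    rw [hθ1]
    have h1 : (Ideal.Quotient.liftₐ (RingHom.ker (phi c)) (phi c) fun a ha => ha)
        (Ideal.Quotient.mk _ (MvPolynomial.X l)) = Sharp.mk (maximalIdeal K) (c l) := phi_X c l
    rw [h1, sub_self]
    exact Ideal.zero_mem _
  · intro e x hx
    rcases Nat.eq_zero_or_pos e with he | he
    · subst he
      rw [pow_zero, Ideal.one_eq_top, Ideal.map_top]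
      trivial
    · have h0 : maximalIdeal K ^ e = ⊥ := by
        rw [maxIdeal_eq]
        exact Ideal.bot_pow he.ne'
      rw [h0, Ideal.map_bot] at hx ⊢
      rw [Ideal.mem_bot] at hx ⊢
      exact hθ (by rw [hx, map_zero])

end Pool.Agent.W_cbb711
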