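import Mathlib
import Pool.Agent.W_cbb711b.Defs

/-!
# Local models from smooth data over a complete local principal domain
-/

set_option autoImplicit false

universe u

namespace Pool.Agent.W_cbb711

open IsLocalRing Filter TensorProduct RingTheory.Sequence

namespace LMDVR

/-! ### Facts about `Sharp` -/

section sharp

variable {V : Type} [CommRing V] [IsLocalRing V]

theorem isUnit_mk {x : ℕ → V} (h : ∀ᶠ i in (hyperfilter ℕ : Filter ℕ), IsUnit (x i)) :
    IsUnit (Sharp.mk (maximalIdeal V) x) := by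
  classical
  let y : ℕ → V := fun i => if h : IsUnit (x i) then ↑(h.unit⁻¹) else 0
  refine IsUnit.of_mul_eq_one (Sharp.mk _ y) ?_
  rw [← map_mul, ← (Sharp.mk (maximalIdeal V)).map_one, Sharp.mk_eq_mk]
  intro N
  filter_upwards [h] with i hi
  have : (x * y) i - (1 : ℕ → V) i = 0 := by
    simp only [Pi.mul_apply, Pi.one_apply, y, hi, dif_pos]
    rw [IsUnit.mul_val_inv, sub_self]
  rw [this]
  exact Ideal.zero_mem _

theorem eventually_of_mk_mem {e : ℕ} {x : ℕ → V}
    (h : Sharp.mk (maximalIdeal V) x ∈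
      (maximalIdeal V ^ e).map (algebraMap V (Sharp V (maximalIdeal V)))) :
    ∀ᶠ i in (hyperfilter ℕ : Filter ℕ), x i ∈ maximalIdeal V ^ e := by
  have key : ∃ y : ℕ → V, Sharp.mk (maximalIdeal V) y = Sharp.mk (maximalIdeal V) x ∧
      ∀ᶠ i in (hyperfilter ℕ : Filter ℕ), y i ∈ maximalIdeal V ^ e := by
    refine Submodule.span_induction
      (p := fun z _ => ∃ y : ℕ → V, Sharp.mk (maximalIdeal V) y = z ∧
        ∀ᶠ i in (hyperfilter ℕ : Filter ℕ), y i ∈ maximalIdeal V ^ e) ?_ ?_ ?_ ?_ h
    · rintro _ ⟨v, hv, rfl⟩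
      exact ⟨fun _ => v, rfl, Eventually.of_forall fun _ => hv⟩
    · exact ⟨0, map_zero _, Eventually.of_forall fun _ => Ideal.zero_mem _⟩
    · rintro _ _ _ _ ⟨y1, rfl, h1⟩ ⟨y2, rfl, h2⟩
      refine ⟨y1 + y2, map_add _ _ _, ?_⟩
      filter_upwards [h1, h2] with i a b
      exact Ideal.add_mem _ a b
    · rintro a _ _ ⟨y, rfl, hy⟩
      obtain ⟨a, rfl⟩ := Sharp.mk_surjective a
      refine ⟨a * y, map_mul _ _ _, ?_⟩
      filter_upwards [hy] with i b
      exact Ideal.mul_mem_left _ _ b
  obtain ⟨y, hy, hy2⟩ := key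
  rw [Sharp.mk_eq_mk] at hy
  filter_upwards [hy e, hy2] with i a b
  have : x i = y i - (y i - x i) := by ring
  rw [this]
  exact Ideal.sub_mem _ b a

theorem mk_mem_of_eventually (hpr : (maximalIdeal V).IsPrincipal) {e : ℕ} {x : ℕ → V}
    (h : ∀ᶠ i in (hyperfilter ℕ : Filter ℕ), x i ∈ maximalIdeal V ^ e) :
    Sharp.mk (maximalIdeal V) x ∈
      (maximalIdeal V ^ e).map (algebraMap V (Sharp V (maximalIdeal V))) := by
  classical
  obtain ⟨p, hp'⟩ := hpr
  have hp : maximalIdeal V = Ideal.span {p} := hp'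
  let y : ℕ → V := fun i => if h : ∃ z, x i = p ^ e * z then h.choose else 0
  have hxy : Sharp.mk (maximalIdeal V) x =
      algebraMap V (Sharp V (maximalIdeal V)) (p ^ e) * Sharp.mk (maximalIdeal V) y := by
    rw [Sharp.algebraMap_eq, Sharp.const_apply, ← map_mul, Sharp.mk_eq_mk]
    intro N
    filter_upwards [h] with i hi
    rw [hp, Ideal.span_singleton_pow, Ideal.mem_span_singleton] at hi
    have h3 : ∃ z, x i = p ^ e * z := hi
    have : x i - (((fun _ => p ^ e) : ℕ → V) * y) i = 0 := by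
      simp only [Pi.mul_apply, y, dif_pos h3]
      rw [← h3.choose_spec, sub_self]
    rw [this]
    exact Ideal.zero_mem _
  rw [hxy]
  refine Ideal.mul_mem_right _ _ (Ideal.mem_map_of_mem _ ?_)
  refine Ideal.pow_mem_pow ?_ e
  rw [hp]
  exact Ideal.mem_span_singleton_self p

end sharp

/-! ### The infinitesimal structure at a section -/

section augmented

variable {Λ O : Type} [CommRing Λ] [CommRing O] [IsLocalRing O] [Algebra Λ O]

/-- The coefficient functional on the truncated polynomial ring. -/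
noncomputable def coeffQ {m' r : ℕ} (α : Fin m' →₀ ℕ) (hα : α.degree < r) :
    (MvPolynomial (Fin m') Λ ⧸ MvPolynomial.idealOfVars (Fin m') Λ ^ r) →ₗ[Λ] Λ :=
  (((MvPolynomial.idealOfVars (Fin m') Λ ^ r).restrictScalars Λ).liftQ
    (MvPolynomial.lcoeff Λ α) (by
      intro p hp
      rw [LinearMap.mem_ker]
      exact (MvPolynomial.mem_pow_idealOfVars_iff' r p).1 hp α hα)).comp
    (Submodule.Quotient.restrictScalarsEquiv Λ
      (MvPolynomial.idealOfVars (Fin m') Λ ^ r)).symm.toLinearMap

theorem coeffQ_mk {m' r : ℕ} (α : Fin m' →₀ ℕ) (hα : α.degree < r)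
    (p : MvPolynomial (Fin m') Λ) :
    coeffQ α hα (Ideal.Quotient.mk (MvPolynomial.idealOfVars (Fin m') Λ ^ r) p) =
      MvPolynomial.coeff α p := rfl

theorem augmented_of_taylor {m' : ℕ} (w : O →ₐ[Λ] Λ) (hw : RingHom.ker w ≤ maximalIdeal O)
    (s : Fin m' → O)
    (hs : RingHom.ker w = Ideal.span (Set.range s))
    (hT : ∀ r : ℕ, ∃ T : O →ₐ[Λ] (MvPolynomial (Fin m') Λ ⧸
      MvPolynomial.idealOfVars (Fin m') Λ ^ (r + 1)), ∀ j, T (s j) =
        Ideal.Quotient.mk _ (MvPolynomial.X j)) : Augmented w := by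
  classical
  refine ⟨hw, fun r _ => ?_⟩
  obtain ⟨T, hT⟩ := hT r
  -- the index set
  let S : Finset (Fin m' →₀ ℕ) := Finset.finsuppAntidiag Finset.univ r
  have hS : ∀ α, α ∈ S ↔ α.degree = r := by
    intro α
    rw [Finset.mem_finsuppAntidiag]
    simp [Finsupp.degree_eq_sum]
  let σ : MvPolynomial (Fin m') Λ →ₐ[Λ] O := MvPolynomial.aeval s
  have hσ : (MvPolynomial.idealOfVars (Fin m') Λ).map σ = RingHom.ker w := by
    rw [hs, Ideal.map_span, ← Set.range_comp]
    congr 1
    ext x
    simp [σ]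
  let E : {α // α ∈ S} → O := fun α => σ (MvPolynomial.monomial α.1 1)
  have hlt : ∀ α : {α // α ∈ S}, α.1.degree < r + 1 := fun α => by
    have := (hS α.1).1 α.2
    omega
  let l : {α // α ∈ S} → (O →ₗ[Λ] Λ) := fun α => (coeffQ α.1 (hlt α)).comp T.toLinearMap
  have hpow : RingHom.ker w ^ r = Ideal.span (Set.range E) := by
    rw [← hσ, ← Ideal.map_pow, MvPolynomial.pow_idealOfVars_eq_span, Ideal.map_span]
    congr 1
    ext x
    simp only [Set.mem_image, Set.mem_preimage, Set.mem_singleton_iff, Set.mem_range,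
      Subtype.exists, E]
    constructor
    · rintro ⟨_, ⟨α, hα, rfl⟩, rfl⟩
      exact ⟨α, (hS α).2 hα, rfl⟩
    · rintro ⟨α, hα, rfl⟩
      exact ⟨_, ⟨α, (hS α).1 hα, rfl⟩, rfl⟩
  have hTσ : ∀ p, T (σ p) = Ideal.Quotient.mk _ p := by
    intro p
    have : (T.comp σ) = Ideal.Quotient.mkₐ Λ _ := by
      apply MvPolynomial.algHom_ext
      intro j
      simp only [AlgHom.comp_apply, σ, MvPolynomial.aeval_X, hT]
      rfl
    exact congrArg (fun f => f p) this
  have hker : ∀ x ∈ RingHom.ker w ^ (r + 1), T x = 0 := by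
    intro x hx
    rw [← hσ, ← Ideal.map_pow] at hx
    have h2 : T x ∈ ((MvPolynomial.idealOfVars (Fin m') Λ ^ (r + 1)).map σ).map T :=
      Ideal.mem_map_of_mem _ hx
    rw [Ideal.map_mapₐ] at h2
    have h3 : (MvPolynomial.idealOfVars (Fin m') Λ ^ (r + 1)).map (T.comp σ) = ⊥ := by
      rw [Ideal.map_eq_bot_iff_le_ker]
      intro p hp
      rw [RingHom.mem_ker, AlgHom.comp_apply, hTσ]
      exact Ideal.Quotient.eq_zero_iff_mem.2 hp
    rw [h3] at h2
    exact h2
  have hl0 : ∀ α, ∀ x ∈ RingHom.ker w ^ (r + 1), l α x = 0 := by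
    intro α x hx
    change coeffQ α.1 (hlt α) (T x) = 0
    rw [hker x hx, map_zero]
  have hlE : ∀ α β, l α (E β) = if α = β then 1 else 0 := by
    intro α β
    change coeffQ α.1 (hlt α) (T (σ (MvPolynomial.monomial β.1 1))) = _
    rw [hTσ, coeffQ_mk, MvPolynomial.coeff_monomial]
    simp only [Subtype.ext_iff, eq_comm]
  have hmain : ∀ x ∈ RingHom.ker w ^ r,
      x - ∑ α, algebraMap Λ O (l α x) * E α ∈ RingHom.ker w ^ (r + 1) := by
    intro x hx
    rw [hpow, Ideal.mem_span_range_iff_exists_fun] at hx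
    obtain ⟨a, rfl⟩ := hx
    have h1 : ∀ β, a β * E β - ∑ α, algebraMap Λ O (l α (a β * E β)) * E α ∈
        RingHom.ker w ^ (r + 1) := by
      intro β
      set n : O := a β - algebraMap Λ O (w (a β)) with hn
      have hnker : n ∈ RingHom.ker w := by
        rw [RingHom.mem_ker, hn]
        simp
      have hnE : n * E β ∈ RingHom.ker w ^ (r + 1) := by
        rw [pow_succ']
        refine Ideal.mul_mem_mul hnker ?_
        rw [hpow]
        exact Ideal.subset_span ⟨β, rfl⟩
      have h2 : a β * E β = n * E β + w (a β) • E β := by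
        rw [Algebra.smul_def, hn]
        ring
      have h3 : ∀ α, l α (a β * E β) = if α = β then w (a β) else 0 := by
        intro α
        rw [h2, map_add, hl0 α _ hnE, map_smul, hlE, zero_add]
        simp
      have h4 : ∑ α, algebraMap Λ O (l α (a β * E β)) * E α = algebraMap Λ O (w (a β)) * E β := by
        rw [Finset.sum_eq_single β]
        · rw [h3, if_pos rfl]
        · intro α _ hα
          rw [h3, if_neg hα, map_zero, zero_mul]
        · intro h
          exact absurd (Finset.mem_univ β) h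
      rw [h4]
      have : a β * E β - algebraMap Λ O (w (a β)) * E β = n * E β := by
        rw [hn]
        ring
      rw [this]
      exact hnE
    have h5 : ∑ β, a β * E β - ∑ α, algebraMap Λ O (l α (∑ β, a β * E β)) * E α =
        ∑ β, (a β * E β - ∑ α, algebraMap Λ O (l α (a β * E β)) * E α) := by
      rw [Finset.sum_sub_distrib]
      congr 1
      rw [Finset.sum_comm]
      refine Finset.sum_congr rfl fun α _ => ?_
      rw [map_sum, map_sum, Finset.sum_mul]
    rw [h5]
    exact Ideal.sum_mem _ fun β _ => h1 β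
  -- transfer to `Fin s`
  let eqv := Fintype.equivFin {α // α ∈ S}
  refine ⟨Fintype.card {α // α ∈ S}, fun j => E (eqv.symm j), fun j => l (eqv.symm j),
    fun j => ?_, fun j => hl0 _, fun x hx => ?_⟩
  · rw [hpow]
    exact Ideal.subset_span ⟨_, rfl⟩
  · have := hmain x hx
    rw [← Equiv.sum_comp eqv.symm] at this
    exact this

end augmented

/-! ### Evaluation at a point -/

section point

variable {V : Type} [CommRing V] {m' : ℕ}

/-- Evaluation of a polynomial at a point. -/
noncomputable def ev (t : Fin m' → V) (b : V) : Polynomial (MvPolynomial (Fin m') V) →ₐ[V] V :=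
  { Polynomial.eval₂RingHom (MvPolynomial.eval t) b with
    commutes' := fun v => by
      simp [Polynomial.algebraMap_apply, MvPolynomial.algebraMap_eq] }

theorem ev_apply (t : Fin m' → V) (b : V) (F : Polynomial (MvPolynomial (Fin m') V)) :
    ev t b F = F.eval₂ (MvPolynomial.eval t) b := rfl

theorem ev_X (t : Fin m' → V) (b : V) : ev t b Polynomial.X = b := by
  rw [ev_apply, Polynomial.eval₂_X]

theorem ev_C (t : Fin m' → V) (b : V) (P : MvPolynomial (Fin m') V) :
    ev t b (Polynomial.C P) = MvPolynomial.eval t P := by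
  rw [ev_apply, Polynomial.eval₂_C]

/-- A polynomial is congruent to its value modulo the differences `T_j - t_j`, `Θ - b`. -/
theorem sub_ev_mem (t : Fin m' → V) (b : V) {B : Type} [CommRing B] [Algebra V B]
    (f : Polynomial (MvPolynomial (Fin m') V) →ₐ[V] B) (I : Ideal B)
    (h1 : ∀ j, f (Polynomial.C (MvPolynomial.X j)) - algebraMap V B (t j) ∈ I)
    (h2 : f Polynomial.X - algebraMap V B b ∈ I) (F : Polynomial (MvPolynomial (Fin m') V)) :
    f F - algebraMap V B (ev t b F) ∈ I := by
  have key : (Ideal.Quotient.mkₐ V I).comp f =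
      ((Algebra.ofId V B).comp (ev t b) |> (Ideal.Quotient.mkₐ V I).comp) := by
    apply Polynomial.algHom_ext'
    · apply MvPolynomial.algHom_ext
      intro j
      have := h1 j
      rw [← Ideal.Quotient.eq] at this
      simp only [AlgHom.comp_apply, Polynomial.CAlgHom_apply, Ideal.Quotient.mkₐ_eq_mk, this,
        ev_C, MvPolynomial.eval_X, Algebra.ofId_apply]
    · rw [← Ideal.Quotient.eq] at h2
      simp only [AlgHom.comp_apply, Ideal.Quotient.mkₐ_eq_mk, h2, ev_X, Algebra.ofId_apply]
  have := congrArg (fun φ => φ F) key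
  simp only [AlgHom.comp_apply, Ideal.Quotient.mkₐ_eq_mk, Algebra.ofId_apply] at this
  rwa [Ideal.Quotient.eq] at this

end point

/-! ### The Taylor expansion -/

section taylor

/-- Truncated polynomials. -/
abbrev TQ (V : Type) [CommRing V] (m' r : ℕ) : Type :=
  MvPolynomial (Fin m') V ⧸ MvPolynomial.idealOfVars (Fin m') V ^ r

variable {V : Type} [CommRing V] {m' : ℕ}

/-- The augmentation of the truncated polynomial ring. -/
noncomputable def augQ (m' r : ℕ) (hr : r ≠ 0) : TQ V m' r →ₐ[V] V :=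
  Ideal.Quotient.liftₐ _ (MvPolynomial.aeval (fun _ => (0 : V))) (by
    intro p hp
    have h1 : p ∈ MvPolynomial.idealOfVars (Fin m') V := Ideal.pow_le_self hr hp
    have h2 : MvPolynomial.idealOfVars (Fin m') V ≤
        RingHom.ker (MvPolynomial.aeval (fun _ => (0 : V)) :
          MvPolynomial (Fin m') V →ₐ[V] V) := by
      rw [Ideal.span_le]
      rintro _ ⟨j, rfl⟩
      simp [RingHom.mem_ker]
    exact h2 h1)

theorem augQ_mk (m' r : ℕ) (hr : r ≠ 0) (p : MvPolynomial (Fin m') V) :
    augQ m' r hr (Ideal.Quotient.mk _ p) = MvPolynomial.aeval (fun _ => (0 : V)) p := rfl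

theorem augQ_algebraMap (m' r : ℕ) (hr : r ≠ 0) (v : V) :
    augQ m' r hr (algebraMap V (TQ V m' r) v) = v := by
  rw [AlgHom.commutes]
  rfl

theorem aeval_zero_sub_mem (p : MvPolynomial (Fin m') V) :
    p - MvPolynomial.C (MvPolynomial.aeval (fun _ => (0 : V)) p) ∈
      MvPolynomial.idealOfVars (Fin m') V := by
  induction p using MvPolynomial.induction_on with
  | C a => simp
  | add p q hp hq =>
    rw [map_add, map_add]
    have : p + q - (MvPolynomial.C (MvPolynomial.aeval (fun _ => (0 : V)) p) +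
        MvPolynomial.C (MvPolynomial.aeval (fun _ => (0 : V)) q)) =
        (p - MvPolynomial.C (MvPolynomial.aeval (fun _ => (0 : V)) p)) +
        (q - MvPolynomial.C (MvPolynomial.aeval (fun _ => (0 : V)) q)) := by ring
    rw [this]
    exact Ideal.add_mem _ hp hq
  | mul_X p j _ =>
    simp only [map_mul, MvPolynomial.aeval_X, mul_zero, map_zero, sub_zero]
    exact Ideal.mul_mem_left _ _ (Ideal.subset_span ⟨j, rfl⟩)

theorem isNilpotent_sub_augQ (r : ℕ) (hr : r ≠ 0) (y : TQ V m' r) :
    IsNilpotent (y - algebraMap V _ (augQ m' r hr y)) := by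
  obtain ⟨p, rfl⟩ := Ideal.Quotient.mk_surjective y
  refine ⟨r, ?_⟩
  rw [augQ_mk]
  have h1 : (algebraMap V (TQ V m' r))
      (MvPolynomial.aeval (fun _ => (0 : V)) p) = Ideal.Quotient.mk _
        (MvPolynomial.C (MvPolynomial.aeval (fun _ => (0 : V)) p)) := rfl
  rw [h1, ← map_sub, ← map_pow, Ideal.Quotient.eq_zero_iff_mem]
  exact Ideal.pow_mem_pow (aeval_zero_sub_mem p) r

theorem isNilpotent_of_augQ_eq_zero (r : ℕ) (hr : r ≠ 0) (y : TQ V m' r)
    (h : augQ m' r hr y = 0) : IsNilpotent y := by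
  have := isNilpotent_sub_augQ r hr y
  rwa [h, map_zero, sub_zero] at this

theorem isUnit_of_augQ (r : ℕ) (hr : r ≠ 0) (y : TQ V m' r)
    (h : IsUnit (augQ m' r hr y)) : IsUnit y := by
  have h1 := isNilpotent_sub_augQ r hr y
  have h2 : y = algebraMap V _ (augQ m' r hr y) + (y - algebraMap V _ (augQ m' r hr y)) := by
    ring
  rw [h2]
  exact h1.isUnit_add_left_of_commute (h.map _) (Commute.all _ _)

/-- The Taylor expansion of the coordinates. -/
noncomputable def tφ (t : Fin m' → V) (r : ℕ) : MvPolynomial (Fin m') V →ₐ[V] TQ V m' r :=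
  MvPolynomial.aeval (fun j => algebraMap V (TQ V m' r) (t j) +
    Ideal.Quotient.mk _ (MvPolynomial.X j))

theorem augQ_tφ (t : Fin m' → V) (r : ℕ) (hr : r ≠ 0) (P : MvPolynomial (Fin m') V) :
    augQ m' r hr (tφ t r P) = MvPolynomial.eval t P := by
  have : (augQ m' r hr).comp (tφ t r) = MvPolynomial.aeval t := by
    apply MvPolynomial.algHom_ext
    intro j
    simp only [AlgHom.comp_apply, tφ, MvPolynomial.aeval_X, map_add, augQ_mk, augQ_algebraMap,
      add_zero]
  have h2 := congrArg (fun f => f P) this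
  simpa [MvPolynomial.aeval_eq_eval] using h2

theorem augQ_eval₂ (t : Fin m' → V) (r : ℕ) (hr : r ≠ 0)
    (P : Polynomial (MvPolynomial (Fin m') V)) (x : TQ V m' r) :
    augQ m' r hr (P.eval₂ (tφ t r).toRingHom x) =
      P.eval₂ (MvPolynomial.eval t) (augQ m' r hr x) := by
  have h1 : augQ m' r hr (P.eval₂ (tφ t r).toRingHom x) =
      (augQ m' r hr).toRingHom (P.eval₂ (tφ t r).toRingHom x) := rfl
  rw [h1, Polynomial.hom_eval₂]
  have h2 : (augQ m' r hr).toRingHom.comp (tφ t r).toRingHom = MvPolynomial.eval t := by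
    apply RingHom.ext
    intro P
    exact augQ_tφ t r hr P
  rw [h2]
  rfl

/-- The Taylor expansion at a point of the scheme `g = 0`. -/
theorem exists_taylor [IsDomain V] (t : Fin m' → V) (b : V)
    (g : Polynomial (MvPolynomial (Fin m') V)) (hroot : ev t b g = 0)
    (hsep : IsUnit (g.derivative.eval₂ (MvPolynomial.eval t) b)) (r : ℕ) (hr : r ≠ 0) :
    ∃ T : Polynomial (MvPolynomial (Fin m') V) →ₐ[V] TQ V m' r,
      T g = 0 ∧ (∀ j, T (Polynomial.C (MvPolynomial.X j)) =
        algebraMap V _ (t j) + Ideal.Quotient.mk _ (MvPolynomial.X j)) ∧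
      ∀ F, augQ m' r hr (T F) = ev t b F := by
  have haug : augQ m' r hr (algebraMap V (TQ V m' r) b) = b := augQ_algebraMap m' r hr b
  have hex := Polynomial.existsUnique_nilpotent_sub_and_aeval_eq_zero
    (P := g.map (tφ t r).toRingHom) (x := algebraMap V (TQ V m' r) b) (by
      rw [Polynomial.coe_aeval_eq_eval, Polynomial.eval_map]
      apply isNilpotent_of_augQ_eq_zero r hr
      rw [augQ_eval₂, haug]
      exact hroot) (by
      rw [Polynomial.coe_aeval_eq_eval, Polynomial.derivative_map, Polynomial.eval_map]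
      apply isUnit_of_augQ r hr
      rw [augQ_eval₂, haug]
      exact hsep)
  obtain ⟨y, ⟨hy1, hy2⟩, -⟩ := hex
  rw [Polynomial.coe_aeval_eq_eval, Polynomial.eval_map] at hy2
  have hyb : augQ m' r hr y = b := by
    have h1 : IsNilpotent (augQ m' r hr (algebraMap V (TQ V m' r) b - y)) := hy1.map _
    rw [map_sub, haug] at h1
    exact (sub_eq_zero.1 h1.eq_zero).symm
  refine ⟨{ Polynomial.eval₂RingHom (tφ t r).toRingHom y with
      commutes' := fun v => by
        change Polynomial.eval₂ (tφ t r).toRingHom y (Polynomial.C (MvPolynomial.C v)) = _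
        rw [Polynomial.eval₂_C]
        exact (tφ t r).commutes v }, hy2, ?_, ?_⟩
  · intro j
    change Polynomial.eval₂ (tφ t r).toRingHom y (Polynomial.C (MvPolynomial.X j)) = _
    rw [Polynomial.eval₂_C]
    change tφ t r (MvPolynomial.X j) = _
    rw [tφ, MvPolynomial.aeval_X]
  · intro F
    change augQ m' r hr (F.eval₂ (tφ t r).toRingHom y) = _
    rw [augQ_eval₂, hyb]
    rfl

end taylor

/-! ### The local model -/

section main

variable {V : Type} [CommRing V] [IsDomain V] [IsLocalRing V] {m' : ℕ}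

theorem mem_of_eventually (hpr : (maximalIdeal V).IsPrincipal)
    {g : Polynomial (MvPolynomial (Fin m') V)} {τ : Fin m' → ℕ → V} {ϑ : ℕ → V}
    (hs : SmoothData V m' g τ ϑ) (e : ℕ) :
    ∀ F : Polynomial (MvPolynomial (Fin m') V),
      (∀ᶠ i in (hyperfilter ℕ : Filter ℕ),
        ev (fun j => τ j i) (ϑ i) F ∈ maximalIdeal V ^ e) →
      F ∈ Ideal.span {g} ⊔ (maximalIdeal V ^ e).map
        (algebraMap V (Polynomial (MvPolynomial (Fin m') V))) := by
  obtain ⟨p, hp'⟩ := hpr
  have hp : maximalIdeal V = Ideal.span {p} := hp'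
  induction e with
  | zero =>
    intro F _
    rw [pow_zero, Ideal.one_eq_top, Ideal.map_top]
    exact Ideal.mem_sup_right Submodule.mem_top
  | succ e ih =>
    intro F hF
    have h1 := hs.inj F (by
      filter_upwards [hF] with i hi
      exact Ideal.pow_le_self (Nat.succ_ne_zero e) hi)
    have hCC : (Polynomial.C).comp (MvPolynomial.C : V →+* MvPolynomial (Fin m') V) =
      algebraMap V (Polynomial (MvPolynomial (Fin m') V)) := rfl
    rw [hCC] at h1
    obtain ⟨x, hx, y, hy, rfl⟩ := Submodule.mem_sup.1 h1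
    have hy0 := hy
    rw [hp, Ideal.map_span, Set.image_singleton, Ideal.mem_span_singleton] at hy
    obtain ⟨b, rfl⟩ := hy
    refine Ideal.add_mem _ (Ideal.mem_sup_left hx) ?_
    by_cases hp0 : p = 0
    · rw [hp0, map_zero, zero_mul]
      exact Ideal.zero_mem _
    have hb := ih b (by
      filter_upwards [hF, hs.root] with i hi hr
      have hx0 : ev (fun j => τ j i) (ϑ i) x = 0 := by
        obtain ⟨z, rfl⟩ := Ideal.mem_span_singleton.1 hx
        rw [map_mul, ev_apply, hr, zero_mul]
      rw [map_add, hx0, zero_add, map_mul, AlgHom.commutes, hp, Ideal.span_singleton_pow,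
        Ideal.mem_span_singleton] at hi
      obtain ⟨z, hz⟩ := hi
      rw [hp, Ideal.span_singleton_pow, Ideal.mem_span_singleton]
      refine ⟨z, ?_⟩
      apply mul_left_cancel₀ hp0
      change p * _ = _ at hz
      rw [hz, pow_succ']
      ring)
    obtain ⟨x', hx', y', hy', rfl⟩ := Submodule.mem_sup.1 hb
    rw [mul_add]
    refine Ideal.add_mem _ (Ideal.mem_sup_left (Ideal.mul_mem_left _ _ hx'))
      (Ideal.mem_sup_right ?_)
    rw [pow_succ', Ideal.map_mul]
    refine Ideal.mul_mem_mul (Ideal.mem_map_of_mem _ ?_) hy'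
    rw [hp]
    exact Ideal.mem_span_singleton_self p

/-- The evaluation at the sequence of points. -/
noncomputable def evS (τ : Fin m' → ℕ → V) (ϑ : ℕ → V) :
    Polynomial (MvPolynomial (Fin m') V) →ₐ[V] Sharp V (maximalIdeal V) :=
  { (Sharp.mk (maximalIdeal V)).comp
      (RingHom.pi fun i => (ev (fun j => τ j i) (ϑ i)).toRingHom) with
    commutes' := fun v => by
      change Sharp.mk (maximalIdeal V) (fun i => ev (fun j => τ j i) (ϑ i)
        (algebraMap V _ v)) = _
      simp only [AlgHom.commutes]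
      rfl }

omit [IsDomain V] in
theorem evS_apply (τ : Fin m' → ℕ → V) (ϑ : ℕ → V) (F : Polynomial (MvPolynomial (Fin m') V)) :
    evS τ ϑ F = Sharp.mk (maximalIdeal V) (fun i => ev (fun j => τ j i) (ϑ i) F) := rfl

/-- The affine algebra. -/
def AQ (g : Polynomial (MvPolynomial (Fin m') V)) : Type :=
  Polynomial (MvPolynomial (Fin m') V) ⧸ Ideal.span {g}

noncomputable instance (g : Polynomial (MvPolynomial (Fin m') V)) : CommRing (AQ g) :=
  inferInstanceAs (CommRing (Polynomial (MvPolynomial (Fin m') V) ⧸ Ideal.span {g}))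

noncomputable instance (g : Polynomial (MvPolynomial (Fin m') V)) : Algebra V (AQ g) :=
  inferInstanceAs (Algebra V (Polynomial (MvPolynomial (Fin m') V) ⧸ Ideal.span {g}))

instance [IsNoetherianRing V] (g : Polynomial (MvPolynomial (Fin m') V)) :
    IsNoetherianRing (AQ g) :=
  inferInstanceAs (IsNoetherianRing (Polynomial (MvPolynomial (Fin m') V) ⧸ Ideal.span {g}))

/-- The quotient map. -/
noncomputable def AQ.q (g : Polynomial (MvPolynomial (Fin m') V)) :
    Polynomial (MvPolynomial (Fin m') V) →ₐ[V] AQ g :=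
  Ideal.Quotient.mkₐ V (Ideal.span {g})

omit [IsDomain V] [IsLocalRing V] in
theorem AQ.q_surjective (g : Polynomial (MvPolynomial (Fin m') V)) :
    Function.Surjective (AQ.q g) := Ideal.Quotient.mkₐ_surjective V _

omit [IsDomain V] [IsLocalRing V] in
theorem AQ.q_eq_zero {g x : Polynomial (MvPolynomial (Fin m') V)} :
    AQ.q g x = 0 ↔ x ∈ Ideal.span {g} := Ideal.Quotient.eq_zero_iff_mem

/-- The universal property. -/
noncomputable def AQ.lift (g : Polynomial (MvPolynomial (Fin m') V)) {B : Type} [CommRing B]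
    [Algebra V B] (f : Polynomial (MvPolynomial (Fin m') V) →ₐ[V] B) (h : f g = 0) :
    AQ g →ₐ[V] B :=
  Ideal.Quotient.liftₐ (Ideal.span {g}) f (by
    intro x hx
    obtain ⟨z, rfl⟩ := Ideal.mem_span_singleton.1 hx
    rw [map_mul, h, zero_mul])

omit [IsDomain V] [IsLocalRing V] in
theorem AQ.lift_q (g : Polynomial (MvPolynomial (Fin m') V)) {B : Type} [CommRing B]
    [Algebra V B] (f : Polynomial (MvPolynomial (Fin m') V) →ₐ[V] B) (h : f g = 0)
    (P : Polynomial (MvPolynomial (Fin m') V)) : AQ.lift g f h (AQ.q g P) = f P := rfl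

theorem localModel_at [IsNoetherianRing V] (hpr : (maximalIdeal V).IsPrincipal) (N m : ℕ)
    (g : Polynomial (MvPolynomial (Fin m') V)) (τ : Fin m' → ℕ → V) (ϑ : ℕ → V)
    (hs : SmoothData V m' g τ ϑ) (c : Fin m → ℕ → V)
    (F : Fin m → Polynomial (MvPolynomial (Fin m') V)) (G : Polynomial (MvPolynomial (Fin m') V))
    (hG : ∀ᶠ i in (hyperfilter ℕ : Filter ℕ), IsUnit (ev (fun j => τ j i) (ϑ i) G))
    (hF : ∀ l, ∀ᶠ i in (hyperfilter ℕ : Filter ℕ),
      c l i * ev (fun j => τ j i) (ϑ i) G - ev (fun j => τ j i) (ϑ i) (F l) ∈ maximalIdeal V ^ N)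
    (i : ℕ) (hroot : ev (fun j => τ j i) (ϑ i) g = 0)
    (hsep : IsUnit (g.derivative.eval₂ (MvPolynomial.eval (fun j => τ j i)) (ϑ i)))
    (hGi : IsUnit (ev (fun j => τ j i) (ϑ i) G))
    (hFi : ∀ l, c l i * ev (fun j => τ j i) (ϑ i) G - ev (fun j => τ j i) (ϑ i) (F l) ∈
      maximalIdeal V ^ N) : LocalModel V N m c i := by
  classical
  set t : Fin m' → V := fun j => τ j i with ht
  set b : V := ϑ i with hb
  let q : Polynomial (MvPolynomial (Fin m') V) →ₐ[V] AQ g := AQ.q g
  have hq : Function.Surjective q := AQ.q_surjective g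
  have hqg : q g = 0 := AQ.q_eq_zero.2 (Ideal.mem_span_singleton_self g)
  let w0 : AQ g →ₐ[V] V := AQ.lift g (ev t b) hroot
  have hw0 : ∀ P, w0 (q P) = ev t b P := fun P => rfl
  let M : Ideal (AQ g) := (maximalIdeal V).comap w0
  have hM : M.IsPrime := Ideal.comap_isPrime _ _
  let O := Localization.AtPrime M
  have hunit0 : ∀ a : AQ g, a ∉ M ↔ IsUnit (w0 a) := by
    intro a
    change ¬ (w0 a ∈ maximalIdeal V) ↔ _
    rw [IsLocalRing.mem_maximalIdeal, mem_nonunits_iff, not_not]
  have hf : ∀ y : M.primeCompl, IsUnit (w0 (y : AQ g)) := fun y => (hunit0 y).1 y.2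
  let wO : O →ₐ[V] V := IsLocalization.liftAlgHom (M := M.primeCompl) (f := w0) hf
  have hwO : ∀ a : AQ g, wO (algebraMap (AQ g) O a) = w0 a := fun a =>
    IsLocalization.lift_eq (M := M.primeCompl) (S := O) hf a
  have hunitO : ∀ y : O, IsUnit (wO y) → IsUnit y := by
    intro y hy
    obtain ⟨a, d, rfl⟩ := IsLocalization.exists_mk'_eq M.primeCompl y
    have h1 : algebraMap (AQ g) O a = IsLocalization.mk' O a d * algebraMap (AQ g) O d :=
      (IsLocalization.mk'_spec O a d).symm
    have h2 : IsUnit (w0 a) := by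
      rw [← hwO, h1, map_mul, hwO]
      exact hy.mul (hf d)
    have h3 : IsUnit (algebraMap (AQ g) O a) :=
      IsLocalization.map_units O (⟨a, (hunit0 a).2 h2⟩ : M.primeCompl)
    rw [h1] at h3
    exact isUnit_of_mul_isUnit_left h3
  -- the sequence evaluation
  have hSg : evS τ ϑ g = 0 := by
    rw [evS_apply, Sharp.mk_eq_zero]
    intro K
    filter_upwards [hs.root] with k hk
    rw [ev_apply, hk]
    exact Ideal.zero_mem _
  let θ0 : AQ g →ₐ[V] Sharp V (maximalIdeal V) := AQ.lift g (evS τ ϑ) hSg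
  have hθ0 : ∀ P, θ0 (q P) = Sharp.mk (maximalIdeal V)
    (fun k => ev (fun j => τ j k) (ϑ k) P) := fun P => rfl
  have hfθ : ∀ y : M.primeCompl, IsUnit (θ0 (y : AQ g)) := by
    rintro ⟨y, hy⟩
    obtain ⟨P, rfl⟩ := hq y
    change IsUnit (θ0 (q P))
    rw [hθ0]
    apply isUnit_mk
    by_contra hcon
    rw [Filter.not_eventually] at hcon
    have h1 : ∀ᶠ k in (hyperfilter ℕ : Filter ℕ),
        ev (fun j => τ j k) (ϑ k) P ∈ maximalIdeal V := by
      have := (Ultrafilter.frequently_iff_eventually (f := hyperfilter ℕ)).1 hcon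
      filter_upwards [this] with k hk
      rw [IsLocalRing.mem_maximalIdeal, mem_nonunits_iff]
      exact hk
    have h2 := mem_of_eventually hpr hs 1 P (by simpa using h1)
    rw [pow_one] at h2
    obtain ⟨x, hx, z, hz, rfl⟩ := Submodule.mem_sup.1 h2
    have h3 : w0 (q (x + z)) ∈ maximalIdeal V := by
      rw [hw0, map_add]
      have hx0 : ev t b x = 0 := by
        obtain ⟨u, rfl⟩ := Ideal.mem_span_singleton.1 hx
        rw [map_mul, hroot, zero_mul]
      rw [hx0, zero_add]
      have h4 : ev t b z ∈ ((maximalIdeal V).map (algebraMap V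
        (Polynomial (MvPolynomial (Fin m') V)))).map (ev t b) := Ideal.mem_map_of_mem _ hz
      have h5 : ((maximalIdeal V).map (algebraMap V
        (Polynomial (MvPolynomial (Fin m') V)))).map (ev t b) ≤ maximalIdeal V := by
        rw [Ideal.map_le_iff_le_comap, Ideal.map_le_iff_le_comap]
        intro v hv
        rw [Ideal.mem_comap, Ideal.mem_comap, AlgHom.commutes]
        exact hv
      exact h5 h4
    exact hy h3
  let θ : O →ₐ[V] Sharp V (maximalIdeal V) :=
    IsLocalization.liftAlgHom (M := M.primeCompl) (f := θ0) hfθ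
  have hθ : ∀ a : AQ g, θ (algebraMap (AQ g) O a) = θ0 a := fun a =>
    IsLocalization.lift_eq (M := M.primeCompl) (S := O) hfθ a
  -- the full evaluation into `O`
  let f : Polynomial (MvPolynomial (Fin m') V) →ₐ[V] O :=
    (IsScalarTower.toAlgHom V (AQ g) O).comp q
  have hfP : ∀ P, f P = algebraMap (AQ g) O (q P) := fun P => rfl
  have hwf : ∀ P, wO (f P) = ev t b P := fun P => by rw [hfP, hwO, hw0]
  let s : Fin m' → O := fun j => f (Polynomial.C (MvPolynomial.X j)) - algebraMap V O (t j)
  -- `Θ - b` lies in the ideal generated by the `s j`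
  have hΘ : f Polynomial.X - algebraMap V O b ∈ Ideal.span (Set.range s) := by
    set I : Ideal O := Ideal.span (Set.range s) with hI
    have h1 : ∀ P : Polynomial (MvPolynomial (Fin m') V),
        f P - Polynomial.aeval (f Polynomial.X) (P.map (MvPolynomial.eval t)) ∈ I := by
      intro P
      have key : (Ideal.Quotient.mkₐ V I).comp f =
          (Ideal.Quotient.mkₐ V I).comp ((Polynomial.aeval (f Polynomial.X)).comp
            (Polynomial.mapAlgHom (MvPolynomial.aeval t))) := by
        apply Polynomial.algHom_ext'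
        · apply MvPolynomial.algHom_ext
          intro j
          simp only [AlgHom.comp_apply, Polynomial.CAlgHom_apply, Ideal.Quotient.mkₐ_eq_mk,
            Polynomial.coe_mapAlgHom, Polynomial.map_C, Polynomial.aeval_C]
          rw [Ideal.Quotient.eq]
          refine Ideal.subset_span ⟨j, ?_⟩
          simp [s]
        · simp only [AlgHom.comp_apply, Ideal.Quotient.mkₐ_eq_mk,
            Polynomial.coe_mapAlgHom, Polynomial.map_X, Polynomial.aeval_X]
      have := congrArg (fun φ => φ P) key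
      simp only [AlgHom.comp_apply, Ideal.Quotient.mkₐ_eq_mk] at this
      rw [Ideal.Quotient.eq] at this
      have h3 : (Polynomial.mapAlgHom (MvPolynomial.aeval t : MvPolynomial (Fin m') V →ₐ[V] V)) P =
          P.map (MvPolynomial.eval t) := by
        rw [Polynomial.coe_mapAlgHom]
        rfl
      rwa [h3] at this
    have h2 := h1 g
    rw [hfP, hqg, map_zero, zero_sub, neg_mem_iff] at h2
    have h3 : (g.map (MvPolynomial.eval t)).IsRoot b := by
      rw [Polynomial.IsRoot.def, Polynomial.eval_map]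
      exact hroot
    obtain ⟨h, hh⟩ := Polynomial.dvd_iff_isRoot.2 h3
    have h4 : IsUnit (h.eval b) := by
      have h5 : (g.map (MvPolynomial.eval t)).derivative.eval b = h.eval b := by
        rw [hh]
        simp
      rw [← h5, Polynomial.derivative_map, Polynomial.eval_map]
      exact hsep
    have h6 : IsUnit (Polynomial.aeval (f Polynomial.X) h) := by
      apply hunitO
      have h7 : wO (Polynomial.aeval (f Polynomial.X) h) =
          Polynomial.aeval (wO (f Polynomial.X)) h := (Polynomial.aeval_algHom_apply wO _ h).symm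
      rw [h7, hwf, ev_X, Polynomial.coe_aeval_eq_eval]
      exact h4
    rw [hh, map_mul] at h2
    have h8 : (Polynomial.aeval (f Polynomial.X)) (Polynomial.X - Polynomial.C b) =
        f Polynomial.X - algebraMap V O b := by
      simp
    rw [h8] at h2
    exact (Ideal.mul_unit_mem_iff_mem I h6).1 h2
  have hker : RingHom.ker wO = Ideal.span (Set.range s) := by
    apply le_antisymm
    · intro y hy
      obtain ⟨a, d, rfl⟩ := IsLocalization.exists_mk'_eq M.primeCompl y
      obtain ⟨P, rfl⟩ := hq a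
      have h1 : algebraMap (AQ g) O (q P) = IsLocalization.mk' O (q P) d * algebraMap (AQ g) O d :=
        (IsLocalization.mk'_spec O (q P) d).symm
      have h2 : ev t b P = 0 := by
        rw [← hwf, hfP, h1, map_mul, RingHom.mem_ker.1 hy, zero_mul]
      have h3 := sub_ev_mem t b f (Ideal.span (Set.range s))
        (fun j => Ideal.subset_span ⟨j, rfl⟩) hΘ P
      rw [h2, map_zero, sub_zero, hfP, h1] at h3
      exact (Ideal.mul_unit_mem_iff_mem _ (IsLocalization.map_units O d)).1 h3
    · rw [Ideal.span_le]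
      rintro _ ⟨j, rfl⟩
      change wO (s j) = 0
      simp only [s]
      rw [map_sub, hwf, ev_C, MvPolynomial.eval_X, AlgHom.commutes]
      exact sub_self _
  have hGM : q G ∉ M := (hunit0 _).2 (by rw [hw0]; exact hGi)
  have hGO : IsUnit (algebraMap (AQ g) O (q G)) :=
    IsLocalization.map_units O (⟨q G, hGM⟩ : M.primeCompl)
  refine ⟨O, inferInstance, inferInstance, ?_, inferInstance, wO, θ,
    fun l => IsLocalization.mk' O (q (F l)) (⟨q G, hGM⟩ : M.primeCompl), ?_, ?_, ?_, ?_⟩
  · exact IsLocalization.isNoetherianRing M.primeCompl O inferInstance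
  · -- augmented
    refine augmented_of_taylor wO (IsLocalRing.le_maximalIdeal (RingHom.ker_ne_top _)) s hker ?_
    intro r
    obtain ⟨T0, hT0g, hT0X, hT0w⟩ := exists_taylor t b g hroot hsep (r + 1) (Nat.succ_ne_zero r)
    let T1 : AQ g →ₐ[V] TQ V m' (r + 1) := AQ.lift g T0 hT0g
    have hT1 : ∀ P, T1 (q P) = T0 P := fun P => rfl
    have hfT : ∀ y : M.primeCompl, IsUnit (T1 (y : AQ g)) := by
      rintro ⟨y, hy⟩
      obtain ⟨P, rfl⟩ := hq y
      change IsUnit (T1 (q P))
      rw [hT1]
      apply isUnit_of_augQ (r + 1) (Nat.succ_ne_zero r)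
      rw [hT0w]
      exact (hunit0 _).1 hy
    let T : O →ₐ[V] TQ V m' (r + 1) :=
      IsLocalization.liftAlgHom (M := M.primeCompl) (f := T1) hfT
    have hT : ∀ a : AQ g, T (algebraMap (AQ g) O a) = T1 a := fun a =>
      IsLocalization.lift_eq (M := M.primeCompl) (S := O) hfT a
    refine ⟨T, fun j => ?_⟩
    simp only [s]
    rw [map_sub, hfP, hT, hT1, hT0X, AlgHom.commutes]
    ring
  · intro l
    change wO (IsLocalization.mk' O (q (F l)) (⟨q G, hGM⟩ : M.primeCompl)) - c l i ∈ _
    set z := IsLocalization.mk' O (q (F l)) (⟨q G, hGM⟩ : M.primeCompl) with hz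
    have h1 : z * algebraMap (AQ g) O (q G) = algebraMap (AQ g) O (q (F l)) :=
      IsLocalization.mk'_spec O (q (F l)) (⟨q G, hGM⟩ : M.primeCompl)
    have h2 : wO z * ev t b G = ev t b (F l) := by
      rw [← hwf, ← hwf, ← map_mul, hfP, hfP, h1]
    have h3 : (wO z - c l i) * ev t b G ∈ maximalIdeal V ^ N := by
      have := hFi l
      rw [sub_mul, h2, ← neg_mem_iff, neg_sub]
      exact this
    exact (Ideal.mul_unit_mem_iff_mem _ hGi).1 h3
  · intro l
    change θ (IsLocalization.mk' O (q (F l)) (⟨q G, hGM⟩ : M.primeCompl)) - _ ∈ _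
    set z := IsLocalization.mk' O (q (F l)) (⟨q G, hGM⟩ : M.primeCompl) with hz
    have h1 : z * algebraMap (AQ g) O (q G) = algebraMap (AQ g) O (q (F l)) :=
      IsLocalization.mk'_spec O (q (F l)) (⟨q G, hGM⟩ : M.primeCompl)
    have h2 : θ z * θ0 (q G) = θ0 (q (F l)) := by
      rw [← hθ, ← hθ, ← map_mul, h1]
    have h3 : (θ z - Sharp.mk (maximalIdeal V) (c l)) * θ0 (q G) ∈
        (maximalIdeal V ^ N).map (algebraMap V (Sharp V (maximalIdeal V))) := by
      rw [sub_mul, h2, hθ0, hθ0, ← map_mul, ← map_sub, ← neg_mem_iff, ← map_neg]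
      apply mk_mem_of_eventually hpr
      filter_upwards [hF l] with k hk
      simpa using hk
    exact (Ideal.mul_unit_mem_iff_mem _ (hfθ ⟨q G, hGM⟩)).1 h3
  · intro e x hx
    obtain ⟨a, d, rfl⟩ := IsLocalization.exists_mk'_eq M.primeCompl x
    obtain ⟨P, rfl⟩ := hq a
    have h1 : algebraMap (AQ g) O (q P) = IsLocalization.mk' O (q P) d * algebraMap (AQ g) O d :=
      (IsLocalization.mk'_spec O (q P) d).symm
    have h2 : θ0 (q P) ∈ (maximalIdeal V ^ e).map (algebraMap V (Sharp V (maximalIdeal V))) := by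
      rw [← hθ, h1, map_mul]
      exact Ideal.mul_mem_right _ _ hx
    rw [hθ0] at h2
    have h3 := mem_of_eventually hpr hs e P (eventually_of_mk_mem h2)
    have h4 : algebraMap (AQ g) O (q P) ∈ (maximalIdeal V ^ e).map (algebraMap V O) := by
      obtain ⟨x', hx', y', hy', rfl⟩ := Submodule.mem_sup.1 h3
      have h5 : q x' = 0 := AQ.q_eq_zero.2 hx'
      rw [map_add, h5, zero_add]
      have h6 : (maximalIdeal V ^ e).map (algebraMap V
          (Polynomial (MvPolynomial (Fin m') V))) ≤
          ((maximalIdeal V ^ e).map (algebraMap V O)).comap f := by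
        rw [Ideal.map_le_iff_le_comap]
        intro v hv
        rw [Ideal.mem_comap, Ideal.mem_comap, AlgHom.commutes]
        exact Ideal.mem_map_of_mem _ hv
      exact h6 hy'
    rw [h1] at h4
    exact (Ideal.mul_unit_mem_iff_mem _ (IsLocalization.map_units O d)).1 h4

end main

end LMDVR

theorem localModel_of_smoothData (V : Type) [CommRing V] [IsDomain V] [IsLocalRing V]
    [IsNoetherianRing V] [IsAdicComplete (maximalIdeal V) V]
    (hpr : (maximalIdeal V).IsPrincipal) (N m m' : ℕ)
    (g : Polynomial (MvPolynomial (Fin m') V)) (τ : Fin m' → ℕ → V) (ϑ : ℕ → V)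
    (hs : SmoothData V m' g τ ϑ) (c : Fin m → ℕ → V)
    (F : Fin m → Polynomial (MvPolynomial (Fin m') V)) (G : Polynomial (MvPolynomial (Fin m') V))
    (hG : ∀ᶠ i in (hyperfilter ℕ : Filter ℕ),
      IsUnit (G.eval₂ (MvPolynomial.eval (fun j => τ j i)) (ϑ i)))
    (hF : ∀ l, ∀ᶠ i in (hyperfilter ℕ : Filter ℕ),
      c l i * G.eval₂ (MvPolynomial.eval (fun j => τ j i)) (ϑ i) -
        (F l).eval₂ (MvPolynomial.eval (fun j => τ j i)) (ϑ i) ∈ maximalIdeal V ^ N) :
    ∀ᶠ i in (hyperfilter ℕ : Filter ℕ), LocalModel V N m c i := by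
  have hF' : ∀ᶠ i in (hyperfilter ℕ : Filter ℕ), ∀ l,
      c l i * G.eval₂ (MvPolynomial.eval (fun j => τ j i)) (ϑ i) -
        (F l).eval₂ (MvPolynomial.eval (fun j => τ j i)) (ϑ i) ∈ maximalIdeal V ^ N :=
    Filter.eventually_all.2 hF
  filter_upwards [hs.root, hs.sep, hG, hF'] with i h1 h2 h3 h4
  exact LMDVR.localModel_at hpr N m g τ ϑ hs c F G hG hF i h1 h2 h3 h4

end Pool.Agent.W_cbb711
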