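import Pool.Agent.W_cbb711.Cocycle

/-!
# Rigidity of maximal Cohen-Macaulay ideals which are locally principal in codimension two

The same arguments as in `W_cbb711.Principal`, `W_cbb711.Rigid` and `W_cbb711.Cocycle`, with the
regularity hypothesis replaced by local principality of the ideal.
-/

set_option autoImplicit false

universe u

open IsLocalRing RingTheory.Sequence Ideal Pointwise

namespace Pool.Agent.W_cbb711

/-- The local ring at `p` is regular. -/
def RegAt (R : Type u) [CommRing R] (p : Ideal R) [p.IsPrime] : Prop :=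
  ∃ s : Finset (Localization.AtPrime p),
    Ideal.span (s : Set (Localization.AtPrime p)) =
        IsLocalRing.maximalIdeal (Localization.AtPrime p) ∧
      (s.card : WithBot ℕ∞) ≤ ringKrullDim (Localization.AtPrime p)

/-- `I` is locally principal (and nonzero) at the primes of height at most two. -/
def LocPrin {R : Type u} [CommRing R] (I : Ideal R) : Prop :=
  ∀ (p : Ideal R) [p.IsPrime], p.height ≤ 2 →
    ∃ g ∈ I, g ≠ 0 ∧ ∃ s ∉ p, ∀ i ∈ I, ∃ r, s * i = r * g

/-- A maximal Cohen-Macaulay ideal is locally principal at primes of height at most two. -/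
theorem locPrin_at {R : Type u} [CommRing R] [IsLocalRing R] [IsNoetherianRing R]
    [IsDomain R] {d : ℕ} (hd : ringKrullDim R = d) (hCM : DepthGE R R d)
    (I : Ideal R) (hI : I ≠ ⊥) (hIM : DepthGE R I d) (p : Ideal R) [hp : p.IsPrime]
    (hht : p.height ≤ 2) (hreg : RegAt R p) :
    ∃ f ∈ I, f ≠ 0 ∧ ∃ s ∉ p, ∀ i ∈ I, ∃ r, s * i = r * f := by
  classical
  have hInt : Nontrivial I := by
    rw [Submodule.nontrivial_iff_ne_bot]; exact hI
  -- it suffices that the extension of `I` to the local ring is principal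
  suffices hprin : ∃ g, Ideal.map (algebraMap R (Localization.AtPrime p)) I = Ideal.span {g} by
    obtain ⟨g, hg⟩ := hprin
    have hgI : g ∈ Ideal.map (algebraMap R (Localization.AtPrime p)) I := by
      rw [hg]; exact Ideal.mem_span_singleton_self _
    obtain ⟨⟨⟨a, ha⟩, ⟨s, hs⟩⟩, has⟩ := (IsLocalization.mem_map_algebraMap_iff p.primeCompl _).mp hgI
    simp only at has
    have hspan : Ideal.map (algebraMap R (Localization.AtPrime p)) I =
        Ideal.span {algebraMap R (Localization.AtPrime p) a} := by
      rw [hg]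
      apply le_antisymm
      · rw [Ideal.span_singleton_le_iff_mem, ← has, mul_comm]
        have hunit : IsUnit (algebraMap R (Localization.AtPrime p) s) :=
          IsLocalization.map_units _ (⟨s, hs⟩ : p.primeCompl)
        obtain ⟨w, hw⟩ := hunit.exists_left_inv
        rw [Ideal.mem_span_singleton']
        exact ⟨w, by rw [← mul_assoc, hw, one_mul]⟩
      · rw [Ideal.span_singleton_le_iff_mem, ← has]
        exact Ideal.mul_mem_right _ _ (Ideal.mem_span_singleton_self _)
    have hinj : Function.Injective (algebraMap R (Localization.AtPrime p)) :=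
      IsLocalization.injective _ p.primeCompl_le_nonZeroDivisors
    have ha0 : a ≠ 0 := by
      rintro rfl
      obtain ⟨z, hz, hz0⟩ := Submodule.exists_mem_ne_zero_of_ne_bot hI
      have h3 : algebraMap R (Localization.AtPrime p) z ∈
          Ideal.map (algebraMap R (Localization.AtPrime p)) I := Ideal.mem_map_of_mem _ hz
      rw [hspan, map_zero, Ideal.span_singleton_zero, Ideal.mem_bot] at h3
      exact hz0 (hinj (by rw [h3, map_zero]))
    refine ⟨a, ha, ha0, ?_⟩
    have hcom : ∀ i ∈ I, ∃ t ∉ p, t * i ∈ Ideal.span {a} := by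
      intro i hi
      have h3 : algebraMap R (Localization.AtPrime p) i ∈
          Ideal.map (algebraMap R (Localization.AtPrime p)) I := Ideal.mem_map_of_mem _ hi
      rw [hspan, Ideal.mem_span_singleton'] at h3
      obtain ⟨g', hg'⟩ := h3
      obtain ⟨⟨r, ⟨t, ht⟩⟩, hrt⟩ := IsLocalization.surj p.primeCompl g'
      simp only at hrt
      refine ⟨t, ht, ?_⟩
      rw [Ideal.mem_span_singleton']
      refine ⟨r, hinj ?_⟩
      rw [map_mul, map_mul, ← hrt, ← hg']; ring
    obtain ⟨s, hs, hsI⟩ := exists_common (IsNoetherian.noetherian I) hcom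
    refine ⟨s, hs, fun i hi => ?_⟩
    have := hsI i hi
    rw [Ideal.mem_span_singleton'] at this
    obtain ⟨r, hr⟩ := this
    exact ⟨r, hr.symm⟩
  -- principality
  have hdomloc : IsDomain (Localization.AtPrime p) :=
    IsLocalization.isDomain_localization p.primeCompl_le_nonZeroDivisors
  obtain ⟨s, hs, hcard⟩ := hreg
  have hdim : ringKrullDim (Localization.AtPrime p) = (p.height : WithBot ℕ∞) :=
    IsLocalization.AtPrime.ringKrullDim_eq_height p _
  have hcard' := hcard
  rw [hdim] at hcard
  have hsc : s.card ≤ 2 := by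
    have h1 : ((s.card : ℕ∞) : WithBot ℕ∞) ≤ ((2 : ℕ∞) : WithBot ℕ∞) :=
      le_trans (by exact_mod_cast hcard) (WithBot.coe_le_coe.mpr hht)
    have h3 : (s.card : ℕ∞) ≤ 2 := WithBot.coe_le_coe.mp h1
    exact_mod_cast h3
  have hprin_case : (maximalIdeal (Localization.AtPrime p)).IsPrincipal →
      ∃ g, Ideal.map (algebraMap R (Localization.AtPrime p)) I = Ideal.span {g} := by
    intro h
    have h3 : IsPrincipalIdealRing (Localization.AtPrime p) :=
      ((tfae_of_isNoetherianRing_of_isLocalRing_of_isDomain (Localization.AtPrime p)).out 0 4).mpr h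
    obtain ⟨g, hg⟩ := (IsPrincipalIdealRing.principal
      (Ideal.map (algebraMap R (Localization.AtPrime p)) I)).principal
    exact ⟨g, hg⟩
  interval_cases hsn : s.card
  · apply hprin_case
    rw [Finset.card_eq_zero] at hsn
    rw [← hs, hsn]
    exact ⟨⟨0, by simp⟩⟩
  · apply hprin_case
    obtain ⟨x, hx⟩ := Finset.card_eq_one.mp hsn
    rw [← hs, hx]
    exact ⟨⟨x, by simp [Ideal.submodule_span_eq]⟩⟩
  · obtain ⟨x, y, hxy, hsxy⟩ := Finset.card_eq_two.mp hsn
    have hp2 : ∀ (q : Ideal R) [q.IsPrime], q.height ≤ (1 : ℕ) → ¬ p ≤ q := by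
      intro q hq hq1 hpq
      have h3 : p.height ≤ (1 : ℕ) := (Ideal.height_mono hpq).trans hq1
      have h4 : ((2 : ℕ∞) : WithBot ℕ∞) ≤ ((1 : ℕ∞) : WithBot ℕ∞) := by
        have hc2 : ((2 : ℕ∞) : WithBot ℕ∞) ≤ (p.height : WithBot ℕ∞) := hcard
        exact hc2.trans (WithBot.coe_le_coe.mpr h3)
      have h5 : (2 : ℕ∞) ≤ 1 := WithBot.coe_le_coe.mp h4
      exact absurd h5 (by decide)
    apply principal_of_sat (x := x) (y := y)
    · rw [← hs, hsxy]; simp
    · exact_mod_cast hcard'
    · intro t ht
      obtain ⟨⟨a, ⟨w, hw⟩⟩, haw⟩ := IsLocalization.surj p.primeCompl t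
      simp only at haw
      have hunit : IsUnit (algebraMap R (Localization.AtPrime p) w) :=
          IsLocalization.map_units _ (⟨w, hw⟩ : p.primeCompl)
      have hinj : Function.Injective (algebraMap R (Localization.AtPrime p)) :=
        IsLocalization.injective _ p.primeCompl_le_nonZeroDivisors
      let K : Ideal R := Submodule.comap (LinearMap.mulRight R a) I
      have hK : ∀ z, z ∈ K ↔ z * a ∈ I := fun z => by
        simp [K, Submodule.mem_comap]
      have h3 : ∀ z ∈ p, ∃ u ∉ p, u * z ∈ K := by
        intro z hz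
        have h4 : algebraMap R (Localization.AtPrime p) z ∈ maximalIdeal (Localization.AtPrime p) := by
          rw [← Localization.AtPrime.map_eq_maximalIdeal]
          exact Ideal.mem_map_of_mem _ hz
        have h5 := ht _ h4
        have h6 : algebraMap R (Localization.AtPrime p) (z * a) ∈
            Ideal.map (algebraMap R (Localization.AtPrime p)) I := by
          rw [map_mul, ← haw, ← mul_assoc]
          exact Ideal.mul_mem_right _ _ h5
        rw [IsLocalization.mem_map_algebraMap_iff p.primeCompl] at h6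
        obtain ⟨⟨⟨b, hb⟩, ⟨v, hv⟩⟩, hbv⟩ := h6
        refine ⟨v, hv, ?_⟩
        rw [hK]
        have h7 : z * a * v = b := hinj (by rw [map_mul]; exact hbv)
        have h8 : v * z * a = b := by rw [← h7]; ring
        rw [h8]; exact hb
      obtain ⟨u, hu, huK⟩ := exists_common (IsNoetherian.noetherian p) h3
      -- `u * a ∈ I` by depth
      have hua : u * a ∈ I := by
        obtain ⟨rs, hlen, hmem, hreg, hregI⟩ := exists_seq hd 1 p hp.ne_top hp2 R I hCM hIM
        match rs, hlen with
        | [s1, s2], _ =>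
          have e1 : s1 * (u * a) ∈ I := by
            have := (hK _).mp (huK s1 (hmem s1 (by simp)))
            have h9 : s1 * (u * a) = u * s1 * a := by ring
            rw [h9]; exact this
          have e2 : s2 * (u * a) ∈ I := by
            have := (hK _).mp (huK s2 (hmem s2 (by simp)))
            have h9 : s2 * (u * a) = u * s2 * a := by ring
            rw [h9]; exact this
          have e3 : s2 • (⟨s1 * (u * a), e1⟩ : I) = s1 • (⟨s2 * (u * a), e2⟩ : I) := by
            apply Subtype.ext
            simp only [SetLike.mk_smul_mk, smul_eq_mul]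
            ring
          obtain ⟨c, hc⟩ := IsRegular.two hregI e3
          have e4 : s1 * (u * a) = s1 * (c : R) := congrArg Subtype.val hc
          have e5 : s1 • (u * a - c) = 0 := by
            rw [smul_eq_mul, mul_sub, e4, sub_self]
          have e6 := IsRegular.one hreg e5
          have e7 : u * a = c := sub_eq_zero.mp e6
          rw [e7]; exact c.2
      have hunit2 : IsUnit (algebraMap R (Localization.AtPrime p) u) :=
          IsLocalization.map_units _ (⟨u, hu⟩ : p.primeCompl)
      have h10 : algebraMap R (Localization.AtPrime p) (u * a) ∈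
          Ideal.map (algebraMap R (Localization.AtPrime p)) I := Ideal.mem_map_of_mem _ hua
      rw [map_mul, ← haw] at h10
      have h11 := (Ideal.unit_mul_mem_iff_mem _ hunit2).mp h10
      exact (Ideal.mul_unit_mem_iff_mem _ hunit).mp h11

section

variable {R : Type u} [CommRing R] [IsLocalRing R] [IsNoetherianRing R] [IsDomain R] {d : ℕ}

/-- Endomorphisms of a nonzero maximal Cohen-Macaulay ideal are homotheties. -/
theorem end_eq' (hd : ringKrullDim R = d) (hCM : DepthGE R R d)
    (I : Ideal R) (hI : I ≠ ⊥) (hIM : DepthGE R I d) (hlocp : LocPrin I) (f : I →ₗ[R] I) :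
    ∃ r : R, ∀ i, f i = r • i := by
  have hInt : Nontrivial I := by
    rw [Submodule.nontrivial_iff_ne_bot]; exact hI
  obtain ⟨z, hz, hz0⟩ := Submodule.exists_mem_ne_zero_of_ne_bot hI
  set i0 : I := ⟨z, hz⟩ with hi0
  have hcomm : ∀ i j : I, (i : R) * (f j : R) = (j : R) * (f i : R) := by
    intro i j
    have h1 : (i : R) • j = (j : R) • i := Subtype.ext (mul_comm _ _)
    have h3 := congrArg f h1
    rw [map_smul, map_smul] at h3
    exact congrArg Subtype.val h3
  suffices h : ∃ c : R, (f i0 : R) = c * z by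
    obtain ⟨c, hc⟩ := h
    refine ⟨c, fun i => Subtype.ext ?_⟩
    apply mul_left_cancel₀ hz0
    have h3 := hcomm i0 i
    rw [hc] at h3
    change z * (f i : R) = (i : R) * (c * z) at h3
    rw [h3]
    change _ = z * (c * (i : R))
    ring
  let b : Ideal R := Submodule.comap (LinearMap.mulRight R (f i0 : R)) (Ideal.span {z})
  have hb : ∀ r, r ∈ b ↔ r * (f i0 : R) ∈ Ideal.span {z} := fun r => by
    simp [b, Submodule.mem_comap]
  have hloc : ∀ (p : Ideal R) [p.IsPrime], p.height ≤ (1 : ℕ) → ¬ b ≤ p := by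
    intro p hp hht hle
    obtain ⟨g, hgI, hg0, s, hs, hsI⟩ := hlocp p
      (hht.trans (by norm_num))
    apply hs
    apply hle
    rw [hb, Ideal.mem_span_singleton']
    obtain ⟨r, hr⟩ := hsI (f ⟨g, hgI⟩ : R) (f ⟨g, hgI⟩).2
    refine ⟨r, ?_⟩
    apply mul_left_cancel₀ hg0
    have h3 := hcomm i0 ⟨g, hgI⟩
    change z * (f ⟨g, hgI⟩ : R) = g * (f i0 : R) at h3
    calc g * (r * z) = z * (r * g) := by ring
      _ = z * (s * (f ⟨g, hgI⟩ : R)) := by rw [hr]
      _ = s * (z * (f ⟨g, hgI⟩ : R)) := by ring
      _ = g * (s * (f i0 : R)) := by rw [h3]; ring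
  by_cases htop : b = ⊤
  · have h1 : (1 : R) ∈ b := by rw [htop]; trivial
    rw [hb, one_mul, Ideal.mem_span_singleton'] at h1
    obtain ⟨c, hc⟩ := h1
    exact ⟨c, hc.symm⟩
  · obtain ⟨rs, hlen, hmem, hreg, -⟩ := exists_seq hd 1 b htop hloc R R hCM hCM
    match rs, hlen with
    | [s1, s2], _ =>
      have e1 := (hb _).mp (hmem s1 (by simp))
      have e2 := (hb _).mp (hmem s2 (by simp))
      rw [Ideal.mem_span_singleton'] at e1 e2
      obtain ⟨r1, hr1⟩ := e1
      obtain ⟨r2, hr2⟩ := e2
      have e3 : s2 • r1 = s1 • r2 := by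
        apply mul_right_cancel₀ hz0
        rw [smul_eq_mul, smul_eq_mul, mul_assoc, mul_assoc, hr1, hr2]; ring
      obtain ⟨c, hc⟩ := IsRegular.two hreg e3
      refine ⟨c, ?_⟩
      have e4 : s1 • ((f i0 : R) - c * z) = 0 := by
        rw [hc, smul_eq_mul] at hr1
        rw [smul_eq_mul, mul_sub, ← hr1]; ring
      exact sub_eq_zero.mp (IsRegular.one hreg e4)

/-- Every self-extension of a nonzero maximal Cohen-Macaulay ideal splits. -/
theorem splits' (hd : ringKrullDim R = d) (hCM : DepthGE R R d)
    (I : Ideal R) (hI : I ≠ ⊥) (hIM : DepthGE R I d) (hlocp : LocPrin I)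
    (E : Type u) [AddCommGroup E] [Module R E] (ι : I →ₗ[R] E) (π : E →ₗ[R] I)
    (hι : Function.Injective ι) (hπ : Function.Surjective π)
    (hex : ∀ e, π e = 0 ↔ ∃ i, ι i = e) :
    ∃ σ : I →ₗ[R] E, ∀ i, π (σ i) = i := by
  classical
  have hInt : Nontrivial I := by
    rw [Submodule.nontrivial_iff_ne_bot]; exact hI
  obtain ⟨z, hz, hz0⟩ := Submodule.exists_mem_ne_zero_of_ne_bot hI
  -- maps `I → E` killed by `π`
  have hkill : ∀ θ : I →ₗ[R] E, (∀ i, π (θ i) = 0) → ∃ t : R, ∀ i, θ i = ι (t • i) := by
    intro θ hθ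
    choose g hg using fun i => (hex (θ i)).mp (hθ i)
    let f : I →ₗ[R] I :=
      { toFun := g
        map_add' := fun a b => hι (by rw [map_add, hg, hg, hg, map_add])
        map_smul' := fun r a => hι (by rw [map_smul, hg, RingHom.id_apply, hg, map_smul]) }
    obtain ⟨t, ht⟩ := end_eq' hd hCM I hI hIM hlocp f
    refine ⟨t, fun i => ?_⟩
    rw [← ht i]; exact (hg i).symm
  let a : Ideal R :=
    { carrier := {s | ∃ σ : I →ₗ[R] E, ∀ i, π (σ i) = s • i}
      add_mem' := by
        rintro s t ⟨σ, hσ⟩ ⟨τ, hτ⟩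
        exact ⟨σ + τ, fun i => by rw [LinearMap.add_apply, map_add, hσ, hτ, add_smul]⟩
      zero_mem' := ⟨0, fun i => by simp⟩
      smul_mem' := by
        rintro r s ⟨σ, hσ⟩
        exact ⟨r • σ, fun i => by
          rw [LinearMap.smul_apply, map_smul, hσ, smul_smul, smul_eq_mul]⟩ }
  have ha : ∀ s, s ∈ a ↔ ∃ σ : I →ₗ[R] E, ∀ i, π (σ i) = s • i := fun s => Iff.rfl
  have hloc : ∀ (p : Ideal R) [p.IsPrime], p.height ≤ (2 : ℕ) → ¬ a ≤ p := by
    intro p hp hht hle
    obtain ⟨g, hgI, hg0, s, hs, hsI⟩ := hlocp p hht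
    apply hs
    apply hle
    rw [ha]
    obtain ⟨eg, heg⟩ := hπ ⟨g, hgI⟩
    choose r hr using fun i : I => hsI i i.2
    refine ⟨{ toFun := fun i => r i • eg
              map_add' := ?_
              map_smul' := ?_ }, ?_⟩
    · intro i j
      rw [← add_smul]
      congr 1
      apply mul_right_cancel₀ hg0
      rw [add_mul, ← hr, ← hr, ← hr, ← mul_add]; rfl
    · intro t i
      rw [RingHom.id_apply, smul_smul]
      congr 1
      apply mul_right_cancel₀ hg0
      rw [mul_assoc, ← hr, ← hr]
      change s * (t * (i : R)) = _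
      ring
    · intro i
      change π (r i • eg) = s • i
      rw [map_smul, heg]
      apply Subtype.ext
      exact (hr i).symm
  by_cases htop : a = ⊤
  · have h1 : (1 : R) ∈ a := by rw [htop]; trivial
    obtain ⟨σ, hσ⟩ := (ha 1).mp h1
    exact ⟨σ, fun i => by rw [hσ, one_smul]⟩
  · obtain ⟨rs, hlen, hmem, hreg, hregI⟩ := exists_seq hd 2 a htop hloc R I hCM hIM
    match rs, hlen with
    | [s1, s2, s3], _ =>
      obtain ⟨σ1, hσ1⟩ := (ha _).mp (hmem s1 (by simp))
      obtain ⟨σ2, hσ2⟩ := (ha _).mp (hmem s2 (by simp))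
      obtain ⟨σ3, hσ3⟩ := (ha _).mp (hmem s3 (by simp))
      obtain ⟨t12, ht12⟩ := hkill (s2 • σ1 - s1 • σ2) (fun i => by
        simp only [LinearMap.sub_apply, LinearMap.smul_apply, map_sub, map_smul, hσ1, hσ2]
        rw [smul_comm, sub_self])
      obtain ⟨t13, ht13⟩ := hkill (s3 • σ1 - s1 • σ3) (fun i => by
        simp only [LinearMap.sub_apply, LinearMap.smul_apply, map_sub, map_smul, hσ1, hσ3]
        rw [smul_comm, sub_self])
      obtain ⟨t23, ht23⟩ := hkill (s3 • σ2 - s2 • σ3) (fun i => by
        simp only [LinearMap.sub_apply, LinearMap.smul_apply, map_sub, map_smul, hσ2, hσ3]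
        rw [smul_comm, sub_self])
      -- cocycle relation
      have hcoc : s3 * t12 = s2 * t13 + s1 * (-t23) := by
        have h3 : ι ((s3 * t12) • ⟨z, hz⟩) = ι ((s2 * t13 + s1 * (-t23)) • (⟨z, hz⟩ : I)) := by
          have e12 := ht12 ⟨z, hz⟩
          have e13 := ht13 ⟨z, hz⟩
          have e23 := ht23 ⟨z, hz⟩
          simp only [LinearMap.sub_apply, LinearMap.smul_apply, map_smul] at e12 e13 e23
          rw [map_smul, map_smul, add_smul, mul_smul, mul_smul, mul_smul, ← e12, ← e13, neg_smul,
            ← e23]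
          simp only [smul_sub, smul_neg, smul_smul]
          rw [mul_comm s2 s3, mul_comm s1 s3, mul_comm s1 s2]
          abel
        have h4 := congrArg Subtype.val (hι h3)
        exact mul_right_cancel₀ hz0 h4
      obtain ⟨b', c', hbc⟩ := IsRegular.three (M := R) hreg (a := t12) (b := t13) (c := -t23) hcoc
      simp only [smul_eq_mul] at hbc
      -- regularity on E
      have hE1 : ∀ e : E, s1 • e = 0 → e = 0 := by
        intro e he
        have h3 : s1 • π e = 0 := by rw [← map_smul, he, map_zero]
        have h4 := IsRegular.one hregI h3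
        obtain ⟨x, hx⟩ := (hex e).mp h4
        rw [← hx, ← map_smul] at he
        have h5 : s1 • x = 0 := hι (by rw [he, map_zero])
        rw [← hx, IsRegular.one hregI h5, map_zero]
      have hE2 : ∀ e e' : E, s2 • e = s1 • e' → ∃ e'', e = s1 • e'' := by
        intro e e' hee
        have h3 : s2 • π e = s1 • π e' := by rw [← map_smul, hee, map_smul]
        obtain ⟨c, hc⟩ := IsRegular.two hregI h3
        obtain ⟨e1, he1⟩ := hπ c
        have h4 : π (e - s1 • e1) = 0 := by rw [map_sub, map_smul, he1, hc, sub_self]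
        obtain ⟨x, hx⟩ := (hex _).mp h4
        have h5 : s1 • (e' - s2 • e1) = s2 • ι x := by
          rw [hx, smul_sub, smul_sub, ← hee, smul_comm]
        have h6 : π (e' - s2 • e1) = 0 := by
          have h7 : s1 • π (e' - s2 • e1) = 0 := by
            rw [← map_smul, h5, map_smul]
            have : π (ι x) = 0 := (hex _).mpr ⟨x, rfl⟩
            rw [this, smul_zero]
          exact IsRegular.one hregI h7
        obtain ⟨y, hy⟩ := (hex _).mp h6
        rw [← hy, ← map_smul, ← map_smul] at h5
        obtain ⟨x', hx'⟩ := IsRegular.two hregI (hι h5).symm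
        refine ⟨e1 + ι x', ?_⟩
        rw [smul_add, ← map_smul, ← hx', hx]; abel
      have hτ : ∀ i, s2 • (σ1 i - ι (b' • i)) = s1 • (σ2 i + ι (c' • i)) := by
        intro i
        have e12 := ht12 i
        simp only [LinearMap.sub_apply, LinearMap.smul_apply] at e12
        rw [hbc, add_smul, mul_smul, mul_smul, map_add, map_smul, map_smul (f := ι) s1,
          sub_eq_iff_eq_add] at e12
        rw [smul_sub, e12, smul_add]; abel
      choose τ hτ' using fun i => hE2 _ _ (hτ i)
      have hs1inj : ∀ e e' : E, s1 • e = s1 • e' → e = e' := by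
        intro e e' h
        rw [← sub_eq_zero]
        apply hE1
        rw [smul_sub, h, sub_self]
      refine ⟨{ toFun := τ
                map_add' := ?_
                map_smul' := ?_ }, ?_⟩
      · intro i j
        apply hs1inj
        rw [smul_add, ← hτ', ← hτ', ← hτ', map_add, smul_add, map_add]; abel
      · intro r i
        apply hs1inj
        rw [RingHom.id_apply, smul_comm s1 r, ← hτ', ← hτ', map_smul, smul_sub, smul_comm b' r,
          map_smul (f := ι) r]
      · intro i
        change π (τ i) = i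
        have h3 : s1 • (π (τ i) - i) = 0 := by
          rw [smul_sub, ← map_smul, ← hτ', map_sub, hσ1]
          have : π (ι (b' • i)) = 0 := (hex _).mpr ⟨_, rfl⟩
          rw [this, sub_zero, sub_self]
        exact sub_eq_zero.mp (IsRegular.one hregI h3)

end

section Tw

variable {R L : Type u} [CommRing R] [AddCommGroup L] [Module R L] (c : Cocyc R L)

/-- If all self extensions split, then all cocycles are coboundaries. -/
lemma Cocyc.exists_coboundary' [IsLocalRing R] [IsNoetherianRing R] [IsDomain R] {d : ℕ}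
    (hd : ringKrullDim R = d) (hCM : DepthGE R R d)
    (I : Ideal R) (hI : I ≠ ⊥) (hIM : DepthGE R I d) (hlocp : LocPrin I)
    (e : L ≃ₗ[R] I) :
    ∃ G : L → L, (∀ v w, G (v + w) = G v + G w) ∧ ∀ a v, G (a • v) = a • G v + c.h a v := by
  let ι : I →ₗ[R] Tw c :=
    { toFun := fun i => ⟨e.symm i, 0⟩
      map_add' := fun x y => by
        ext
        · rw [Tw.fst_add]; exact map_add _ _ _
        · rw [Tw.snd_add]; exact (add_zero 0).symm
      map_smul' := fun a x => by
        ext
        · rw [RingHom.id_apply, Tw.fst_smul]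
          simp only [map_smul]
          rw [c.zero_right, add_zero]
        · rw [RingHom.id_apply, Tw.snd_smul, smul_zero] }
  let π : Tw c →ₗ[R] I :=
    { toFun := fun p => e p.snd
      map_add' := fun x y => by rw [Tw.snd_add, map_add]
      map_smul' := fun a x => by rw [Tw.snd_smul, map_smul, RingHom.id_apply] }
  obtain ⟨σ, hσ⟩ := splits' hd hCM I hI hIM hlocp (Tw c) ι π (by
      intro x y hxy
      have h1 : e.symm x = e.symm y := congrArg Tw.fst hxy
      exact e.symm.injective h1) (by
      intro i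
      exact ⟨⟨0, e.symm i⟩, e.apply_symm_apply i⟩) (by
      intro p
      constructor
      · intro hp
        have h1 : p.snd = 0 := e.injective (by rw [map_zero]; exact hp)
        refine ⟨e p.fst, ?_⟩
        ext
        · exact e.symm_apply_apply p.fst
        · exact h1.symm
      · rintro ⟨i, rfl⟩
        exact e.map_zero)
  have hσ2 : ∀ i, (σ i).snd = e.symm i := by
    intro i
    have h1 : e (σ i).snd = i := hσ i
    have h3 := congrArg e.symm h1
    rwa [LinearEquiv.symm_apply_apply] at h3
  refine ⟨fun v => (σ (e v)).fst, ?_, ?_⟩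
  · intro v w
    simp only
    rw [map_add, map_add, Tw.fst_add]
  · intro a v
    simp only
    rw [map_smul, map_smul, Tw.fst_smul, hσ2, LinearEquiv.symm_apply_apply]

end Tw

section

variable {S R : Type u} [CommRing S] [IsLocalRing S] [IsNoetherianRing S] [CommRing R]
  [IsLocalRing R] [IsNoetherianRing R] [Algebra S R] {d : ℕ} [IsDomain R]

/-- Rigidity: every derivation `R → End_S (R, φ)` is inner. -/
theorem inner_of_derivation' (hn : Normalisation S R d) (hd : ringKrullDim R = d)
    (hCM : DepthGE R R d) (φ : R →ₐ[S] Module.End S R)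
    (hlocp : ∀ I : Ideal R, I ≠ ⊥ → DepthGE R I d → Nonempty (PhiMod φ ≃ₗ[R] I) → LocPrin I)
    (h : R →ₗ[S] Module.End S R) (hh : ∀ a b, h (a * b) = φ a * h b + h a * φ b) :
    ∃ g : Module.End S R, ∀ a, h a = φ a * g - g * φ a := by
  obtain ⟨I, hI, hIM, ⟨e⟩⟩ := hn.exists_ideal (PhiMod φ) (PhiMod.equiv φ)
  let c : Cocyc R (PhiMod φ) :=
    { h := fun a v => ⟨h a v.val⟩
      add_left := fun a b v => by
        ext
        rw [PhiMod.val_add, map_add]; rfl
      add_right := fun a v w => by
        ext
        simp only [PhiMod.val_add, map_add]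
      mul_left := fun a b v => by
        ext
        simp only [PhiMod.val_add, PhiMod.val_smul', hh]
        rfl }
  obtain ⟨G, hG1, hG2⟩ := c.exists_coboundary' hd hCM I hI hIM (hlocp I hI hIM ⟨e⟩) e
  have hch : ∀ a v, (c.h a v).val = h a v.val := fun _ _ => rfl
  have hhS : ∀ (s : S) v, c.h (algebraMap S R s) v = 0 := by
    intro s v
    have h3 : (c.h (algebraMap S R s) v).val = s • (c.h 1 v).val := by
      rw [hch, hch, Algebra.algebraMap_eq_smul_one, map_smul]; rfl
    ext
    rw [h3, c.one_left, PhiMod.val_zero, smul_zero]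
  have hGS : ∀ (s : S) (v : PhiMod φ), G (s • v) = s • G v := by
    intro s v
    have h1 := hG2 (algebraMap S R s) v
    rwa [hhS, add_zero, algebraMap_smul, algebraMap_smul] at h1
  refine ⟨{ toFun := fun v => - (G ⟨v⟩).val
            map_add' := fun v w => by
              have := hG1 ⟨v⟩ ⟨w⟩
              have h4 : (⟨v + w⟩ : PhiMod φ) = ⟨v⟩ + ⟨w⟩ := rfl
              rw [h4, this, PhiMod.val_add, neg_add]
            map_smul' := fun s v => by
              have := hGS s ⟨v⟩
              have h4 : (⟨s • v⟩ : PhiMod φ) = s • ⟨v⟩ := rfl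
              rw [h4, this, PhiMod.val_smul, RingHom.id_apply, smul_neg] }, fun a => ?_⟩
  ext v
  have h1 := congrArg PhiMod.val (hG2 a ⟨v⟩)
  rw [PhiMod.val_add, PhiMod.val_smul', hch] at h1
  have h4 : (a • (⟨v⟩ : PhiMod φ)) = ⟨φ a v⟩ := rfl
  rw [h4] at h1
  change h a v = φ a (- (G ⟨v⟩).val) - (- (G ⟨φ a v⟩).val)
  rw [h1, map_neg]; abel

end

end Pool.Agent.W_cbb711
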