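import Mathlib
import Pool.Agent.W_cbb711b.Sharp

/-!
# Finite local extensions and sequences of linear maps on `Sharp` rings
-/

set_option autoImplicit false

namespace Pool.Agent.W_cbb711

open IsLocalRing Filter

section

variable (B A : Type*) [CommRing B] [IsLocalRing B] [CommRing A] [IsLocalRing A] [Algebra B A]
  [Module.Finite B A]

theorem maximalIdeal_le_comap : maximalIdeal B ≤ (maximalIdeal A).comap (algebraMap B A) := by
  have h1 : ((maximalIdeal A).comap (algebraMap B A)).IsMaximal :=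
    Ideal.isMaximal_comap_of_isIntegral_of_isMaximal _
  exact (IsLocalRing.eq_maximalIdeal h1).ge

/-- `maximalIdeal A` has a power inside the extension of `maximalIdeal B`. -/
theorem exists_pow_le_map : ∃ k : ℕ,
    maximalIdeal A ^ k ≤ (maximalIdeal B).map (algebraMap B A) := by
  set J := (maximalIdeal B).map (algebraMap B A) with hJ
  have hJle : J ≤ maximalIdeal A := Ideal.map_le_iff_le_comap.2 (maximalIdeal_le_comap B A)
  have hJne : J ≠ ⊤ := fun h =>
    (IsLocalRing.maximalIdeal.isMaximal A).ne_top (top_le_iff.mp (h ▸ hJle))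
  have hnt : Nontrivial (A ⧸ J) := Ideal.Quotient.nontrivial_iff.2 hJne
  let _ : Algebra (B ⧸ maximalIdeal B) (A ⧸ J) :=
    (Ideal.quotientMap J (algebraMap B A) Ideal.le_comap_map).toAlgebra
  have : IsScalarTower B (B ⧸ maximalIdeal B) (A ⧸ J) := IsScalarTower.of_algebraMap_eq fun _ => rfl
  have hfin : Module.Finite (B ⧸ maximalIdeal B) (A ⧸ J) :=
    Module.Finite.of_restrictScalars_finite B _ _
  let _ : Field (B ⧸ maximalIdeal B) := Ideal.Quotient.field _
  have hart : IsArtinianRing (A ⧸ J) := IsArtinianRing.of_finite (B ⧸ maximalIdeal B) _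
  have hloc : IsLocalRing (A ⧸ J) :=
    IsLocalRing.of_surjective' (Ideal.Quotient.mk J) Ideal.Quotient.mk_surjective
  obtain ⟨n, hn⟩ := IsArtinianRing.isNilpotent_jacobson_bot (R := A ⧸ J)
  rw [IsLocalRing.jacobson_eq_maximalIdeal ⊥ bot_ne_top] at hn
  refine ⟨n, ?_⟩
  have h1 : (maximalIdeal A).map (Ideal.Quotient.mk J) ≤ maximalIdeal (A ⧸ J) := by
    rw [Ideal.map_le_iff_le_comap]
    intro x hx
    rw [Ideal.mem_comap, IsLocalRing.mem_maximalIdeal, mem_nonunits_iff]
    intro hu
    obtain ⟨b, hb⟩ := hu.exists_right_inv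
    obtain ⟨b, rfl⟩ := Ideal.Quotient.mk_surjective b
    rw [← map_mul, ← map_one (Ideal.Quotient.mk J), Ideal.Quotient.eq] at hb
    have h3 : x * b ∈ maximalIdeal A := Ideal.mul_mem_right _ _ hx
    have h4 : (1 : A) ∈ maximalIdeal A := by
      have := Ideal.sub_mem _ h3 (hJle hb)
      rwa [sub_sub_cancel] at this
    exact (IsLocalRing.maximalIdeal.isMaximal A).ne_top ((Ideal.eq_top_iff_one _).mpr h4)
  intro x hx
  rw [← Ideal.Quotient.eq_zero_iff_mem]
  have h2 : Ideal.Quotient.mk J x ∈ (maximalIdeal (A ⧸ J)) ^ n := by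
    have h3 := Ideal.mem_map_of_mem (Ideal.Quotient.mk J) hx
    rw [Ideal.map_pow] at h3
    exact Ideal.pow_right_mono h1 n h3
  rw [hn] at h2
  exact h2

/-- The map `B_♯ → A_♯`. -/
noncomputable def sharpMap : Sharp B (maximalIdeal B) →+* Sharp A (maximalIdeal A) :=
  Sharp.map _ _ (algebraMap B A) (maximalIdeal_le_comap B A)

theorem sharpMap_mk (x : ℕ → B) : sharpMap B A (Sharp.mk _ x) =
    Sharp.mk _ (fun i => algebraMap B A (x i)) := rfl

theorem sharpMap_const (b : B) : sharpMap B A (Sharp.const _ b) =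
    Sharp.const _ (algebraMap B A b) := rfl

/-- `A_♯` as a `B_♯`-algebra. -/
@[reducible] noncomputable def sharpAlgebra :
    Algebra (Sharp B (maximalIdeal B)) (Sharp A (maximalIdeal A)) := (sharpMap B A).toAlgebra

end

section

variable {S R : Type*} [CommRing S] [IsLocalRing S] [CommRing R] [IsLocalRing R] [Algebra S R]
  [Module.Finite S R] {r : ℕ}

attribute [local instance] sharpAlgebra

theorem mem_pow_smul_top_of_mem_pow : ∃ k : ℕ, ∀ (N : ℕ) (x : R), x ∈ maximalIdeal R ^ (k * N) →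
    x ∈ (maximalIdeal S) ^ N • (⊤ : Submodule S R) := by
  obtain ⟨k, hk⟩ := exists_pow_le_map S R
  refine ⟨k, fun N x hx => ?_⟩
  rw [pow_mul] at hx
  have h1 := Ideal.pow_right_mono hk N hx
  rw [Ideal.smul_top_eq_map, Ideal.map_pow]
  exact h1

omit [IsLocalRing R] [Module.Finite S R] in
theorem linearMap_mem_pow (N : ℕ) (g : R →ₗ[S] S) {x : R}
    (hx : x ∈ (maximalIdeal S) ^ N • (⊤ : Submodule S R)) : g x ∈ maximalIdeal S ^ N := by
  have h1 : g x ∈ Submodule.map g ((maximalIdeal S) ^ N • ⊤) := Submodule.mem_map_of_mem hx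
  rw [Submodule.map_smul''] at h1
  have h2 := Submodule.smul_mono (le_refl (maximalIdeal S ^ N)) (le_top (a := Submodule.map g ⊤)) h1
  simpa using h2

/-- A sequence of `S`-linear maps `R → S` gives a `S_♯`-linear map `R_♯ → S_♯`. -/
noncomputable def sharpLin (g : ℕ → (R →ₗ[S] S)) :
    Sharp R (maximalIdeal R) →ₗ[Sharp S (maximalIdeal S)] Sharp S (maximalIdeal S) :=
  { QuotientAddGroup.lift _ ((Sharp.mk (maximalIdeal S)).toAddMonoidHom.comp
      (AddMonoidHom.mk' (fun (x : ℕ → R) i => g i (x i)) (by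
        intro x y; funext i; exact map_add (g i) _ _))) (by
      intro x hx
      have hx' : x ∈ infIdeal R (maximalIdeal R) := hx
      rw [AddMonoidHom.mem_ker]
      change Sharp.mk (maximalIdeal S) (fun i => g i (x i)) = 0
      rw [Sharp.mk_eq_zero]
      intro N
      obtain ⟨k, hk⟩ := mem_pow_smul_top_of_mem_pow (S := S) (R := R)
      filter_upwards [hx' (k * N)] with i hi
      exact linearMap_mem_pow N (g i) (hk N _ hi)) with
    map_smul' := by
      intro s x
      obtain ⟨s, rfl⟩ := Sharp.mk_surjective s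
      obtain ⟨x, rfl⟩ := Sharp.mk_surjective x
      change Sharp.mk (maximalIdeal S) (fun i => g i (algebraMap S R (s i) * x i)) =
        Sharp.mk (maximalIdeal S) (fun i => s i * g i (x i))
      congr 1
      funext i
      rw [← Algebra.smul_def, map_smul, smul_eq_mul] }

theorem sharpLin_mk (g : ℕ → (R →ₗ[S] S)) (x : ℕ → R) :
    sharpLin g (Sharp.mk _ x) = Sharp.mk _ (fun i => g i (x i)) := rfl

/-- A sequence of `S`-linear maps `R → Mat_r(S)` gives a `S_♯`-linear map
`R_♯ → Mat_r(S_♯)`. -/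
noncomputable def sharpMat (g : ℕ → (R →ₗ[S] Matrix (Fin r) (Fin r) S)) :
    Sharp R (maximalIdeal R) →ₗ[Sharp S (maximalIdeal S)]
      Matrix (Fin r) (Fin r) (Sharp S (maximalIdeal S)) where
  toFun z := Matrix.of fun j k => sharpLin (fun i => (Matrix.entryLinearMap S S j k).comp (g i)) z
  map_add' z w := by
    ext j k
    simp
  map_smul' s z := by
    ext j k
    simp

theorem sharpMat_mk (g : ℕ → (R →ₗ[S] Matrix (Fin r) (Fin r) S)) (x : ℕ → R) (j k : Fin r) :
    sharpMat g (Sharp.mk _ x) j k = Sharp.mk _ (fun i => g i (x i) j k) := rfl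

/-- A sequence of `S`-algebra homomorphisms `R → Mat_r(S)` gives a `S_♯`-algebra homomorphism
`R_♯ → Mat_r(S_♯)`. -/
noncomputable def sharpPhi (φ : ℕ → (R →ₐ[S] Matrix (Fin r) (Fin r) S)) :
    Sharp R (maximalIdeal R) →ₐ[Sharp S (maximalIdeal S)]
      Matrix (Fin r) (Fin r) (Sharp S (maximalIdeal S)) :=
  AlgHom.ofLinearMap (sharpMat fun i => (φ i).toLinearMap) (by
    ext j k
    have h1 : (1 : Sharp R (maximalIdeal R)) = Sharp.mk _ (fun _ => (1 : R)) := rfl
    rw [h1, sharpMat_mk]
    simp only [AlgHom.toLinearMap_apply, map_one]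
    by_cases hjk : j = k
    · subst hjk
      simp only [Matrix.one_apply_eq]
      rfl
    · simp only [Matrix.one_apply_ne hjk]
      rfl) (by
    intro z w
    obtain ⟨x, rfl⟩ := Sharp.mk_surjective z
    obtain ⟨y, rfl⟩ := Sharp.mk_surjective w
    ext j k
    rw [← map_mul, sharpMat_mk, Matrix.mul_apply]
    simp only [sharpMat_mk, AlgHom.toLinearMap_apply, Pi.mul_apply, map_mul, Matrix.mul_apply]
    simp only [← map_mul]
    rw [← map_sum]
    congr 1
    funext i
    simp)

theorem sharpPhi_mk (φ : ℕ → (R →ₐ[S] Matrix (Fin r) (Fin r) S)) (x : ℕ → R) (j k : Fin r) :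
    sharpPhi φ (Sharp.mk _ x) j k = Sharp.mk _ (fun i => φ i (x i) j k) := rfl

end

end Pool.Agent.W_cbb711
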