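import Mathlib
import Pool.Agent.W_cbb711b.Defs
import Pool.Agent.W_cbb711b.SharpAlg
import Pool.Agent.W_cbb711b.Rigid2

/-!
# `Sharp` of finite extensions
-/

set_option autoImplicit false

universe u v

namespace Pool.Agent.W_cbb711

open IsLocalRing Filter TensorProduct RingTheory.Sequence

attribute [local instance] sharpAlgebra

section

variable {B A : Type*} [CommRing B] [IsLocalRing B] [CommRing A] [IsLocalRing A] [Algebra B A]
  [Module.Finite B A]

theorem SharpFinite_smul_def (x : Sharp B (maximalIdeal B)) (z : Sharp A (maximalIdeal A)) :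
    x • z = sharpMap B A x * z := rfl

theorem sharp_finite : Module.Finite (Sharp B (maximalIdeal B)) (Sharp A (maximalIdeal A)) := by
  classical
  obtain ⟨n, a, ha⟩ := Module.Finite.exists_fin (R := B) (M := A)
  refine ⟨⟨Finset.univ.image (fun k => Sharp.const (maximalIdeal A) (a k)), ?_⟩⟩
  rw [eq_top_iff]
  intro z _
  obtain ⟨x, rfl⟩ := Sharp.mk_surjective z
  have h1 : ∀ i, ∃ c : Fin n → B, ∑ k, c k • a k = x i := fun i =>
    (Submodule.mem_span_range_iff_exists_fun B).1 (by rw [ha]; trivial)
  choose c hc using h1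
  have h2 : Sharp.mk (maximalIdeal A) x =
      ∑ k, Sharp.mk (maximalIdeal B) (fun i => c i k) • Sharp.const (maximalIdeal A) (a k) := by
    simp only [SharpFinite_smul_def, sharpMap_mk, Sharp.const_apply, ← map_mul, ← map_sum]
    congr 1
    funext i
    rw [Finset.sum_apply]
    rw [← hc i]
    refine Finset.sum_congr rfl fun k _ => ?_
    rw [Algebra.smul_def]
    rfl
  rw [h2]
  refine Submodule.sum_mem _ fun k _ => Submodule.smul_mem _ _ (Submodule.subset_span ?_)
  simp

theorem SharpFinite_mem_pow {N : ℕ} {x : A}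
    (hx : x ∈ (maximalIdeal B) ^ N • (⊤ : Submodule B A)) : x ∈ maximalIdeal A ^ N := by
  rw [Ideal.smul_top_eq_map, Ideal.map_pow] at hx
  have h1 : (maximalIdeal B).map (algebraMap B A) ≤ maximalIdeal A :=
    Ideal.map_le_iff_le_comap.2 (maximalIdeal_le_comap B A)
  exact Ideal.pow_right_mono h1 N hx

theorem sharp_basis {r : ℕ} (b : Module.Basis (Fin r) B A) :
    ∃ b' : Module.Basis (Fin r) (Sharp B (maximalIdeal B)) (Sharp A (maximalIdeal A)),
      ∀ (x : ℕ → A) (k : Fin r), b'.repr (Sharp.mk _ x) k =
        Sharp.mk _ (fun i => b.repr (x i) k) := by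
  classical
  have hmem : ∀ (N : ℕ) (x : A), (∀ k, b.repr x k ∈ maximalIdeal B ^ N) →
      x ∈ (maximalIdeal B) ^ N • (⊤ : Submodule B A) := by
    intro N x hx
    rw [← b.sum_repr x]
    exact Submodule.sum_mem _ fun k _ => Submodule.smul_mem_smul (hx k) trivial
  let F : Sharp A (maximalIdeal A) →ₗ[Sharp B (maximalIdeal B)]
      (Fin r → Sharp B (maximalIdeal B)) :=
    LinearMap.pi fun k => sharpLin (fun _ => b.coord k)
  have hF : ∀ (x : ℕ → A) (k : Fin r), F (Sharp.mk _ x) k =
      Sharp.mk _ (fun i => b.repr (x i) k) := fun x k => rfl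
  have hbij : Function.Bijective F := by
    constructor
    · rw [injective_iff_map_eq_zero]
      intro z hz
      obtain ⟨x, rfl⟩ := Sharp.mk_surjective z
      rw [Sharp.mk_eq_zero]
      intro N
      have h1 : ∀ k, ∀ᶠ i in (hyperfilter ℕ : Filter ℕ), b.repr (x i) k ∈ maximalIdeal B ^ N := by
        intro k
        have h2 := congrFun hz k
        rw [hF, Pi.zero_apply, Sharp.mk_eq_zero] at h2
        exact h2 N
      have h3 : ∀ᶠ i in (hyperfilter ℕ : Filter ℕ), ∀ k, b.repr (x i) k ∈ maximalIdeal B ^ N :=
        Filter.eventually_all.2 h1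
      filter_upwards [h3] with i hi
      exact SharpFinite_mem_pow (hmem N _ hi)
    · intro y
      choose c hc using fun k => Sharp.mk_surjective (y k)
      refine ⟨Sharp.mk _ (fun i => ∑ k, c k i • b k), ?_⟩
      funext k
      rw [hF, ← hc k]
      congr 1
      funext i
      simp [Finsupp.single_apply]
  let e : Sharp A (maximalIdeal A) ≃ₗ[Sharp B (maximalIdeal B)]
      (Fin r → Sharp B (maximalIdeal B)) := LinearEquiv.ofBijective F hbij
  refine ⟨Module.Basis.ofEquivFun e, fun x k => ?_⟩
  rw [Module.Basis.ofEquivFun_repr_apply]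
  exact hF x k

end

section

variable {B A : Type*} [CommRing B] [CommRing A] [Algebra B A] [Module.Finite B A]

/-- A nonzero element of a finite extension domain is detected by a functional. -/
theorem SharpFinite_functional [IsDomain B] [IsDomain A]
    (hinj : Function.Injective (algebraMap B A)) {a : A} (ha : a ≠ 0) :
    ∃ l : A →ₗ[B] B, l a ≠ 0 := by
  classical
  have hfs : FaithfulSMul B A := (faithfulSMul_iff_algebraMap_injective B A).2 hinj
  have hfs2 : FaithfulSMul B (FractionRing A) := by
    rw [faithfulSMul_iff_algebraMap_injective, IsScalarTower.algebraMap_eq B A (FractionRing A)]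
    exact (IsFractionRing.injective A (FractionRing A)).comp hinj
  let _ : Algebra (FractionRing B) (FractionRing A) := FractionRing.liftAlgebra B (FractionRing A)
  have : IsScalarTower B (FractionRing B) (FractionRing A) :=
    FractionRing.isScalarTower_liftAlgebra B (FractionRing A)
  have ha' : algebraMap A (FractionRing A) a ≠ 0 := by
    rw [Ne, map_eq_zero_iff _ (IsFractionRing.injective A (FractionRing A))]
    exact ha
  obtain ⟨f, hf⟩ : ∃ f : Module.Dual (FractionRing B) (FractionRing A),
      f (algebraMap A (FractionRing A) a) ≠ 0 := by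
    by_contra hcon
    push Not at hcon
    exact ha' ((Module.forall_dual_apply_eq_zero_iff (FractionRing B) _).1 hcon)
  let g : A →ₗ[B] FractionRing B :=
    (f.restrictScalars B).comp (IsScalarTower.toAlgHom B A (FractionRing A)).toLinearMap
  have hg : ∀ x, g x = f (algebraMap A (FractionRing A) x) := fun x => rfl
  obtain ⟨s, hs⟩ := (Module.Finite.fg_top : (⊤ : Submodule B A).FG)
  obtain ⟨d, hd⟩ := IsLocalization.exist_integer_multiples_of_finset (nonZeroDivisors B)
    (s.image g)
  have hrange : ∀ x : A, ((d : B) • g) x ∈ LinearMap.range (Algebra.linearMap B (FractionRing B)) := by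
    intro x
    have hx : x ∈ Submodule.span B (s : Set A) := by rw [hs]; trivial
    have hle : Submodule.span B (s : Set A) ≤
        (LinearMap.range (Algebra.linearMap B (FractionRing B))).comap ((d : B) • g) := by
      rw [Submodule.span_le]
      intro y hy
      have h1 := hd (g y) (Finset.mem_image_of_mem _ hy)
      obtain ⟨c, hc⟩ := h1
      exact ⟨c, hc⟩
    exact hle hx
  have hinjK : Function.Injective (Algebra.linearMap B (FractionRing B)) :=
    IsFractionRing.injective B (FractionRing B)
  let l : A →ₗ[B] B := (LinearEquiv.ofInjective _ hinjK).symm.toLinearMap.comp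
    (LinearMap.codRestrict _ ((d : B) • g) hrange)
  refine ⟨l, fun h0 => ?_⟩
  have h1 : (LinearMap.codRestrict _ ((d : B) • g) hrange) a = 0 := by
    have h2 : (LinearEquiv.ofInjective _ hinjK).symm
      ((LinearMap.codRestrict _ ((d : B) • g) hrange) a) = 0 := h0
    exact (LinearEquiv.map_eq_zero_iff _).1 h2
  have h3 : ((d : B) • g) a = 0 := congrArg Subtype.val h1
  rw [LinearMap.smul_apply, hg, Algebra.smul_def] at h3
  rcases mul_eq_zero.1 h3 with h4 | h4
  · have h5 : (d : B) = 0 := hinjK (by rw [map_zero]; exact h4)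
    exact nonZeroDivisors.coe_ne_zero d h5
  · exact hf h4

/-- A finite extension domain embeds in a finite free module. -/
theorem SharpFinite_embedding [IsDomain B] [IsDomain A] [IsNoetherianRing B]
    (hinj : Function.Injective (algebraMap B A)) :
    ∃ (n : ℕ) (l : Fin n → (A →ₗ[B] B)), ∀ a : A, (∀ j, l j a = 0) → a = 0 := by
  classical
  obtain ⟨n, a, ha⟩ := Module.Finite.exists_fin (R := B) (M := A)
  let ev : (A →ₗ[B] B) →ₗ[B] (Fin n → B) := LinearMap.pi fun k => LinearMap.applyₗ (a k)
  have hev : Function.Injective ev := by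
    intro f g hfg
    refine LinearMap.ext_on_range ha fun k => ?_
    exact congrFun hfg k
  have hN : IsNoetherian B (A →ₗ[B] B) := isNoetherian_of_injective ev hev
  obtain ⟨m, l, hl⟩ := Module.Finite.exists_fin (R := B) (M := A →ₗ[B] B)
  refine ⟨m, l, fun x hx => ?_⟩
  by_contra hne
  obtain ⟨f, hf⟩ := SharpFinite_functional hinj hne
  apply hf
  have h1 : f ∈ Submodule.span B (Set.range l) := by rw [hl]; trivial
  have h2 : Submodule.span B (Set.range l) ≤ LinearMap.ker (LinearMap.applyₗ (R := B) (M₂ := B) x) := by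
    rw [Submodule.span_le]
    rintro _ ⟨j, rfl⟩
    exact hx j
  exact h2 h1

end

section

variable {B A : Type*} [CommRing B] [IsLocalRing B] [CommRing A] [IsLocalRing A] [Algebra B A]
  [Module.Finite B A]

theorem sharp_torsionFree [IsNoetherianRing B] [IsDomain B] [IsDomain A]
    (hinj : Function.Injective (algebraMap B A)) (hdom : IsDomain (Sharp B (maximalIdeal B)))
    (x : Sharp B (maximalIdeal B)) (z : Sharp A (maximalIdeal A)) (h : sharpMap B A x * z = 0) :
    x = 0 ∨ z = 0 := by
  classical
  by_cases hx : x = 0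
  · exact Or.inl hx
  refine Or.inr ?_
  obtain ⟨n, l, hl⟩ := SharpFinite_embedding (A := A) hinj
  obtain ⟨w, rfl⟩ := Sharp.mk_surjective z
  have h1 : ∀ j, Sharp.mk (maximalIdeal B) (fun i => l j (w i)) = 0 := by
    intro j
    have h2 : sharpLin (fun _ => l j) (x • Sharp.mk (maximalIdeal A) w) = 0 := by
      rw [SharpFinite_smul_def, h, map_zero]
    rw [map_smul, sharpLin_mk, smul_eq_mul] at h2
    exact (mul_eq_zero.1 h2).resolve_left hx
  let δ : A →ₗ[B] (Fin n → B) := LinearMap.pi l
  have hδ : Function.Injective δ := by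
    rw [injective_iff_map_eq_zero]
    intro a ha
    exact hl a fun j => congrFun ha j
  obtain ⟨c, hc⟩ := artinRees (maximalIdeal B) δ
  rw [Sharp.mk_eq_zero]
  intro N
  have h3 : ∀ᶠ i in (hyperfilter ℕ : Filter ℕ), ∀ j, l j (w i) ∈ maximalIdeal B ^ (N + c) :=
    Filter.eventually_all.2 fun j => (Sharp.mk_eq_zero.1 (h1 j)) (N + c)
  filter_upwards [h3] with i hi
  have h4 : δ (w i) ∈ maximalIdeal B ^ (N + c) • (⊤ : Submodule B (Fin n → B)) := by
    have h5 : δ (w i) = ∑ j, l j (w i) • (Pi.single j 1 : Fin n → B) := by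
      exact pi_eq_sum_univ' (δ (w i))
    rw [h5]
    exact Submodule.sum_mem _ fun j _ => Submodule.smul_mem_smul (hi j) trivial
  obtain ⟨y, hy, hyx⟩ := hc c le_rfl N _ h4
  rw [hδ hyx] at hy
  exact SharpFinite_mem_pow hy

end

end Pool.Agent.W_cbb711
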