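import Mathlib
import Pool.Agent.W_cbb711.ExistsNorm
import Pool.Agent.W_cbb711b.Defs

/-!
# Ideals and completeness of `Sharp A J`
-/

set_option autoImplicit false

universe u

namespace Pool.Agent.W_cbb711

open IsLocalRing Filter TensorProduct RingTheory.Sequence

theorem SharpIdeals_eventually_ge (N : ℕ) : ∀ᶠ i in (hyperfilter ℕ : Filter ℕ), N ≤ i := by
  have h1 : ∀ᶠ i : ℕ in cofinite, N ≤ i := by
    rw [Nat.cofinite_eq_atTop]
    exact eventually_ge_atTop N
  exact hyperfilter_le_cofinite h1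

theorem Sharp.mk_mem_map_const {A : Type u} [CommRing A] {J : Ideal A} (q : Ideal A)
    (hq : q.FG) (x : ℕ → A) :
    Sharp.mk J x ∈ q.map (Sharp.const J) ↔
      ∀ N : ℕ, ∀ᶠ i in (hyperfilter ℕ : Filter ℕ), x i ∈ q ⊔ J ^ N := by
  constructor
  · intro h N
    have h1 : q.map (Sharp.const J) = (q.map (Pi.constRingHom ℕ A)).map (Sharp.mk J) := by
      rw [Ideal.map_map]
      rfl
    rw [h1, Ideal.mem_map_iff_of_surjective _ Sharp.mk_surjective] at h
    obtain ⟨y, hy, hxy⟩ := h
    have h2 : ∀ i, y i ∈ q := by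
      intro i
      have h3 : q.map (Pi.constRingHom ℕ A) ≤ q.comap (Pi.evalRingHom (fun _ => A) i) := by
        rw [Ideal.map_le_iff_le_comap]
        intro a ha
        exact ha
      exact h3 hy
    rw [Sharp.mk_eq_mk] at hxy
    filter_upwards [hxy N] with i hi
    have h4 : x i = y i + -(y i - x i) := by ring
    rw [h4]
    exact Ideal.add_mem _ (Ideal.mem_sup_left (h2 i)) (Ideal.mem_sup_right (Ideal.neg_mem_iff _ |>.2 hi))
  · intro h
    classical
    obtain ⟨n, g, hg⟩ := Submodule.fg_iff_exists_fin_generating_family.1 hq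
    let Nf : ℕ → ℕ := fun i => Nat.findGreatest (fun N => x i ∈ q ⊔ J ^ N) i
    have hNf : ∀ i, x i ∈ q ⊔ J ^ Nf i := by
      intro i
      refine Nat.findGreatest_spec (P := fun N => x i ∈ q ⊔ J ^ N) (Nat.zero_le i) ?_
      simp
    have hdec : ∀ i, ∃ a ∈ q, ∃ e ∈ J ^ Nf i, a + e = x i := fun i => Submodule.mem_sup.1 (hNf i)
    choose a ha e he hae using hdec
    have hinf : Sharp.mk J x = Sharp.mk J a := by
      rw [Sharp.mk_eq_mk]
      intro N
      filter_upwards [h N, SharpIdeals_eventually_ge N] with i h1 h2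
      have h3 : N ≤ Nf i := Nat.le_findGreatest h2 h1
      have h4 : x i - a i = e i := by rw [← hae i]; ring
      rw [h4]
      exact Ideal.pow_le_pow_right h3 (he i)
    rw [hinf]
    have hc : ∀ i, ∃ c : Fin n → A, ∑ k, c k • g k = a i := by
      intro i
      have := ha i
      rw [← hg] at this
      exact (Submodule.mem_span_range_iff_exists_fun A).1 this
    choose c hc using hc
    have h5 : Sharp.mk J a = ∑ k, Sharp.mk J (fun i => c i k) * Sharp.const J (g k) := by
      simp only [Sharp.const_apply, ← map_mul, ← map_sum]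
      congr 1
      funext i
      rw [Finset.sum_apply]
      exact (hc i).symm
    rw [h5]
    refine Ideal.sum_mem _ fun k _ => Ideal.mul_mem_left _ _ (Ideal.mem_map_of_mem _ ?_)
    rw [← hg]
    exact Submodule.subset_span ⟨k, rfl⟩

theorem Sharp.mk_mem_pow {A : Type u} [CommRing A] {J : Ideal A} (hJ : J.FG) (M : ℕ)
    (x : ℕ → A) : Sharp.mk J x ∈ (J.map (Sharp.const J)) ^ M ↔
      ∀ᶠ i in (hyperfilter ℕ : Filter ℕ), x i ∈ J ^ M := by
  rw [← Ideal.map_pow, Sharp.mk_mem_map_const _ hJ.pow]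
  constructor
  · intro h
    filter_upwards [h M] with i hi
    rwa [sup_idem] at hi
  · intro h N
    filter_upwards [h] with i hi
    exact Ideal.mem_sup_left hi

theorem Sharp.isAdicComplete {A : Type u} [CommRing A] {J : Ideal A} (hJ : J.FG) :
    IsAdicComplete (J.map (Sharp.const J)) (Sharp A J) := by
  classical
  have hH : IsHausdorff (J.map (Sharp.const J)) (Sharp A J) := by
    refine ⟨fun z hz => ?_⟩
    obtain ⟨x, rfl⟩ := Sharp.mk_surjective z
    rw [Sharp.mk_eq_zero]
    intro N
    have h1 := hz N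
    rw [SModEq.sub_mem, sub_zero, smul_eq_mul, Ideal.mul_top] at h1
    exact (Sharp.mk_mem_pow hJ N x).1 h1
  have hP : IsPrecomplete (J.map (Sharp.const J)) (Sharp A J) := by
    refine ⟨fun f hf => ?_⟩
    choose x hx using fun n => Sharp.mk_surjective (J := J) (f n)
    have h1 : ∀ m, ∀ᶠ i in (hyperfilter ℕ : Filter ℕ), x (m + 1) i - x m i ∈ J ^ m := by
      intro m
      have h2 := (hf (Nat.le_succ m)).symm
      rw [SModEq.sub_mem, smul_eq_mul, Ideal.mul_top, ← hx, ← hx, ← map_sub] at h2
      exact (Sharp.mk_mem_pow hJ m _).1 h2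
    let nf : ℕ → ℕ := fun i => Nat.findGreatest (fun n => ∀ m < n, x (m + 1) i - x m i ∈ J ^ m) i
    have hnf : ∀ i, ∀ m < nf i, x (m + 1) i - x m i ∈ J ^ m := by
      intro i
      refine Nat.findGreatest_spec (P := fun n => ∀ m < n, x (m + 1) i - x m i ∈ J ^ m)
        (Nat.zero_le i) ?_
      intro m hm
      exact absurd hm (Nat.not_lt_zero m)
    have htel : ∀ i m n, m ≤ n → n ≤ nf i → x n i - x m i ∈ J ^ m := by
      intro i m n hmn
      induction n, hmn using Nat.le_induction with
      | base => intro _; rw [sub_self]; exact Ideal.zero_mem _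
      | succ n hmn ih =>
        intro hn
        have h2 : x (n + 1) i - x m i = (x (n + 1) i - x n i) + (x n i - x m i) := by ring
        rw [h2]
        exact Ideal.add_mem _ (Ideal.pow_le_pow_right hmn (hnf i n (by omega))) (ih (by omega))
    refine ⟨Sharp.mk J (fun i => x (nf i) i), fun n => ?_⟩
    refine SModEq.symm ?_
    rw [SModEq.sub_mem, smul_eq_mul, Ideal.mul_top, ← hx, ← map_sub, Sharp.mk_mem_pow hJ]
    have h3 : ∀ᶠ i in (hyperfilter ℕ : Filter ℕ), ∀ m < n, x (m + 1) i - x m i ∈ J ^ m := by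
      have h4 : ∀ᶠ i in (hyperfilter ℕ : Filter ℕ), ∀ m ∈ Finset.range n,
          x (m + 1) i - x m i ∈ J ^ m := by
        rw [Filter.eventually_all_finset]
        intro m _
        exact h1 m
      filter_upwards [h4] with i hi m hm
      exact hi m (Finset.mem_range.2 hm)
    filter_upwards [h3, SharpIdeals_eventually_ge n] with i hi hin
    have h5 : n ≤ nf i := Nat.le_findGreatest hin hi
    exact htel i n (nf i) h5 le_rfl
  exact { toIsHausdorff := hH, toIsPrecomplete := hP }

theorem Sharp.ker_map_mk {A : Type u} [CommRing A] {J : Ideal A} (q : Ideal A)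
    (hq : q.FG) (J' : Ideal (A ⧸ q)) (hJ' : J.map (Ideal.Quotient.mk q) = J')
    (h : J ≤ J'.comap (Ideal.Quotient.mk q)) :
    Function.Surjective (Sharp.map J J' (Ideal.Quotient.mk q) h) ∧
    RingHom.ker (Sharp.map J J' (Ideal.Quotient.mk q) h) = q.map (Sharp.const J) := by
  constructor
  · intro z
    obtain ⟨y, rfl⟩ := Sharp.mk_surjective z
    choose x hx using fun i => Ideal.Quotient.mk_surjective (y i)
    refine ⟨Sharp.mk J x, ?_⟩
    rw [Sharp.map_mk]
    congr 1
    funext i
    exact hx i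
  · ext z
    obtain ⟨x, rfl⟩ := Sharp.mk_surjective z
    rw [RingHom.mem_ker, Sharp.map_mk, Sharp.mk_eq_zero, Sharp.mk_mem_map_const q hq]
    refine forall_congr' fun N => ?_
    have h1 : ∀ a : A, Ideal.Quotient.mk q a ∈ J' ^ N ↔ a ∈ q ⊔ J ^ N := by
      intro a
      rw [← hJ', ← Ideal.map_pow, ← Ideal.mem_comap,
        Ideal.comap_map_of_surjective _ Ideal.Quotient.mk_surjective, sup_comm]
      have h2 : Ideal.comap (Ideal.Quotient.mk q) ⊥ = q := by
        rw [← RingHom.ker_eq_comap_bot, Ideal.mk_ker]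
      rw [h2]
    simp only [h1]

end Pool.Agent.W_cbb711
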