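import Mathlib

/-!
# A complete ring with Noetherian quotient is Noetherian (Stacks 05GH)
-/

set_option autoImplicit false
universe u
namespace Pool.Agent.W_cbb711
open IsLocalRing Filter TensorProduct RingTheory.Sequence

section
open Polynomial

/-- The ideal `⊕ I^(n+1) X^n` of the Rees algebra. -/
def completeNoeth_ideal {A : Type u} [CommRing A] (I : Ideal A) : Ideal (reesAlgebra I) where
  carrier := {f | ∀ n, (f : A[X]).coeff n ∈ I ^ (n + 1)}
  zero_mem' := by
    intro n
    simp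
  add_mem' := by
    intro f g hf hg n
    have := Ideal.add_mem _ (hf n) (hg n)
    simpa using this
  smul_mem' := by
    intro c f hf n
    have h : ((c • f : reesAlgebra I) : A[X]) = (c : A[X]) * (f : A[X]) := rfl
    rw [h, coeff_mul]
    refine Ideal.sum_mem _ ?_
    rintro ⟨i, j⟩ hij
    rw [Finset.HasAntidiagonal.mem_antidiagonal] at hij
    have h1 : (c : A[X]).coeff i ∈ I ^ i := (mem_reesAlgebra_iff I _).1 c.2 i
    have h2 := hf j
    have h3 := Ideal.mul_mem_mul h1 h2
    rw [← pow_add] at h3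
    simp only at hij ⊢
    rw [← hij]
    rwa [add_assoc]

theorem completeNoeth_map_le {A : Type u} [CommRing A] (I : Ideal A) :
    I.map (algebraMap A (reesAlgebra I)) ≤ completeNoeth_ideal I := by
  rw [Ideal.map_le_iff_le_comap]
  intro a ha n
  have h : ((algebraMap A (reesAlgebra I) a : reesAlgebra I) : A[X]) = C a := rfl
  rw [h, coeff_C]
  split_ifs with hn
  · subst hn
    simpa using ha
  · exact Ideal.zero_mem _

theorem completeNoeth_noeth {A : Type u} [CommRing A] (I : Ideal A)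
    (hq : IsNoetherianRing (A ⧸ I)) {R : Type u} [CommRing R] [Algebra A R]
    (hft : Algebra.FiniteType A R) : IsNoetherianRing (R ⧸ I.map (algebraMap A R)) := by
  have hft1 : (algebraMap A R).FiniteType := by
    rw [RingHom.finiteType_algebraMap]
    exact hft
  set 𝓘 := I.map (algebraMap A R) with h𝓘
  have hft2 : ((Ideal.Quotient.mk 𝓘).comp (algebraMap A R)).FiniteType :=
    RingHom.FiniteType.comp
      (RingHom.FiniteType.of_surjective (Ideal.Quotient.mk 𝓘) Ideal.Quotient.mk_surjective) hft1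
  let g : A ⧸ I →+* R ⧸ 𝓘 :=
    Ideal.Quotient.lift I ((Ideal.Quotient.mk 𝓘).comp (algebraMap A R)) (by
      intro a ha
      rw [RingHom.comp_apply, Ideal.Quotient.eq_zero_iff_mem]
      exact Ideal.mem_map_of_mem _ ha)
  have hg : g.comp (Ideal.Quotient.mk I) =
      (Ideal.Quotient.mk 𝓘).comp (algebraMap A R) := by
    ext a
    rfl
  have hgft : g.FiniteType := RingHom.FiniteType.of_comp_finiteType (f := Ideal.Quotient.mk I)
    (by rw [hg]; exact hft2)
  let _ := g.toAlgebra
  have : Algebra.FiniteType (A ⧸ I) (R ⧸ 𝓘) := hgft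
  exact Algebra.FiniteType.isNoetherianRing (A ⧸ I) _

/-- finite generation modulo `I`, abstract form -/
theorem completeNoeth_lift {A : Type u} [CommRing A] (I : Ideal A)
    (hq : IsNoetherianRing (A ⧸ I)) {R : Type u} [CommRing R] [Algebra A R]
    (hft : Algebra.FiniteType A R) {P : Type u} (mon : P → R) :
    ∃ (ι : Type u) (_ : Fintype ι) (p : ι → P),
      ∀ q : P, ∃ c : ι → R, mon q - ∑ t, c t * mon (p t) ∈ I.map (algebraMap A R) := by
  classical
  have hN := completeNoeth_noeth I hq hft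
  set 𝓘 := I.map (algebraMap A R) with h𝓘
  have hfg : (Submodule.span (R ⧸ 𝓘)
      (Set.range fun p => Ideal.Quotient.mk 𝓘 (mon p))).FG := IsNoetherian.noetherian _
  obtain ⟨s', hs', hspan⟩ := Submodule.fg_span_iff_fg_span_finset_subset _ |>.1 hfg
  have hch : ∀ t : s', ∃ p, Ideal.Quotient.mk 𝓘 (mon p) = t.1 := fun t => hs' t.2
  choose p hp using hch
  refine ⟨s', inferInstance, p, ?_⟩
  intro q
  have hmem : Ideal.Quotient.mk 𝓘 (mon q) ∈
      Submodule.span (R ⧸ 𝓘) (Set.range fun t : s' => (t.1 : R ⧸ 𝓘)) := by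
    have h1 : Set.range (fun t : s' => (t.1 : R ⧸ 𝓘)) = (s' : Set _) := by
      ext y; simp
    rw [h1, ← hspan]
    exact Submodule.subset_span ⟨_, rfl⟩
  obtain ⟨c, hc⟩ := (Submodule.mem_span_range_iff_exists_fun _).1 hmem
  have hlift : ∀ t : s', ∃ c' : R, Ideal.Quotient.mk 𝓘 c' = c t :=
    fun t => Ideal.Quotient.mk_surjective _
  choose c' hc' using hlift
  refine ⟨c', ?_⟩
  rw [← Ideal.Quotient.eq_zero_iff_mem, map_sub, map_sum, ← hc, sub_eq_zero]
  refine Finset.sum_congr rfl ?_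
  intro t _
  rw [map_mul, hc', hp, smul_eq_mul]

theorem completeNoeth_key {A : Type u} [CommRing A] (I : Ideal A) (hI : I.FG)
    (hq : IsNoetherianRing (A ⧸ I)) (J : Ideal A) :
    ∃ (ι : Type u) (_ : Fintype ι) (a : ι → A) (d : ι → ℕ),
      (∀ k, a k ∈ J ∧ a k ∈ I ^ d k) ∧
      ∀ (n : ℕ) (x : A), x ∈ J → x ∈ I ^ n → ∃ r : ι → A, (∀ k, r k ∈ I ^ (n - d k)) ∧
        x - ∑ k, r k * a k ∈ I ^ (n + 1) := by
  classical
  let mon : (Σ n : ℕ, {a : A // a ∈ J ∧ a ∈ I ^ n}) → reesAlgebra I :=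
    fun p => ⟨monomial p.1 p.2.1, reesAlgebra.monomial_mem.2 p.2.2.2⟩
  obtain ⟨ι, hι, p, hp⟩ := completeNoeth_lift I hq
    ((Subalgebra.fg_iff_finiteType _).1 (reesAlgebra.fg hI)) mon
  refine ⟨ι, hι, fun t => (p t).2.1, fun t => (p t).1, fun t => (p t).2.2, ?_⟩
  intro n x hxJ hxI
  obtain ⟨c', hz⟩ := hp ⟨n, x, hxJ, hxI⟩
  have hz2 := completeNoeth_map_le I hz n
  have hcoeff : ((mon ⟨n, x, hxJ, hxI⟩ - ∑ t, c' t * mon (p t) : reesAlgebra I) : A[X]).coeff n
      = x - ∑ t, (if (p t).1 ≤ n then (c' t : A[X]).coeff (n - (p t).1) else 0) *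
          ((p t).2.1 : A) := by
    have h1 : ((mon ⟨n, x, hxJ, hxI⟩ - ∑ t, c' t * mon (p t) : reesAlgebra I) : A[X]) =
        monomial n x - ∑ t, (c' t : A[X]) * monomial (p t).1 (p t).2.1 := by
      rw [AddSubgroupClass.coe_sub, AddSubmonoidClass.coe_finsetSum]
      rfl
    rw [h1, coeff_sub, coeff_monomial_same, finsetSum_coeff]
    congr 1
    refine Finset.sum_congr rfl ?_
    intro t _
    rw [← C_mul_X_pow_eq_monomial, ← mul_assoc, coeff_mul_X_pow']
    split_ifs with h
    · rw [coeff_mul_C]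
    · rw [zero_mul]
  rw [hcoeff] at hz2
  refine ⟨_, ?_, hz2⟩
  intro t
  split_ifs with h
  · exact (mem_reesAlgebra_iff I _).1 (c' t).2 _
  · exact Ideal.zero_mem _

end

theorem isNoetherianRing_of_complete {A : Type u} [CommRing A] (I : Ideal A)
    [IsAdicComplete I A] (hI : I.FG) (hq : IsNoetherianRing (A ⧸ I)) : IsNoetherianRing A := by
  classical
  rw [isNoetherianRing_iff_ideal_fg]
  intro J
  obtain ⟨ι, hfin, a, d, had, hkey⟩ := completeNoeth_key I hI hq J
  suffices h : J = Ideal.span (Set.range a) by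
    rw [h]
    exact Submodule.fg_span (Set.finite_range a)
  refine le_antisymm ?_ (Ideal.span_le.2 (by rintro _ ⟨k, rfl⟩; exact (had k).1))
  intro x hx
  have hkey' : ∀ (n : ℕ) (y : {y : A // y ∈ J ∧ y ∈ I ^ n}), ∃ r : ι → A,
      (∀ k, r k ∈ I ^ (n - d k)) ∧ y.1 - ∑ k, r k * a k ∈ I ^ (n + 1) :=
    fun n y => hkey n y.1 y.2.1 y.2.2
  choose r hr1 hr2 using hkey'
  let xs : ∀ n : ℕ, {y : A // y ∈ J ∧ y ∈ I ^ n} := fun n =>
    Nat.rec (motive := fun n => {y : A // y ∈ J ∧ y ∈ I ^ n}) ⟨x, hx, by simp⟩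
      (fun n y => ⟨y.1 - ∑ k, r n y k * a k,
        J.sub_mem y.2.1 (J.sum_mem fun k _ => J.mul_mem_left _ (had k).1), hr2 n y⟩) n
  have hxs0 : (xs 0).1 = x := rfl
  have hxs : ∀ n, (xs (n + 1)).1 = (xs n).1 - ∑ k, r n (xs n) k * a k := fun n => rfl
  have hsum : ∀ N, x = ∑ k, (∑ n ∈ Finset.range N, r n (xs n) k) * a k + (xs N).1 := by
    intro N
    induction N with
    | zero => simp [hxs0]
    | succ N ih =>
      rw [hxs N]
      conv_lhs => rw [ih]
      simp only [Finset.sum_range_succ, add_mul, Finset.sum_add_distrib]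
      ring
  -- limits
  have hlim : ∀ k, ∃ L : A, ∀ N, (∑ n ∈ Finset.range (N + d k), r n (xs n) k) - L ∈ I ^ N := by
    intro k
    obtain ⟨L, hL⟩ := IsPrecomplete.prec (I := I) (M := A) inferInstance
      (f := fun N => ∑ n ∈ Finset.range (N + d k), r n (xs n) k) (by
        intro m n hmn
        rw [SModEq.sub_mem, smul_eq_mul, Ideal.mul_top]
        have hsplit : ∑ l ∈ Finset.range (n + d k), r l (xs l) k =
            ∑ l ∈ Finset.range (m + d k), r l (xs l) k +
            ∑ l ∈ Finset.Ico (m + d k) (n + d k), r l (xs l) k :=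
          (Finset.sum_range_add_sum_Ico _ (by omega)).symm
        rw [hsplit, sub_add_cancel_left]
        refine Ideal.neg_mem_iff _ |>.2 (Ideal.sum_mem _ ?_)
        intro l hl
        rw [Finset.mem_Ico] at hl
        exact Ideal.pow_le_pow_right (by omega) (hr1 l (xs l) k))
    refine ⟨L, fun N => ?_⟩
    have := hL N
    rwa [SModEq.sub_mem, smul_eq_mul, Ideal.mul_top] at this
  choose L hL using hlim
  have hfinal : x = ∑ k, L k * a k := by
    have hz : x - ∑ k, L k * a k = 0 := by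
      refine IsHausdorff.haus (I := I) (M := A) inferInstance _ ?_
      intro N
      rw [SModEq.sub_mem, sub_zero, smul_eq_mul, Ideal.mul_top]
      -- take a large index
      set D := ∑ k, d k with hD
      have hdk : ∀ k, d k ≤ D := fun k =>
        Finset.single_le_sum (f := d) (fun _ _ => Nat.zero_le _) (Finset.mem_univ k)
      have h1 := hsum (N + D)
      have h2 : x - ∑ k, L k * a k =
          ∑ k, ((∑ n ∈ Finset.range (N + D), r n (xs n) k) - L k) * a k + (xs (N + D)).1 := by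
        conv_lhs => rw [h1]
        simp only [sub_mul, Finset.sum_sub_distrib]
        ring
      rw [h2]
      refine Ideal.add_mem _ (Ideal.sum_mem _ ?_)
        (Ideal.pow_le_pow_right (by omega) (xs (N + D)).2.2)
      intro k _
      have h3 := hL k (N + D - d k)
      have h4 : N + D - d k + d k = N + D := by have := hdk k; omega
      rw [h4] at h3
      have h5 := Ideal.mul_mem_mul h3 (had k).2
      rw [← pow_add, h4] at h5
      exact Ideal.pow_le_pow_right (by omega) h5
    exact sub_eq_zero.1 hz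
  rw [hfinal]
  exact Ideal.sum_mem _ fun k _ => Ideal.mul_mem_left _ _ (Ideal.subset_span ⟨k, rfl⟩)

end Pool.Agent.W_cbb711
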