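import Mathlib
import Pool.Agent.W_cbb711b.Defs
import Pool.Agent.W_cbb711b.SharpAlg
import Pool.Agent.W_cbb711b.Rigid2
import Pool.Agent.W_cbb711b.SharpIdeals
import Pool.Agent.W_cbb711b.CompleteNoeth

/-!
# `Sharp` of a Noetherian local ring (task L2 of MP_cbb711_ag)
-/

set_option autoImplicit false

universe u v

namespace Pool.Agent.W_cbb711

open IsLocalRing Filter TensorProduct RingTheory.Sequence

namespace SharpLocal

theorem one_notMem {A : Type u} [CommRing A] [IsLocalRing A] : (1 : A) ∉ maximalIdeal A :=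
  (Ideal.ne_top_iff_one _).1 (maximalIdeal.isMaximal A).ne_top

theorem isUnit_of_sub_mem {A : Type u} [CommRing A] [IsLocalRing A] {x y : A}
    (h : x * y - 1 ∈ maximalIdeal A) : IsUnit x := by
  by_contra hx
  have h1 : x * y ∈ maximalIdeal A :=
    Ideal.mul_mem_right _ _ ((mem_maximalIdeal _).2 hx)
  apply one_notMem (A := A)
  have : (1 : A) = x * y - (x * y - 1) := by ring
  rw [this]
  exact Ideal.sub_mem _ h1 h

theorem isUnit_or_sub {A : Type u} [CommRing A] [IsLocalRing A] {x : A} (h : ¬ IsUnit x) :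
    IsUnit (1 - x) := by
  have h1 : x ∈ maximalIdeal A := (mem_maximalIdeal _).2 h
  refine isUnit_of_sub_mem (y := 1) ?_
  have : (1 - x) * 1 - 1 = -x := by ring
  rw [this]
  exact neg_mem h1

/-- membership in the image of an ideal under the quotient map by an ideal (as a submodule). -/
theorem mkQ_mem {A : Type u} [CommRing A] (q I : Ideal A) (x : A) :
    (q • ⊤ : Submodule A A).mkQ x ∈ I • (⊤ : Submodule A (A ⧸ (q • ⊤ : Submodule A A))) ↔
      x ∈ q ⊔ I := by
  have h1 : I • (⊤ : Submodule A (A ⧸ (q • ⊤ : Submodule A A))) =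
      Submodule.map (q • ⊤ : Submodule A A).mkQ (I • ⊤) := by
    rw [Submodule.map_smul'', Submodule.map_top, Submodule.range_mkQ]
  rw [h1, ← Submodule.mem_comap, Submodule.comap_map_mkQ, Ideal.smul_eq_mul, Ideal.smul_eq_mul,
    Ideal.mul_top, Ideal.mul_top]

/-- The key step: Artin-Rees modulo an ideal. -/
theorem artinRees_mod {A : Type u} [CommRing A] [IsNoetherianRing A] (I q : Ideal A) (y : A)
    (hy : IsSMulRegular (A ⧸ (q • ⊤ : Submodule A A)) y) :
    ∃ c, ∀ n, ∀ x : A, y * x ∈ q ⊔ I ^ (n + c) → x ∈ q ⊔ I ^ n := by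
  let M := A ⧸ (q • ⊤ : Submodule A A)
  obtain ⟨c, hc⟩ := artinRees (A := M) (B := M) I (LinearMap.lsmul A M y)
  refine ⟨c, fun n x hx => ?_⟩
  have h1 : LinearMap.lsmul A M y ((q • ⊤ : Submodule A A).mkQ x) ∈
      I ^ (n + c) • (⊤ : Submodule A M) := by
    have h2 : LinearMap.lsmul A M y ((q • ⊤ : Submodule A A).mkQ x) =
        (q • ⊤ : Submodule A A).mkQ (y * x) := by
      rw [LinearMap.lsmul_apply, ← map_smul]
      rfl
    rw [h2, mkQ_mem]
    exact hx
  obtain ⟨z, hz, hzx⟩ := hc c le_rfl n _ h1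
  have h3 : z = (q • ⊤ : Submodule A A).mkQ x := hy hzx
  rw [h3, mkQ_mem] at hz
  exact hz

end SharpLocal

open SharpLocal

theorem Sharp.isUnit_mk_iff {A : Type u} [CommRing A] [IsLocalRing A] (x : ℕ → A) :
    IsUnit (Sharp.mk (maximalIdeal A) x) ↔
      ∀ᶠ i in (hyperfilter ℕ : Filter ℕ), IsUnit (x i) := by
  constructor
  · intro h
    obtain ⟨z, hz⟩ := h.exists_right_inv
    obtain ⟨y, rfl⟩ := Sharp.mk_surjective z
    rw [← map_mul, ← map_one (Sharp.mk (maximalIdeal A)), Sharp.mk_eq_mk] at hz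
    filter_upwards [hz 1] with i hi
    rw [pow_one] at hi
    exact isUnit_of_sub_mem hi
  · intro h
    refine IsUnit.of_mul_eq_one (Sharp.mk _ fun i => Ring.inverse (x i)) ?_
    rw [← map_mul, ← map_one (Sharp.mk (maximalIdeal A)), Sharp.mk_eq_mk]
    intro N
    filter_upwards [h] with i hi
    have : (x * fun i => Ring.inverse (x i)) i - (1 : ℕ → A) i = 0 := by
      show x i * Ring.inverse (x i) - 1 = 0
      rw [Ring.mul_inverse_cancel _ hi, sub_self]
    rw [this]
    exact Ideal.zero_mem _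

instance Sharp.isLocalRing (A : Type u) [CommRing A] [IsLocalRing A] :
    IsLocalRing (Sharp A (maximalIdeal A)) := by
  have : Nontrivial (Sharp A (maximalIdeal A)) := by
    refine ⟨⟨0, 1, ?_⟩⟩
    intro h
    have h1 : Sharp.mk (maximalIdeal A) 1 = 0 := by rw [map_one, h]
    rw [Sharp.mk_eq_zero] at h1
    obtain ⟨i, hi⟩ := (h1 1).exists
    rw [pow_one] at hi
    exact one_notMem hi
  refine IsLocalRing.of_isUnit_or_isUnit_one_sub_self fun z => ?_
  obtain ⟨x, rfl⟩ := Sharp.mk_surjective z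
  by_cases hx : ∀ᶠ i in (hyperfilter ℕ : Filter ℕ), IsUnit (x i)
  · exact Or.inl ((Sharp.isUnit_mk_iff x).2 hx)
  · right
    have hx' : ∀ᶠ i in (hyperfilter ℕ : Filter ℕ), ¬ IsUnit (x i) :=
      Ultrafilter.eventually_not.2 hx
    rw [← map_one (Sharp.mk (maximalIdeal A)), ← map_sub, Sharp.isUnit_mk_iff]
    filter_upwards [hx'] with i hi
    exact isUnit_or_sub hi

theorem Sharp.maximalIdeal_eq (A : Type u) [CommRing A] [IsLocalRing A] [IsNoetherianRing A] :
    maximalIdeal (Sharp A (maximalIdeal A)) = (maximalIdeal A).map (Sharp.const _) := by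
  ext z
  obtain ⟨x, rfl⟩ := Sharp.mk_surjective z
  rw [mem_maximalIdeal, mem_nonunits_iff, Sharp.isUnit_mk_iff,
    Sharp.mk_mem_map_const _ (IsNoetherian.noetherian _)]
  constructor
  · intro h N
    have h' : ∀ᶠ i in (hyperfilter ℕ : Filter ℕ), ¬ IsUnit (x i) :=
      Ultrafilter.eventually_not.2 h
    filter_upwards [h'] with i hi
    exact Ideal.mem_sup_left ((mem_maximalIdeal _).2 hi)
  · intro h
    rw [← Ultrafilter.eventually_not]
    filter_upwards [h 1] with i hi
    rw [pow_one, sup_idem] at hi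
    exact (mem_maximalIdeal _).1 hi

namespace SharpLocal

theorem maximalIdeal_fg (A : Type u) [CommRing A] [IsLocalRing A] [IsNoetherianRing A] :
    (maximalIdeal (Sharp A (maximalIdeal A))).FG := by
  rw [Sharp.maximalIdeal_eq]
  exact Ideal.FG.map (IsNoetherian.noetherian _) _

end SharpLocal

theorem Sharp.isAdicComplete_maximalIdeal (A : Type u) [CommRing A] [IsLocalRing A]
    [IsNoetherianRing A] : IsAdicComplete (maximalIdeal (Sharp A (maximalIdeal A)))
      (Sharp A (maximalIdeal A)) := by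
  rw [Sharp.maximalIdeal_eq]
  exact Sharp.isAdicComplete (IsNoetherian.noetherian _)

instance Sharp.isNoetherianRing (A : Type u) [CommRing A] [IsLocalRing A] [IsNoetherianRing A] :
    IsNoetherianRing (Sharp A (maximalIdeal A)) := by
  have := Sharp.isAdicComplete_maximalIdeal A
  refine isNoetherianRing_of_complete (maximalIdeal (Sharp A (maximalIdeal A)))
    (SharpLocal.maximalIdeal_fg A) ?_
  exact inferInstanceAs (IsNoetherianRing (ResidueField (Sharp A (maximalIdeal A))))

theorem Sharp.isRegular_const {A : Type u} [CommRing A] [IsLocalRing A] [IsNoetherianRing A]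
    (xs : List A) (h : IsRegular A xs) :
    IsRegular (Sharp A (maximalIdeal A)) (xs.map (Sharp.const (maximalIdeal A))) := by
  have hne : Ideal.ofList xs ≠ ⊤ := by
    intro h1
    apply h.top_ne_smul
    rw [h1]
    simp
  refine ⟨⟨fun i hi => ?_⟩, ?_⟩
  · have hi' : i < xs.length := by simpa using hi
    set q : Ideal A := Ideal.ofList (xs.take i) with hq
    have hlist : Ideal.ofList ((xs.map (Sharp.const (maximalIdeal A))).take i) =
        q.map (Sharp.const (maximalIdeal A)) := by
      rw [← List.map_take, hq, Ideal.map_ofList]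
    have hget : (xs.map (Sharp.const (maximalIdeal A)))[i] = Sharp.const (maximalIdeal A) xs[i] := by
      simp
    rw [hget, hlist]
    obtain ⟨c, hc⟩ := artinRees_mod (maximalIdeal A) q xs[i] (h.regular_mod_prev i hi')
    rw [isSMulRegular_iff_right_eq_zero_of_smul]
    intro z hz
    obtain ⟨z, rfl⟩ := Submodule.mkQ_surjective _ z
    obtain ⟨x, rfl⟩ := Sharp.mk_surjective z
    rw [← map_smul, Submodule.mkQ_apply, Submodule.Quotient.mk_eq_zero, Ideal.smul_eq_mul,
      Ideal.mul_top, smul_eq_mul, Sharp.const_apply, ← map_mul,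
      Sharp.mk_mem_map_const _ (IsNoetherian.noetherian _)] at hz
    rw [Submodule.mkQ_apply, Submodule.Quotient.mk_eq_zero, Ideal.smul_eq_mul,
      Ideal.mul_top, Sharp.mk_mem_map_const _ (IsNoetherian.noetherian _)]
    intro N
    filter_upwards [hz (N + c)] with j hj
    exact hc N (x j) hj
  · intro h1
    rw [Ideal.smul_eq_mul, Ideal.mul_top, ← Ideal.map_ofList] at h1
    have h2 : (Ideal.ofList xs).map (Sharp.const (maximalIdeal A)) ≤
        maximalIdeal (Sharp A (maximalIdeal A)) := by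
      rw [Sharp.maximalIdeal_eq]
      exact Ideal.map_mono (le_maximalIdeal hne)
    rw [← h1] at h2
    exact (maximalIdeal.isMaximal (Sharp A (maximalIdeal A))).ne_top (top_le_iff.1 h2)

namespace SharpLocal

/-- In a Noetherian local ring, a zero-dimensional quotient kills a power of the maximal ideal. -/
theorem exists_pow_le {A : Type u} [CommRing A] [IsLocalRing A] [IsNoetherianRing A]
    (I : Ideal A) (hI : I ≠ ⊤) (hdim : ringKrullDim (A ⧸ I) = 0) :
    ∃ k, maximalIdeal A ^ k ≤ I := by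
  have : Nontrivial (A ⧸ I) := Ideal.Quotient.nontrivial_iff.2 hI
  have h0 : Ring.KrullDimLE 0 (A ⧸ I) := ringKrullDimZero_iff_ringKrullDim_eq_zero.2 hdim
  have h1 := Ring.krullDimLE_zero_iff.1 h0
  have hrad : maximalIdeal A ≤ I.radical := by
    rw [Ideal.radical_eq_sInf]
    refine le_sInf ?_
    rintro P ⟨hIP, hP⟩
    have hP' : (P.map (Ideal.Quotient.mk I)).IsPrime :=
      Ideal.map_isPrime_of_surjective Ideal.Quotient.mk_surjective (by
        rw [Ideal.mk_ker]; exact hIP)
    have hPm := h1 _ hP'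
    have h2 : P = (P.map (Ideal.Quotient.mk I)).comap (Ideal.Quotient.mk I) := by
      rw [Ideal.comap_map_of_surjective _ Ideal.Quotient.mk_surjective]
      rw [← RingHom.ker_eq_comap_bot, Ideal.mk_ker, sup_eq_left.2 hIP]
    have h3 : P.IsMaximal := by
      rw [h2]
      exact Ideal.comap_isMaximal_of_surjective _ Ideal.Quotient.mk_surjective
    exact (eq_maximalIdeal h3).ge
  obtain ⟨k, hk⟩ := I.exists_radical_pow_le_of_fg (IsNoetherian.noetherian _)
  exact ⟨k, (Ideal.pow_right_mono hrad k).trans hk⟩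

theorem dim_zero {A : Type u} [CommRing A] [IsLocalRing A] (I : Ideal A) (hI : I ≠ ⊤) (k : ℕ)
    (hk : maximalIdeal A ^ k ≤ I) : ringKrullDim (A ⧸ I) = 0 := by
  have : Nontrivial (A ⧸ I) := Ideal.Quotient.nontrivial_iff.2 hI
  rw [← ringKrullDimZero_iff_ringKrullDim_eq_zero, Ring.krullDimLE_zero_iff]
  intro P hP
  have h1 : I ≤ P.comap (Ideal.Quotient.mk I) := by
    intro x hx
    rw [Ideal.mem_comap, Ideal.Quotient.eq_zero_iff_mem.2 hx]
    exact Ideal.zero_mem _
  have h2 : (P.comap (Ideal.Quotient.mk I)).IsPrime := Ideal.comap_isPrime _ _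
  have h3 : maximalIdeal A ≤ P.comap (Ideal.Quotient.mk I) :=
    h2.le_of_pow_le (hk.trans h1)
  have h4 : P.comap (Ideal.Quotient.mk I) = maximalIdeal A :=
    le_antisymm (le_maximalIdeal h2.ne_top) h3
  have h5 : (P.comap (Ideal.Quotient.mk I)).IsMaximal := by
    rw [h4]
    exact maximalIdeal.isMaximal A
  have h6 := Ideal.map_eq_top_or_isMaximal_of_surjective (Ideal.Quotient.mk I)
    Ideal.Quotient.mk_surjective h5
  rw [Ideal.map_comap_of_surjective _ Ideal.Quotient.mk_surjective] at h6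
  exact h6.resolve_left hP.ne_top

end SharpLocal

theorem Sharp.ringKrullDim_eq {A : Type u} [CommRing A] [IsLocalRing A] [IsNoetherianRing A]
    (xs : List A) (h : IsRegular A xs) (hdim : (xs.length : WithBot ℕ∞) = ringKrullDim A) :
    ringKrullDim (Sharp A (maximalIdeal A)) = ringKrullDim A := by
  have hne : Ideal.ofList xs ≠ ⊤ := by
    intro h1
    apply h.top_ne_smul
    rw [h1]
    simp
  have h1 := ringKrullDim_add_length_eq_ringKrullDim_of_isRegular xs h
  have h2 := ringKrullDim_add_length_eq_ringKrullDim_of_isRegular _ (Sharp.isRegular_const xs h)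
  have h3 : ringKrullDim (A ⧸ Ideal.ofList xs) = 0 := by
    rw [← hdim] at h1
    have h4 : ringKrullDim (A ⧸ Ideal.ofList xs) + (xs.length : WithBot ℕ∞) =
        0 + (xs.length : WithBot ℕ∞) := by rw [h1, zero_add]
    exact ENat.WithBot.add_natCast_cancel.1 h4
  obtain ⟨k, hk⟩ := SharpLocal.exists_pow_le _ hne h3
  have h5 : ringKrullDim (Sharp A (maximalIdeal A) ⧸
      Ideal.ofList (xs.map (Sharp.const (maximalIdeal A)))) = 0 := by
    refine SharpLocal.dim_zero _ ?_ k ?_
    · intro h6
      apply (Sharp.isRegular_const xs h).top_ne_smul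
      rw [h6]
      simp
    · rw [← Ideal.map_ofList, Sharp.maximalIdeal_eq, ← Ideal.map_pow]
      exact Ideal.map_mono hk
  rw [h5, zero_add, List.length_map] at h2
  rw [← h2, hdim]

end Pool.Agent.W_cbb711
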