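import Mathlib

/-!
# A separating transcendence basis containing given elements
-/

set_option autoImplicit false

universe u

namespace Pool.Agent.W_cbb711

open IsLocalRing Filter TensorProduct RingTheory.Sequence

/-- A copy of `k`, on which `k` acts through the Frobenius. -/
def SepFrob (_p : ℕ) (k : Type) : Type := k

instance sepFrobAddCommGroup (p : ℕ) (k : Type) [Field k] : AddCommGroup (SepFrob p k) :=
  inferInstanceAs (AddCommGroup k)

noncomputable instance sepFrobModule (p : ℕ) [Fact p.Prime] (k : Type) [Field k] [CharP k p] :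
    Module k (SepFrob p k) :=
  letI : Module k (SepFrob p k) := inferInstanceAs (Module k k)
  Module.compHom (SepFrob p k) (frobenius k p)

theorem separating_frob_smul (p : ℕ) [Fact p.Prime] (k : Type) [Field k] [CharP k p]
    (c : k) (e : k) : ((c • (show SepFrob p k from e) : SepFrob p k)) = (show SepFrob p k from c ^ p * e) := rfl

/-- Mac Lane's condition in the form used by Mathlib. -/
theorem separating_maclane (p : ℕ) [Fact p.Prime] {k K : Type} [Field k] [Field K]
    [Algebra k K] [CharP k p] [CharP K p]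
    (hsep : ∀ (n : ℕ) (e : Fin n → k), (∀ c : Fin n → k, ∑ j, c j ^ p * e j = 0 → c = 0) →
      ∀ c : Fin n → K, ∑ j, c j ^ p * algebraMap k K (e j) = 0 → c = 0)
    (s : Finset K) (hs : LinearIndepOn k _root_.id (s : Set K)) :
    LinearIndepOn k (· ^ p) (s : Set K) := by
  classical
  rw [LinearIndepOn, Fintype.linearIndependent_iff]
  intro a ha
  rw [LinearIndepOn, Fintype.linearIndependent_iff] at hs
  -- the span of the `a i` in the Frobenius module
  let W : Submodule k (SepFrob p k) := Submodule.span k (Set.range (fun i => (a i : SepFrob p k)))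
  have : Module.Finite k W := Module.Finite.span_of_finite k (Set.finite_range _)
  let B := Module.finBasis k W
  let e : Fin (Module.finrank k W) → k := fun j => ((B j : W) : SepFrob p k)
  have he : ∀ c : Fin (Module.finrank k W) → k, ∑ j, c j ^ p * e j = 0 → c = 0 := by
    intro c hc
    have h1 : ∑ j, c j • B j = 0 := by
      apply Subtype.ext
      rw [Submodule.coe_sum]
      exact hc
    have := (Fintype.linearIndependent_iff.mp B.linearIndependent) c h1
    funext j
    exact this j
  have hmem : ∀ i, (a i : SepFrob p k) ∈ W := fun i => Submodule.subset_span ⟨i, rfl⟩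
  let c : {x // x ∈ (s : Set K)} → Fin (Module.finrank k W) → k := fun i j => B.repr ⟨a i, hmem i⟩ j
  have hac : ∀ i, a i = ∑ j, c i j ^ p * e j := by
    intro i
    have h2 := B.sum_repr ⟨(a i : SepFrob p k), hmem i⟩
    have h3 := congrArg (Subtype.val) h2
    rw [Submodule.coe_sum] at h3
    exact h3.symm
  have hfin : (fun j => ∑ i, algebraMap k K (c i j) * (i : K)) = 0 := by
    apply hsep _ e he
    have : ∀ j, (∑ i, algebraMap k K (c i j) * (i : K)) ^ p =
        ∑ i, (algebraMap k K (c i j)) ^ p * (i : K) ^ p := by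
      intro j
      rw [sum_pow_char p]
      exact Finset.sum_congr rfl fun i _ => by rw [mul_pow]
    simp only [this, Finset.sum_mul]
    rw [Finset.sum_comm, ← ha]
    refine Finset.sum_congr rfl fun i _ => ?_
    rw [Algebra.smul_def, hac i, map_sum, Finset.sum_mul]
    refine Finset.sum_congr rfl fun j _ => ?_
    rw [map_mul, map_pow]
    ring
  intro i
  rw [hac i]
  apply Finset.sum_eq_zero
  intro j _
  have h4 := congrFun hfin j
  have h5 : ∑ i, c i j • (i : K) = 0 := by
    simp only [Algebra.smul_def]
    exact h4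
  have := hs (fun i => c i j) h5 i
  rw [this, zero_pow (Fact.out : p.Prime).ne_zero, zero_mul]

theorem separating_D_aeval {k L : Type} [Field k] [Field L] [Algebra k L] {r : ℕ}
    (t : Fin r → L) (F : MvPolynomial (Fin r) k) :
    KaehlerDifferential.D k L (MvPolynomial.aeval t F) =
      ∑ i, MvPolynomial.aeval t (MvPolynomial.pderiv i F) • KaehlerDifferential.D k L (t i) := by
  classical
  induction F using MvPolynomial.induction_on with
  | C a => simp
  | add f g hf hg =>
    rw [map_add, map_add, hf, hg, ← Finset.sum_add_distrib]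
    refine Finset.sum_congr rfl fun i _ => ?_
    rw [map_add, map_add, add_smul]
  | mul_X f j hf =>
    rw [map_mul, Derivation.leibniz, hf, MvPolynomial.aeval_X, Finset.smul_sum]
    have : ∀ i, MvPolynomial.aeval t (MvPolynomial.pderiv i (f * MvPolynomial.X j)) •
        KaehlerDifferential.D k L (t i) =
        (if i = j then MvPolynomial.aeval t f • KaehlerDifferential.D k L (t i) else 0) +
        t j • MvPolynomial.aeval t (MvPolynomial.pderiv i f) • KaehlerDifferential.D k L (t i) := by
      intro i
      rw [Derivation.leibniz, map_add, add_smul, MvPolynomial.pderiv_X, smul_eq_mul, smul_eq_mul,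
        map_mul, map_mul, MvPolynomial.aeval_X, mul_smul, mul_smul]
      congr 1
      split_ifs with h
      · subst h; simp
      · rw [Pi.single_eq_of_ne (fun h' => h h'.symm)]
        simp
    simp only [this]
    rw [Finset.sum_add_distrib, Finset.sum_ite_eq' Finset.univ j]
    simp

theorem separating_algInd (p : ℕ) [Fact p.Prime] {k L : Type} [Field k] [Field L]
    [Algebra k L] [CharP k p]
    (H : ∀ s : Finset L, LinearIndepOn k _root_.id (s : Set L) →
      LinearIndepOn k (· ^ p) (s : Set L)) {r : ℕ} (t : Fin r → L)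
    (ht : LinearIndependent L (fun i => KaehlerDifferential.D k L (t i))) :
    AlgebraicIndependent k t := by
  classical
  by_contra hcon
  set S := {F : MvPolynomial (Fin r) k | F ≠ 0 ∧ MvPolynomial.aeval t F = 0}
  obtain ⟨F, ⟨hF₀, hFa⟩, hFmin⟩ : ∃ F ∈ S, ∀ G : MvPolynomial (Fin r) k, G ≠ 0 →
      MvPolynomial.aeval t G = 0 → F.totalDegree ≤ G.totalDegree := by
    suffices S.Nonempty from
      ⟨MvPolynomial.totalDegree.argminOn S this, MvPolynomial.totalDegree.argminOn_mem ..,
        fun _ h₁ h₂ ↦ MvPolynomial.totalDegree.argminOn_le S ⟨h₁, h₂⟩⟩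
    simpa [S, algebraicIndependent_iff, and_comm] using! hcon
  obtain ⟨i, σ, hσ, hi⟩ := MvPolynomial.exists_mem_support_not_dvd_of_forall_totalDegree_le p
    (Fact.out : p.Prime) H hFmin hF₀ hFa
  have hσi : σ i ≠ 0 := by
    intro h
    rw [h] at hi
    exact hi (dvd_zero p)
  -- the partial derivative with respect to `i` is not zero
  have hpd : MvPolynomial.pderiv i F ≠ 0 := by
    intro h
    have h1 := MvPolynomial.coeff_pderiv (i := i) F (σ - Finsupp.single i 1)
    have h2 : σ - Finsupp.single i 1 + Finsupp.single i 1 = σ := by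
      apply tsub_add_cancel_of_le
      rw [Finsupp.single_le_iff]
      omega
    rw [h, h2, MvPolynomial.coeff_zero] at h1
    rcases mul_eq_zero.mp h1.symm with h3 | h3
    · exact (MvPolynomial.mem_support_iff.mp hσ) h3
    · rw [Finsupp.tsub_apply, Finsupp.single_eq_same] at h3
      have h4 : ((σ i - 1 + 1 : ℕ) : k) = 0 := by exact_mod_cast h3
      rw [CharP.cast_eq_zero_iff k p] at h4
      apply hi
      have h5 : σ i - 1 + 1 = σ i := by omega
      rwa [h5] at h4
  -- its total degree is smaller
  have hdeg : (MvPolynomial.pderiv i F).totalDegree < F.totalDegree := by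
    have hF1 : 0 < F.totalDegree := by
      have := MvPolynomial.le_totalDegree hσ
      have h6 : σ i ≤ σ.sum fun _ e => e := by
        have := Finsupp.le_degree i σ
        simpa [Finsupp.degree_apply, Finsupp.sum] using this
      omega
    rw [MvPolynomial.totalDegree, Finset.sup_lt_iff (by simpa using hF1)]
    intro m hm
    rw [MvPolynomial.mem_support_iff, MvPolynomial.coeff_pderiv] at hm
    have h7 : MvPolynomial.coeff (m + Finsupp.single i 1) F ≠ 0 := fun h => hm (by rw [h, zero_mul])
    have h8 := MvPolynomial.le_totalDegree (MvPolynomial.mem_support_iff.mpr h7)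
    rw [Finsupp.sum_add_index' (fun _ => rfl) (fun _ _ _ => rfl), Finsupp.sum_single_index rfl] at h8
    omega
  have hne : MvPolynomial.aeval t (MvPolynomial.pderiv i F) ≠ 0 := by
    intro h
    have := hFmin _ hpd h
    omega
  have hD := separating_D_aeval t F
  rw [hFa, map_zero] at hD
  exact hne ((Fintype.linearIndependent_iff.mp ht) _ hD.symm i)

theorem separating_extend {k L : Type} [Field k] [Field L] [Algebra k L]
    [Algebra.EssFiniteType k L] {s : ℕ} (b : Fin s → L)
    (hb : LinearIndependent L (fun i => KaehlerDifferential.D k L (b i))) :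
    ∃ (r : ℕ) (hr : s ≤ r) (t : Fin r → L), (∀ j : Fin s, t (Fin.castLE hr j) = b j) ∧
      LinearIndependent L (fun i => KaehlerDifferential.D k L (t i)) ∧
      ∀ x : L, KaehlerDifferential.D k L x ∈
        Submodule.span L (Set.range (fun i => KaehlerDifferential.D k L (t i))) := by
  classical
  let P : ℕ → Prop := fun r => ∃ (hr : s ≤ r) (t : Fin r → L),
    (∀ j : Fin s, t (Fin.castLE hr j) = b j) ∧
      LinearIndependent L (fun i => KaehlerDifferential.D k L (t i))
  have hPs : P s := ⟨le_rfl, b, fun j => rfl, hb⟩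
  have hbd : ∀ r, P r → r ≤ Module.finrank L (Ω[L⁄k]) := by
    rintro r ⟨_, t, _, ht⟩
    simpa using ht.fintype_card_le_finrank
  have hmax := Nat.findGreatest_spec (P := P) (hbd s hPs) hPs
  set r := Nat.findGreatest P (Module.finrank L (Ω[L⁄k])) with hrdef
  obtain ⟨hr, t, htb, ht⟩ := hmax
  refine ⟨r, hr, t, htb, ht, fun x => ?_⟩
  by_contra hx
  have hP : P (r + 1) := by
    refine ⟨hr.trans (Nat.le_succ r), Fin.snoc t x, ?_, ?_⟩
    · intro j
      have : Fin.castLE (hr.trans (Nat.le_succ r)) j = Fin.castSucc (Fin.castLE hr j) := rfl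
      rw [this, Fin.snoc_castSucc (α := fun _ => L)]
      exact htb j
    · have h1 : (fun i => KaehlerDifferential.D k L ((Fin.snoc t x : Fin (r + 1) → L) i)) =
          Fin.snoc (fun i => KaehlerDifferential.D k L (t i)) (KaehlerDifferential.D k L x) := by
        funext i
        refine Fin.lastCases ?_ (fun i => ?_) i
        · simp
        · simp
      rw [h1, linearIndependent_finSnoc]
      exact ⟨ht, hx⟩
  have := Nat.le_findGreatest (hbd _ hP) hP
  omega

theorem separating_prim {A0 L : Type} [CommRing A0] [IsDomain A0] [IsIntegrallyClosed A0]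
    [Field L] [Algebra A0 L] [Algebra (FractionRing A0) L]
    [IsScalarTower A0 (FractionRing A0) L] [Algebra.IsSeparable (FractionRing A0) L]
    [FiniteDimensional (FractionRing A0) L] (n : ℕ) (u : Fin n → L) :
    ∃ (ϑ : L) (g : Polynomial A0) (F : Fin n → Polynomial A0) (G : A0), g.Monic ∧
      Polynomial.aeval ϑ g = 0 ∧ Polynomial.aeval ϑ g.derivative ≠ 0 ∧
      (∀ f : Polynomial A0, Polynomial.aeval ϑ f = 0 → g ∣ f) ∧ algebraMap A0 L G ≠ 0 ∧
      ∀ l, u l * algebraMap A0 L G = Polynomial.aeval ϑ (F l) := by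
  classical
  have hinj : Function.Injective (algebraMap A0 L) := by
    rw [IsScalarTower.algebraMap_eq A0 (FractionRing A0) L]
    exact (algebraMap (FractionRing A0) L).injective.comp (IsFractionRing.injective A0 _)
  have : FaithfulSMul A0 L := (faithfulSMul_iff_algebraMap_injective A0 L).mpr hinj
  obtain ⟨α, hα⟩ := Field.exists_primitive_element (FractionRing A0) L
  have hαalg : IsAlgebraic A0 α :=
    (IsFractionRing.isAlgebraic_iff A0 (FractionRing A0) L).mpr (Algebra.IsAlgebraic.isAlgebraic α)
  obtain ⟨y, hy, hyint⟩ := hαalg.exists_integral_multiple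
  set ϑ : L := y • α with hϑ
  have hy' : algebraMap A0 (FractionRing A0) y ≠ 0 := by
    intro h
    exact hy ((IsFractionRing.injective A0 (FractionRing A0)) (by rw [h, map_zero]))
  have hϑtop : IntermediateField.adjoin (FractionRing A0) {ϑ} = ⊤ := by
    rw [eq_top_iff, ← hα, IntermediateField.adjoin_simple_le_iff]
    have h1 : ϑ ∈ IntermediateField.adjoin (FractionRing A0) {ϑ} :=
      IntermediateField.subset_adjoin _ _ rfl
    have h2 : α = (algebraMap A0 (FractionRing A0) y)⁻¹ • ϑ := by
      rw [hϑ, ← algebraMap_smul (FractionRing A0) y α, smul_smul, inv_mul_cancel₀ hy', one_smul]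
    rw [h2]
    exact IntermediateField.smul_mem _ h1
  have hmp := minpoly.isIntegrallyClosed_eq_field_fractions' (FractionRing A0) hyint
  have hroot : Polynomial.aeval ϑ (minpoly A0 ϑ) = 0 := minpoly.aeval A0 ϑ
  have hsepϑ : (minpoly (FractionRing A0) ϑ).Separable := Algebra.IsSeparable.isSeparable _ ϑ
  -- each element is a polynomial in `ϑ` over the fraction field
  have hpoly : ∀ x : L, ∃ q : Polynomial (FractionRing A0), Polynomial.aeval ϑ q = x := by
    intro x
    have hx : x ∈ IntermediateField.adjoin (FractionRing A0) {ϑ} := by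
      rw [hϑtop]; trivial
    rw [← IntermediateField.mem_toSubalgebra,
      IntermediateField.adjoin_simple_toSubalgebra_of_isAlgebraic
        (Algebra.IsAlgebraic.isAlgebraic ϑ), Algebra.adjoin_singleton_eq_range_aeval] at hx
    exact hx
  have hden : ∀ x : L, ∃ (d : A0) (f : Polynomial A0), d ≠ 0 ∧
      x * algebraMap A0 L d = Polynomial.aeval ϑ f := by
    intro x
    obtain ⟨q, hq⟩ := hpoly x
    obtain ⟨d, hd, hd'⟩ := IsLocalization.integerNormalization_spec (nonZeroDivisors A0) q
    refine ⟨d, IsLocalization.integerNormalization (nonZeroDivisors A0) q,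
      nonZeroDivisors.ne_zero hd, ?_⟩
    have h3 := congrArg (Polynomial.aeval ϑ) hd'
    rw [Polynomial.aeval_map_algebraMap] at h3
    rw [h3]
    rw [Algebra.smul_def]
    rw [IsScalarTower.algebraMap_apply A0 (FractionRing A0) L]
    rw [← hq, mul_comm]
    rw [IsScalarTower.algebraMap_apply A0 (FractionRing A0) (Polynomial (FractionRing A0)),
      map_mul, ← Polynomial.C_eq_algebraMap, Polynomial.aeval_C]
  choose d f hd hf using hden
  refine ⟨ϑ, minpoly A0 ϑ, fun l => f (u l) * ∏ j ∈ Finset.univ.erase l,
    Polynomial.C (d (u j)), ∏ j, d (u j), minpoly.monic hyint, hroot, ?_, ?_, ?_, ?_⟩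
  · intro h
    have h4 : Polynomial.aeval ϑ (minpoly (FractionRing A0) ϑ).derivative ≠ 0 :=
      hsepϑ.aeval_derivative_ne_zero (minpoly.aeval _ ϑ)
    apply h4
    rw [hmp, Polynomial.derivative_map, Polynomial.aeval_map_algebraMap]
    exact h
  · intro q hq
    exact minpoly.isIntegrallyClosed_dvd hyint hq
  · intro h
    have : ∏ j, d (u j) = 0 := hinj (by rw [h, map_zero])
    rw [Finset.prod_eq_zero_iff] at this
    obtain ⟨j, _, hj⟩ := this
    exact hd _ hj
  · intro l
    rw [map_mul, ← hf, ← Finset.mul_prod_erase Finset.univ (fun j => d (u j)) (Finset.mem_univ l),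
      map_mul, map_prod, map_prod]
    simp only [Polynomial.aeval_C]
    ring

theorem separating_main {k L : Type} [Field k] [Field L]
    [Algebra k L] [Algebra.EssFiniteType k L] {r : ℕ}
    (t : Fin r → L) (halg : AlgebraicIndependent k t)
    (hspan : ∀ x : L, KaehlerDifferential.D k L x ∈
        Submodule.span L (Set.range (fun i => KaehlerDifferential.D k L (t i))))
    (n : ℕ) (u : Fin n → L) :
    ∃ (ϑ : L) (g : Polynomial (MvPolynomial (Fin r) k))
      (F : Fin n → Polynomial (MvPolynomial (Fin r) k)) (G : MvPolynomial (Fin r) k),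
      g.Monic ∧
      g.eval₂ (MvPolynomial.aeval t : MvPolynomial (Fin r) k →ₐ[k] L).toRingHom ϑ = 0 ∧
      g.derivative.eval₂ (MvPolynomial.aeval t : MvPolynomial (Fin r) k →ₐ[k] L).toRingHom ϑ ≠ 0 ∧
      (∀ f : Polynomial (MvPolynomial (Fin r) k),
        f.eval₂ (MvPolynomial.aeval t : MvPolynomial (Fin r) k →ₐ[k] L).toRingHom ϑ = 0 → g ∣ f) ∧
      MvPolynomial.aeval t G ≠ 0 ∧
      ∀ l, u l * MvPolynomial.aeval t G =
        (F l).eval₂ (MvPolynomial.aeval t : MvPolynomial (Fin r) k →ₐ[k] L).toRingHom ϑ := by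
  classical
  let A0 := MvPolynomial (Fin r) k
  let _ : Algebra A0 L := (MvPolynomial.aeval t : MvPolynomial (Fin r) k →ₐ[k] L).toRingHom.toAlgebra
  have hmap : ∀ x : A0, algebraMap A0 L x = MvPolynomial.aeval t x := fun x => rfl
  have : IsScalarTower k A0 L := IsScalarTower.of_algebraMap_eq (fun x => by
    rw [hmap]
    exact ((MvPolynomial.aeval t : MvPolynomial (Fin r) k →ₐ[k] L).commutes x).symm)
  have hinj : Function.Injective (algebraMap A0 L) := halg
  have : FaithfulSMul A0 L := (faithfulSMul_iff_algebraMap_injective A0 L).mpr hinj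
  let _ : Algebra (FractionRing A0) L := FractionRing.liftAlgebra A0 L
  have : IsScalarTower A0 (FractionRing A0) L := FractionRing.isScalarTower_liftAlgebra A0 L
  have : IsScalarTower k (FractionRing A0) L := IsScalarTower.of_algebraMap_eq (fun x => by
    rw [IsScalarTower.algebraMap_apply k A0 (FractionRing A0),
      ← IsScalarTower.algebraMap_apply A0 (FractionRing A0) L,
      ← IsScalarTower.algebraMap_apply k A0 L])
  have hsub : Subsingleton (Ω[L⁄(FractionRing A0)]) := by
    have h1 : ∀ x : L, KaehlerDifferential.D (FractionRing A0) L x = 0 := by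
      intro x
      have h2 := KaehlerDifferential.map_D k (FractionRing A0) L L x
      rw [Algebra.algebraMap_self, RingHom.id_apply] at h2
      rw [← h2]
      have h3 : Submodule.span L (Set.range (fun i => KaehlerDifferential.D k L (t i))) ≤
          LinearMap.ker (KaehlerDifferential.map k (FractionRing A0) L L) := by
        rw [Submodule.span_le]
        rintro _ ⟨i, rfl⟩
        rw [SetLike.mem_coe, LinearMap.mem_ker, KaehlerDifferential.map_D,
          Algebra.algebraMap_self, RingHom.id_apply]
        have h4 : t i = algebraMap (FractionRing A0) L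
            (algebraMap A0 (FractionRing A0) (MvPolynomial.X i)) := by
          rw [← IsScalarTower.algebraMap_apply A0 (FractionRing A0) L, hmap, MvPolynomial.aeval_X]
        rw [h4, Derivation.map_algebraMap]
      exact h3 (hspan x)
    rw [← Submodule.subsingleton_iff L, ← subsingleton_iff_bot_eq_top,
      ← KaehlerDifferential.span_range_derivation, eq_comm, Submodule.span_eq_bot]
    rintro _ ⟨x, rfl⟩
    exact h1 x
  have : Algebra.FormallyUnramified (FractionRing A0) L := ⟨hsub⟩
  have : Algebra.EssFiniteType (FractionRing A0) L :=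
    Algebra.EssFiniteType.of_comp k (FractionRing A0) L
  have : Algebra.IsSeparable (FractionRing A0) L :=
    Algebra.FormallyUnramified.isSeparable (FractionRing A0) L
  have : FiniteDimensional (FractionRing A0) L :=
    Algebra.FormallyUnramified.finite_of_free (FractionRing A0) L
  obtain ⟨ϑ, g, F, G, hg, h1, h2, h3, h4, h5⟩ := separating_prim (A0 := A0) n u
  exact ⟨ϑ, g, F, G, hg, h1, h2, h3, h4, h5⟩

theorem exists_separating (p : ℕ) [Fact p.Prime] {k K : Type} [Field k] [Field K]
    [Algebra k K] [CharP k p] [CharP K p]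
    (hsep : ∀ (n : ℕ) (e : Fin n → k), (∀ c : Fin n → k, ∑ j, c j ^ p * e j = 0 → c = 0) →
      ∀ c : Fin n → K, ∑ j, c j ^ p * algebraMap k K (e j) = 0 → c = 0)
    (s : ℕ) (b : Fin s → K) (D : Fin s → Derivation k K K)
    (hD : ∀ i j, D i (b j) = if i = j then 1 else 0) (n : ℕ) (u : Fin n → K) :
    ∃ (r : ℕ) (hr : s ≤ r) (t : Fin r → K) (ϑ : K) (g : Polynomial (MvPolynomial (Fin r) k))
      (F : Fin n → Polynomial (MvPolynomial (Fin r) k)) (G : MvPolynomial (Fin r) k),
      AlgebraicIndependent k t ∧ (∀ j : Fin s, t (Fin.castLE hr j) = b j) ∧ g.Monic ∧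
      g.eval₂ (MvPolynomial.aeval t : MvPolynomial (Fin r) k →ₐ[k] K).toRingHom ϑ = 0 ∧
      g.derivative.eval₂ (MvPolynomial.aeval t : MvPolynomial (Fin r) k →ₐ[k] K).toRingHom ϑ ≠ 0 ∧
      (∀ f : Polynomial (MvPolynomial (Fin r) k),
        f.eval₂ (MvPolynomial.aeval t : MvPolynomial (Fin r) k →ₐ[k] K).toRingHom ϑ = 0 → g ∣ f) ∧
      MvPolynomial.aeval t G ≠ 0 ∧
      ∀ l, u l * MvPolynomial.aeval t G =
        (F l).eval₂ (MvPolynomial.aeval t : MvPolynomial (Fin r) k →ₐ[k] K).toRingHom ϑ := by
  classical
  set K1 : IntermediateField k K := IntermediateField.adjoin k (Set.range b ∪ Set.range u)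
    with hK1
  have hfg : K1.FG := by
    rw [hK1]
    have hfin : (Set.range b ∪ Set.range u).Finite := (Set.finite_range b).union (Set.finite_range u)
    exact ⟨hfin.toFinset, by rw [Set.Finite.coe_toFinset]⟩
  have : Algebra.EssFiniteType k K1 := IntermediateField.essFiniteType_iff.mpr hfg
  have : CharP K1 p := charP_of_injective_algebraMap (algebraMap k K1).injective p
  have hbmem : ∀ j, b j ∈ K1 := fun j =>
    IntermediateField.subset_adjoin k _ (Or.inl ⟨j, rfl⟩)
  have humem : ∀ j, u j ∈ K1 := fun j =>
    IntermediateField.subset_adjoin k _ (Or.inr ⟨j, rfl⟩)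
  let b1 : Fin s → K1 := fun j => ⟨b j, hbmem j⟩
  let u1 : Fin n → K1 := fun j => ⟨u j, humem j⟩
  have hlin : LinearIndependent K1 (fun j => KaehlerDifferential.D k K1 (b1 j)) := by
    rw [Fintype.linearIndependent_iff]
    intro a ha i
    let d : Derivation k K1 K := (D i).compAlgebraMap K1
    have h1 := congrArg d.liftKaehlerDifferential ha
    rw [map_sum, map_zero] at h1
    have h2 : ∀ j, d.liftKaehlerDifferential (a j • KaehlerDifferential.D k K1 (b1 j)) =
        if i = j then (a j : K) else 0 := by
      intro j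
      rw [map_smul, Derivation.liftKaehlerDifferential_comp_D]
      have h3 : d (b1 j) = if i = j then 1 else 0 := hD i j
      rw [h3]
      split_ifs
      · rw [Algebra.smul_def, mul_one]; rfl
      · rw [smul_zero]
    simp only [h2] at h1
    rw [Finset.sum_ite_eq Finset.univ i] at h1
    simpa using h1
  have hsep1 : ∀ (n : ℕ) (e : Fin n → k), (∀ c : Fin n → k, ∑ j, c j ^ p * e j = 0 → c = 0) →
      ∀ c : Fin n → K1, ∑ j, c j ^ p * algebraMap k K1 (e j) = 0 → c = 0 := by
    intro m e he c hc
    have h1 : (fun j => (c j : K)) = 0 := by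
      apply hsep m e he
      have h2 := congrArg (algebraMap K1 K) hc
      rw [map_sum, map_zero] at h2
      rw [← h2]
      refine Finset.sum_congr rfl fun j _ => ?_
      rw [map_mul, map_pow, ← IsScalarTower.algebraMap_apply k K1 K]
      rfl
    funext j
    exact Subtype.ext (congrFun h1 j)
  obtain ⟨r, hr, t, htb, ht, hspan⟩ := separating_extend b1 hlin
  have halg := separating_algInd p (separating_maclane p hsep1) t ht
  obtain ⟨ϑ, g, F, G, hg, h1, h2, h3, h4, h5⟩ := separating_main t halg hspan n u1
  have hcomp : (MvPolynomial.aeval (fun i => (t i : K)) : MvPolynomial (Fin r) k →ₐ[k] K) =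
      K1.val.comp (MvPolynomial.aeval t) := by
    rw [MvPolynomial.comp_aeval]
    rfl
  have hcomp2 : (MvPolynomial.aeval (fun i => (t i : K)) :
      MvPolynomial (Fin r) k →ₐ[k] K).toRingHom =
      (K1.val.toRingHom).comp (MvPolynomial.aeval t : MvPolynomial (Fin r) k →ₐ[k] K1).toRingHom := by
    rw [hcomp]
    rfl
  have hev : ∀ f : Polynomial (MvPolynomial (Fin r) k),
      f.eval₂ (MvPolynomial.aeval (fun i => (t i : K)) :
        MvPolynomial (Fin r) k →ₐ[k] K).toRingHom (ϑ : K) =
      ((f.eval₂ (MvPolynomial.aeval t : MvPolynomial (Fin r) k →ₐ[k] K1).toRingHom ϑ : K1) : K) := by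
    intro f
    rw [hcomp2]
    exact (Polynomial.hom_eval₂ f _ K1.val.toRingHom ϑ).symm
  have hevG : ∀ q : MvPolynomial (Fin r) k, MvPolynomial.aeval (fun i => (t i : K)) q =
      ((MvPolynomial.aeval t q : K1) : K) := by
    intro q
    rw [hcomp]
    rfl
  refine ⟨r, hr, fun i => (t i : K), (ϑ : K), g, F, G, ?_, ?_, hg, ?_, ?_, ?_, ?_, ?_⟩
  · exact halg.map' (f := K1.val) K1.val.injective
  · intro j
    exact congrArg Subtype.val (htb j)
  · rw [hev, h1]
    rfl
  · rw [hev]
    intro h
    exact h2 (Subtype.ext h)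
  · intro f hf
    rw [hev] at hf
    exact h3 f (Subtype.ext hf)
  · rw [hevG]
    intro h
    exact h4 (Subtype.ext h)
  · intro l
    rw [hevG, hev, ← h5 l]
    rfl

end Pool.Agent.W_cbb711
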