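import Mathlib

set_option autoImplicit false

universe u

namespace Pool.Agent.W_cbb711

open IsLocalRing Filter TensorProduct RingTheory.Sequence Polynomial

/-- The derivation `d/dx` on `K = E(x)`, `x ^ p ∈ E`, `x ∉ E`. -/
theorem RelPBasis_deriv_of_adjoin {E K : Type*} [Field E] [Field K] [Algebra E K] (x : K)
    (hsurj : ∀ y : K, ∃ f : E[X], aeval x f = y)
    (hker : ∀ f : E[X], aeval x f = 0 → aeval x (derivative f) = 0) :
    ∃ D : Derivation E K K, D x = 1 := by
  choose f hf using hsurj
  have key : ∀ (y : K) (g : E[X]), aeval x g = y →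
      aeval x (derivative (f y)) = aeval x (derivative g) := by
    intro y g hg
    have := hker (f y - g) (by rw [map_sub, hf, hg, sub_self])
    rw [derivative_sub, map_sub, sub_eq_zero] at this
    exact this
  refine ⟨Derivation.mk' (R := E)
    { toFun := fun y => aeval x (derivative (f y))
      map_add' := fun y z => by
        rw [key (y + z) (f y + f z) (by rw [map_add, hf, hf]), derivative_add, map_add]
      map_smul' := fun c y => by
        rw [key (c • y) (c • f y) (by rw [map_smul, hf]), derivative_smul, map_smul,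
          RingHom.id_apply] } ?_, ?_⟩
  · intro y z
    show aeval x (derivative (f (y * z))) =
      y • aeval x (derivative (f z)) + z • aeval x (derivative (f y))
    rw [key (y * z) (f y * f z) (by rw [map_mul, hf, hf]), derivative_mul, map_add, map_mul,
      map_mul, hf, hf, smul_eq_mul, smul_eq_mul]
    ring
  · show aeval x (derivative (f x)) = 1
    rw [key x X (by simp)]
    simp

/-- In characteristic `p`, an element outside an intermediate field containing all `p`-th powers
is detected by a derivation. -/
theorem RelPBasis_exists_derivation (p : ℕ) [Fact p.Prime] {k K : Type*} [Field k] [Field K]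
    [Algebra k K] [CharP K p] (L : IntermediateField k K) (hL : ∀ y : K, y ^ p ∈ L)
    (x : K) (hx : x ∉ L) : ∃ D : Derivation L K K, D x ≠ 0 := by
  classical
  have hp : p.Prime := Fact.out
  -- a maximal intermediate field not containing `x`
  obtain ⟨E, hLE, hE⟩ := zorn_le_nonempty₀ {E : IntermediateField k K | x ∉ E} (by
    intro c hc hchain E₀ hE₀
    refine ⟨sSup c, ?_, fun z hz => le_sSup hz⟩
    intro hxc
    have hne : Nonempty c := ⟨⟨E₀, hE₀⟩⟩
    have hdir : Directed (· ≤ ·) (fun i : c => (i : IntermediateField k K)) :=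
      hchain.directed
    rw [sSup_eq_iSup'] at hxc
    rw [← SetLike.mem_coe, IntermediateField.coe_iSup_of_directed hdir, Set.mem_iUnion] at hxc
    obtain ⟨i, hi⟩ := hxc
    exact hc i.2 hi) L hx
  have hxE : x ∉ E := hE.prop
  have hEp : ∀ y : K, y ^ p ∈ E := fun y => hLE (hL y)
  -- minimal polynomials over `E`
  have hmin : ∀ y : K, y ∉ E → minpoly E y = X ^ p - C (⟨y ^ p, hEp y⟩ : E) := by
    intro y hy
    have hirr : Irreducible (X ^ p - C (⟨y ^ p, hEp y⟩ : E)) := by
      refine X_pow_sub_C_irreducible_of_prime hp fun b hb => hy ?_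
      have : (b : K) ^ p = y ^ p := congrArg Subtype.val hb
      have h2 : (b : K) = y := by
        have := frobenius_inj K p (by simpa [frobenius_def] using this)
        exact this
      rw [← h2]; exact b.2
    refine (minpoly.eq_of_irreducible_of_monic hirr ?_ (monic_X_pow_sub_C _ hp.ne_zero)).symm
    simp only [map_sub, map_pow, aeval_X, aeval_C]
    exact sub_self _
  have hint : ∀ y : K, IsIntegral E y := fun y =>
    ⟨X ^ p - C (⟨y ^ p, hEp y⟩ : E), monic_X_pow_sub_C _ hp.ne_zero, by
      simp only [eval₂_sub, eval₂_X_pow, eval₂_C]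
      exact sub_self _⟩
  have hfr : ∀ y : K, y ∉ E → Module.finrank E (IntermediateField.adjoin E {y}) = p := by
    intro y hy
    rw [IntermediateField.adjoin.finrank (hint y), hmin y hy, natDegree_X_pow_sub_C]
  have htop : ∀ y : K, y ∈ IntermediateField.adjoin E {x} := by
    intro y
    by_cases hy : y ∈ E
    · exact (IntermediateField.adjoin E {x}).algebraMap_mem ⟨y, hy⟩
    · -- `x ∈ E(y)`
      have hxy : x ∈ IntermediateField.adjoin E {y} := by
        by_contra hcon
        have hle : E ≤ (IntermediateField.adjoin E {y}).restrictScalars k := by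
          intro z hz
          exact (IntermediateField.adjoin E {y}).algebraMap_mem ⟨z, hz⟩
        have := hE.le_of_ge (y := (IntermediateField.adjoin E {y}).restrictScalars k) hcon hle
        exact hy (this (IntermediateField.mem_adjoin_simple_self E y))
      have hle : IntermediateField.adjoin E {x} ≤ IntermediateField.adjoin E {y} := by
        rw [IntermediateField.adjoin_simple_le_iff]; exact hxy
      have : FiniteDimensional E (IntermediateField.adjoin E {y}) :=
        IntermediateField.adjoin.finiteDimensional (hint y)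
      have heq := IntermediateField.eq_of_le_of_finrank_eq hle (by rw [hfr x hxE, hfr y hy])
      rw [heq]
      exact IntermediateField.mem_adjoin_simple_self E y
  obtain ⟨D, hD⟩ := RelPBasis_deriv_of_adjoin (E := E) x (by
      intro y
      have := htop y
      rw [← IntermediateField.mem_toSubalgebra,
        IntermediateField.adjoin_simple_toSubalgebra_of_isAlgebraic (hint x).isAlgebraic,
        Algebra.adjoin_singleton_eq_range_aeval] at this
      exact this) (by
      intro f hf
      obtain ⟨g, rfl⟩ := minpoly.dvd E x hf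
      rw [derivative_mul, map_add, map_mul, map_mul, minpoly.aeval, zero_mul, add_zero,
        hmin x hxE, derivative_sub, derivative_C, sub_zero, derivative_X_pow, map_mul, map_natCast]
      simp)
  have hDL : ∀ z : L, D (z : K) = 0 := fun z => by
    have := D.map_algebraMap ⟨(z : K), hLE z.2⟩
    exact this
  refine ⟨Derivation.mk' (R := L)
    { toFun := fun y => D y
      map_add' := fun y z => map_add D y z
      map_smul' := fun c y => by
        rw [RingHom.id_apply, Algebra.smul_def, D.leibniz]
        have : D (algebraMap L K c) = 0 := hDL c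
        rw [this, smul_zero, add_zero]
        rfl } (fun y z => D.leibniz y z), ?_⟩
  show D x ≠ 0
  rw [hD]; exact one_ne_zero

theorem exists_relative_pbasis (p : ℕ) [Fact p.Prime] {k K : Type} [Field k] [Field K]
    [Algebra k K] [CharP k p] [CharP K p] :
    ∃ (ι : Type) (b : ι → K),
      (∀ (N : ℕ) (x : K), ∃ (n : ℕ) (a : Fin n → k) (u : Fin n → K) (β : Fin n → (ι →₀ ℕ)),
        x = ∑ j, algebraMap k K (a j) * u j ^ (p ^ N) * (β j).prod fun i m => b i ^ m) ∧
      (∀ i : ι, ∃ D : Derivation k K K, D (b i) = 1 ∧ ∀ j, j ≠ i → D (b j) = 0) := by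
  classical
  have hp : p.Prime := Fact.out
  obtain ⟨B, hB, hspan, hli⟩ := exists_linearIndependent K
    (Set.range (KaehlerDifferential.D k K))
  have hspan' : ⊤ ≤ Submodule.span K (Set.range (Subtype.val : B → Ω[K⁄k])) := by
    rw [Subtype.range_coe, hspan, KaehlerDifferential.span_range_derivation]
  let bas : Module.Basis B K (Ω[K⁄k]) := Module.Basis.mk hli hspan'
  have hlift : ∀ i : B, ∃ y : K, KaehlerDifferential.D k K y = (i : Ω[K⁄k]) := fun i => hB i.2
  choose b hb using hlift
  have hbas : ∀ i : B, bas i = KaehlerDifferential.D k K (b i) := by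
    intro i
    rw [hb]; simp [bas]
  -- the field generated by `k`, `p`-th powers and `b` is everything
  set L : IntermediateField k K :=
    IntermediateField.adjoin k ({y | ∃ z : K, y = z ^ p} ∪ Set.range b) with hLdef
  have hLp : ∀ y : K, y ^ p ∈ L := fun y =>
    IntermediateField.subset_adjoin k _ (Or.inl ⟨y, rfl⟩)
  have hLtop : ∀ x : K, x ∈ L := by
    intro x
    by_contra hx
    obtain ⟨D, hD⟩ := RelPBasis_exists_derivation p L hLp x hx
    apply hD
    -- view `D` as a derivation over `k`
    let D' : Derivation k K K := D.restrictScalars k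
    have h0 : D'.liftKaehlerDifferential = 0 := by
      refine bas.ext fun i => ?_
      rw [hbas, Derivation.liftKaehlerDifferential_comp_D, LinearMap.zero_apply]
      have hbL : b i ∈ L := IntermediateField.subset_adjoin k _ (Or.inr ⟨i, rfl⟩)
      exact D.map_algebraMap ⟨b i, hbL⟩
    have h1 := D'.liftKaehlerDifferential_comp_D x
    rw [h0, LinearMap.zero_apply] at h1
    exact h1.symm
  -- the same for subalgebras
  have hS : ∀ N : ℕ, Algebra.adjoin k ({y | ∃ z : K, y = z ^ (p ^ N)} ∪ Set.range b) = ⊤ := by
    have h1 : Algebra.adjoin k ({y | ∃ z : K, y = z ^ p} ∪ Set.range b) = ⊤ := by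
      set S := Algebra.adjoin k ({y | ∃ z : K, y = z ^ p} ∪ Set.range b)
      have hinv : ∀ x ∈ S, x⁻¹ ∈ S := by
        intro x hx
        by_cases hx0 : x = 0
        · rw [hx0, inv_zero]; exact S.zero_mem
        · have : x⁻¹ = x ^ (p - 1) * (x⁻¹) ^ p := by
            rw [inv_pow, ← div_eq_mul_inv, eq_div_iff (pow_ne_zero _ hx0)]
            obtain ⟨q, hq⟩ := Nat.exists_eq_succ_of_ne_zero hp.ne_zero
            rw [hq, Nat.succ_eq_add_one, Nat.add_sub_cancel, pow_succ]
            field_simp
          rw [this]
          exact S.mul_mem (S.pow_mem hx _) (Algebra.subset_adjoin (Or.inl ⟨x⁻¹, rfl⟩))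
      have hle : L ≤ S.toIntermediateField hinv := by
        rw [hLdef, IntermediateField.adjoin_le_iff]
        exact Algebra.subset_adjoin
      rw [eq_top_iff]
      intro x _
      exact hle (hLtop x)
    intro N
    induction N with
    | zero =>
      rw [eq_top_iff]
      intro x _
      exact Algebra.subset_adjoin (Or.inl ⟨x, by simp⟩)
    | succ N ih =>
      set T := Algebra.adjoin k ({y | ∃ z : K, y = z ^ (p ^ (N + 1))} ∪ Set.range b)
      have hpow : ∀ u : K, u ^ p ∈ T := by
        intro u
        have hu : u ∈ Algebra.adjoin k ({y | ∃ z : K, y = z ^ (p ^ N)} ∪ Set.range b) := by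
          rw [ih]; trivial
        induction hu using Algebra.adjoin_induction with
        | mem x hx =>
          rcases hx with ⟨z, rfl⟩ | ⟨i, rfl⟩
          · exact Algebra.subset_adjoin (Or.inl ⟨z, by rw [pow_succ, pow_mul]⟩)
          · exact T.pow_mem (Algebra.subset_adjoin (Or.inr ⟨i, rfl⟩)) _
        | algebraMap r => exact T.pow_mem (T.algebraMap_mem r) _
        | add x y _ _ hx hy => rw [add_pow_char]; exact T.add_mem hx hy
        | mul x y _ _ hx hy => rw [mul_pow]; exact T.mul_mem hx hy
      rw [eq_top_iff, ← h1]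
      refine Algebra.adjoin_le ?_
      rintro x (⟨z, rfl⟩ | ⟨i, rfl⟩)
      · exact hpow z
      · exact Algebra.subset_adjoin (Or.inr ⟨i, rfl⟩)
  refine ⟨B, b, ?_, ?_⟩
  · intro N x
    have hx : x ∈ Algebra.adjoin k ({y | ∃ z : K, y = z ^ (p ^ N)} ∪ Set.range b) := by
      rw [hS]; trivial
    rw [← Subalgebra.mem_toSubmodule, Algebra.adjoin_eq_span] at hx
    have hcl : (Submonoid.closure ({y | ∃ z : K, y = z ^ (p ^ N)} ∪ Set.range b) : Set K) ⊆
        {y | ∃ (z : K) (β : B →₀ ℕ), y = z ^ (p ^ N) * β.prod fun i m => b i ^ m} := by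
      intro y hy
      induction hy using Submonoid.closure_induction with
      | mem x hx =>
        rcases hx with ⟨z, rfl⟩ | ⟨i, rfl⟩
        · exact ⟨z, 0, by simp⟩
        · exact ⟨1, Finsupp.single i 1, by simp⟩
      | one => exact ⟨1, 0, by simp⟩
      | mul x y _ _ hx hy =>
        obtain ⟨z, β, rfl⟩ := hx
        obtain ⟨z', β', rfl⟩ := hy
        refine ⟨z * z', β + β', ?_⟩
        rw [mul_pow, Finsupp.prod_add_index' (fun i => pow_zero _) (fun i m n => pow_add _ _ _)]
        ring
    obtain ⟨n, a, g, hg⟩ := (Submodule.mem_span_set'.1 (Submodule.span_mono hcl hx))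
    choose z β hz using fun j => (g j).2
    refine ⟨n, a, z, β, ?_⟩
    rw [← hg]
    refine Finset.sum_congr rfl fun j _ => ?_
    rw [Algebra.smul_def, hz j, mul_assoc]
  · intro i
    refine ⟨(bas.coord i).compDer (KaehlerDifferential.D k K), ?_, ?_⟩
    · show bas.coord i (KaehlerDifferential.D k K (b i)) = 1
      rw [← hbas]; simp
    · intro j hj
      show bas.coord i (KaehlerDifferential.D k K (b j)) = 0
      rw [← hbas]; simp [hj]

end Pool.Agent.W_cbb711
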