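import Mathlib
import Pool.Agent.W_cbb711b.Defs
import Pool.Agent.W_cbb711b.RelPBasis

/-!
# Existence of smooth data over a complete discrete valuation ring
-/

set_option autoImplicit false

universe u

namespace Pool.Agent.W_cbb711

open IsLocalRing Filter TensorProduct RingTheory.Sequence

/-! ### The ultrapower of a field -/

/-- The ultrapower of a field along the hyperfilter of `ℕ`. -/
def UPow (k : Type) : Type := Germ ((hyperfilter ℕ : Ultrafilter ℕ) : Filter ℕ) k

namespace UPow

variable {k : Type} [Field k]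

noncomputable instance : Field (UPow k) :=
  inferInstanceAs (Field (Germ ((hyperfilter ℕ : Ultrafilter ℕ) : Filter ℕ) k))

/-- The class of a sequence. -/
noncomputable def mk : (ℕ → k) →+* UPow k :=
  Germ.coeRingHom ((hyperfilter ℕ : Ultrafilter ℕ) : Filter ℕ)

theorem mk_surjective : Function.Surjective (mk : (ℕ → k) →+* UPow k) := by
  intro x
  induction x using Filter.Germ.inductionOn with
  | _ f => exact ⟨f, rfl⟩

theorem mk_eq_mk {x y : ℕ → k} :
    mk x = mk y ↔ ∀ᶠ i in (hyperfilter ℕ : Filter ℕ), x i = y i :=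
  Germ.coe_eq

theorem mk_eq_zero {x : ℕ → k} :
    mk x = 0 ↔ ∀ᶠ i in (hyperfilter ℕ : Filter ℕ), x i = 0 :=
  Germ.coe_eq

theorem mk_ne_zero {x : ℕ → k} :
    mk x ≠ 0 ↔ ∀ᶠ i in (hyperfilter ℕ : Filter ℕ), x i ≠ 0 := by
  rw [Ne, mk_eq_zero, ← Ultrafilter.eventually_not]

noncomputable instance : Algebra k (UPow k) := (mk.comp (Pi.constRingHom ℕ k)).toAlgebra

theorem algebraMap_apply (a : k) : algebraMap k (UPow k) a = mk (fun _ => a) := rfl

theorem charP (p : ℕ) [CharP k p] : CharP (UPow k) p :=
  charP_of_injective_algebraMap (algebraMap k (UPow k)).injective p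

theorem hsep (p : ℕ) (n : ℕ) (e : Fin n → k)
    (he : ∀ c : Fin n → k, ∑ j, c j ^ p * e j = 0 → c = 0)
    (c : Fin n → UPow k) (hc : ∑ j, c j ^ p * algebraMap k (UPow k) (e j) = 0) : c = 0 := by
  choose γ hγ using fun j => mk_surjective (c j)
  have h1 : mk (fun i => ∑ j, γ j i ^ p * e j) = 0 := by
    have h2 : (fun i => ∑ j, γ j i ^ p * e j) = ∑ j, γ j ^ p * (fun _ => e j) := by
      funext i
      simp
    rw [h2, map_sum, ← hc]
    refine Finset.sum_congr rfl fun j _ => ?_
    rw [map_mul, map_pow, hγ, algebraMap_apply]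
  rw [mk_eq_zero] at h1
  funext j
  rw [← hγ j]
  change mk (γ j) = 0
  rw [mk_eq_zero]
  filter_upwards [h1] with i hi
  exact congrFun (he (fun j => γ j i) hi) j

end UPow

/-! ### Residues of sequences -/

section

variable (V : Type) [CommRing V] [IsLocalRing V]

/-- The residue in the ultrapower of the residue field of a sequence in `V`. -/
noncomputable def seqRes : (ℕ → V) →+* UPow (ResidueField V) :=
  UPow.mk.comp (RingHom.pi fun i => (residue V).comp (Pi.evalRingHom (fun _ => V) i))

theorem seqRes_apply (x : ℕ → V) : seqRes V x = UPow.mk (fun i => residue V (x i)) := rfl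

theorem seqRes_surjective : Function.Surjective (seqRes V) := by
  intro x
  obtain ⟨y, rfl⟩ := UPow.mk_surjective x
  choose z hz using fun i => residue_surjective (R := V) (y i)
  exact ⟨z, by rw [seqRes_apply]; congr 1; funext i; exact hz i⟩

variable {V}

theorem seqRes_eq {x y : ℕ → V} : seqRes V x = seqRes V y ↔
    ∀ᶠ i in (hyperfilter ℕ : Filter ℕ), x i - y i ∈ maximalIdeal V := by
  rw [seqRes_apply, seqRes_apply, UPow.mk_eq_mk]
  simp only [← residue_eq_zero_iff, map_sub, sub_eq_zero]

theorem seqRes_eq_zero {x : ℕ → V} : seqRes V x = 0 ↔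
    ∀ᶠ i in (hyperfilter ℕ : Filter ℕ), x i ∈ maximalIdeal V := by
  rw [seqRes_apply, UPow.mk_eq_zero]
  simp only [residue_eq_zero_iff]

theorem seqRes_ne_zero {x : ℕ → V} : seqRes V x ≠ 0 ↔
    ∀ᶠ i in (hyperfilter ℕ : Filter ℕ), IsUnit (x i) := by
  rw [seqRes_apply, UPow.mk_ne_zero]
  simp only [ne_eq, residue_eq_zero_iff, mem_maximalIdeal, mem_nonunits_iff, not_not]

variable {r : ℕ}

/-- Evaluation of a polynomial along sequences. -/
noncomputable def seqEval (τ : Fin r → ℕ → V) (ϑ : ℕ → V) :
    Polynomial (MvPolynomial (Fin r) V) →+* (ℕ → V) :=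
  RingHom.pi fun i => Polynomial.eval₂RingHom (MvPolynomial.eval (fun j => τ j i)) (ϑ i)

omit [IsLocalRing V] in
theorem seqEval_apply (τ : Fin r → ℕ → V) (ϑ : ℕ → V) (P : Polynomial (MvPolynomial (Fin r) V))
    (i : ℕ) : seqEval τ ϑ P i = P.eval₂ (MvPolynomial.eval (fun j => τ j i)) (ϑ i) := rfl

/-- Reduction of polynomials modulo the maximal ideal. -/
noncomputable def redPoly (V : Type) [CommRing V] [IsLocalRing V] (r : ℕ) :
    Polynomial (MvPolynomial (Fin r) V) →+* Polynomial (MvPolynomial (Fin r) (ResidueField V)) :=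
  Polynomial.mapRingHom (MvPolynomial.map (residue V))

theorem redPoly_surjective : Function.Surjective (redPoly V r) :=
  Polynomial.map_surjective _ (MvPolynomial.map_surjective _ residue_surjective)

theorem ker_redPoly : RingHom.ker (redPoly V r) = (maximalIdeal V).map
    ((Polynomial.C).comp (MvPolynomial.C : V →+* MvPolynomial (Fin r) V)) := by
  rw [redPoly, Polynomial.ker_mapRingHom, MvPolynomial.ker_map, Ideal.map_map, ker_residue]

theorem seqRes_seqEval (τ : Fin r → ℕ → V) (ϑ : ℕ → V)
    (P : Polynomial (MvPolynomial (Fin r) V)) :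
    seqRes V (seqEval τ ϑ P) =
      (redPoly V r P).eval₂ (MvPolynomial.aeval (fun j => seqRes V (τ j)) :
        MvPolynomial (Fin r) (ResidueField V) →ₐ[ResidueField V] UPow (ResidueField V)).toRingHom
        (seqRes V ϑ) := by
  have h : (seqRes V).comp (seqEval τ ϑ) =
      (Polynomial.eval₂RingHom (MvPolynomial.aeval (fun j => seqRes V (τ j)) :
        MvPolynomial (Fin r) (ResidueField V) →ₐ[ResidueField V] UPow (ResidueField V)).toRingHom
        (seqRes V ϑ)).comp (redPoly V r) := by
    refine Polynomial.ringHom_ext' ?_ ?_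
    · refine MvPolynomial.ringHom_ext ?_ ?_
      · intro a
        have h1 : seqEval τ ϑ (Polynomial.C (MvPolynomial.C a)) = fun _ => a := by
          funext i
          simp [seqEval_apply]
        simp only [RingHom.comp_apply, h1, redPoly, Polynomial.coe_mapRingHom, Polynomial.map_C,
          MvPolynomial.map_C, Polynomial.coe_eval₂RingHom, Polynomial.eval₂_C]
        rw [seqRes_apply]
        simp only [AlgHom.toRingHom_eq_coe, RingHom.coe_coe, MvPolynomial.aeval_C]
        rfl
      · intro j
        have h1 : seqEval τ ϑ (Polynomial.C (MvPolynomial.X j)) = τ j := by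
          funext i
          simp [seqEval_apply]
        simp only [RingHom.comp_apply, h1, redPoly, Polynomial.coe_mapRingHom, Polynomial.map_C,
          MvPolynomial.map_X, Polynomial.coe_eval₂RingHom, Polynomial.eval₂_C]
        simp only [AlgHom.toRingHom_eq_coe, RingHom.coe_coe, MvPolynomial.aeval_X]
    · have h1 : seqEval τ ϑ Polynomial.X = ϑ := by
        funext i
        simp [seqEval_apply]
      simp only [RingHom.comp_apply, h1, redPoly, Polynomial.coe_mapRingHom, Polynomial.map_X,
        Polynomial.coe_eval₂RingHom, Polynomial.eval₂_X]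
  exact congrArg (fun φ => φ P) h

end

/-! ### Expansions of sequences -/

/-- The sequences whose `V`-span is dense. -/
noncomputable def monoSeq (p N : ℕ) {V : Type} [CommRing V] [IsLocalRing V] {ι : Type}
    (b : ι → UPow (ResidueField V)) (lift : UPow (ResidueField V) → ℕ → V)
    (q : UPow (ResidueField V) × (ι →₀ ℕ)) : ℕ → V :=
  lift q.1 ^ (p ^ N) * q.2.prod fun i m => lift (b i) ^ m

theorem exists_span_approx (p : ℕ) (V : Type) [CommRing V] [IsLocalRing V]
    (hmax : maximalIdeal V = Ideal.span {(p : V)}) (N : ℕ) {ι : Type}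
    (b : ι → UPow (ResidueField V)) (lift : UPow (ResidueField V) → ℕ → V)
    (hlift : ∀ x, seqRes V (lift x) = x)
    (hb : ∀ x : UPow (ResidueField V), ∃ (n : ℕ) (a : Fin n → ResidueField V)
      (u : Fin n → UPow (ResidueField V)) (β : Fin n → (ι →₀ ℕ)),
        x = ∑ j, algebraMap (ResidueField V) (UPow (ResidueField V)) (a j) * u j ^ (p ^ N) *
          (β j).prod fun i m => b i ^ m) (a : ℕ) (c : ℕ → V) :
    ∃ w ∈ Submodule.span V (Set.range (monoSeq p N b lift)),
      ∀ᶠ i in (hyperfilter ℕ : Filter ℕ), c i - w i ∈ maximalIdeal V ^ a := by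
  have hS : ∀ q, seqRes V (monoSeq p N b lift q) = q.1 ^ (p ^ N) * q.2.prod fun i m => b i ^ m := by
    intro q
    rw [monoSeq, map_mul, map_pow, hlift, Finsupp.prod, Finsupp.prod, map_prod]
    congr 1
    refine Finset.prod_congr rfl fun i _ => ?_
    rw [map_pow, hlift]
  induction a with
  | zero => exact ⟨0, Submodule.zero_mem _, by simp⟩
  | succ a ih =>
    obtain ⟨w, hw, hwc⟩ := ih
    have h1 : ∀ i, ∃ y : V, c i - w i ∈ maximalIdeal V ^ a → c i - w i = (p : V) ^ a * y := by
      intro i
      by_cases h : c i - w i ∈ maximalIdeal V ^ a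
      · rw [hmax, Ideal.span_singleton_pow, Ideal.mem_span_singleton] at h
        obtain ⟨y, hy⟩ := h
        exact ⟨y, fun _ => hy⟩
      · exact ⟨0, fun h' => absurd h' h⟩
    choose y hy using h1
    obtain ⟨n, α, u, β, hx⟩ := hb (seqRes V y)
    choose α' hα' using fun j => residue_surjective (R := V) (α j)
    refine ⟨w + (p : V) ^ a • ∑ j, α' j • monoSeq p N b lift (u j, β j), ?_, ?_⟩
    · refine Submodule.add_mem _ hw (Submodule.smul_mem _ _ (Submodule.sum_mem _ fun j _ =>
        Submodule.smul_mem _ _ (Submodule.subset_span ⟨_, rfl⟩)))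
    · have h2 : seqRes V y = seqRes V (∑ j, α' j • monoSeq p N b lift (u j, β j)) := by
        rw [hx, map_sum]
        refine Finset.sum_congr rfl fun j _ => ?_
        have h3 : α' j • monoSeq p N b lift (u j, β j) =
            (fun _ => α' j) * monoSeq p N b lift (u j, β j) := by
          funext i
          rfl
        rw [h3, map_mul, hS, mul_assoc]
        congr 1
        rw [seqRes_apply, hα', UPow.algebraMap_apply]
      rw [seqRes_eq] at h2
      filter_upwards [hwc, h2] with i hi1 hi2
      have h4 : c i - (w + (p : V) ^ a • ∑ j, α' j • monoSeq p N b lift (u j, β j)) i =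
          (p : V) ^ a * (y i - (∑ j, α' j • monoSeq p N b lift (u j, β j)) i) := by
        have := hy i hi1
        rw [Pi.add_apply, Pi.smul_apply, smul_eq_mul, mul_sub, ← this]
        ring
      rw [h4, pow_succ]
      refine Ideal.mul_mem_mul (Ideal.pow_mem_pow ?_ a) hi2
      rw [hmax]
      exact Ideal.mem_span_singleton_self _

/-- The statement of `exists_separating` for given fields. -/
def SeparatingStatement (p : ℕ) (k K : Type) [Field k] [Field K] [Algebra k K] : Prop :=
  (∀ (n : ℕ) (e : Fin n → k), (∀ c : Fin n → k, ∑ j, c j ^ p * e j = 0 → c = 0) →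
      ∀ c : Fin n → K, ∑ j, c j ^ p * algebraMap k K (e j) = 0 → c = 0) →
    ∀ (s : ℕ) (b : Fin s → K) (D : Fin s → Derivation k K K),
    (∀ i j, D i (b j) = if i = j then 1 else 0) → ∀ (n : ℕ) (u : Fin n → K),
    ∃ (r : ℕ) (hr : s ≤ r) (t : Fin r → K) (ϑ : K) (g : Polynomial (MvPolynomial (Fin r) k))
      (F : Fin n → Polynomial (MvPolynomial (Fin r) k)) (G : MvPolynomial (Fin r) k),
      AlgebraicIndependent k t ∧ (∀ j : Fin s, t (Fin.castLE hr j) = b j) ∧ g.Monic ∧
      g.eval₂ (MvPolynomial.aeval t : MvPolynomial (Fin r) k →ₐ[k] K).toRingHom ϑ = 0 ∧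
      g.derivative.eval₂ (MvPolynomial.aeval t : MvPolynomial (Fin r) k →ₐ[k] K).toRingHom ϑ ≠ 0 ∧
      (∀ f : Polynomial (MvPolynomial (Fin r) k),
        f.eval₂ (MvPolynomial.aeval t : MvPolynomial (Fin r) k →ₐ[k] K).toRingHom ϑ = 0 → g ∣ f) ∧
      MvPolynomial.aeval t G ≠ 0 ∧
      ∀ l, u l * MvPolynomial.aeval t G =
        (F l).eval₂ (MvPolynomial.aeval t : MvPolynomial (Fin r) k →ₐ[k] K).toRingHom ϑ

theorem exists_smoothData_of_separating (p : ℕ) [Fact p.Prime] (V : Type) [CommRing V] [IsDomain V]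
    [IsLocalRing V] [IsNoetherianRing V] [IsAdicComplete (maximalIdeal V) V]
    (hmax : maximalIdeal V = Ideal.span {(p : V)})
    (hS : SeparatingStatement p (ResidueField V) (UPow (ResidueField V)))
    (N m : ℕ) (c : Fin m → ℕ → V) :
    ∃ (m' : ℕ) (g : Polynomial (MvPolynomial (Fin m') V)) (τ : Fin m' → ℕ → V) (ϑ : ℕ → V)
      (F : Fin m → Polynomial (MvPolynomial (Fin m') V))
      (G : Polynomial (MvPolynomial (Fin m') V)),
      SmoothData V m' g τ ϑ ∧
      (∀ᶠ i in (hyperfilter ℕ : Filter ℕ),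
        IsUnit (G.eval₂ (MvPolynomial.eval (fun j => τ j i)) (ϑ i))) ∧
      (∀ l, ∀ᶠ i in (hyperfilter ℕ : Filter ℕ),
        c l i * G.eval₂ (MvPolynomial.eval (fun j => τ j i)) (ϑ i) -
          (F l).eval₂ (MvPolynomial.eval (fun j => τ j i)) (ϑ i) ∈ maximalIdeal V ^ N) := by
  classical
  have hpm : (p : V) ∈ maximalIdeal V := by
    rw [hmax]
    exact Ideal.mem_span_singleton_self _
  have hchar : CharP (ResidueField V) p := by
    rw [CharP.charP_iff_prime_eq_zero (Fact.out : p.Prime)]
    rw [← map_natCast (residue V), residue_eq_zero_iff]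
    exact hpm
  have hchar' : CharP (UPow (ResidueField V)) p := UPow.charP p
  obtain ⟨ι, b, hb, hD⟩ := exists_relative_pbasis p (k := ResidueField V)
    (K := UPow (ResidueField V))
  choose lift hlift using seqRes_surjective V
  choose w hw hwc using fun l => exists_span_approx p V hmax N b lift hlift (hb N) N (c l)
  simp_rw [Finsupp.mem_span_range_iff_exists_finsupp] at hw
  choose cf hcf using hw
  let T : Finset (UPow (ResidueField V) × (ι →₀ ℕ)) := Finset.univ.biUnion fun l => (cf l).support
  let I : Finset ι := T.biUnion fun q => q.2.support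
  let eT : Fin T.card ≃ T := T.equivFin.symm
  let eI : Fin I.card ≃ I := I.equivFin.symm
  choose D hD1 hD2 using hD
  obtain ⟨r, hr, t, θ, g0, F0, G0, hind, ht, hg0, hroot, hsep, hdiv, hG0, hF0⟩ :=
    hS (UPow.hsep p)
      I.card (fun j => b (eI j)) (fun j => D (eI j))
      (by
        intro i j
        by_cases h : i = j
        · subst h
          rw [if_pos rfl]
          exact hD1 _
        · rw [if_neg h]
          refine hD2 _ _ fun h' => h ?_
          exact (eI.injective (Subtype.ext h')).symm)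
      T.card (fun j => (eT j).1.1)
  obtain ⟨g, hg, -, hgm⟩ := Polynomial.lifts_and_natDegree_eq_and_monic
    (f := MvPolynomial.map (residue V))
    ((Polynomial.lifts_iff_coeff_lifts _).2 fun n =>
      MvPolynomial.map_surjective _ residue_surjective (g0.coeff n)) hg0
  obtain ⟨G, hG⟩ := MvPolynomial.map_surjective (σ := Fin r) (residue V) residue_surjective G0
  choose F hF using fun j => redPoly_surjective (V := V) (r := r) (F0 j)
  let τ : Fin r → ℕ → V := fun j => lift (t j)
  have hτ : (fun j => seqRes V (τ j)) = t := funext fun j => hlift (t j)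
  -- Hensel's lemma
  obtain ⟨ϑ, hϑ1, hϑ2⟩ : ∃ ϑ : ℕ → V, (∀ᶠ i in (hyperfilter ℕ : Filter ℕ),
      g.eval₂ (MvPolynomial.eval (fun j => τ j i)) (ϑ i) = 0) ∧ seqRes V ϑ = θ := by
    have h1 : seqRes V (seqEval τ (lift θ) g) = 0 := by
      rw [seqRes_seqEval, hτ, hlift]
      have : redPoly V r g = g0 := hg
      rw [this]
      exact hroot
    have h2 : seqRes V (seqEval τ (lift θ) g.derivative) ≠ 0 := by
      rw [seqRes_seqEval, hτ, hlift]
      have : redPoly V r g.derivative = g0.derivative := by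
        rw [← hg]
        exact (Polynomial.derivative_map g _).symm
      rw [this]
      exact hsep
    rw [seqRes_eq_zero] at h1
    rw [seqRes_ne_zero] at h2
    have h3 : ∀ i, ∃ y : V, (seqEval τ (lift θ) g i ∈ maximalIdeal V →
        IsUnit (seqEval τ (lift θ) g.derivative i) →
        g.eval₂ (MvPolynomial.eval (fun j => τ j i)) y = 0 ∧ y - lift θ i ∈ maximalIdeal V) := by
      intro i
      by_cases h : seqEval τ (lift θ) g i ∈ maximalIdeal V ∧
        IsUnit (seqEval τ (lift θ) g.derivative i)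
      · obtain ⟨y, hy1, hy2⟩ := HenselianRing.is_henselian (I := maximalIdeal V)
          (g.map (MvPolynomial.eval (fun j => τ j i))) (hgm.map _) (lift θ i)
          (by rw [Polynomial.eval_map]; exact h.1)
          (by
            rw [Polynomial.derivative_map, Polynomial.eval_map]
            exact h.2.map _)
        refine ⟨y, fun _ _ => ⟨?_, hy2⟩⟩
        rw [Polynomial.IsRoot.def, Polynomial.eval_map] at hy1
        exact hy1
      · exact ⟨0, fun ha hb => absurd ⟨ha, hb⟩ h⟩
    choose y hy using h3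
    refine ⟨y, ?_, ?_⟩
    · filter_upwards [h1, h2] with i hi1 hi2
      exact (hy i hi1 hi2).1
    · rw [← hlift θ, seqRes_eq]
      filter_upwards [h1, h2] with i hi1 hi2
      exact (hy i hi1 hi2).2
  -- evaluation of the lifts
  have hev : ∀ P : Polynomial (MvPolynomial (Fin r) V), seqRes V (seqEval τ ϑ P) =
      (redPoly V r P).eval₂ (MvPolynomial.aeval t : MvPolynomial (Fin r) (ResidueField V)
        →ₐ[ResidueField V] UPow (ResidueField V)).toRingHom θ := by
    intro P
    rw [seqRes_seqEval, hτ, hϑ2]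
  have hevG : seqRes V (seqEval τ ϑ (Polynomial.C G)) = MvPolynomial.aeval t G0 := by
    rw [hev, redPoly, Polynomial.coe_mapRingHom, Polynomial.map_C, Polynomial.eval₂_C, hG]
    rfl
  refine ⟨r, g, τ, ϑ, fun l => ∑ j : Fin T.card, Polynomial.C (MvPolynomial.C (cf l (eT j).1)) *
    (F j) ^ (p ^ N) * ∏ i : Fin I.card,
      Polynomial.C (MvPolynomial.X (Fin.castLE hr i)) ^ ((eT j).1.2 (eI i).1),
    (Polynomial.C G) ^ (p ^ N), ⟨hgm, hϑ1, ?_, ?_⟩, ?_, ?_⟩
  · have h1 : seqRes V (seqEval τ ϑ g.derivative) ≠ 0 := by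
      rw [hev]
      have : redPoly V r g.derivative = g0.derivative := by
        rw [← hg]
        exact (Polynomial.derivative_map g _).symm
      rw [this]
      exact hsep
    rw [seqRes_ne_zero] at h1
    exact h1
  · intro P hP
    have h1 : seqRes V (seqEval τ ϑ P) = 0 := by
      rw [seqRes_eq_zero]
      exact hP
    rw [hev] at h1
    obtain ⟨q, hq⟩ := hdiv _ h1
    obtain ⟨q', hq'⟩ := redPoly_surjective (V := V) (r := r) q
    have h2 : P - g * q' ∈ RingHom.ker (redPoly V r) := by
      rw [RingHom.mem_ker, map_sub, map_mul, hq, hq', sub_eq_zero]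
      congr 1
      exact hg.symm
    rw [ker_redPoly] at h2
    have h3 : P = g * q' + (P - g * q') := by ring
    rw [h3]
    exact Ideal.add_mem _ (Ideal.mem_sup_left (Ideal.mul_mem_right _ _
      (Ideal.mem_span_singleton_self g))) (Ideal.mem_sup_right h2)
  · have h1 : seqRes V (seqEval τ ϑ (Polynomial.C G)) ≠ 0 := by
      rw [hevG]
      exact hG0
    rw [seqRes_ne_zero] at h1
    filter_upwards [h1] with i hi
    rw [Polynomial.eval₂_pow]
    exact hi.pow _
  · intro l
    have hF' : ∀ j : Fin T.card, ∀ᶠ i in (hyperfilter ℕ : Filter ℕ),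
        lift (eT j).1.1 i * seqEval τ ϑ (Polynomial.C G) i - seqEval τ ϑ (F j) i
          ∈ maximalIdeal V := by
      intro j
      have h1 : seqRes V (lift (eT j).1.1 * seqEval τ ϑ (Polynomial.C G)) =
          seqRes V (seqEval τ ϑ (F j)) := by
        rw [map_mul, hlift, hevG, hev, hF]
        exact hF0 j
      rw [seqRes_eq] at h1
      exact h1
    have hw' : ∀ i, w l i = ∑ j : Fin T.card, cf l (eT j).1 * ((lift (eT j).1.1 i) ^ (p ^ N) *
        ∏ i' : Fin I.card, (lift (b (eI i').1) i) ^ ((eT j).1.2 (eI i').1)) := by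
      intro i
      have h1 : w l = ∑ q ∈ T, cf l q • monoSeq p N b lift q := by
        rw [← hcf l, Finsupp.sum]
        refine Finset.sum_subset (Finset.subset_biUnion_of_mem (fun l => (cf l).support)
          (Finset.mem_univ l)) ?_
        intro q _ hq
        rw [Finsupp.notMem_support_iff.1 hq, zero_smul]
      rw [h1, Finset.sum_apply, ← Finset.sum_coe_sort T]
      rw [← Equiv.sum_comp eT]
      refine Finset.sum_congr rfl fun j _ => ?_
      rw [Pi.smul_apply, smul_eq_mul, monoSeq, Pi.mul_apply, Pi.pow_apply]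
      congr 2
      have h2 : ((eT j).1.2.prod fun i m => lift (b i) ^ m) =
          ∏ i' ∈ I, lift (b i') ^ ((eT j).1.2 i') := by
        refine Finsupp.prod_of_support_subset _ ?_ _ ?_
        · exact Finset.subset_biUnion_of_mem (fun q : UPow (ResidueField V) × (ι →₀ ℕ) =>
            q.2.support) (eT j).2
        · intro i' _
          rw [pow_zero]
      rw [h2, Finset.prod_apply, ← Finset.prod_coe_sort I, ← Equiv.prod_comp eI]
      rfl
    have hFl : ∀ i, (∑ j : Fin T.card, Polynomial.C (MvPolynomial.C (cf l (eT j).1)) *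
        (F j) ^ (p ^ N) * ∏ i : Fin I.card,
          Polynomial.C (MvPolynomial.X (Fin.castLE hr i)) ^ ((eT j).1.2 (eI i).1)).eval₂
          (MvPolynomial.eval (fun j => τ j i)) (ϑ i) =
        ∑ j : Fin T.card, cf l (eT j).1 * (seqEval τ ϑ (F j) i) ^ (p ^ N) *
          ∏ i' : Fin I.card, (lift (b (eI i').1) i) ^ ((eT j).1.2 (eI i').1) := by
      intro i
      rw [Polynomial.eval₂_finsetSum]
      refine Finset.sum_congr rfl fun j _ => ?_
      rw [Polynomial.eval₂_mul, Polynomial.eval₂_mul, Polynomial.eval₂_C, MvPolynomial.eval_C,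
        Polynomial.eval₂_pow, Polynomial.eval₂_finsetProd]
      congr 1
      refine Finset.prod_congr rfl fun i' _ => ?_
      rw [Polynomial.eval₂_pow, Polynomial.eval₂_C, MvPolynomial.eval_X]
      congr 1
      change lift (t (Fin.castLE hr i')) i = _
      rw [ht]
    filter_upwards [hwc l, Filter.eventually_all.2 hF'] with i hi1 hi2
    rw [hFl i, Polynomial.eval₂_pow]
    change c l i * (seqEval τ ϑ (Polynomial.C G) i) ^ (p ^ N) - _ ∈ _
    have h5 : c l i * (seqEval τ ϑ (Polynomial.C G) i) ^ (p ^ N) -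
        ∑ j : Fin T.card, cf l (eT j).1 * (seqEval τ ϑ (F j) i) ^ (p ^ N) *
          ∏ i' : Fin I.card, (lift (b (eI i').1) i) ^ ((eT j).1.2 (eI i').1) =
        (c l i - w l i) * (seqEval τ ϑ (Polynomial.C G) i) ^ (p ^ N) +
        ∑ j : Fin T.card, (cf l (eT j).1 *
          ∏ i' : Fin I.card, (lift (b (eI i').1) i) ^ ((eT j).1.2 (eI i').1)) *
          ((lift (eT j).1.1 i * seqEval τ ϑ (Polynomial.C G) i) ^ (p ^ N) -
            (seqEval τ ϑ (F j) i) ^ (p ^ N)) := by
      rw [hw' i, sub_mul, Finset.sum_mul]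
      have h8 : ∀ j : Fin T.card, (cf l (eT j).1 *
          ∏ i' : Fin I.card, (lift (b (eI i').1) i) ^ ((eT j).1.2 (eI i').1)) *
          ((lift (eT j).1.1 i * seqEval τ ϑ (Polynomial.C G) i) ^ (p ^ N) -
            (seqEval τ ϑ (F j) i) ^ (p ^ N)) =
          cf l (eT j).1 * ((lift (eT j).1.1 i) ^ (p ^ N) *
            ∏ i' : Fin I.card, (lift (b (eI i').1) i) ^ ((eT j).1.2 (eI i').1)) *
            (seqEval τ ϑ (Polynomial.C G) i) ^ (p ^ N) -
          cf l (eT j).1 * (seqEval τ ϑ (F j) i) ^ (p ^ N) *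
          ∏ i' : Fin I.card, (lift (b (eI i').1) i) ^ ((eT j).1.2 (eI i').1) := by
        intro j
        rw [mul_pow]
        ring
      rw [Finset.sum_congr rfl fun j _ => h8 j, Finset.sum_sub_distrib]
      ring
    rw [h5]
    refine Ideal.add_mem _ (Ideal.mul_mem_right _ _ hi1) (Ideal.sum_mem _ fun j _ =>
      Ideal.mul_mem_left _ _ ?_)
    have h6 := hi2 j
    rw [hmax, Ideal.mem_span_singleton] at h6
    have h7 := dvd_sub_pow_of_dvd_sub h6 N
    rw [hmax, Ideal.span_singleton_pow, Ideal.mem_span_singleton]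
    exact (pow_dvd_pow _ (Nat.le_succ N)).trans h7

end Pool.Agent.W_cbb711
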