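import Mathlib
import Pool.Agent.W_cbb711b.Defs
import Pool.Agent.W_cbb711b.SmoothDataPre
import Pool.Agent.W_cbb711b.Separating

/-!
# Existence of smooth data over a complete discrete valuation ring
-/

set_option autoImplicit false

universe u

namespace Pool.Agent.W_cbb711

open IsLocalRing Filter TensorProduct RingTheory.Sequence

theorem exists_smoothData (p : ℕ) [Fact p.Prime] (V : Type) [CommRing V] [IsDomain V]
    [IsLocalRing V] [IsNoetherianRing V] [IsAdicComplete (maximalIdeal V) V]
    (hmax : maximalIdeal V = Ideal.span {(p : V)}) (N m : ℕ) (c : Fin m → ℕ → V) :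
    ∃ (m' : ℕ) (g : Polynomial (MvPolynomial (Fin m') V)) (τ : Fin m' → ℕ → V) (ϑ : ℕ → V)
      (F : Fin m → Polynomial (MvPolynomial (Fin m') V))
      (G : Polynomial (MvPolynomial (Fin m') V)),
      SmoothData V m' g τ ϑ ∧
      (∀ᶠ i in (hyperfilter ℕ : Filter ℕ),
        IsUnit (G.eval₂ (MvPolynomial.eval (fun j => τ j i)) (ϑ i))) ∧
      (∀ l, ∀ᶠ i in (hyperfilter ℕ : Filter ℕ),
        c l i * G.eval₂ (MvPolynomial.eval (fun j => τ j i)) (ϑ i) -
          (F l).eval₂ (MvPolynomial.eval (fun j => τ j i)) (ϑ i) ∈ maximalIdeal V ^ N) := by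
  have hpm : (p : V) ∈ maximalIdeal V := by
    rw [hmax]
    exact Ideal.mem_span_singleton_self _
  have hchar : CharP (ResidueField V) p := by
    rw [CharP.charP_iff_prime_eq_zero (Fact.out : p.Prime)]
    rw [← map_natCast (residue V), residue_eq_zero_iff]
    exact hpm
  have hchar' : CharP (UPow (ResidueField V)) p := UPow.charP p
  exact exists_smoothData_of_separating p V hmax
    (fun hsep s b D hD n u => exists_separating p hsep s b D hD n u) N m c

end Pool.Agent.W_cbb711
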