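import Mathlib
import Pool.Agent.W_cbb711b.Defs
import Pool.Agent.W_cbb711b.SharpAlg
import Pool.Agent.W_cbb711b.Rigid2
import Pool.Agent.W_cbb711b.SharpIdeals
import Pool.Agent.W_cbb711b.SharpLocal
import Pool.Agent.W_cbb711b.SharpFinite
import Pool.Agent.W_cbb711.Determinacy

/-!
# Transfer of rigidity from `Sharp` rings to a finite level
-/

set_option autoImplicit false

universe u v

namespace Pool.Agent.W_cbb711

open IsLocalRing Filter TensorProduct RingTheory.Sequence

section TransferD

variable {S : Type*} [CommRing S] {R : Type*} [CommRing R] [Algebra S R]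
  {E : Type*} [Ring E] [Algebra S E]

/-- Hochschild differential on one-cochains with values in an algebra. -/
def transferD (φ : R →ₐ[S] E) : (R →ₗ[S] E) →ₗ[S] (R →ₗ[S] R →ₗ[S] E) where
  toFun h := LinearMap.mk₂ S (fun a b => φ a * h b - h (a * b) + h a * φ b)
    (fun a a' b => by
      rw [map_add, add_mul, add_mul, map_add, map_add, add_mul]; abel)
    (fun s a b => by
      rw [map_smul, smul_mul_assoc, smul_mul_assoc, map_smul, map_smul, smul_mul_assoc,
        smul_add, smul_sub])
    (fun a b b' => by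
      rw [map_add, mul_add, mul_add, map_add, map_add, mul_add]; abel)
    (fun s a b => by
      rw [map_smul, mul_smul_comm, mul_smul_comm, map_smul, map_smul, mul_smul_comm,
        smul_add, smul_sub])
  map_add' h h' := by
    ext a b : 2
    simp only [LinearMap.mk₂_apply, LinearMap.add_apply]
    rw [mul_add, add_mul]; abel
  map_smul' s h := by
    ext a b : 2
    simp only [LinearMap.mk₂_apply, LinearMap.smul_apply, RingHom.id_apply]
    rw [smul_mul_assoc, mul_smul_comm, smul_add, smul_sub]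

@[simp] lemma transferD_apply (φ : R →ₐ[S] E) (h : R →ₗ[S] E) (a b : R) :
    transferD φ h a b = φ a * h b - h (a * b) + h a * φ b := rfl

end TransferD

lemma transfer_mat_mem {S : Type*} [CommRing S] {r : ℕ} (J : Ideal S)
    (M : Matrix (Fin r) (Fin r) S) (hM : ∀ j k, M j k ∈ J) :
    M ∈ J • (⊤ : Submodule S (Matrix (Fin r) (Fin r) S)) := by
  rw [Matrix.matrix_eq_sum_single M]
  refine Submodule.sum_mem _ fun j _ => Submodule.sum_mem _ fun k _ => ?_
  have h1 : Matrix.single j k (M j k) = M j k • Matrix.single j k (1 : S) := by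
    rw [Matrix.smul_single, smul_eq_mul, mul_one]
  rw [h1]
  exact Submodule.smul_mem_smul (hM j k) Submodule.mem_top

lemma transfer_mat_mem' {S : Type*} [CommRing S] {r : ℕ} (J : Ideal S)
    (M : Matrix (Fin r) (Fin r) S)
    (hM : M ∈ J • (⊤ : Submodule S (Matrix (Fin r) (Fin r) S))) (j k : Fin r) : M j k ∈ J := by
  have h1 := map_mem_smul_top (Matrix.entryLinearMap S S j k) hM
  simpa using h1

attribute [local instance] sharpAlgebra

theorem transfer {S R : Type} [CommRing S] [IsLocalRing S] [IsNoetherianRing S]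
    [CommRing R] [IsLocalRing R] [Algebra S R] [Module.Finite S R] [Module.Free S R]
    {r : ℕ} (φ : ℕ → (R →ₐ[S] Matrix (Fin r) (Fin r) S))
    (hrig : ∀ h : Sharp R (maximalIdeal R) →ₗ[Sharp S (maximalIdeal S)]
        Matrix (Fin r) (Fin r) (Sharp S (maximalIdeal S)),
      (∀ x y, h (x * y) = sharpPhi φ x * h y + h x * sharpPhi φ y) →
      ∃ g : Matrix (Fin r) (Fin r) (Sharp S (maximalIdeal S)),
        ∀ x, h x = sharpPhi φ x * g - g * sharpPhi φ x) :
    ∃ n0 : ℕ, ∀ n ≥ n0, ∀ᶠ i in (hyperfilter ℕ : Filter ℕ),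
      ∀ δ : R →ₗ[S] Matrix (Fin r) (Fin r) S,
        (∀ a b j k, (δ (a * b) - (φ i a * δ b + δ a * φ i b)) j k ∈ maximalIdeal S ^ (2 * n)) →
        ∃ g : Matrix (Fin r) (Fin r) S,
          ∀ a j k, (δ a - (φ i a * g - g * φ i a)) j k ∈ maximalIdeal S ^ n := by
  classical
  have hfg : (maximalIdeal S).FG := IsNoetherian.noetherian _
  set I : Ideal (Sharp S (maximalIdeal S)) := (maximalIdeal S).map (Sharp.const _) with hI
  -- `Sharp R` is finite free over `Sharp S`
  have hfinT : Module.Finite (Sharp S (maximalIdeal S)) (Sharp R (maximalIdeal R)) :=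
    sharp_finite
  have hfreeT : Module.Free (Sharp S (maximalIdeal S)) (Sharp R (maximalIdeal R)) := by
    let b0 := Module.Free.chooseBasis S R
    let b := b0.reindex (Fintype.equivFin _)
    obtain ⟨b', -⟩ := sharp_basis b
    exact Module.Free.of_basis b'
  obtain ⟨c, hc⟩ := artinRees I
    (A := Sharp R (maximalIdeal R) →ₗ[Sharp S (maximalIdeal S)]
      Matrix (Fin r) (Fin r) (Sharp S (maximalIdeal S)))
    (B := Sharp R (maximalIdeal R) →ₗ[Sharp S (maximalIdeal S)]
      Sharp R (maximalIdeal R) →ₗ[Sharp S (maximalIdeal S)]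
      Matrix (Fin r) (Fin r) (Sharp S (maximalIdeal S))) (transferD (sharpPhi φ))
  refine ⟨c, fun n hn => ?_⟩
  by_contra hcon
  rw [← Ultrafilter.eventually_not] at hcon
  -- choose bad cochains
  have hch : ∀ i : ℕ, ∃ δ : R →ₗ[S] Matrix (Fin r) (Fin r) S,
      (¬ (∀ δ : R →ₗ[S] Matrix (Fin r) (Fin r) S,
        (∀ a b j k, (δ (a * b) - (φ i a * δ b + δ a * φ i b)) j k ∈ maximalIdeal S ^ (2 * n)) →
        ∃ g : Matrix (Fin r) (Fin r) S,
          ∀ a j k, (δ a - (φ i a * g - g * φ i a)) j k ∈ maximalIdeal S ^ n)) →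
      (∀ a b j k, (δ (a * b) - (φ i a * δ b + δ a * φ i b)) j k ∈ maximalIdeal S ^ (2 * n)) ∧
      ¬ ∃ g : Matrix (Fin r) (Fin r) S,
          ∀ a j k, (δ a - (φ i a * g - g * φ i a)) j k ∈ maximalIdeal S ^ n := by
    intro i
    by_cases h : ∀ δ : R →ₗ[S] Matrix (Fin r) (Fin r) S,
        (∀ a b j k, (δ (a * b) - (φ i a * δ b + δ a * φ i b)) j k ∈ maximalIdeal S ^ (2 * n)) →
        ∃ g : Matrix (Fin r) (Fin r) S,
          ∀ a j k, (δ a - (φ i a * g - g * φ i a)) j k ∈ maximalIdeal S ^ n
    · exact ⟨0, fun h' => absurd h h'⟩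
    · have h2 := h
      push Not at h2
      obtain ⟨δ, h3, h4⟩ := h2
      exact ⟨δ, fun _ => ⟨h3, by push Not; exact h4⟩⟩
  choose δ hδ using hch
  have hbad : ∀ᶠ i in (hyperfilter ℕ : Filter ℕ),
      (∀ a b j k, (δ i (a * b) - (φ i a * δ i b + δ i a * φ i b)) j k ∈
        maximalIdeal S ^ (2 * n)) ∧
      ¬ ∃ g : Matrix (Fin r) (Fin r) S,
          ∀ a j k, (δ i a - (φ i a * g - g * φ i a)) j k ∈ maximalIdeal S ^ n := by
    filter_upwards [hcon] with i hi
    exact hδ i hi
  -- the limit cochain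
  have hD : transferD (sharpPhi φ) (sharpMat δ) ∈ I ^ (n + n) •
      (⊤ : Submodule (Sharp S (maximalIdeal S)) _) := by
    apply mem_smul_top_of_forall
    intro x
    apply mem_smul_top_of_forall
    intro y
    apply transfer_mat_mem
    intro j k
    obtain ⟨x, rfl⟩ := Sharp.mk_surjective x
    obtain ⟨y, rfl⟩ := Sharp.mk_surjective y
    have h1 : transferD (sharpPhi φ) (sharpMat δ) (Sharp.mk _ x) (Sharp.mk _ y) j k =
        Sharp.mk _ (fun i => (φ i (x i) * δ i (y i) - δ i (x i * y i) +
          δ i (x i) * φ i (y i)) j k) := by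
      rw [transferD_apply]
      simp only [Matrix.add_apply, Matrix.sub_apply, Matrix.mul_apply]
      rw [← map_mul]
      simp only [sharpPhi_mk, sharpMat_mk, Pi.mul_apply]
      simp only [← map_mul, ← map_sum, ← map_sub, ← map_add]
      congr 1
      funext i
      simp
    rw [h1, hI, Sharp.mk_mem_pow hfg]
    filter_upwards [hbad] with i hi
    have h2 := hi.1 (x i) (y i) j k
    have h3 : (φ i (x i) * δ i (y i) - δ i (x i * y i) + δ i (x i) * φ i (y i)) j k =
        - (δ i (x i * y i) - (φ i (x i) * δ i (y i) + δ i (x i) * φ i (y i))) j k := by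
      simp only [Matrix.add_apply, Matrix.sub_apply]
      ring
    rw [h3, ← two_mul]
    exact neg_mem h2
  obtain ⟨y, hy, hyD⟩ := hc n hn n _ hD
  obtain ⟨g, hg⟩ := hrig (sharpMat δ - y) (by
    intro u v
    have h1 : transferD (sharpPhi φ) (sharpMat δ - y) u v = 0 := by
      rw [map_sub, hyD, sub_self]; rfl
    rw [transferD_apply] at h1
    have h2 : sharpPhi φ u * (sharpMat δ - y) v + (sharpMat δ - y) u * sharpPhi φ v -
      (sharpMat δ - y) (u * v) = 0 := by rw [← h1]; abel
    exact (sub_eq_zero.mp h2).symm)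
  -- representatives of `g`
  choose gs hgs using fun j k => Sharp.mk_surjective (g j k)
  set G : ℕ → Matrix (Fin r) (Fin r) S := fun i => Matrix.of fun j k => gs j k i with hG
  let b := Module.Free.chooseBasis S R
  have hev : ∀ᶠ i in (hyperfilter ℕ : Filter ℕ), ∀ l : Module.Free.ChooseBasisIndex S R,
      ∀ j k : Fin r, (δ i (b l) - (φ i (b l) * G i - G i * φ i (b l))) j k ∈
        maximalIdeal S ^ n := by
    rw [eventually_all]; intro l
    rw [eventually_all]; intro j
    rw [eventually_all]; intro k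
    have h1 : (sharpMat δ - (sharpMat δ - y)) (Sharp.const _ (b l)) j k ∈ I ^ n := by
      rw [sub_sub_cancel]
      apply transfer_mat_mem'
      exact map_mem_smul_top (LinearMap.applyₗ (Sharp.const _ (b l))) hy
    rw [LinearMap.sub_apply, hg] at h1
    have h2 : (sharpMat δ (Sharp.const _ (b l)) - (sharpPhi φ (Sharp.const _ (b l)) * g -
        g * sharpPhi φ (Sharp.const _ (b l)))) j k =
        Sharp.mk _ (fun i => (δ i (b l) - (φ i (b l) * G i - G i * φ i (b l))) j k) := by
      simp only [Matrix.sub_apply, Matrix.mul_apply, Sharp.const_apply, sharpPhi_mk, sharpMat_mk]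
      simp only [← hgs, ← map_mul, ← map_sum, ← map_sub]
      congr 1
      funext i
      simp [hG]
    rw [h2, hI, Sharp.mk_mem_pow hfg] at h1
    exact h1
  obtain ⟨i, hi1, hi2⟩ := (hbad.and hev).exists
  refine hi1.2 ⟨G i, fun a j k => ?_⟩
  have h1 : a = ∑ l, b.repr a l • b l := (b.sum_repr a).symm
  have h2 : (δ i a - (φ i a * G i - G i * φ i a)) =
      ∑ l, b.repr a l • (δ i (b l) - (φ i (b l) * G i - G i * φ i (b l))) := by
    conv_lhs => rw [h1]
    simp only [map_sum, map_smul, Finset.sum_mul, Finset.mul_sum, smul_sub, smul_mul_assoc,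
      mul_smul_comm, Finset.sum_sub_distrib]
  rw [h2, Matrix.sum_apply]
  refine Ideal.sum_mem _ fun l _ => ?_
  rw [Matrix.smul_apply, smul_eq_mul]
  exact Ideal.mul_mem_left _ _ (hi2 l j k)

end Pool.Agent.W_cbb711
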