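import Mathlib
import Pool.Agent.W_cbb711.Finiteness
import Pool.Agent.W_cbb711.Limit
import Pool.Agent.W_cbb711b.Defs
import Pool.Agent.W_cbb711b.SharpAlg
import Pool.Agent.W_cbb711b.Rigid2
import Pool.Agent.W_cbb711b.SharpIdeals
import Pool.Agent.W_cbb711b.SharpLocal
import Pool.Agent.W_cbb711b.Det2
import Pool.Agent.W_cbb711b.LocField
import Pool.Agent.W_cbb711b.LocalModelDVR
import Pool.Agent.W_cbb711b.SmoothDataExists
import Pool.Agent.W_cbb711b.SharpFinite
import Pool.Agent.W_cbb711b.RigidSharp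
import Pool.Agent.W_cbb711b.Transfer
import Pool.Agent.W_cbb711b.FiniteLevel
import Pool.Agent.W_cbb711b.GoodBase

/-!
# The final assembly of the proof of MP_cbb711_ag
-/

set_option autoImplicit false

universe u v

namespace Pool.Agent.W_cbb711

open IsLocalRing Filter TensorProduct RingTheory.Sequence

section

attribute [local instance] sharpAlgebra

theorem Final.mem_smul_top_matrix {S : Type*} [CommRing S] {r : ℕ} (J : Ideal S)
    (X : Matrix (Fin r) (Fin r) S) :
    X ∈ J • (⊤ : Submodule S (Matrix (Fin r) (Fin r) S)) ↔ ∀ k l, X k l ∈ J := by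
  classical
  constructor
  · intro h k l
    have h1 : Matrix.entryLinearMap S S k l X ∈ J • (⊤ : Submodule S S) := map_mem_smul_top _ h
    simpa using h1
  · intro h
    rw [Matrix.matrix_eq_sum_single X]
    refine Submodule.sum_mem _ fun k _ => Submodule.sum_mem _ fun l _ => ?_
    have h1 : Matrix.single k l (X k l) = X k l • Matrix.single k l (1 : S) := by
      rw [Matrix.smul_single, smul_eq_mul, mul_one]
    rw [h1]
    exact Submodule.smul_mem_smul (h k l) Submodule.mem_top

/-- unit of matrices from units along the ultrafilter -/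
theorem Final.exists_unit {S : Type} [CommRing S] [IsLocalRing S] {r : ℕ}
    (h : ℕ → Matrix (Fin r) (Fin r) S)
    (hu : ∀ᶠ j in (hyperfilter ℕ : Filter ℕ), IsUnit (h j)) :
    IsUnit (Matrix.of fun k l => Sharp.mk (maximalIdeal S) (fun j => h j k l)) := by
  rw [Matrix.isUnit_iff_isUnit_det]
  have h1 : (Matrix.of fun k l => Sharp.mk (maximalIdeal S) (fun j => h j k l)).det =
      Sharp.mk (maximalIdeal S) (fun j => (h j).det) := by
    let M : Matrix (Fin r) (Fin r) (ℕ → S) := Matrix.of fun k l j => h j k l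
    have h2 : (Matrix.of fun k l => Sharp.mk (maximalIdeal S) (fun j => h j k l)) =
      (Sharp.mk (maximalIdeal S)).mapMatrix M := rfl
    rw [h2, ← RingHom.map_det]
    congr 1
    funext j
    change (Pi.evalRingHom (fun _ : ℕ => S) j) M.det = _
    rw [RingHom.map_det]
    rfl
  rw [h1, Sharp.isUnit_mk_iff]
  filter_upwards [hu] with j hj
  rwa [Matrix.isUnit_iff_isUnit_det] at hj

theorem Final.isUnit_of_isUnit {S : Type} [CommRing S] [IsLocalRing S] {r : ℕ}
    (h : ℕ → Matrix (Fin r) (Fin r) S)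
    (hu : IsUnit (Matrix.of fun k l => Sharp.mk (maximalIdeal S) (fun j => h j k l))) :
    ∀ᶠ j in (hyperfilter ℕ : Filter ℕ), IsUnit (h j) := by
  rw [Matrix.isUnit_iff_isUnit_det] at hu
  have h1 : (Matrix.of fun k l => Sharp.mk (maximalIdeal S) (fun j => h j k l)).det =
      Sharp.mk (maximalIdeal S) (fun j => (h j).det) := by
    let M : Matrix (Fin r) (Fin r) (ℕ → S) := Matrix.of fun k l j => h j k l
    have h2 : (Matrix.of fun k l => Sharp.mk (maximalIdeal S) (fun j => h j k l)) =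
      (Sharp.mk (maximalIdeal S)).mapMatrix M := rfl
    rw [h2, ← RingHom.map_det]
    congr 1
    funext j
    change (Pi.evalRingHom (fun _ : ℕ => S) j) M.det = _
    rw [RingHom.map_det]
    rfl
  rw [h1, Sharp.isUnit_mk_iff] at hu
  filter_upwards [hu] with j hj
  rwa [Matrix.isUnit_iff_isUnit_det]

section

variable {S R : Type} [CommRing S] [IsLocalRing S] [IsNoetherianRing S] [CommRing R]
  [IsLocalRing R] [Algebra S R] [Module.Finite S R] {r : ℕ}

theorem Final.mul_mem_smul_top {S : Type*} [CommRing S] {E : Type*} [Ring E] [Algebra S E]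
    (J : Ideal S) (x y : E) (hx : x ∈ J • (⊤ : Submodule S E)) :
    y * x ∈ J • (⊤ : Submodule S E) :=
  map_mem_smul_top (LinearMap.mulLeft S y) hx

/-- The comparison over the ultrapower. -/
theorem Final.compare (φ : ℕ → (R →ₐ[S] Matrix (Fin r) (Fin r) S)) (N n : ℕ) (hNn : N ≤ n)
    (hdet : ∀ φ' : Sharp R (maximalIdeal R) →ₐ[Sharp S (maximalIdeal S)]
        Matrix (Fin r) (Fin r) (Sharp S (maximalIdeal S)),
      (∀ a, φ' a - sharpPhi φ a ∈ (maximalIdeal (Sharp S (maximalIdeal S))) ^ N •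
        (⊤ : Submodule (Sharp S (maximalIdeal S))
          (Matrix (Fin r) (Fin r) (Sharp S (maximalIdeal S))))) →
      ∃ θ : (Matrix (Fin r) (Fin r) (Sharp S (maximalIdeal S)))ˣ,
        ∀ a, (θ : Matrix (Fin r) (Fin r) (Sharp S (maximalIdeal S))) * sharpPhi φ a =
          φ' a * (θ : Matrix (Fin r) (Fin r) (Sharp S (maximalIdeal S))))
    (i : ℕ) (hi : ∀ᶠ j in (hyperfilter ℕ : Filter ℕ),
      ∃ h : Matrix (Fin r) (Fin r) S, IsUnit h ∧
        ∀ a k l, (h * φ j a - φ i a * h) k l ∈ maximalIdeal S ^ n) :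
    ∃ X : (Matrix (Fin r) (Fin r) (Sharp S (maximalIdeal S)))ˣ,
      ∀ a, (X : Matrix (Fin r) (Fin r) (Sharp S (maximalIdeal S))) * sharpPhi φ a =
        sharpPhi (fun _ => φ i) a *
          (X : Matrix (Fin r) (Fin r) (Sharp S (maximalIdeal S))) := by
  classical
  have h1 : ∀ j, ∃ h : Matrix (Fin r) (Fin r) S,
      (∃ h : Matrix (Fin r) (Fin r) S, IsUnit h ∧
        ∀ a k l, (h * φ j a - φ i a * h) k l ∈ maximalIdeal S ^ n) →
      IsUnit h ∧ ∀ a k l, (h * φ j a - φ i a * h) k l ∈ maximalIdeal S ^ n := by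
    intro j
    by_cases hc : ∃ h : Matrix (Fin r) (Fin r) S, IsUnit h ∧
        ∀ a k l, (h * φ j a - φ i a * h) k l ∈ maximalIdeal S ^ n
    · exact ⟨hc.choose, fun _ => hc.choose_spec⟩
    · exact ⟨0, fun h => absurd h hc⟩
  choose h hh using h1
  have hev : ∀ᶠ j in (hyperfilter ℕ : Filter ℕ), IsUnit (h j) ∧
      ∀ a k l, (h j * φ j a - φ i a * h j) k l ∈ maximalIdeal S ^ n :=
    hi.mono fun j hj => hh j hj
  set H : Matrix (Fin r) (Fin r) (Sharp S (maximalIdeal S)) :=
    Matrix.of fun k l => Sharp.mk (maximalIdeal S) (fun j => h j k l) with hH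
  have hHu : IsUnit H := Final.exists_unit h (hev.mono fun _ hj => hj.1)
  obtain ⟨Hu, hHu⟩ := hHu
  have hmem : ∀ a, H * sharpPhi φ a - sharpPhi (fun _ => φ i) a * H ∈
      (maximalIdeal (Sharp S (maximalIdeal S))) ^ N •
        (⊤ : Submodule (Sharp S (maximalIdeal S))
          (Matrix (Fin r) (Fin r) (Sharp S (maximalIdeal S)))) := by
    intro a
    obtain ⟨x, rfl⟩ := Sharp.mk_surjective a
    rw [Final.mem_smul_top_matrix]
    intro k l
    rw [Matrix.sub_apply, Matrix.mul_apply, Matrix.mul_apply]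
    simp only [sharpPhi_mk]
    have h2 : ∀ m, H k m * Sharp.mk (maximalIdeal S) (fun j => φ j (x j) m l) =
      Sharp.mk (maximalIdeal S) (fun j => h j k m * φ j (x j) m l) := fun m => rfl
    have h3 : ∀ m, Sharp.mk (maximalIdeal S) (fun j => φ i (x j) k m) * H m l =
      Sharp.mk (maximalIdeal S) (fun j => φ i (x j) k m * h j m l) := fun m => rfl
    simp only [h2, h3]
    rw [← map_sum, ← map_sum, ← map_sub, Sharp.maximalIdeal_eq,
      Sharp.mk_mem_pow (IsNoetherian.noetherian _)]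
    filter_upwards [hev] with j hj
    have h4 := hj.2 (x j) k l
    rw [Matrix.sub_apply, Matrix.mul_apply, Matrix.mul_apply] at h4
    have h5 := Ideal.pow_le_pow_right hNn h4
    simpa using h5
  let φ' : Sharp R (maximalIdeal R) →ₐ[Sharp S (maximalIdeal S)]
        Matrix (Fin r) (Fin r) (Sharp S (maximalIdeal S)) :=
    AlgHom.ofLinearMap
      ((LinearMap.mulLeft (Sharp S (maximalIdeal S))
          (↑Hu⁻¹ : Matrix (Fin r) (Fin r) (Sharp S (maximalIdeal S)))).comp
        ((LinearMap.mulRight (Sharp S (maximalIdeal S)) H).comp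
          (sharpPhi (fun _ => φ i)).toLinearMap)) (by
      simp only [LinearMap.comp_apply, AlgHom.toLinearMap_apply, map_one,
        LinearMap.mulRight_apply, LinearMap.mulLeft_apply, one_mul]
      rw [← hHu, Units.inv_mul]) (by
      intro x y
      simp only [LinearMap.comp_apply, AlgHom.toLinearMap_apply, map_mul,
        LinearMap.mulRight_apply, LinearMap.mulLeft_apply]
      have e : H * (↑Hu⁻¹ : Matrix (Fin r) (Fin r) (Sharp S (maximalIdeal S))) = 1 := by
        rw [← hHu, Units.mul_inv]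
      calc _ = (↑Hu⁻¹ : Matrix (Fin r) (Fin r) (Sharp S (maximalIdeal S))) *
            (sharpPhi (fun _ => φ i) x * 1 * sharpPhi (fun _ => φ i) y * H) := by
              rw [mul_one]
        _ = _ := by
              rw [← e]
              noncomm_ring)
  have hφ' : ∀ a, φ' a = (↑Hu⁻¹ : Matrix (Fin r) (Fin r) (Sharp S (maximalIdeal S))) *
      (sharpPhi (fun _ => φ i) a * H) := fun _ => rfl
  obtain ⟨θ, hθ⟩ := hdet φ' (by
    intro a
    have h2 : φ' a - sharpPhi φ a =
        -((↑Hu⁻¹ : Matrix (Fin r) (Fin r) (Sharp S (maximalIdeal S))) *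
          (H * sharpPhi φ a - sharpPhi (fun _ => φ i) a * H)) := by
      rw [hφ', mul_sub, ← mul_assoc (↑Hu⁻¹ : Matrix (Fin r) (Fin r) (Sharp S (maximalIdeal S))) H,
        ← hHu, Units.inv_mul, one_mul, neg_sub]
    rw [h2]
    exact Submodule.neg_mem _ (Final.mul_mem_smul_top _ _ _ (hmem a)))
  refine ⟨Hu * θ, fun a => ?_⟩
  rw [Units.val_mul, mul_assoc, hθ, hφ', hHu]
  have e : H * (↑Hu⁻¹ : Matrix (Fin r) (Fin r) (Sharp S (maximalIdeal S))) = 1 := by
    rw [← hHu, Units.mul_inv]
  rw [← mul_assoc, ← mul_assoc, e, one_mul, mul_assoc]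

end

end

section

attribute [local instance] sharpAlgebra

section

variable {S R : Type} [CommRing S] [IsLocalRing S] [IsNoetherianRing S] [CommRing R]
  [IsLocalRing R] [Algebra S R] [Module.Finite S R] [Module.Free S R] {r : ℕ}

/-- Descent of intertwiners from the ultrapower. -/
theorem Final.descend (φ ψ : R →ₐ[S] Matrix (Fin r) (Fin r) S)
    (X : (Matrix (Fin r) (Fin r) (Sharp S (maximalIdeal S)))ˣ)
    (hX : ∀ a, (X : Matrix (Fin r) (Fin r) (Sharp S (maximalIdeal S))) * sharpPhi (fun _ => φ) a =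
        sharpPhi (fun _ => ψ) a * (X : Matrix (Fin r) (Fin r) (Sharp S (maximalIdeal S)))) :
    ∃ Z : (Matrix (Fin r) (Fin r) S)ˣ, ∀ a, (Z : Matrix (Fin r) (Fin r) S) * φ a =
      ψ a * (Z : Matrix (Fin r) (Fin r) S) := by
  classical
  choose Y hY using fun k l => Sharp.mk_surjective
    ((X : Matrix (Fin r) (Fin r) (Sharp S (maximalIdeal S))) k l)
  let Ym : ℕ → Matrix (Fin r) (Fin r) S := fun j => Matrix.of fun k l => Y k l j
  have hYm : (X : Matrix (Fin r) (Fin r) (Sharp S (maximalIdeal S))) =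
      Matrix.of fun k l => Sharp.mk (maximalIdeal S) (fun j => Ym j k l) := by
    ext k l
    exact (hY k l).symm
  have hunit : ∀ᶠ j in (hyperfilter ℕ : Filter ℕ), IsUnit (Ym j) := by
    apply Final.isUnit_of_isUnit
    rw [← hYm]
    exact X.isUnit
  let δ : Matrix (Fin r) (Fin r) S →ₗ[S] (R →ₗ[S] Matrix (Fin r) (Fin r) S) :=
    { toFun := fun X =>
        { toFun := fun a => X * φ a - ψ a * X
          map_add' := fun a b => by rw [map_add, map_add, add_mul, mul_add]; abel
          map_smul' := fun s a => by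
            rw [map_smul, map_smul, RingHom.id_apply, smul_mul_assoc, mul_smul_comm, smul_sub] }
      map_add' := fun X X' => by
        ext1 a
        change (X + X') * φ a - ψ a * (X + X') = X * φ a - ψ a * X + (X' * φ a - ψ a * X')
        rw [add_mul, mul_add]; abel
      map_smul' := fun s X => by
        ext1 a
        change (s • X) * φ a - ψ a * (s • X) = s • (X * φ a - ψ a * X)
        rw [smul_mul_assoc, mul_smul_comm, smul_sub] }
  have hδ : ∀ X a, δ X a = X * φ a - ψ a * X := fun _ _ => rfl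
  obtain ⟨c, hc⟩ := artinRees (maximalIdeal S) δ
  obtain ⟨T, hT⟩ := (Module.Finite.fg_top : (⊤ : Submodule S R).FG)
  have hev : ∀ᶠ j in (hyperfilter ℕ : Filter ℕ), ∀ t ∈ T,
      δ (Ym j) t ∈ maximalIdeal S ^ (1 + c) • (⊤ : Submodule S (Matrix (Fin r) (Fin r) S)) := by
    rw [Filter.eventually_all_finset]
    intro t _
    have h1 : ∀ k l, ∀ᶠ j in (hyperfilter ℕ : Filter ℕ),
        δ (Ym j) t k l ∈ maximalIdeal S ^ (1 + c) := by
      intro k l
      have h2 := congrFun (congrFun (hX (Sharp.mk _ (fun _ => t))) k) l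
      rw [hYm, Matrix.mul_apply, Matrix.mul_apply] at h2
      simp only [sharpPhi_mk] at h2
      have h3 : ∀ m, (Matrix.of (fun k l => Sharp.mk (maximalIdeal S) (fun j => Ym j k l)) :
          Matrix (Fin r) (Fin r) (Sharp S (maximalIdeal S))) k m *
            Sharp.mk (maximalIdeal S) (fun _ => φ t m l) =
          Sharp.mk (maximalIdeal S) (fun j => Ym j k m * φ t m l) := fun m => rfl
      have h4 : ∀ m, Sharp.mk (maximalIdeal S) (fun _ => ψ t k m) *
          (Matrix.of (fun k l => Sharp.mk (maximalIdeal S) (fun j => Ym j k l)) :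
          Matrix (Fin r) (Fin r) (Sharp S (maximalIdeal S))) m l =
          Sharp.mk (maximalIdeal S) (fun j => ψ t k m * Ym j m l) := fun m => rfl
      simp only [h3, h4] at h2
      rw [← map_sum, ← map_sum, Sharp.mk_eq_mk] at h2
      filter_upwards [h2 (1 + c)] with j hj
      rw [hδ, Matrix.sub_apply, Matrix.mul_apply, Matrix.mul_apply]
      simpa using hj
    have h5 : ∀ᶠ j in (hyperfilter ℕ : Filter ℕ), ∀ k l,
        δ (Ym j) t k l ∈ maximalIdeal S ^ (1 + c) := by
      rw [Filter.eventually_all]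
      intro k
      rw [Filter.eventually_all]
      exact h1 k
    filter_upwards [h5] with j hj
    rw [Final.mem_smul_top_matrix]
    exact hj
  obtain ⟨j, hj1, hj2⟩ := (hunit.and hev).exists
  have hmem : δ (Ym j) ∈ maximalIdeal S ^ (1 + c) •
      (⊤ : Submodule S (R →ₗ[S] Matrix (Fin r) (Fin r) S)) := by
    apply mem_smul_top_of_forall
    intro a
    have ha : a ∈ Submodule.span S (T : Set R) := by rw [hT]; trivial
    induction ha using Submodule.span_induction with
    | mem x hx => exact hj2 x hx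
    | zero => rw [map_zero]; exact Submodule.zero_mem _
    | add x y _ _ hx hy => rw [map_add]; exact Submodule.add_mem _ hx hy
    | smul s x _ hx => rw [map_smul]; exact Submodule.smul_mem _ _ hx
  obtain ⟨y, hy, hyδ⟩ := hc c le_rfl 1 (Ym j) hmem
  rw [pow_one, Final.mem_smul_top_matrix] at hy
  have hZ : IsUnit (Ym j - y) := by
    rw [Matrix.isUnit_iff_isUnit_det] at hj1 ⊢
    by_contra hcon
    apply (IsLocalRing.mem_maximalIdeal _).1 ?_ hj1
    have h1 : (residue S) (Ym j).det = (residue S) (Ym j - y).det := by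
      rw [RingHom.map_det, RingHom.map_det]
      congr 1
      ext k l
      simp only [RingHom.mapMatrix_apply, Matrix.map_apply, Matrix.sub_apply, map_sub]
      rw [(IsLocalRing.residue_eq_zero_iff _).2 (hy k l), sub_zero]
    have h2 : (residue S) (Ym j - y).det = 0 := by
      rw [IsLocalRing.residue_eq_zero_iff]
      exact hcon
    rw [← IsLocalRing.residue_eq_zero_iff, h1, h2]
  obtain ⟨Z, hZ⟩ := hZ
  refine ⟨Z, fun a => ?_⟩
  have h1 : δ (Ym j - y) = 0 := by rw [map_sub, hyδ, sub_self]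
  have h2 : δ (Ym j - y) a = 0 := by rw [h1]; rfl
  rw [hδ, ← hZ, sub_eq_zero] at h2
  exact h2

end

end

section

attribute [local instance] sharpAlgebra

/-- There is no infinite sequence of pairwise nonisomorphic maximal Cohen-Macaulay ideals. -/
theorem no_sequence' {Λ S R : Type} [CommRing Λ] [IsDomain Λ] [IsLocalRing Λ]
    [IsNoetherianRing Λ] [CommRing S] [IsDomain S] [IsLocalRing S] [IsNoetherianRing S]
    [CommRing R] [IsDomain R] [IsLocalRing R] [IsNoetherianRing R] [Algebra Λ S] [Algebra S R]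
    (hpr : (maximalIdeal Λ).IsPrincipal)
    (hΛ : ∀ a ∈ maximalIdeal Λ, algebraMap Λ S a ∈ maximalIdeal S)
    (hres : ∀ x : S, ∃ a : Λ, x - algebraMap Λ S a ∈ maximalIdeal S)
    (hLM : ∀ (N m : ℕ), 1 ≤ N → ∀ c : Fin m → ℕ → Λ,
      ∀ᶠ i in (hyperfilter ℕ : Filter ℕ), LocalModel Λ N m c i)
    (hR : IsAdicComplete (maximalIdeal R) R) {d : ℕ}
    (hn : Normalisation S R d) (hd : ringKrullDim R = d) (hCM : DepthGE R R d)
    (h2 : RegUpToTwo R) (hchar : CharZero S ∨ ∃ p : ℕ, p.Prime ∧ CharP S p ∧ GP p S)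
    (I : ℕ → Ideal R) (hI : ∀ n, I n ≠ ⊥) (hIM : ∀ n, DepthGE R (I n) d) :
    ∃ m n, m ≠ n ∧ Nonempty (I m ≃ₗ[R] I n) := by
  have := hn.finite
  have := hn.free
  let b := Module.finBasis S R
  let e : ∀ n, I n ≃ₗ[S] R := fun n => (hn.exists_equiv hd (I n) (hI n) (hIM n)).some
  let φ : ℕ → (R →ₐ[S] Matrix (Fin (Module.finrank S R)) (Fin (Module.finrank S R)) S) :=
    fun n => (LinearMap.toMatrixAlgEquiv b).toAlgHom.comp (phiOf (I n) (e n))
  have hrig := rigid_sharp hR hn hd hCM h2 hchar b (sharpPhi φ)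
  obtain ⟨n0, hn0⟩ := transfer φ hrig
  have : Module.Finite (Sharp S (maximalIdeal S)) (Sharp R (maximalIdeal R)) := sharp_finite (B := S) (A := R)
  have : Module.Free (Sharp S (maximalIdeal S)) (Sharp R (maximalIdeal R)) := by
    obtain ⟨b', -⟩ := sharp_basis (B := S) (A := R) b
    exact Module.Free.of_basis b'
  have : IsAdicComplete (maximalIdeal (Sharp S (maximalIdeal S))) (Sharp S (maximalIdeal S)) :=
    Sharp.isAdicComplete_maximalIdeal S
  have : IsPrecomplete (maximalIdeal (Sharp S (maximalIdeal S))) (Sharp S (maximalIdeal S)) :=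
    inferInstance
  obtain ⟨n1, hn1⟩ := determinacy' (sharpPhi φ) hrig
  set n := max (max n0 n1) 1 with hnn
  have hfl := finite_level hpr hΛ hres hLM _ φ n (le_max_right _ _)
    (hn0 n ((le_max_left _ _).trans (le_max_left _ _)))
  obtain ⟨i, hi⟩ := hfl.exists
  have hne : ∀ᶠ n in (hyperfilter ℕ : Filter ℕ), n ≠ i := by
    have h1 : ({i} : Set ℕ)ᶜ ∈ (hyperfilter ℕ : Filter ℕ) :=
      Filter.compl_mem_hyperfilter_of_finite (Set.finite_singleton i)
    exact h1
  obtain ⟨i', hi', hii'⟩ := (hfl.and hne).exists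
  have hle : n1 ≤ n := (le_max_right n0 n1).trans (le_max_left _ _)
  obtain ⟨X, hX⟩ := Final.compare φ n1 n hle hn1 i hi
  obtain ⟨X', hX'⟩ := Final.compare φ n1 n hle hn1 i' hi'
  obtain ⟨Z, hZ⟩ := Final.descend (φ i) (φ i') (X' * X⁻¹) (by
    intro a
    have e1 : (↑X⁻¹ : Matrix _ _ (Sharp S (maximalIdeal S))) * sharpPhi (fun _ => φ i) a =
        sharpPhi φ a * (↑X⁻¹ : Matrix _ _ (Sharp S (maximalIdeal S))) := by
      rw [Units.inv_mul_eq_iff_eq_mul, ← mul_assoc, hX, mul_assoc, Units.mul_inv, mul_one]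
    rw [Units.val_mul, mul_assoc, e1, ← mul_assoc, hX', mul_assoc])
  -- back to ideals
  let θ : (Module.End S R)ˣ :=
    Units.map (LinearMap.toMatrixAlgEquiv b).symm.toAlgHom.toMonoidHom Z
  have hθ : ∀ a, (θ : Module.End S R) * phiOf (I i) (e i) a =
      phiOf (I i') (e i') a * (θ : Module.End S R) := by
    intro a
    have h1 := congrArg (LinearMap.toMatrixAlgEquiv b).symm (hZ a)
    rw [map_mul, map_mul] at h1
    have h3 : ∀ i, (LinearMap.toMatrixAlgEquiv b).symm (φ i a) = phiOf (I i) (e i) a := fun i =>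
      (LinearMap.toMatrixAlgEquiv b).symm_apply_apply _
    rw [h3, h3] at h1
    exact h1
  refine ⟨i, i', hii'.symm, iso_of_intertwiner (e i) (e i')
    (LinearMap.GeneralLinearGroup.toLinearEquiv θ) ?_⟩
  intro a v
  exact congrArg (fun f : Module.End S R => f v) (hθ a)

end

theorem Final.reg_of_dim {R : Type} [CommRing R] (h : ∀ (p : Ideal R) [p.IsPrime], p.height ≤ 2 →
          ∃ s : Finset (Localization.AtPrime p),
            Ideal.span (s : Set (Localization.AtPrime p)) =
                IsLocalRing.maximalIdeal (Localization.AtPrime p) ∧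
              (s.card : WithBot ℕ∞) ≤ ringKrullDim (Localization.AtPrime p)) : RegUpToTwo R := h

theorem Final.localModel {Λ : Type} [CommRing Λ] [IsDomain Λ] [IsLocalRing Λ] [IsNoetherianRing Λ]
    [IsAdicComplete (maximalIdeal Λ) Λ]
    (hΛ : IsField Λ ∨ ∃ p : ℕ, p.Prime ∧ (p : Λ) ≠ 0 ∧ maximalIdeal Λ = Ideal.span {(p : Λ)})
    (N m : ℕ) (hN : 1 ≤ N) (c : Fin m → ℕ → Λ) :
    ∀ᶠ i in (hyperfilter ℕ : Filter ℕ), LocalModel Λ N m c i := by
  rcases hΛ with hf | ⟨p, hp, hp0, hmax⟩
  · let _ := hf.toField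
    exact localModel_field Λ N m hN c
  · have : Fact p.Prime := ⟨hp⟩
    obtain ⟨m', g, τ, ϑ, F, G, hs, hG, hF⟩ := exists_smoothData p Λ hmax N m c
    exact localModel_of_smoothData Λ ⟨⟨(p : Λ), hmax⟩⟩ N m m' g τ ϑ hs c F G hG hF

theorem Final.finite_classes (R : Type) [CommRing R] [IsLocalRing R] [IsNoetherianRing R]
    (hR : IsAdicComplete (IsLocalRing.maximalIdeal R) R)
    (hCM : ∃ rs : List R, (∀ r ∈ rs, r ∈ IsLocalRing.maximalIdeal R) ∧
          RingTheory.Sequence.IsRegular R rs ∧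
          (rs.length : WithBot ℕ∞) = ringKrullDim R)
    (h2 : ∀ (p : Ideal R) [p.IsPrime], p.height ≤ 2 →
          ∃ s : Finset (Localization.AtPrime p),
            Ideal.span (s : Set (Localization.AtPrime p)) =
                IsLocalRing.maximalIdeal (Localization.AtPrime p) ∧
              (s.card : WithBot ℕ∞) ≤ ringKrullDim (Localization.AtPrime p)) :
    ∃ (n : ℕ) (J : Fin n → Ideal R),
        ∀ I : Ideal R, I ≠ ⊥ →
          (∃ rs : List R, (∀ r ∈ rs, r ∈ IsLocalRing.maximalIdeal R) ∧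
              RingTheory.Sequence.IsRegular (↥I) rs ∧
              (rs.length : WithBot ℕ∞) = ringKrullDim R) →
          ∃ j : Fin n, Nonempty (↥I ≃ₗ[R] ↥(J j)) := by
  obtain ⟨rs, hmem, hreg, hlen⟩ := hCM
  have hd : ringKrullDim R = rs.length := hlen.symm
  have hdepth : DepthGE R R rs.length := ⟨rs, rfl, hmem, hreg⟩
  have h2' : RegUpToTwo R := h2
  have hdom : IsDomain R :=
    isDomain_of_CM hd hdepth (fun p _ hp => isDomain_localization h2' p hp)
  obtain ⟨Λ, S, _, _, _, _, _, _, _, _, _, _, _, _, hΛ, hΛS, hres, hn, hchar⟩ :=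
    exists_goodNormalisation R hR rs.length hd hdepth
  have hpr : (maximalIdeal Λ).IsPrincipal := by
    rcases hΛ with hf | ⟨p, hp, hp0, hmax⟩
    · rw [IsLocalRing.isField_iff_maximalIdeal_eq.1 hf]
      exact bot_isPrincipal
    · rw [hmax]
      exact ⟨⟨(p : Λ), rfl⟩⟩
  have hchar' : CharZero S ∨ ∃ p : ℕ, p.Prime ∧ CharP S p ∧ GP p S := by
    rcases hchar with h | ⟨p, hp, hcp, hs⟩
    · exact Or.inl h
    · refine Or.inr ⟨p, hp, hcp, ?_⟩
      intro b hb
      obtain ⟨x, hx⟩ := hs b hb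
      exact ⟨x, 1, one_ne_zero, by rw [one_pow, mul_one, hx]⟩
  have h1 := finitely_many_of_no_sequence R (fun I => I ≠ ⊥ ∧ DepthGE R I rs.length)
    (fun I hI => no_sequence' hpr hΛS hres (fun N m hN c => Final.localModel hΛ N m hN c) hR hn hd
      hdepth h2' hchar' I (fun n => (hI n).1) (fun n => (hI n).2))
  obtain ⟨n, J, hJ⟩ := h1
  refine ⟨n, J, fun I hI ⟨ss, hss, hssreg, hsslen⟩ => hJ I ⟨hI, ss, ?_, hss, hssreg⟩⟩
  rw [hd] at hsslen
  exact_mod_cast hsslen

end Pool.Agent.W_cbb711
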