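import Mathlib
import Pool.Agent.W_cbb711.Principal

set_option autoImplicit false

universe u

namespace Pool.Agent.W_cbb711

open IsLocalRing RingTheory.Sequence CategoryTheory Abelian Ideal

/-- A local Noetherian ring with a nonzerodivisor `x` in the maximal ideal generating a prime ideal
is a domain. -/
lemma RegLocal.isDomain_of_quotient {A : Type u} [CommRing A] [IsLocalRing A] [IsNoetherianRing A]
    {x : A} (hreg : ∀ a, x * a = 0 → a = 0)
    [IsDomain (A ⧸ Ideal.span {x})] : IsDomain A := by
  classical
  have hprime : (Ideal.span {x}).IsPrime := (Ideal.Quotient.isDomain_iff_prime _).mp inferInstance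
  have hne : Ideal.span {x} ≠ (⊤ : Ideal A) := hprime.ne_top
  -- factorization
  have hfac : ∀ a : A, a ≠ 0 → ∃ (n : ℕ) (b : A), b ∉ Ideal.span {x} ∧ a = x ^ n * b := by
    intro a ha
    have h1 : ∃ k, a ∉ Ideal.span {x} ^ k := by
      by_contra hcon
      push Not at hcon
      have h2 : a ∈ ⨅ i, Ideal.span {x} ^ i := by
        simpa [Ideal.mem_iInf] using hcon
      rw [Ideal.iInf_pow_eq_bot_of_isLocalRing _ hne] at h2
      exact ha h2
    have hk := Nat.find_spec h1
    have hk0 : Nat.find h1 ≠ 0 := by
      intro h0
      rw [h0] at hk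
      simp at hk
    obtain ⟨m, hm⟩ := Nat.exists_eq_succ_of_ne_zero hk0
    have hm1 : a ∈ Ideal.span {x} ^ m := by
      by_contra hcon
      have := Nat.find_min h1 (m := m) (by omega)
      exact this hcon
    rw [Ideal.span_singleton_pow, Ideal.mem_span_singleton'] at hm1
    obtain ⟨b, hb⟩ := hm1
    refine ⟨m, b, ?_, by rw [← hb, mul_comm]⟩
    intro hbx
    apply hk
    rw [hm, Nat.succ_eq_add_one, pow_succ', ← hb]
    refine Ideal.mul_mem_mul hbx ?_
    rw [Ideal.span_singleton_pow]
    exact Ideal.mem_span_singleton_self _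
  have hregpow : ∀ (n : ℕ) (a : A), x ^ n * a = 0 → a = 0 := by
    intro n
    induction n with
    | zero => intro a ha; simpa using ha
    | succ n ih =>
      intro a ha
      apply ih
      apply hreg
      rw [← ha]; ring
  have : NoZeroDivisors A := ⟨fun {a b} hab => by
    by_contra hcon
    push Not at hcon
    obtain ⟨n, a', ha', rfl⟩ := hfac _ hcon.1
    obtain ⟨m, b', hb', rfl⟩ := hfac _ hcon.2
    have h1 : x ^ (n + m) * (a' * b') = 0 := by rw [← hab]; ring
    have h2 := hregpow _ _ h1
    have h3 : a' * b' ∈ Ideal.span {x} := by rw [h2]; exact Ideal.zero_mem _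
    exact (hprime.mem_or_mem h3).elim ha' hb'⟩
  exact NoZeroDivisors.to_isDomain A

lemma RegLocal.isDomain_aux (n : ℕ) : ∀ {A : Type u} [CommRing A] [IsLocalRing A]
    [IsNoetherianRing A] (xs : List A) (_ : xs.length = n) (_ : Ideal.ofList xs = maximalIdeal A)
    (_ : IsWeaklyRegular A xs), IsDomain A := by
  induction n with
  | zero =>
    intro A _ _ _ xs hlen hspan _
    rw [List.length_eq_zero_iff] at hlen
    rw [hlen, Ideal.ofList_nil] at hspan
    exact isDomain_of_maximalIdeal_eq_bot hspan.symm
  | succ n ih =>
    intro A _ _ _ xs hlen hspan hreg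
    match xs, hlen with
    | x :: xs, hlen =>
      have hx : x ∈ maximalIdeal A := by
        rw [← hspan, Ideal.ofList_cons]
        exact Ideal.mem_sup_left (Ideal.mem_span_singleton_self x)
      rw [isWeaklyRegular_cons_iff] at hreg
      have hne : Ideal.span {x} ≠ (⊤ : Ideal A) := by
        intro h
        rw [Ideal.span_singleton_eq_top] at h
        exact hx h
      have : Nontrivial (A ⧸ Ideal.span {x}) := Ideal.Quotient.nontrivial_iff.mpr hne
      have hloc : IsLocalRing (A ⧸ Ideal.span {x}) :=
        IsLocalRing.of_surjective' (Ideal.Quotient.mk _) Ideal.Quotient.mk_surjective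
      have hdom : IsDomain (A ⧸ Ideal.span {x}) := by
        refine ih (xs.map (algebraMap A (A ⧸ Ideal.span {x}))) (by simpa using hlen) ?_ ?_
        · rw [← Ideal.map_ofList]
          have h1 : Ideal.map (algebraMap A (A ⧸ Ideal.span {x})) (maximalIdeal A) =
            maximalIdeal (A ⧸ Ideal.span {x}) := maximalIdeal_quotient x hx
          rw [← h1, ← hspan, Ideal.ofList_cons, Ideal.map_sup]
          have h6 : Ideal.map (algebraMap A (A ⧸ Ideal.span {x})) (Ideal.span {x}) = ⊥ := by
            rw [Ideal.Quotient.algebraMap_eq, Ideal.map_quotient_self]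
          rw [h6, bot_sup_eq]
        · rw [isWeaklyRegular_map_algebraMap_iff]
          have h2 := hreg.2
          have e : QuotSMulTop x A ≃ₗ[A] (A ⧸ Ideal.span {x}) :=
            Submodule.quotEquivOfEq _ _ (by
              ext y
              rw [Submodule.mem_smul_pointwise_iff_exists, Ideal.mem_span_singleton']
              constructor
              · rintro ⟨b, -, rfl⟩
                exact ⟨b, by rw [smul_eq_mul, mul_comm]⟩
              · rintro ⟨b, rfl⟩
                exact ⟨b, trivial, by rw [smul_eq_mul, mul_comm]⟩)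
          exact (e.isWeaklyRegular_congr xs).mp h2
      refine RegLocal.isDomain_of_quotient (x := x) ?_
      intro a ha
      exact isSMulRegular_iff_right_eq_zero_of_smul.mp hreg.1 a ha

theorem isDomain_of_regular_maximalIdeal {B : Type} [CommRing B] [IsLocalRing B]
    [IsNoetherianRing B] (ys : List B) (h1 : Ideal.ofList ys = maximalIdeal B)
    (h2 : IsRegular B ys) : IsDomain B :=
  RegLocal.isDomain_aux ys.length ys rfl h1 h2.1

lemma RegLocal.subsingleton_ext_of_subsingleton {A : Type u} [CommRing A] (X M : ModuleCat.{u} A)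
    [Subsingleton M] (i : ℕ) : Subsingleton (Ext X M i) := by
  have hz : Limits.IsZero M := (ModuleCat.isZero_iff_subsingleton).mpr inferInstance
  constructor
  intro a b
  have h1 : Ext.mk₀ (𝟙 M) = (0 : Ext M M 0) := by
    rw [hz.eq_of_src (𝟙 M) 0, Ext.mk₀_zero]
  have h2 : ∀ a : Ext X M i, a = 0 := fun a => by
    have := Ext.comp_mk₀_id a
    rw [← this, h1, Ext.comp_zero]
  rw [h2 a, h2 b]

/-- Vanishing of `Ext^i(k, F)` for `F` finite free over a ring whose maximal ideal is generated
by a regular sequence. -/
lemma RegLocal.ext_free {A : Type u} [CommRing A] [IsLocalRing A] [IsNoetherianRing A]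
    (ys : List A) (h1 : Ideal.ofList ys = maximalIdeal A) (h2 : IsRegular A ys)
    (F : Type u) [AddCommGroup F] [Module A F] [Module.Free A F] [Module.Finite A F]
    (i : ℕ) (hi : i < ys.length) :
    Subsingleton (Ext (ModuleCat.of A (Shrink.{u} (A ⧸ maximalIdeal A))) (ModuleCat.of A F) i) := by
  rcases subsingleton_or_nontrivial F with hF | hF
  · have : Subsingleton (ModuleCat.of A F) := hF
    exact RegLocal.subsingleton_ext_of_subsingleton _ _ _
  · refine (depthGE_iff_ext ys.length).mp ⟨ys, rfl, ?_, ?_⟩ i hi
    · intro r hr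
      rw [← h1]
      exact Ideal.subset_span hr
    · have h3 : IsWeaklyRegular (TensorProduct A F A) ys := h2.1.isWeaklyRegular_lTensor
      have h4 : IsWeaklyRegular F ys := ((TensorProduct.rid A F).isWeaklyRegular_congr ys).mp h3
      refine IsRegular.of_isWeaklyRegular_of_mem_maximalIdeal F ?_ h4
      intro r hr
      rw [← h1]
      exact Ideal.subset_span hr

lemma RegLocal.hasPD {A : Type u} [CommRing A] [IsLocalRing A] [IsNoetherianRing A]
    (ys : List A) (h1 : Ideal.ofList ys = maximalIdeal A) (h2 : IsRegular A ys) (d : ℕ) :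
    ∀ (M : Type u) [AddCommGroup M] [Module A M] [Module.Finite A M] (j : ℕ)
      (_ : j + d = ys.length)
      (_ : ∀ i < j, Subsingleton (Ext (ModuleCat.of A (Shrink.{u} (A ⧸ maximalIdeal A)))
        (ModuleCat.of A M) i)),
      HasProjectiveDimensionLE (ModuleCat.of A M) d := by
  have hmem : ∀ r ∈ ys, r ∈ maximalIdeal A := by
    intro r hr
    rw [← h1]
    exact Ideal.subset_span hr
  induction d with
  | zero =>
    intro M _ _ _ j hj hext
    rcases subsingleton_or_nontrivial M with hM | hM
    · have hz : Limits.IsZero (ModuleCat.of A M) :=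
        (ModuleCat.isZero_iff_subsingleton).mpr hM
      have := hz.hasProjectiveDimensionLT_zero
      exact hasProjectiveDimensionLT_of_ge _ 0 1 (by omega)
    · have hd : DepthGE A M ys.length := by
        rw [depthGE_iff_ext]
        intro i hi
        exact hext i (by omega)
      have hreg : IsRegular M ys := by
        refine isRegular_of_dim_le ys hmem ys.length ⊥ bot_le M hd bot_le ?_
        rw [bot_sup_eq, h1]
        have h3 : IsField (A ⧸ maximalIdeal A) :=
          (Ideal.Quotient.maximal_ideal_iff_isField_quotient _).mp inferInstance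
        rw [ringKrullDim_eq_zero_of_isField h3, zero_add]
      have hfree : Module.Free A M :=
        free_of_isWeaklyRegular ys.length A M ys rfl h1 hreg.1
      have hproj : Projective (ModuleCat.of A M) := by
        rw [← IsProjective.iff_projective]
        infer_instance
      rw [HasProjectiveDimensionLE, zero_add, ← projective_iff_hasProjectiveDimensionLT_one]
      exact hproj
  | succ d ih =>
    intro M _ _ _ j hj hext
    obtain ⟨P, _, _, _, _, f, surjf⟩ := Module.exists_finite_presentation A M
    let S : ShortComplex (ModuleCat.{u} A) := f.shortComplexKer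
    have hS : S.ShortExact := LinearMap.shortExact_shortComplexKer surjf
    have hproj : Projective S.X₂ := by
      have : Projective (ModuleCat.of A P) := by
        rw [← IsProjective.iff_projective]
        infer_instance
      exact this
    refine (hS.hasProjectiveDimensionLT_X₃_iff d hproj).mpr ?_
    refine ih (LinearMap.ker f) (j + 1) (by omega) ?_
    intro i hi
    have hF : Subsingleton (Ext (ModuleCat.of A (Shrink.{u} (A ⧸ maximalIdeal A))) S.X₂ i) :=
      RegLocal.ext_free ys h1 h2 P i (by omega)
    change Subsingleton (Ext (ModuleCat.of A (Shrink.{u} (A ⧸ maximalIdeal A))) S.X₁ i)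
    rcases Nat.eq_zero_or_pos i with rfl | hi0
    · have := hS.mono_f
      have hinj := Ext.postcomp_mk₀_injective_of_mono
        (ModuleCat.of A (Shrink.{u} (A ⧸ maximalIdeal A))) S.f
      exact hinj.subsingleton
    · obtain ⟨i', rfl⟩ : ∃ i', i = i' + 1 := ⟨i - 1, by omega⟩
      have h3 : Subsingleton (Ext (ModuleCat.of A (Shrink.{u} (A ⧸ maximalIdeal A))) S.X₃ i') :=
        hext i' (by omega)
      constructor
      have key : ∀ x : Ext (ModuleCat.of A (Shrink.{u} (A ⧸ maximalIdeal A))) S.X₁ (i' + 1),
          x = 0 := by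
        intro x
        obtain ⟨x₃, hx₃⟩ := Ext.covariant_sequence_exact₁ _ hS x (Subsingleton.elim _ _) rfl
        rw [← hx₃, Subsingleton.elim x₃ 0, Ext.zero_comp]
      intro a b
      rw [key a, key b]

/-- Minimal covers. -/
lemma RegLocal.exists_minimal_cover {D : Type u} [CommRing D] [IsLocalRing D] (N : Type u)
    [AddCommGroup N] [Module D N] [Module.Finite D N] :
    ∃ (S : Finset N) (f : (S → D) →ₗ[D] N), Function.Surjective f ∧
      ∀ v, f v = 0 → ∀ i, v i ∈ maximalIdeal D := by
  classical
  have hex : ∃ n : ℕ, ∃ S : Finset N, S.card = n ∧ Submodule.span D (S : Set N) = ⊤ := by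
    obtain ⟨S, hS⟩ := (Module.Finite.fg_top : (⊤ : Submodule D N).FG)
    exact ⟨S.card, S, rfl, hS⟩
  obtain ⟨S, hcard, hspan⟩ := Nat.find_spec hex
  have hmin : ∀ T : Finset N, Submodule.span D (T : Set N) = ⊤ → Nat.find hex ≤ T.card :=
    fun T hT => Nat.find_min' hex ⟨T, rfl, hT⟩
  refine ⟨S, Fintype.linearCombination D (fun s : S => (s : N)), ?_, ?_⟩
  · rw [← LinearMap.range_eq_top, Fintype.range_linearCombination]
    rw [← hspan]
    congr 1
    ext y; simp
  · intro v hv j
    by_contra hj
    have hunit : IsUnit (v j) := by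
      by_contra h
      exact hj h
    obtain ⟨w, hw⟩ := hunit.exists_left_inv
    rw [Fintype.linearCombination_apply] at hv
    have h1 : (j : N) ∈ Submodule.span D ((S.erase (j : N) : Finset N) : Set N) := by
      rw [← Finset.add_sum_erase _ _ (Finset.mem_univ j)] at hv
      have h2 : (j : N) = - (w • ∑ i ∈ Finset.univ.erase j, v i • (i : N)) := by
        have h3 : w • (v j • (j : N)) + w • ∑ i ∈ Finset.univ.erase j, v i • (i : N) = 0 := by
          rw [← smul_add, hv, smul_zero]
        rw [smul_smul, hw, one_smul] at h3
        exact eq_neg_of_add_eq_zero_left h3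
      have hmem : -(w • ∑ i ∈ Finset.univ.erase j, v i • (i : N)) ∈
          Submodule.span D ((S.erase (j : N) : Finset N) : Set N) := ?_
      · exact (congrArg (· ∈ Submodule.span D ((S.erase (j : N) : Finset N) : Set N)) h2).mpr hmem
      refine Submodule.neg_mem _ (Submodule.smul_mem _ _ (Submodule.sum_mem _ ?_))
      intro i hi
      refine Submodule.smul_mem _ _ (Submodule.subset_span ?_)
      simp only [Finset.coe_erase, Set.mem_sdiff, Finset.mem_coe, Set.mem_singleton_iff]
      refine ⟨i.2, ?_⟩
      intro h
      exact (Finset.mem_erase.mp hi).1 (Subtype.ext h)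
    have h2 : Submodule.span D ((S.erase (j : N) : Finset N) : Set N) = ⊤ := by
      rw [eq_top_iff, ← hspan, Submodule.span_le]
      intro y hy
      by_cases hyj : y = j
      · rw [hyj]; exact h1
      · apply Submodule.subset_span
        simp only [Finset.coe_erase, Set.mem_sdiff, Finset.mem_coe, Set.mem_singleton_iff]
        exact ⟨hy, hyj⟩
    have h3 := hmin _ h2
    rw [← hcard] at h3
    have h4 := Finset.card_erase_lt_of_mem j.2
    omega

/-- Torsion free modules of finite projective dimension over a one-dimensional local domain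
are free. -/
lemma RegLocal.free_of_pd {D : Type u} [CommRing D] [IsLocalRing D] [IsNoetherianRing D]
    [IsDomain D] {x s : D} (hx0 : x ≠ 0) (hs : s ∉ Ideal.span {x})
    (hsm : ∀ z ∈ maximalIdeal D, s * z ∈ Ideal.span {x}) (n : ℕ) :
    ∀ (N : Type u) [AddCommGroup N] [Module D N] [Module.Finite D N]
      (_ : ∀ (a : D) (y : N), a • y = 0 → a = 0 ∨ y = 0)
      (_ : HasProjectiveDimensionLE (ModuleCat.of D N) n), Module.Free D N := by
  classical
  induction n with
  | zero =>
    intro N _ _ _ htf hpd
    rw [HasProjectiveDimensionLE, zero_add, ← projective_iff_hasProjectiveDimensionLT_one,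
      ← IsProjective.iff_projective] at hpd
    have : Module.Projective D N := hpd
    exact Module.free_of_flat_of_isLocalRing
  | succ n ih =>
    intro N _ _ _ htf hpd
    obtain ⟨S, f, hf, hker⟩ := RegLocal.exists_minimal_cover (D := D) N
    let T : ShortComplex (ModuleCat.{u} D) := f.shortComplexKer
    have hT : T.ShortExact := LinearMap.shortExact_shortComplexKer hf
    have hproj : Projective T.X₂ := by
      have : Projective (ModuleCat.of D (S → D)) := by
        rw [← IsProjective.iff_projective]
        infer_instance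
      exact this
    have hK : HasProjectiveDimensionLE (ModuleCat.of D (LinearMap.ker f)) n :=
      (hT.hasProjectiveDimensionLT_X₃_iff n hproj).mp hpd
    have hfree : Module.Free D (LinearMap.ker f) := by
      refine ih (LinearMap.ker f) ?_ hK
      intro a y hay
      by_cases ha : a = 0
      · exact Or.inl ha
      · right
        apply Subtype.ext
        funext i
        have h1 := congrArg Subtype.val hay
        have h2 := congrFun h1 i
        simp only [SetLike.val_smul, Pi.smul_apply, smul_eq_mul, ZeroMemClass.coe_zero,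
          Pi.zero_apply] at h2
        exact (mul_eq_zero.mp h2).resolve_left ha
    have hbot : LinearMap.ker f = ⊥ := by
      by_contra hne
      have hnt : Nontrivial (LinearMap.ker f) := by
        rw [Submodule.nontrivial_iff_ne_bot]; exact hne
      let b := Module.Free.chooseBasis D (LinearMap.ker f)
      obtain ⟨i⟩ : Nonempty (Module.Free.ChooseBasisIndex D (LinearMap.ker f)) := b.index_nonempty
      have h1 : ∀ j, ∃ g, g * x = s * (b i : S → D) j := by
        intro j
        have := hsm _ (hker (b i : S → D) (b i).2 j)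
        rwa [Ideal.mem_span_singleton'] at this
      choose g hg using h1
      have h2 : x • f g = 0 := by
        rw [← map_smul]
        have : x • g = s • (b i : S → D) := by
          funext j
          rw [Pi.smul_apply, Pi.smul_apply, smul_eq_mul, smul_eq_mul, ← hg j, mul_comm]
        rw [this, map_smul, LinearMap.mem_ker.mp (b i).2, smul_zero]
      have h3 : f g = 0 := (htf _ _ h2).resolve_left hx0
      have h4 : s • b i = x • (⟨g, h3⟩ : LinearMap.ker f) := by
        apply Subtype.ext
        funext j
        simp only [SetLike.val_smul, Pi.smul_apply, smul_eq_mul]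
        rw [← hg j, mul_comm]
      have h5 := congrArg (fun y => b.repr y i) h4
      simp only [map_smul, Finsupp.smul_apply, Module.Basis.repr_self, Finsupp.single_eq_same,
        smul_eq_mul, mul_one] at h5
      apply hs
      rw [h5]
      exact Ideal.mul_mem_right _ _ (Ideal.mem_span_singleton_self x)
    have e : (S → D) ≃ₗ[D] N := LinearEquiv.ofBijective f ⟨LinearMap.ker_eq_bot.mp hbot, hf⟩
    exact Module.Free.of_equiv e

lemma RegLocal.exists_socle {D : Type u} [CommRing D] [IsLocalRing D] [IsNoetherianRing D]
    (hdim : ∀ p : Ideal D, p.IsPrime → p = ⊥ ∨ p = maximalIdeal D) {x : D}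
    (hx : x ∈ maximalIdeal D) (hx0 : x ≠ 0) :
    ∃ s, s ∉ Ideal.span {x} ∧ ∀ z ∈ maximalIdeal D, s * z ∈ Ideal.span {x} := by
  have hne : Ideal.span {x} ≠ (⊤ : Ideal D) := by
    intro h
    rw [Ideal.span_singleton_eq_top] at h
    exact hx h
  have : Nontrivial (D ⧸ Ideal.span {x}) := Ideal.Quotient.nontrivial_iff.mpr hne
  obtain ⟨p, hp⟩ := associatedPrimes.nonempty D (D ⧸ Ideal.span {x})
  have hp' : IsAssociatedPrime p (D ⧸ Ideal.span {x}) := hp
  have hpp := hp'.isPrime
  rw [isAssociatedPrime_iff] at hp'
  obtain ⟨-, y, hy⟩ := hp'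
  obtain ⟨s, rfl⟩ := Ideal.Quotient.mk_surjective y
  have hmem : ∀ a, a ∈ p ↔ s * a ∈ Ideal.span {x} := by
    intro a
    rw [hy, Submodule.mem_colon_singleton, Submodule.mem_bot, ← Ideal.Quotient.eq_zero_iff_mem,
      mul_comm, map_mul]
    rfl
  have hxp : x ∈ p := by
    rw [hmem]
    exact Ideal.mul_mem_left _ _ (Ideal.mem_span_singleton_self x)
  have hpm : p = maximalIdeal D := by
    rcases hdim p hpp with h | h
    · rw [h, Ideal.mem_bot] at hxp
      exact absurd hxp hx0
    · exact h
  refine ⟨s, ?_, ?_⟩
  · intro hs
    apply hpp.ne_top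
    rw [Ideal.eq_top_iff_one, hmem, mul_one]
    exact hs
  · intro z hz
    rw [← hmem, hpm]
    exact hz

theorem isPrincipal_localization {B : Type} [CommRing B] [IsLocalRing B]
    [IsNoetherianRing B] (ys : List B) (h1 : Ideal.ofList ys = maximalIdeal B)
    (h2 : IsRegular B ys) (Q : Ideal B) [Q.IsPrime] (hQ : Q.height ≤ 1) :
    (maximalIdeal (Localization.AtPrime Q)).IsPrincipal := by
  have hB : IsDomain B := isDomain_of_regular_maximalIdeal ys h1 h2
  have hD : IsDomain (Localization.AtPrime Q) :=
    IsLocalization.isDomain_localization Q.primeCompl_le_nonZeroDivisors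
  have hN : IsNoetherianRing (Localization.AtPrime Q) :=
    IsLocalization.isNoetherianRing Q.primeCompl _ inferInstance
  by_cases hbot : maximalIdeal (Localization.AtPrime Q) = ⊥
  · rw [hbot]; exact ⟨0, by simp⟩
  obtain ⟨x, hx, hx0⟩ := Submodule.exists_mem_ne_zero_of_ne_bot hbot
  have hdim : ∀ p : Ideal (Localization.AtPrime Q), p.IsPrime →
      p = ⊥ ∨ p = maximalIdeal (Localization.AtPrime Q) := by
    intro p hp
    by_cases hpm : p = maximalIdeal (Localization.AtPrime Q)
    · exact Or.inr hpm
    · left
      have hlt : p < maximalIdeal (Localization.AtPrime Q) :=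
        lt_of_le_of_ne (IsLocalRing.le_maximalIdeal hp.ne_top) hpm
      have h3 := Ideal.height_add_one_le_of_lt_of_isPrime hlt
      have h4 : (maximalIdeal (Localization.AtPrime Q)).height ≤ 1 := by
        have h5 : ringKrullDim (Localization.AtPrime Q) = (Q.height : WithBot ℕ∞) :=
          IsLocalization.AtPrime.ringKrullDim_eq_height Q _
        rw [← IsLocalRing.maximalIdeal_height_eq_ringKrullDim] at h5
        have h6 : (maximalIdeal (Localization.AtPrime Q)).height = Q.height :=
          WithBot.coe_injective h5
        rw [h6]; exact hQ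
      have h5 : p.height + 1 ≤ 0 + 1 := by rw [zero_add]; exact h3.trans h4
      have h6 : p.height = 0 := by
        have := (ENat.add_le_add_iff_right (by simp : (1 : ℕ∞) ≠ ⊤)).mp h5
        exact le_antisymm this bot_le
      exact Ideal.height_eq_zero_iff_eq_bot.mp h6
  obtain ⟨s, hs, hsm⟩ := RegLocal.exists_socle hdim hx hx0
  -- finite projective dimension
  have hpd : HasProjectiveDimensionLE (ModuleCat.of B Q) ys.length :=
    RegLocal.hasPD ys h1 h2 ys.length Q 0 (by omega) (by intro i hi; omega)
  have hpd2 := ModuleCat.localizedModule_hasProjectiveDimensionLE ys.length Q.primeCompl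
    (ModuleCat.of B Q)
  have hinst := ModuleCat.localizedModule_isLocalizedModule (ModuleCat.of B Q) Q.primeCompl
  have e1 : ((ModuleCat.of B Q).localizedModule Q.primeCompl) ≃ₗ[B]
      (Q.map (algebraMap B (Localization.AtPrime Q))) :=
    IsLocalizedModule.linearEquiv Q.primeCompl
      ((ModuleCat.of B Q).localizedModuleMkLinearMap Q.primeCompl)
      (Algebra.idealMap (S := Localization.AtPrime Q) Q)
  have e2 : ((ModuleCat.of B Q).localizedModule Q.primeCompl) ≃ₗ[Localization.AtPrime Q]
      (Q.map (algebraMap B (Localization.AtPrime Q))) :=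
    LinearEquiv.extendScalarsOfIsLocalization Q.primeCompl (Localization.AtPrime Q) e1
  have hpd3 : HasProjectiveDimensionLE (ModuleCat.of (Localization.AtPrime Q)
      (Q.map (algebraMap B (Localization.AtPrime Q)))) ys.length :=
    ModuleCat.hasProjectiveDimensionLE_of_linearEquiv (M := (ModuleCat.of B Q).localizedModule Q.primeCompl)
      (N := ModuleCat.of (Localization.AtPrime Q) (Q.map (algebraMap B (Localization.AtPrime Q)))) e2 ys.length
  have hfree : Module.Free (Localization.AtPrime Q)
      (Q.map (algebraMap B (Localization.AtPrime Q))) := by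
    refine RegLocal.free_of_pd hx0 hs hsm ys.length _ ?_ hpd3
    intro a y hay
    have h3 : a * (y : Localization.AtPrime Q) = 0 := congrArg Subtype.val hay
    rcases mul_eq_zero.mp h3 with h | h
    · exact Or.inl h
    · exact Or.inr (Subtype.ext h)
  obtain ⟨g, hg⟩ := exists_span_of_free (Q.map (algebraMap B (Localization.AtPrime Q)))
  rw [← Localization.AtPrime.map_eq_maximalIdeal, hg]
  exact ⟨g, rfl⟩

end Pool.Agent.W_cbb711
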