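import Mathlib
import Pool.Agent.W_cbb711b.Defs

/-!
# Derivations of domains and of their fields of fractions
-/

set_option autoImplicit false
set_option linter.unusedSectionVars false

universe u

namespace Pool.Agent.W_cbb711

open Polynomial

namespace GPB

section extend

variable {A B : Type u} [CommRing A] [CommRing B] [Algebra A B]

/-- the ring homomorphism `x ↦ x + ε D x` to the dual numbers -/
noncomputable def dualHom (D : Derivation ℤ A A) : A →+* TrivSqZeroExt B B where
  toFun x := (algebraMap A B x, algebraMap A B (D x))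
  map_one' := by
    refine TrivSqZeroExt.ext ?_ ?_
    · show algebraMap A B 1 = 1
      rw [map_one]
    · show algebraMap A B (D 1) = 0
      rw [Derivation.map_one_eq_zero, map_zero]
  map_mul' x y := by
    refine TrivSqZeroExt.ext ?_ ?_
    · show algebraMap A B (x * y) = algebraMap A B x * algebraMap A B y
      rw [map_mul]
    · show algebraMap A B (D (x * y)) = algebraMap A B x * algebraMap A B (D y) +
        algebraMap A B (D x) * algebraMap A B y
      rw [Derivation.leibniz, map_add, smul_eq_mul, smul_eq_mul, map_mul, map_mul]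
      ring
  map_zero' := by
    refine TrivSqZeroExt.ext ?_ ?_
    · show algebraMap A B 0 = 0
      rw [map_zero]
    · show algebraMap A B (D 0) = 0
      rw [map_zero, map_zero]
  map_add' x y := by
    refine TrivSqZeroExt.ext ?_ ?_
    · show algebraMap A B (x + y) = algebraMap A B x + algebraMap A B y
      rw [map_add]
    · show algebraMap A B (D (x + y)) = algebraMap A B (D x) + algebraMap A B (D y)
      rw [map_add, map_add]

/-- Derivations extend along formally smooth maps. -/
theorem exists_extend [Algebra.FormallySmooth A B] (D : Derivation ℤ A A) :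
    ∃ D' : Derivation ℤ B B, ∀ x : A, D' (algebraMap A B x) = algebraMap A B (D x) := by
  let φ : A →+* TrivSqZeroExt B B := dualHom D
  let _ : Algebra A (TrivSqZeroExt B B) := φ.toAlgebra
  have halg1 : ∀ x : A, (algebraMap A (TrivSqZeroExt B B) x).fst = algebraMap A B x :=
    fun x => rfl
  have halg2 : ∀ x : A, (algebraMap A (TrivSqZeroExt B B) x).snd = algebraMap A B (D x) :=
    fun x => rfl
  let g : TrivSqZeroExt B B →ₐ[A] B :=
    { toFun := TrivSqZeroExt.fst
      map_one' := rfl
      map_mul' := fun x y => rfl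
      map_zero' := rfl
      map_add' := fun x y => rfl
      commutes' := halg1 }
  have hgf : ∀ x, g x = x.fst := fun x => rfl
  have hg : Function.Surjective g := fun x => ⟨(x, 0), rfl⟩
  have hker : IsNilpotent (RingHom.ker (g : TrivSqZeroExt B B →+* B)) := by
    refine ⟨2, ?_⟩
    rw [show RingHom.ker (g : TrivSqZeroExt B B →+* B) ^ 2 =
      RingHom.ker (g : TrivSqZeroExt B B →+* B) * RingHom.ker (g : TrivSqZeroExt B B →+* B) from
      pow_two _]
    show RingHom.ker (g : TrivSqZeroExt B B →+* B) * RingHom.ker (g : TrivSqZeroExt B B →+* B) = ⊥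
    rw [eq_bot_iff, Ideal.mul_le]
    intro x hx y hy
    have hx' : x.fst = 0 := hx
    have hy' : y.fst = 0 := hy
    rw [Ideal.mem_bot]
    refine TrivSqZeroExt.ext ?_ ?_
    · show x.fst * y.fst = 0
      rw [hx', zero_mul]
    · show x.fst * y.snd + x.snd * y.fst = 0
      rw [hx', hy', zero_mul, mul_zero, add_zero]
  let L : B →ₐ[A] TrivSqZeroExt B B :=
    Algebra.FormallySmooth.liftOfSurjective (AlgHom.id A B) g hg hker
  have hL : ∀ x : B, (L x).fst = x := fun x =>
    Algebra.FormallySmooth.liftOfSurjective_apply (AlgHom.id A B) g hg hker x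
  refine ⟨Derivation.mk' (AddMonoidHom.toIntLinearMap
    { toFun := fun x => (L x).snd
      map_zero' := by rw [map_zero]; rfl
      map_add' := by intro x y; rw [map_add]; rfl }) ?_, ?_⟩
  · intro x y
    show (L (x * y)).snd = x * (L y).snd + y * (L x).snd
    rw [map_mul]
    show (L x).fst * (L y).snd + (L x).snd * (L y).fst = x * (L y).snd + y * (L x).snd
    rw [hL, hL]
    ring
  · intro x
    show (L (algebraMap A B x)).snd = _
    rw [AlgHom.commutes, halg2]

end extend

section field

variable {A K : Type u} [CommRing A] [IsDomain A] [Field K] [Algebra A K] [IsFractionRing A K]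

omit [IsDomain A] in
theorem formallySmooth_fraction : Algebra.FormallySmooth A K :=
  Algebra.FormallySmooth.of_isLocalization (nonZeroDivisors A)

/-- derivations of `K` that come from derivations of `A` up to a denominator -/
def Adm (A : Type u) {K : Type u} [CommRing A] [Field K] [Algebra A K]
    (D : Derivation ℤ K K) : Prop :=
  ∃ s : A, s ≠ 0 ∧ ∀ x : A, ∃ y : A, algebraMap A K s * D (algebraMap A K x) = algebraMap A K y

theorem Adm.restrict {D : Derivation ℤ K K} (h : Adm A D) :
    ∃ (s : A) (D' : Derivation ℤ A A), s ≠ 0 ∧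
      ∀ x : A, algebraMap A K (D' x) = algebraMap A K s * D (algebraMap A K x) := by
  obtain ⟨s, hs, h⟩ := h
  choose f hf using h
  have hinj : Function.Injective (algebraMap A K) := IsFractionRing.injective A K
  refine ⟨s, Derivation.mk' (AddMonoidHom.toIntLinearMap
    { toFun := f
      map_zero' := by
        apply hinj
        rw [← hf]
        simp
      map_add' := by
        intro x y
        apply hinj
        rw [map_add, ← hf, ← hf, ← hf, map_add, map_add]
        ring }) ?_, hs, ?_⟩
  · intro x y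
    apply hinj
    show algebraMap A K (f (x * y)) = algebraMap A K (x • f y + y • f x)
    rw [map_add, smul_eq_mul, smul_eq_mul, map_mul, map_mul, ← hf, ← hf, ← hf, map_mul,
      Derivation.leibniz, smul_eq_mul, smul_eq_mul]
    ring
  · intro x
    exact (hf x).symm

theorem exists_adm (D : Derivation ℤ A A) :
    ∃ D' : Derivation ℤ K K, (∀ x : A, D' (algebraMap A K x) = algebraMap A K (D x)) ∧
      Adm A D' := by
  have := formallySmooth_fraction (A := A) (K := K)
  obtain ⟨D', hD'⟩ := exists_extend (A := A) (B := K) D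
  refine ⟨D', hD', 1, one_ne_zero, fun x => ⟨D x, ?_⟩⟩
  rw [map_one, one_mul, hD']

theorem Adm.add {D E : Derivation ℤ K K} (hD : Adm A D) (hE : Adm A E) : Adm A (D + E) := by
  obtain ⟨s, hs, h⟩ := hD
  obtain ⟨t, ht, h'⟩ := hE
  refine ⟨s * t, mul_ne_zero hs ht, fun x => ?_⟩
  obtain ⟨y, hy⟩ := h x
  obtain ⟨z, hz⟩ := h' x
  refine ⟨t * y + s * z, ?_⟩
  rw [map_mul, map_add, map_mul, map_mul, ← hy, ← hz, Derivation.add_apply]
  ring

theorem Adm.smul {D : Derivation ℤ K K} (hD : Adm A D) (f : K) : Adm A (f • D) := by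
  obtain ⟨s, hs, h⟩ := hD
  obtain ⟨u, v, hv, rfl⟩ := IsFractionRing.div_surjective (A := A) f
  have hv0 : v ≠ 0 := nonZeroDivisors.ne_zero hv
  have hv' : algebraMap A K v ≠ 0 := by
    rwa [Ne, IsFractionRing.to_map_eq_zero_iff]
  refine ⟨v * s, mul_ne_zero hv0 hs, fun x => ?_⟩
  obtain ⟨y, hy⟩ := h x
  refine ⟨u * y, ?_⟩
  rw [map_mul, map_mul, ← hy, Derivation.smul_apply, smul_eq_mul]
  field_simp

theorem Adm.sub {D E : Derivation ℤ K K} (hD : Adm A D) (hE : Adm A E) : Adm A (D - E) := by
  have h1 := hD.add (hE.smul (-1))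
  have h2 : D + (-1 : K) • E = D - E := by
    ext x
    simp
    ring
  rwa [h2] at h1

omit [IsFractionRing A K] in
/-- a bound for the denominators -/
theorem Adm.bound {D : Derivation ℤ K K} (hD : Adm A D) {S : Set K} {t : A} (ht : t ≠ 0)
    (hS : ∀ f ∈ S, ∃ y : A, algebraMap A K t * f = algebraMap A K y) :
    ∃ t' : A, t' ≠ 0 ∧ ∀ f ∈ S, ∃ y : A, algebraMap A K t' * D f = algebraMap A K y := by
  obtain ⟨s, hs, h⟩ := hD
  refine ⟨s * t ^ 2, mul_ne_zero hs (pow_ne_zero 2 ht), fun f hf => ?_⟩
  obtain ⟨y, hy⟩ := hS f hf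
  obtain ⟨y', hy'⟩ := h y
  obtain ⟨z, hz⟩ := h t
  have h1 : D (algebraMap A K t * f) = D (algebraMap A K y) := by rw [hy]
  rw [Derivation.leibniz, smul_eq_mul, smul_eq_mul] at h1
  refine ⟨t * y' - z * y, ?_⟩
  rw [map_sub, map_mul, map_mul, map_mul, map_pow, ← hy', ← hz, ← h1, ← hy]
  ring

theorem Adm.lie {D E : Derivation ℤ K K} (hD : Adm A D) (hE : Adm A E) : Adm A ⁅D, E⁆ := by
  obtain ⟨s, hs, h⟩ := id hD
  obtain ⟨t, ht, h'⟩ := id hE
  obtain ⟨s', hs', h2⟩ := hD.bound (S := Set.range fun x : A => E (algebraMap A K x)) ht (by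
    rintro _ ⟨x, rfl⟩
    exact h' x)
  obtain ⟨t', ht', h3⟩ := hE.bound (S := Set.range fun x : A => D (algebraMap A K x)) hs (by
    rintro _ ⟨x, rfl⟩
    exact h x)
  refine ⟨s' * t', mul_ne_zero hs' ht', fun x => ?_⟩
  obtain ⟨y, hy⟩ := h2 _ ⟨x, rfl⟩
  obtain ⟨z, hz⟩ := h3 _ ⟨x, rfl⟩
  refine ⟨t' * y - s' * z, ?_⟩
  rw [map_sub, map_mul, map_mul, map_mul, ← hy, ← hz, Derivation.commutator_apply]
  ring

end field

section power

variable {K : Type u} [CommRing K]

/-- general Leibniz rule -/
theorem iterate_leibniz (D : Derivation ℤ K K) (n : ℕ) (x y : K) :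
    D^[n] (x * y) = ∑ k ∈ Finset.range (n + 1), (n.choose k : K) * (D^[n - k] x * D^[k] y) := by
  induction n with
  | zero => simp
  | succ n ih =>
    rw [Function.iterate_succ_apply', ih, map_sum]
    have h1 : ∀ k ∈ Finset.range (n + 1),
        D ((n.choose k : K) * (D^[n - k] x * D^[k] y)) =
          (n.choose k : K) * (D^[n + 1 - k] x * D^[k] y) +
          (n.choose k : K) * (D^[n - k] x * D^[k + 1] y) := by
      intro k hk
      have hk' : k ≤ n := Nat.lt_succ_iff.1 (Finset.mem_range.1 hk)
      have h2 : n + 1 - k = (n - k) + 1 := by omega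
      rw [Derivation.leibniz, Derivation.map_natCast, Derivation.leibniz, h2,
        Function.iterate_succ_apply', Function.iterate_succ_apply']
      simp only [smul_eq_mul]
      ring
    rw [Finset.sum_congr rfl h1, Finset.sum_add_distrib, Finset.sum_range_succ' _ (n + 1)]
    have h3 : ∑ k ∈ Finset.range (n + 1), ((n + 1).choose (k + 1) : K) *
        (D^[n + 1 - (k + 1)] x * D^[k + 1] y) =
        ∑ k ∈ Finset.range (n + 1), (n.choose k : K) * (D^[n - k] x * D^[k + 1] y) +
        ∑ k ∈ Finset.range (n + 1), (n.choose (k + 1) : K) * (D^[n - k] x * D^[k + 1] y) := by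
      rw [← Finset.sum_add_distrib]
      refine Finset.sum_congr rfl fun k _ => ?_
      rw [Nat.choose_succ_succ, Nat.add_sub_add_right]
      push_cast
      ring
    have h4 : ∑ k ∈ Finset.range (n + 1), (n.choose k : K) * (D^[n + 1 - k] x * D^[k] y) =
        ∑ k ∈ Finset.range (n + 1), (n.choose (k + 1) : K) * (D^[n - k] x * D^[k + 1] y) +
        D^[n + 1] x * y := by
      rw [Finset.sum_range_succ' _ n, Finset.sum_range_succ _ n]
      rw [Nat.choose_succ_self]
      simp only [Nat.choose_zero_right, Nat.cast_one, Nat.cast_zero, zero_mul, add_zero, one_mul,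
        Nat.sub_zero, Function.iterate_zero, id_eq]
      congr 1
      refine Finset.sum_congr rfl fun k hk => ?_
      have hk' : k < n := Finset.mem_range.1 hk
      have h5 : n + 1 - (k + 1) = n - k := by omega
      rw [h5]
    rw [h3, h4]
    simp only [Nat.choose_zero_right, Nat.cast_one, one_mul, Nat.sub_zero, Function.iterate_zero,
      id_eq]
    ring

/-- the `p`-th power of a derivation in characteristic `p` -/
noncomputable def ppow (p : ℕ) [Fact p.Prime] [CharP K p] (D : Derivation ℤ K K) :
    Derivation ℤ K K :=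
  Derivation.mk' (D.toLinearMap ^ p) (by
    intro x y
    have hpow : ∀ z : K, ((D : K →ₗ[ℤ] K) ^ p) z = D^[p] z := fun z => by
      rw [Module.End.pow_apply]
      rfl
    have hp : p.Prime := Fact.out
    have h0 : 0 < p := hp.pos
    show ((D : K →ₗ[ℤ] K) ^ p) (x * y) = x • ((D : K →ₗ[ℤ] K) ^ p) y + y • ((D : K →ₗ[ℤ] K) ^ p) x
    rw [hpow, hpow, hpow, iterate_leibniz, Finset.sum_range_succ, smul_eq_mul, smul_eq_mul]
    obtain ⟨q, hq⟩ : ∃ q, p = q + 1 := ⟨p - 1, by omega⟩
    have h1 : ∑ k ∈ Finset.range p, (p.choose k : K) * (D^[p - k] x * D^[k] y) =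
        D^[p] x * y := by
      rw [Finset.sum_eq_single 0]
      · simp
      · intro k hk hk0
        have h2 : (p.choose k : K) = 0 := by
          rw [CharP.cast_eq_zero_iff K p]
          exact hp.dvd_choose_self hk0 (Finset.mem_range.1 hk)
        rw [h2, zero_mul]
      · intro h
        exact absurd (Finset.mem_range.2 h0) h
    rw [h1]
    simp
    ring)

theorem ppow_apply (p : ℕ) [Fact p.Prime] [CharP K p] (D : Derivation ℤ K K) (x : K) :
    ppow p D x = D^[p] x := by
  show ((D : K →ₗ[ℤ] K) ^ p) x = D^[p] x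
  rw [Module.End.pow_apply]
  rfl

end power

section field2

variable {A K : Type u} [CommRing A] [IsDomain A] [Field K] [Algebra A K] [IsFractionRing A K]

theorem Adm.iterate_bound {D : Derivation ℤ K K} (hD : Adm A D) (n : ℕ) :
    ∃ t : A, t ≠ 0 ∧ ∀ x : A, ∃ y : A,
      algebraMap A K t * D^[n] (algebraMap A K x) = algebraMap A K y := by
  induction n with
  | zero => exact ⟨1, one_ne_zero, fun x => ⟨x, by simp⟩⟩
  | succ n ih =>
    obtain ⟨t, ht, h⟩ := ih
    obtain ⟨t', ht', h'⟩ := hD.bound (S := Set.range fun x : A => D^[n] (algebraMap A K x)) ht (by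
      rintro _ ⟨x, rfl⟩
      exact h x)
    refine ⟨t', ht', fun x => ?_⟩
    rw [Function.iterate_succ_apply']
    exact h' _ ⟨x, rfl⟩

theorem Adm.ppow (p : ℕ) [Fact p.Prime] [CharP K p] {D : Derivation ℤ K K} (hD : Adm A D) :
    Adm A (GPB.ppow p D) := by
  obtain ⟨t, ht, h⟩ := hD.iterate_bound p
  refine ⟨t, ht, fun x => ?_⟩
  rw [ppow_apply]
  exact h x

/-- elements of `K` killed by all derivations coming from `A` are `p`-th powers -/
theorem pow_of_gp (p : ℕ) [Fact p.Prime] [CharP K p] (h : GP p A) {f : K}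
    (hf : ∀ D : Derivation ℤ K K, Adm A D → D f = 0) : ∃ g : K, g ^ p = f := by
  obtain ⟨u, v, hv, rfl⟩ := IsFractionRing.div_surjective (A := A) f
  have hp : p.Prime := Fact.out
  have hv0 : v ≠ 0 := nonZeroDivisors.ne_zero hv
  have hv' : algebraMap A K v ≠ 0 := by
    rwa [Ne, IsFractionRing.to_map_eq_zero_iff]
  have hinj : Function.Injective (algebraMap A K) := IsFractionRing.injective A K
  have hpv : algebraMap A K v ^ p = algebraMap A K v * algebraMap A K v ^ (p - 1) := by
    rw [← pow_succ', Nat.sub_add_cancel hp.one_le]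
  have hc : ∀ D : Derivation ℤ A A, D (u * v ^ (p - 1)) = 0 := by
    intro D
    obtain ⟨D', hD', hadm⟩ := exists_adm (A := A) (K := K) D
    apply hinj
    rw [← hD', map_zero]
    have h1 : algebraMap A K (u * v ^ (p - 1)) =
        algebraMap A K u / algebraMap A K v * algebraMap A K v ^ p := by
      rw [map_mul, map_pow, hpv]
      field_simp
    rw [h1, Derivation.leibniz, hf D' hadm, Derivation.leibniz_pow]
    simp
  obtain ⟨x, y, hy, hxy⟩ := h _ hc
  have hy' : algebraMap A K y ≠ 0 := by
    rwa [Ne, IsFractionRing.to_map_eq_zero_iff]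
  refine ⟨algebraMap A K x / (algebraMap A K y * algebraMap A K v), ?_⟩
  have h2 : algebraMap A K (u * v ^ (p - 1) * y ^ p) = algebraMap A K (x ^ p) := by rw [hxy]
  rw [map_mul, map_mul, map_pow, map_pow, map_pow] at h2
  rw [div_pow, mul_pow, ← h2, hpv]
  field_simp

end field2

end GPB

end Pool.Agent.W_cbb711
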