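import Mathlib
import Pool.Agent.W_cbb711b.Defs
import Pool.Agent.W_cbb711b.GPBasic

/-!
# Property G passes to purely inseparable simple extensions
-/

set_option autoImplicit false
set_option linter.unusedSectionVars false

universe u

namespace Pool.Agent.W_cbb711

open Polynomial

namespace GPInsep

open GPB

section field

variable {A K : Type u} [CommRing A] [IsDomain A] [Field K] [Algebra A K] [IsFractionRing A K]

/-- elements killed by all derivations coming from `A` which kill `a` -/
def Ea (A : Type u) {K : Type u} [CommRing A] [Field K] [Algebra A K] (a x : K) : Prop :=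
  ∀ D : Derivation ℤ K K, Adm A D → D a = 0 → D x = 0

theorem Ea.step {a : K} {D0 : Derivation ℤ K K} (hD0 : Adm A D0) (h1 : D0 a = 1) {x : K}
    (hx : Ea A a x) : Ea A a (D0 x) := by
  intro D hD hDa
  have h2 : ⁅D, D0⁆ a = 0 := by
    rw [Derivation.commutator_apply, h1, hDa, map_zero, Derivation.map_one_eq_zero, sub_zero]
  have h3 := hx _ (hD.lie hD0) h2
  rw [Derivation.commutator_apply, hx D hD hDa, map_zero, sub_zero] at h3
  exact h3

theorem Ea.iterate {a : K} {D0 : Derivation ℤ K K} (hD0 : Adm A D0) (h1 : D0 a = 1) {x : K}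
    (hx : Ea A a x) (n : ℕ) : Ea A a (D0^[n] x) := by
  induction n with
  | zero => exact hx
  | succ n ih =>
    rw [Function.iterate_succ_apply']
    exact ih.step hD0 h1

theorem Ea.pow_of_zero (p : ℕ) [Fact p.Prime] [CharP K p] (h : GP p A) {a : K}
    {D0 : Derivation ℤ K K} (hD0 : Adm A D0) (h1 : D0 a = 1) {x : K}
    (hx : Ea A a x) (h0 : D0 x = 0) : ∃ z : K, z ^ p = x := by
  refine pow_of_gp (A := A) p h fun D hD => ?_
  have h2 : (D - D a • D0) a = 0 := by
    rw [Derivation.sub_apply, Derivation.smul_apply, h1, smul_eq_mul, mul_one, sub_self]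
  have h3 := hx _ (hD.sub (hD0.smul (D a))) h2
  rw [Derivation.sub_apply, Derivation.smul_apply, h0, smul_zero, sub_zero] at h3
  exact h3

theorem D_pow_mul (p : ℕ) [Fact p.Prime] [CharP K p] (D : Derivation ℤ K K) (z w : K) :
    D (z ^ p * w) = z ^ p * D w := by
  rw [Derivation.leibniz, Derivation.leibniz_pow]
  simp

theorem iterate_pow_mul (p : ℕ) [Fact p.Prime] [CharP K p] (D : Derivation ℤ K K) (z w : K)
    (n : ℕ) : D^[n] (z ^ p * w) = z ^ p * D^[n] w := by
  induction n with
  | zero => rfl
  | succ n ih => rw [Function.iterate_succ_apply', ih, D_pow_mul, Function.iterate_succ_apply']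

theorem iterate_pow_a {a : K} {D0 : Derivation ℤ K K} (h1 : D0 a = 1) (r k : ℕ) :
    D0^[k] (a ^ r) = (r.descFactorial k : K) * a ^ (r - k) := by
  induction k with
  | zero => simp
  | succ k ih =>
    rw [Function.iterate_succ_apply', ih, Derivation.leibniz, Derivation.map_natCast,
      Derivation.leibniz_pow, h1, Nat.descFactorial_succ]
    simp only [smul_eq_mul, mul_one, mul_zero, add_zero, nsmul_eq_mul]
    rw [Nat.sub_sub]
    push_cast
    ring

theorem exists_expansion (p : ℕ) [Fact p.Prime] [CharP K p] (h : GP p A) {a : K}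
    {D0 : Derivation ℤ K K} (hD0 : Adm A D0) (h1 : D0 a = 1) (r : ℕ) (hr : r < p) :
    ∀ x : K, Ea A a x → D0^[r + 1] x = 0 →
      ∃ c : ℕ → K, x = ∑ j ∈ Finset.range (r + 1), c j ^ p * a ^ j := by
  have hp : p.Prime := Fact.out
  induction r with
  | zero =>
    intro x hx h0
    obtain ⟨z, hz⟩ := hx.pow_of_zero p h hD0 h1 h0
    exact ⟨fun _ => z, by simp [hz]⟩
  | succ r ih =>
    intro x hx h0
    have hy : Ea A a (D0^[r + 1] x) := hx.iterate hD0 h1 (r + 1)
    have hy0 : D0 (D0^[r + 1] x) = 0 := by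
      have e := Function.iterate_succ_apply' (⇑D0) (r + 1) x
      rw [← e]
      exact h0
    obtain ⟨z, hz⟩ := hy.pow_of_zero p h hD0 h1 hy0
    have hf : (((r + 1).factorial : ℕ) : K) ≠ 0 := by
      rw [Ne, CharP.cast_eq_zero_iff K p]
      intro hd
      have := (hp.dvd_factorial).1 hd
      omega
    have hfp : (((r + 1).factorial : ℕ) : K) ^ p = (((r + 1).factorial : ℕ) : K) := by
      have := map_natCast (frobenius K p) (r + 1).factorial
      rw [frobenius_def] at this
      exact this
    set c0 : K := z / (((r + 1).factorial : ℕ) : K) with hc0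
    have hc0p : c0 ^ p = D0^[r + 1] x / (((r + 1).factorial : ℕ) : K) := by
      rw [hc0, div_pow, hz, hfp]
    have hx' : Ea A a (x - c0 ^ p * a ^ (r + 1)) := by
      intro D hD hDa
      rw [map_sub, hx D hD hDa, D_pow_mul, Derivation.leibniz_pow, hDa]
      simp
    have h0' : D0^[r + 1] (x - c0 ^ p * a ^ (r + 1)) = 0 := by
      have hsub : ∀ (n : ℕ) (u v : K), D0^[n] (u - v) = D0^[n] u - D0^[n] v := by
        intro n u v
        induction n with
        | zero => rfl
        | succ n ih => rw [Function.iterate_succ_apply', ih, map_sub,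
            Function.iterate_succ_apply', Function.iterate_succ_apply']
      rw [hsub, iterate_pow_mul, iterate_pow_a h1, Nat.descFactorial_self, Nat.sub_self, pow_zero,
        mul_one, hc0p, div_mul_cancel₀ _ hf, sub_self]
    obtain ⟨c, hc⟩ := ih (by omega) _ hx' h0'
    refine ⟨fun j => if j = r + 1 then c0 else c j, ?_⟩
    rw [Finset.sum_range_succ]
    have h2 : ∑ j ∈ Finset.range (r + 1), (if j = r + 1 then c0 else c j) ^ p * a ^ j =
        ∑ j ∈ Finset.range (r + 1), c j ^ p * a ^ j := by
      refine Finset.sum_congr rfl fun j hj => ?_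
      have : j ≠ r + 1 := by
        have := Finset.mem_range.1 hj
        omega
      rw [if_neg this]
    beta_reduce
    rw [h2, if_pos rfl, ← hc]
    ring

/-- elements of `E_a` are polynomials in `a` with coefficients `p`-th powers -/
theorem expansion (p : ℕ) [Fact p.Prime] [CharP K p] (h : GP p A) {a : K}
    {D : Derivation ℤ K K} (hD : Adm A D) (hDa : D a ≠ 0) {x : K} (hx : Ea A a x) :
    ∃ c : ℕ → K, x = ∑ j ∈ Finset.range p, c j ^ p * a ^ j := by
  have hp : p.Prime := Fact.out
  set D0 : Derivation ℤ K K := (D a)⁻¹ • D with hD0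
  have hadm : Adm A D0 := hD.smul _
  have h1 : D0 a = 1 := by
    rw [hD0, Derivation.smul_apply, smul_eq_mul, inv_mul_cancel₀ hDa]
  obtain ⟨q, hq⟩ : ∃ q, p = q + 1 := ⟨p - 1, by have := hp.pos; omega⟩
  have h0 : D0^[q + 1] x = 0 := by
    rw [← hq, ← ppow_apply]
    refine hx _ (hadm.ppow p) ?_
    rw [ppow_apply, hq, Function.iterate_succ_apply, h1]
    have hz : ∀ n : ℕ, D0^[n] (0 : K) = 0 := by
      intro n
      induction n with
      | zero => rfl
      | succ n ih => rw [Function.iterate_succ_apply', ih, map_zero]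
    obtain ⟨t, ht⟩ : ∃ t, q = t + 1 := ⟨q - 1, by have := hp.two_le; omega⟩
    rw [ht, Function.iterate_succ_apply, Derivation.map_one_eq_zero, hz]
  obtain ⟨c, hc⟩ := exists_expansion p h hadm h1 q (by omega) x hx h0
  refine ⟨c, ?_⟩
  rw [hc, ← hq]

end field

/-- the derivation of `A[X]` acting on the coefficients -/
noncomputable def coeffDer {A : Type u} [CommRing A] (D : Derivation ℤ A A) :
    Derivation ℤ A[X] A[X] :=
  PolynomialModule.equivPolynomialSelf.compDer D.mapCoeffs

theorem coeff_coeffDer {A : Type u} [CommRing A] (D : Derivation ℤ A A) (f : A[X]) (i : ℕ) :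
    (coeffDer D f).coeff i = D (f.coeff i) := rfl

theorem coeffDer_X_pow {A : Type u} [CommRing A] (D : Derivation ℤ A A) (n : ℕ) :
    coeffDer D (X ^ n : A[X]) = 0 := by
  ext i
  rw [coeff_coeffDer, coeff_X_pow]
  split_ifs
  · simp
  · simp

theorem coeffDer_C {A : Type u} [CommRing A] (D : Derivation ℤ A A) (b : A) :
    coeffDer D (C b) = C (D b) := by
  ext i
  rw [coeff_coeffDer, coeff_C, coeff_C]
  split_ifs
  · rfl
  · simp

end GPInsep

open GPB GPInsep

theorem GPInsep.aux (p : ℕ) [Fact p.Prime] {A A' : Type u} [CommRing A] [IsDomain A] [CommRing A']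
    [IsDomain A'] [CharP A p] [CharP A' p] [Algebra A A'] (K K' : Type u) [Field K] [Field K']
    [Algebra A K] [IsFractionRing A K] [Algebra A' K'] [IsFractionRing A' K']
    (hinj : Function.Injective (algebraMap A A')) (h : GP p A) (θ : A')
    (hgen : ∀ x : A', ∃ Q : Polynomial A, x = Polynomial.aeval θ Q) (a : A)
    (hθ : θ ^ p = algebraMap A A' a) (D : Derivation ℤ A A) (hD : D a ≠ 0) : GP p A' := by
  have hp : p.Prime := Fact.out
  have hcK : CharP K p := charP_of_injective_algebraMap (IsFractionRing.injective A K) p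
  have hAK : Function.Injective (algebraMap A K) := IsFractionRing.injective A K
  have hAK' : Function.Injective (algebraMap A' K') := IsFractionRing.injective A' K'
  -- the map of fraction fields
  have hcomp : Function.Injective ((algebraMap A' K').comp (algebraMap A A')) := by
    rw [RingHom.coe_comp]
    exact hAK'.comp hinj
  obtain ⟨ι, hι⟩ : ∃ ι : K →+* K', ∀ x : A,
      ι (algebraMap A K x) = algebraMap A' K' (algebraMap A A' x) :=
    ⟨IsFractionRing.lift hcomp, fun x => IsFractionRing.lift_algebraMap hcomp x⟩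
  obtain ⟨D1, hD1, hadm1⟩ := exists_adm (A := A) (K := K) D
  have hD1a : D1 (algebraMap A K a) ≠ 0 := by
    rw [hD1]
    intro h0
    apply hD
    apply hAK
    rw [h0, map_zero]
  -- `a` is not a `p`-th power in `K`
  have hnp : ∀ b : K, b ^ p ≠ algebraMap A K a := by
    intro b hb
    apply hD1a
    rw [← hb, Derivation.leibniz_pow]
    simp
  have hirr : Irreducible (X ^ p - C (algebraMap A K a) : K[X]) :=
    X_pow_sub_C_irreducible_of_prime hp hnp
  -- polynomials of degree less than `p` vanishing at `θ`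
  have hlow : ∀ f : A[X], f.degree < p → aeval θ f = 0 → f = 0 := by
    intro f hdeg hf
    by_contra hne
    have hmap : f.map (algebraMap A K) ≠ 0 := by
      rwa [Ne, Polynomial.map_eq_zero_iff hAK]
    have hcop : IsCoprime (X ^ p - C (algebraMap A K a) : K[X]) (f.map (algebraMap A K)) := by
      rw [hirr.coprime_iff_not_dvd]
      intro hdvd
      have h1 := Polynomial.degree_le_of_dvd hdvd hmap
      rw [degree_X_pow_sub_C hp.pos, Polynomial.degree_map_eq_of_injective hAK] at h1
      exact absurd hdeg (not_lt.2 h1)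
    obtain ⟨u, v, huv⟩ := hcop
    have h2 := congrArg (eval₂ ι (algebraMap A' K' θ)) huv
    rw [eval₂_add, eval₂_mul, eval₂_mul, eval₂_sub, eval₂_X_pow, eval₂_C, hι, ← map_pow, hθ,
      sub_self, mul_zero, zero_add, eval₂_map, eval₂_one] at h2
    have h3 : ι.comp (algebraMap A K) = (algebraMap A' K').comp (algebraMap A A') := by
      ext x
      exact hι x
    rw [h3, ← Polynomial.hom_eval₂, ← aeval_def, hf, map_zero, mul_zero] at h2
    exact zero_ne_one h2
  have hmonic : (X ^ p - C a : A[X]).Monic := monic_X_pow_sub_C a hp.ne_zero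
  have hroot : aeval θ (X ^ p - C a : A[X]) = 0 := by
    rw [map_sub, map_pow, aeval_X, aeval_C, hθ, sub_self]
  -- every element of `A'` is a polynomial of degree `< p` in `θ`
  have hmod : ∀ f : A[X], aeval θ (f %ₘ (X ^ p - C a)) = aeval θ f := by
    intro f
    have h1 := congrArg (aeval θ) (modByMonic_add_div f (X ^ p - C a : A[X]))
    rw [map_add, map_mul, hroot, zero_mul, add_zero] at h1
    exact h1
  have hmoddeg : ∀ f : A[X], (f %ₘ (X ^ p - C a)).degree < p := by
    intro f
    have h1 := degree_modByMonic_lt f hmonic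
    rwa [degree_X_pow_sub_C hp.pos] at h1
  have hker : ∀ f : A[X], aeval θ f = 0 → ∃ q : A[X], f = (X ^ p - C a) * q := by
    intro f hf
    have h1 : f %ₘ (X ^ p - C a) = 0 := hlow _ (hmoddeg f) (by rw [hmod, hf])
    refine ⟨f /ₘ (X ^ p - C a), ?_⟩
    have h2 := modByMonic_add_div f (X ^ p - C a : A[X])
    rw [h1, zero_add] at h2
    exact h2.symm
  have hsurj : Function.Surjective (aeval θ : A[X] →ₐ[A] A') := by
    intro x
    obtain ⟨Q, hQ⟩ := hgen x
    exact ⟨Q, hQ.symm⟩
  -- derivations of `A[X]` killing `X ^ p - C a` descend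
  have hdesc : ∀ Δ : Derivation ℤ A[X] A[X], Δ (X ^ p - C a) = 0 →
      ∃ Δ' : Derivation ℤ A' A', ∀ f : A[X], Δ' (aeval θ f) = aeval θ (Δ f) := by
    intro Δ hΔ
    have hpres : ∀ f : A[X], aeval θ f = 0 → aeval θ (Δ f) = 0 := by
      intro f hf
      obtain ⟨q, rfl⟩ := hker f hf
      rw [Derivation.leibniz, hΔ, smul_zero, add_zero, smul_eq_mul, map_mul, hroot, zero_mul]
    refine ⟨Derivation.liftOfSurjective (R := ℤ)
      (f := ((aeval θ : A[X] →ₐ[A] A') : A[X] →+* A').toIntAlgHom) hsurj (d := Δ) hpres, ?_⟩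
    intro f
    exact Derivation.liftOfSurjective_apply (R := ℤ)
      (f := ((aeval θ : A[X] →ₐ[A] A') : A[X] →+* A').toIntAlgHom) hsurj hpres f
  intro b hb
  obtain ⟨Q, hQ⟩ := hsurj b
  set R : A[X] := Q %ₘ (X ^ p - C a) with hR
  have hRb : aeval θ R = b := by rw [hR, hmod, hQ]
  have hRdeg : R.degree < p := hmoddeg Q
  -- step 1: `R` is constant
  have hRder : derivative R = 0 := by
    obtain ⟨Δ', hΔ'⟩ := hdesc ((derivative' (R := A)).restrictScalars ℤ) (by
      show derivative (X ^ p - C a : A[X]) = 0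
      rw [derivative_sub, derivative_X_pow, derivative_C, sub_zero, CharP.cast_eq_zero A p]
      simp)
    have h1 := hΔ' R
    rw [hRb, hb] at h1
    have h2 : aeval θ (derivative R) = 0 := h1.symm
    exact hlow _ (lt_of_le_of_lt (degree_derivative_le) hRdeg) h2
  have hRC : R = C (R.coeff 0) := by
    ext i
    rw [coeff_C]
    split_ifs with hi
    · rw [hi]
    · obtain ⟨j, rfl⟩ : ∃ j, i = j + 1 := ⟨i - 1, by omega⟩
      by_cases hlt : j + 1 < p
      · have h1 := congrArg (fun f => coeff f j) hRder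
        simp only [coeff_derivative, coeff_zero] at h1
        rcases mul_eq_zero.1 h1 with h2 | h2
        · exact h2
        · exfalso
          have h3 : ((j + 1 : ℕ) : A) = 0 := by
            push_cast
            exact h2
          rw [CharP.cast_eq_zero_iff A p] at h3
          exact absurd (Nat.le_of_dvd (by omega) h3) (not_le.2 hlt)
      · refine coeff_eq_zero_of_degree_lt (lt_of_lt_of_le hRdeg ?_)
        exact_mod_cast not_lt.1 hlt
  set b0 : A := R.coeff 0 with hb0
  have hbb0 : b = algebraMap A A' b0 := by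
    rw [← hRb, hRC, aeval_C]
  -- step 2: `b0` is killed by the derivations killing `a`
  have hEa : Ea A (algebraMap A K a) (algebraMap A K b0) := by
    intro E hE hEa
    obtain ⟨s, E', hs, hE'⟩ := hE.restrict
    have hE'a : E' a = 0 := by
      apply hAK
      rw [hE', hEa, mul_zero, map_zero]
    obtain ⟨Δ', hΔ'⟩ := hdesc (coeffDer E') (by
      rw [map_sub, coeffDer_X_pow, coeffDer_C, hE'a, map_zero, sub_zero])
    have h1 := hΔ' (C b0)
    rw [aeval_C, ← hbb0, hb, coeffDer_C, aeval_C] at h1
    have h2 : E' b0 = 0 := by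
      apply hinj
      rw [← h1, map_zero]
    have h3 := hE' b0
    rw [h2, map_zero] at h3
    have hs' : algebraMap A K s ≠ 0 := by
      intro h0
      apply hs
      apply hAK
      rw [h0, map_zero]
    rcases mul_eq_zero.1 h3.symm with h4 | h4
    · exact absurd h4 hs'
    · exact h4
  obtain ⟨c, hc⟩ := expansion p h hadm1 hD1a hEa
  -- step 3: `b` is a `p`-th power in `K'`
  have hcK' : CharP K' p := charP_of_injective_algebraMap hAK' p
  have hpow : algebraMap A' K' b =
      (∑ j ∈ Finset.range p, ι (c j) * algebraMap A' K' θ ^ j) ^ p := by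
    rw [hbb0, ← hι, hc, map_sum, sum_pow_char]
    refine Finset.sum_congr rfl fun j _ => ?_
    rw [map_mul, map_pow, map_pow, hι, ← hθ, mul_pow, map_pow, ← pow_mul, ← pow_mul,
      mul_comm p j]
  obtain ⟨x, y, hy, hxy⟩ := IsFractionRing.div_surjective (A := A')
    (∑ j ∈ Finset.range p, ι (c j) * algebraMap A' K' θ ^ j)
  have hy0 : y ≠ 0 := nonZeroDivisors.ne_zero hy
  have hy' : algebraMap A' K' y ≠ 0 := by
    rwa [Ne, IsFractionRing.to_map_eq_zero_iff]
  refine ⟨x, y, hy0, ?_⟩
  apply hAK'
  rw [map_mul, hpow, ← hxy, map_pow, map_pow, div_pow, div_mul_cancel₀]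
  exact pow_ne_zero p hy'

theorem GP.insep (p : ℕ) [Fact p.Prime] {A A' : Type u} [CommRing A] [IsDomain A] [CommRing A']
    [IsDomain A'] [CharP A p] [CharP A' p] [Algebra A A']
    (hinj : Function.Injective (algebraMap A A')) (h : GP p A) (θ : A')
    (hgen : ∀ x : A', ∃ Q : Polynomial A, x = Polynomial.aeval θ Q) (a : A)
    (hθ : θ ^ p = algebraMap A A' a) (D : Derivation ℤ A A) (hD : D a ≠ 0) : GP p A' :=
  GPInsep.aux p (FractionRing A) (FractionRing A') hinj h θ hgen a hθ D hD

end Pool.Agent.W_cbb711
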