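import Mathlib
import Pool.Agent.W_cbb711b.Defs
import Pool.Agent.W_cbb711b.GPBasic

/-!
# Property G passes to separable simple extensions
-/

set_option autoImplicit false
set_option linter.unusedSectionVars false

universe u

namespace Pool.Agent.W_cbb711

open Polynomial

namespace GPSep

open GPB

/-- fields version -/
theorem aux (p : ℕ) [Fact p.Prime] {A A' : Type u} [CommRing A] [IsDomain A] [CommRing A']
    [IsDomain A'] [CharP A p] [CharP A' p] [Algebra A A'] (K K' : Type u) [Field K] [Field K']
    [Algebra A K] [IsFractionRing A K] [Algebra A' K'] [IsFractionRing A' K'] [Algebra K K']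
    (hι : ∀ x : A, algebraMap K K' (algebraMap A K x) = algebraMap A' K' (algebraMap A A' x))
    (h : GP p A) (θ : A')
    (hgen : ∀ x : A', ∃ Q : Polynomial A, x = Polynomial.aeval θ Q) (P : Polynomial A)
    (hP : Polynomial.aeval θ P = 0) (hP' : Polynomial.aeval θ P.derivative ≠ 0) : GP p A' := by
  have hp : p.Prime := Fact.out
  have hAK : Function.Injective (algebraMap A K) := IsFractionRing.injective A K
  have hAK' : Function.Injective (algebraMap A' K') := IsFractionRing.injective A' K'
  have hcK : CharP K p := charP_of_injective_algebraMap hAK p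
  have hcK' : CharP K' p := charP_of_injective_algebraMap hAK' p
  set η : K' := algebraMap A' K' θ with hη
  have hmapeval : ∀ Q : A[X], aeval η (Q.map (algebraMap A K)) = algebraMap A' K' (aeval θ Q) := by
    intro Q
    have h3 : (algebraMap K K').comp (algebraMap A K) =
        (algebraMap A' K').comp (algebraMap A A') := by
      ext x
      exact hι x
    rw [aeval_def, eval₂_map, h3, hη, ← hom_eval₂, ← aeval_def]
  set P1 : K[X] := P.map (algebraMap A K) with hP1
  have hroot : aeval η P1 = 0 := by rw [hP1, hmapeval, hP, map_zero]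
  have hder : aeval η (derivative P1) ≠ 0 := by
    rw [hP1, derivative_map, hmapeval]
    intro h0
    apply hP'
    apply hAK'
    rw [h0, map_zero]
  have hP10 : P1 ≠ 0 := by
    intro h0
    apply hder
    rw [h0]
    simp
  have halg : IsAlgebraic K η := ⟨P1, hP10, hroot⟩
  have hint : IsIntegral K η := halg.isIntegral
  have hsep : IsSeparable K η := by
    rw [IsSeparable, separable_iff_derivative_ne_zero (minpoly.irreducible hint)]
    intro h0
    obtain ⟨q, hq⟩ := minpoly.dvd K η hroot
    apply hder
    rw [hq, derivative_mul, h0, zero_mul, zero_add, map_mul, minpoly.aeval, zero_mul]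
  -- every element of `K'` is in `K(η)`
  have htop : ∀ z : K', z ∈ IntermediateField.adjoin K {η} := by
    intro z
    obtain ⟨x, y, hy, rfl⟩ := IsFractionRing.div_surjective (A := A') z
    have hmem : ∀ x : A', algebraMap A' K' x ∈ IntermediateField.adjoin K {η} := by
      intro x
      obtain ⟨Q, hQ⟩ := hgen x
      rw [hQ, ← hmapeval]
      rw [IntermediateField.mem_adjoin_simple_iff]
      exact ⟨Q.map (algebraMap A K), 1, by simp⟩
    exact div_mem (hmem x) (hmem y)
  have hsepK : Algebra.IsSeparable K K' := by
    have := (IntermediateField.isSeparable_adjoin_simple_iff_isSeparable K K').2 hsep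
    exact ⟨fun z => IntermediateField.isSeparable_of_mem_isSeparable K K' (htop z)⟩
  have hfet : Algebra.FormallyEtale K K' := Algebra.FormallyEtale.of_isSeparable K K'
  intro b hb
  -- derivations of `K` coming from `A` extend to derivations of `K'` coming from `A'`
  have hext : ∀ D : Derivation ℤ K K, Adm A D → ∃ D1 : Derivation ℤ K' K',
      (∀ x : K, D1 (algebraMap K K' x) = algebraMap K K' (D x)) ∧
      D1 (algebraMap A' K' b) = 0 := by
    intro D hD
    obtain ⟨D1, hD1⟩ := exists_extend (A := K) (B := K') D
    refine ⟨D1, hD1, ?_⟩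
    have hadm : Adm A' D1 := by
      obtain ⟨s, hs, hsD⟩ := hD
      obtain ⟨u, t, ht, hut⟩ := IsFractionRing.div_surjective (A := A') (D1 η)
      have ht0 : t ≠ 0 := nonZeroDivisors.ne_zero ht
      have ht' : algebraMap A' K' t ≠ 0 := by
        rwa [Ne, IsFractionRing.to_map_eq_zero_iff]
      have hs' : algebraMap A A' s ≠ 0 := by
        intro h0
        apply hs
        apply hAK
        apply (algebraMap K K').injective
        rw [hι, h0]
        simp
      refine ⟨algebraMap A A' s * t, mul_ne_zero hs' ht0, fun x => ?_⟩
      obtain ⟨Q, rfl⟩ := hgen x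
      have hconst : ∀ c : A, ∃ y : A', algebraMap A' K' (algebraMap A A' s * t) *
          D1 (algebraMap A' K' (algebraMap A A' c)) = algebraMap A' K' y := by
        intro c
        obtain ⟨y, hy⟩ := hsD c
        refine ⟨t * algebraMap A A' y, ?_⟩
        rw [← hι, hD1, map_mul, map_mul, ← hι, ← hι y, ← hy, map_mul]
        ring
      have hth : ∃ y : A', algebraMap A' K' (algebraMap A A' s * t) *
          D1 (algebraMap A' K' θ) = algebraMap A' K' y := by
        refine ⟨algebraMap A A' s * u, ?_⟩
        rw [← hη, ← hut, map_mul, map_mul]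
        field_simp
      have hadd : ∀ x y : A', (∃ z : A', algebraMap A' K' (algebraMap A A' s * t) *
          D1 (algebraMap A' K' x) = algebraMap A' K' z) →
          (∃ z : A', algebraMap A' K' (algebraMap A A' s * t) *
          D1 (algebraMap A' K' y) = algebraMap A' K' z) →
          ∃ z : A', algebraMap A' K' (algebraMap A A' s * t) *
          D1 (algebraMap A' K' (x + y)) = algebraMap A' K' z := by
        rintro x y ⟨z, hz⟩ ⟨w, hw⟩
        refine ⟨z + w, ?_⟩
        rw [map_add, map_add, map_add, mul_add, hz, hw]
      have hmul : ∀ x y : A', (∃ z : A', algebraMap A' K' (algebraMap A A' s * t) *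
          D1 (algebraMap A' K' x) = algebraMap A' K' z) →
          (∃ z : A', algebraMap A' K' (algebraMap A A' s * t) *
          D1 (algebraMap A' K' y) = algebraMap A' K' z) →
          ∃ z : A', algebraMap A' K' (algebraMap A A' s * t) *
          D1 (algebraMap A' K' (x * y)) = algebraMap A' K' z := by
        rintro x y ⟨z, hz⟩ ⟨w, hw⟩
        refine ⟨x * w + y * z, ?_⟩
        rw [map_mul _ x y, Derivation.leibniz, smul_eq_mul, smul_eq_mul, map_add, map_mul _ x w,
          map_mul _ y z, ← hz, ← hw]
        ring
      induction Q using Polynomial.induction_on with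
      | C c =>
        rw [aeval_C]
        exact hconst c
      | add f g hf hg =>
        rw [map_add]
        exact hadd _ _ hf hg
      | monomial n c ih =>
        rw [pow_succ, ← mul_assoc, map_mul (aeval θ) _ X, aeval_X]
        exact hmul _ _ ih hth
    obtain ⟨s, D', hs, hD'⟩ := hadm.restrict
    have h1 := hD' b
    rw [hb, map_zero] at h1
    have hs' : algebraMap A' K' s ≠ 0 := by
      rwa [Ne, IsFractionRing.to_map_eq_zero_iff]
    rcases mul_eq_zero.1 h1.symm with h2 | h2
    · exact absurd h2 hs'
    · exact h2
  -- `b` as a polynomial in `η ^ p`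
  have hadj : IntermediateField.adjoin K {η} = IntermediateField.adjoin K {η ^ p} :=
    IntermediateField.adjoin_simple_eq_adjoin_pow_expChar_of_isSeparable K K' hsep p
  have hintp : IsIntegral K (η ^ p) := hint.pow p
  have hbmem : algebraMap A' K' b ∈ Algebra.adjoin K {η ^ p} := by
    rw [← IntermediateField.adjoin_simple_toSubalgebra_of_isAlgebraic hintp.isAlgebraic, ← hadj]
    exact htop _
  obtain ⟨Q, hQ⟩ := Algebra.adjoin_mem_exists_aeval K (η ^ p) hbmem
  set R : K[X] := Q %ₘ minpoly K (η ^ p) with hR
  have hmonic := minpoly.monic hintp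
  have hRb : aeval (η ^ p) R = algebraMap A' K' b := by
    have h1 := congrArg (aeval (η ^ p)) (modByMonic_add_div Q (minpoly K (η ^ p)))
    rw [map_add, map_mul, minpoly.aeval, zero_mul, add_zero] at h1
    rw [hR, h1, hQ]
  have hRdeg : R.degree < (minpoly K (η ^ p)).degree := degree_modByMonic_lt Q hmonic
  have hcoef : ∀ i, ∃ g : K, g ^ p = R.coeff i := by
    intro i
    refine pow_of_gp (A := A) p h fun D hD => ?_
    obtain ⟨D1, hD1, hD1b⟩ := hext D hD
    -- the polynomial with coefficients `D (R.coeff i)`
    have hηp : D1 (η ^ p) = 0 := by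
      rw [Derivation.leibniz_pow]
      simp
    have hsum : D1 (aeval (η ^ p) R) =
        ∑ j ∈ Finset.range (R.natDegree + 1), algebraMap K K' (D (R.coeff j)) * (η ^ p) ^ j := by
      rw [aeval_eq_sum_range, map_sum]
      refine Finset.sum_congr rfl fun j _ => ?_
      rw [Algebra.smul_def, Derivation.leibniz, Derivation.leibniz_pow, hηp, hD1]
      simp
      ring
    set S : K[X] := ∑ j ∈ Finset.range (R.natDegree + 1), C (D (R.coeff j)) * X ^ j with hS
    have hSη : aeval (η ^ p) S = 0 := by
      rw [hRb, hD1b] at hsum
      rw [hS, map_sum, hsum]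
      refine Finset.sum_congr rfl fun j _ => ?_
      rw [map_mul, aeval_C, map_pow, aeval_X]
    have hSdeg : S.degree < (minpoly K (η ^ p)).degree := by
      refine lt_of_le_of_lt ?_ hRdeg
      by_cases hR0 : R = 0
      · rw [hS, hR0]
        simp
      · rw [degree_eq_natDegree hR0]
        refine (degree_sum_le _ _).trans ?_
        refine Finset.sup_le fun j hj => ?_
        refine (degree_C_mul_X_pow_le _ _).trans ?_
        have := Finset.mem_range.1 hj
        exact_mod_cast Nat.lt_succ_iff.1 this
    have hS0 : S = 0 := by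
      by_contra hne
      have h1 := minpoly.degree_le_of_ne_zero K (η ^ p) hne hSη
      exact absurd hSdeg (not_lt.2 h1)
    by_cases hi : i < R.natDegree + 1
    · have h1 := congrArg (fun f => coeff f i) hS0
      simp only [hS, finsetSum_coeff, coeff_C_mul_X_pow, coeff_zero] at h1
      rw [Finset.sum_ite_eq] at h1
      rw [if_pos (Finset.mem_range.2 hi)] at h1
      exact h1
    · rw [coeff_eq_zero_of_natDegree_lt (by omega), map_zero]
  choose g hg using hcoef
  have hpow : algebraMap A' K' b =
      (∑ j ∈ Finset.range (R.natDegree + 1), algebraMap K K' (g j) * η ^ j) ^ p := by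
    rw [sum_pow_char, ← hRb, aeval_eq_sum_range]
    refine Finset.sum_congr rfl fun j _ => ?_
    rw [Algebra.smul_def, ← hg, mul_pow, map_pow, ← pow_mul, ← pow_mul, mul_comm p j]
  obtain ⟨x, y, hy, hxy⟩ := IsFractionRing.div_surjective (A := A')
    (∑ j ∈ Finset.range (R.natDegree + 1), algebraMap K K' (g j) * η ^ j)
  have hy0 : y ≠ 0 := nonZeroDivisors.ne_zero hy
  have hy' : algebraMap A' K' y ≠ 0 := by
    rwa [Ne, IsFractionRing.to_map_eq_zero_iff]
  refine ⟨x, y, hy0, ?_⟩
  apply hAK'
  rw [map_mul, hpow, ← hxy, map_pow, map_pow, div_pow, div_mul_cancel₀]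
  exact pow_ne_zero p hy'

end GPSep

theorem GP.sep (p : ℕ) [Fact p.Prime] {A A' : Type u} [CommRing A] [IsDomain A] [CommRing A']
    [IsDomain A'] [CharP A p] [CharP A' p] [Algebra A A']
    (hinj : Function.Injective (algebraMap A A')) (h : GP p A) (θ : A')
    (hgen : ∀ x : A', ∃ Q : Polynomial A, x = Polynomial.aeval θ Q) (P : Polynomial A)
    (hP : Polynomial.aeval θ P = 0) (hP' : Polynomial.aeval θ P.derivative ≠ 0) : GP p A' := by
  have hAK' : Function.Injective (algebraMap A' (FractionRing A')) :=
    IsFractionRing.injective A' (FractionRing A')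
  have hcomp : Function.Injective ((algebraMap A' (FractionRing A')).comp (algebraMap A A')) := by
    rw [RingHom.coe_comp]
    exact hAK'.comp hinj
  let _ : Algebra (FractionRing A) (FractionRing A') :=
    (IsFractionRing.lift hcomp : FractionRing A →+* FractionRing A').toAlgebra
  exact GPSep.aux p (FractionRing A) (FractionRing A')
    (fun x => IsFractionRing.lift_algebraMap hcomp x) h θ hgen P hP hP'

end Pool.Agent.W_cbb711
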