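import Mathlib
import Pool.Agent.W_cbb711b.Defs
import Pool.Agent.W_cbb711b.GPInsep
import Pool.Agent.W_cbb711b.GPSep

set_option autoImplicit false

set_option linter.unusedSectionVars false
set_option linter.style.haveILetI false

universe u

namespace Pool.Agent.W_cbb711

open IsLocalRing Filter TensorProduct RingTheory.Sequence
open scoped nonZeroDivisors IntermediateField

namespace TowerExists

section Gen

variable {B R : Type u} [CommRing B] [CommRing R] [Algebra B R]

/-- Every element of `C ⊔ B[θ]` is a polynomial in `θ` with coefficients in `C`. -/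
theorem sup_adjoin_gen (C : Subalgebra B R) (θ : R) (x : R) (hx : x ∈ C ⊔ Algebra.adjoin B {θ}) :
    ∃ Q : Polynomial C, x = Polynomial.aeval θ Q := by
  let G : Subalgebra B R := (Algebra.adjoin C {θ}).restrictScalars B
  have h1 : C ≤ G := fun c hc => (Algebra.adjoin C {θ}).algebraMap_mem (⟨c, hc⟩ : C)
  have h2 : Algebra.adjoin B {θ} ≤ G := by
    rw [Algebra.adjoin_le_iff, Set.singleton_subset_iff]
    exact Algebra.self_mem_adjoin_singleton C θ
  have h3 : x ∈ Algebra.adjoin C {θ} := (sup_le h1 h2) hx
  obtain ⟨Q, hQ⟩ := Algebra.adjoin_singleton_eq_range_aeval C θ ▸ h3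
  exact ⟨Q, hQ.symm⟩

end Gen

section Field

variable {B R : Type u} [CommRing B] [IsDomain B] [CommRing R] [IsDomain R] [Algebra B R]
  [Module.Finite B R] [FaithfulSMul B R]
  (k K : Type u) [Field k] [Field K] [Algebra B k] [IsFractionRing B k]
  [Algebra R K] [IsFractionRing R K] [Algebra B K] [IsScalarTower B R K] [Algebra k K]
  [IsScalarTower B k K]

include k in
theorem algMap_ne_zero {b : B} (hb : b ≠ 0) : algebraMap B K b ≠ 0 := by
  rw [IsScalarTower.algebraMap_apply B k K]
  intro h
  apply hb
  have h1 : algebraMap B k b = 0 := (map_eq_zero (algebraMap k K)).mp h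
  exact (IsFractionRing.injective B k) (by rw [h1, map_zero])

/-- The field generated by the subalgebra `C`: all quotients `c / b`. -/
def E (C : Subalgebra B R) : IntermediateField k K where
  carrier := {x | ∃ b : B, b ≠ 0 ∧ ∃ c ∈ C, algebraMap B K b * x = algebraMap R K c}
  mul_mem' := by
    rintro x y ⟨b, hb, c, hc, h⟩ ⟨b', hb', c', hc', h'⟩
    refine ⟨b * b', mul_ne_zero hb hb', c * c', C.mul_mem hc hc', ?_⟩
    rw [map_mul, map_mul, ← h, ← h']
    ring
  add_mem' := by
    rintro x y ⟨b, hb, c, hc, h⟩ ⟨b', hb', c', hc', h'⟩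
    refine ⟨b * b', mul_ne_zero hb hb', algebraMap B R b' * c + algebraMap B R b * c',
      C.add_mem (C.mul_mem (C.algebraMap_mem _) hc) (C.mul_mem (C.algebraMap_mem _) hc'), ?_⟩
    rw [map_mul, map_add, map_mul, map_mul, ← h, ← h', ← IsScalarTower.algebraMap_apply,
      ← IsScalarTower.algebraMap_apply]
    ring
  algebraMap_mem' := by
    intro x
    obtain ⟨a, b, hb, rfl⟩ := IsFractionRing.div_surjective B x
    have hb0 : b ≠ 0 := nonZeroDivisors.ne_zero hb
    refine ⟨b, hb0, algebraMap B R a, C.algebraMap_mem _, ?_⟩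
    have h2 := algMap_ne_zero k K hb0
    rw [map_div₀, ← IsScalarTower.algebraMap_apply, ← IsScalarTower.algebraMap_apply,
      ← IsScalarTower.algebraMap_apply]
    field_simp
  inv_mem' := by
    rintro x ⟨b, hb, c, hc, h⟩
    have hb0 := algMap_ne_zero k K hb
    by_cases hx : x = 0
    · refine ⟨1, one_ne_zero, 0, C.zero_mem, ?_⟩
      simp [hx]
    · have hc0 : c ≠ 0 := by
        rintro rfl
        rw [map_zero] at h
        rcases mul_eq_zero.mp h with h | h
        · exact hb0 h
        · exact hx h
      have hcC0 : (⟨c, hc⟩ : C) ∈ C⁰ := by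
        rw [mem_nonZeroDivisors_iff_ne_zero]
        intro h
        exact hc0 (congrArg Subtype.val h)
      have halg : IsAlgebraic B (⟨c, hc⟩ : C) := by
        have h1 : IsIntegral B c := Algebra.IsIntegral.isIntegral c
        have h2 : IsIntegral B (⟨c, hc⟩ : C) := by
          rw [← isIntegral_algHom_iff C.val Subtype.val_injective]
          exact h1
        exact h2.isAlgebraic
      obtain ⟨b', hb', ⟨c', hc'⟩, h'⟩ := halg.exists_nonzero_dvd hcC0
      have h'' : algebraMap B R b' = c * c' := congrArg Subtype.val h'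
      refine ⟨b', hb', algebraMap B R b * c', C.mul_mem (C.algebraMap_mem _) hc', ?_⟩
      have h3 : algebraMap B K b' = algebraMap R K c * algebraMap R K c' := by
        rw [← map_mul, ← h'', ← IsScalarTower.algebraMap_apply]
      rw [h3, map_mul, ← IsScalarTower.algebraMap_apply, ← h]
      field_simp

theorem mem_E {C : Subalgebra B R} {x : K} :
    x ∈ E k K C ↔ ∃ b : B, b ≠ 0 ∧ ∃ c ∈ C, algebraMap B K b * x = algebraMap R K c := Iff.rfl

theorem E_mono {C C' : Subalgebra B R} (h : C ≤ C') : E k K C ≤ E k K C' := by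
  rintro x ⟨b, hb, c, hc, h1⟩
  exact ⟨b, hb, c, h hc, h1⟩

theorem algebraMap_mem_E {C : Subalgebra B R} {c : R} (hc : c ∈ C) :
    algebraMap R K c ∈ E k K C :=
  ⟨1, one_ne_zero, c, hc, by simp⟩

include k in
theorem exists_scale (x : K) : ∃ b : B, b ≠ 0 ∧ ∃ c : R, algebraMap B K b * x = algebraMap R K c := by
  obtain ⟨r, s, hs, rfl⟩ := IsFractionRing.div_surjective R x
  have hs0 : s ≠ 0 := nonZeroDivisors.ne_zero hs
  have halg : IsAlgebraic B s := (Algebra.IsIntegral.isIntegral (R := B) s).isAlgebraic
  obtain ⟨b, hb, t, ht⟩ := halg.exists_nonzero_dvd hs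
  refine ⟨b, hb, r * t, ?_⟩
  have h1 : algebraMap R K s ≠ 0 := by
    intro h
    exact hs0 ((IsFractionRing.injective R K) (by rw [h, map_zero]))
  rw [IsScalarTower.algebraMap_apply B R K, ht, map_mul, map_mul]
  field_simp

theorem E_top : E k K (⊤ : Subalgebra B R) = ⊤ := by
  rw [eq_top_iff]
  intro x _
  obtain ⟨b, hb, c, h⟩ := exists_scale (B := B) (R := R) k K x
  exact ⟨b, hb, c, trivial, h⟩

include B R in
theorem finiteDimensional : FiniteDimensional k K := by
  obtain ⟨s, hs⟩ := (Module.Finite.fg_top : (⊤ : Submodule B R).FG)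
  classical
  refine ⟨⟨s.image (algebraMap R K), ?_⟩⟩
  rw [eq_top_iff]
  intro x _
  have key : ∀ r : R, algebraMap R K r ∈
      Submodule.span k ((s.image (algebraMap R K) : Finset K) : Set K) := by
    intro r
    have hr : r ∈ Submodule.span B (s : Set R) := by rw [hs]; trivial
    induction hr using Submodule.span_induction with
    | mem x hx => exact Submodule.subset_span (by
        rw [Finset.coe_image]; exact ⟨x, hx, rfl⟩)
    | zero => rw [map_zero]; exact Submodule.zero_mem _
    | add x y _ _ h1 h2 => rw [map_add]; exact Submodule.add_mem _ h1 h2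
    | smul b x _ h1 =>
      rw [Algebra.smul_def, map_mul, ← IsScalarTower.algebraMap_apply,
        IsScalarTower.algebraMap_apply B k K, ← Algebra.smul_def]
      exact Submodule.smul_mem _ _ h1
  obtain ⟨b, hb, c, h⟩ := exists_scale (B := B) (R := R) k K x
  have hb0 := algMap_ne_zero k K hb
  have hb1 : algebraMap B k b ≠ 0 := by
    intro h0
    apply hb0
    rw [IsScalarTower.algebraMap_apply B k K, h0, map_zero]
  have : x = (algebraMap B k b)⁻¹ • algebraMap R K c := by
    rw [← h, Algebra.smul_def, map_inv₀, ← IsScalarTower.algebraMap_apply]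
    field_simp
  rw [this]
  exact Submodule.smul_mem _ _ (key c)

include k K in
/-- If the field of `C` is everything, `C` contains a nonzero multiple of `R`. -/
theorem birational {C : Subalgebra B R} (h : E k K C = ⊤) :
    ∃ s : R, s ∈ C ∧ s ≠ 0 ∧ ∀ x : R, s * x ∈ C := by
  have hfaith : Function.Injective (algebraMap B R) := FaithfulSMul.algebraMap_injective B R
  obtain ⟨S, hS⟩ := (Module.Finite.fg_top : (⊤ : Submodule B R).FG)
  classical
  have key : ∀ r : R, ∃ b : B, b ≠ 0 ∧ algebraMap B R b * r ∈ C := by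
    intro r
    have h1 : algebraMap R K r ∈ E k K C := by rw [h]; trivial
    obtain ⟨b, hb, c, hc, h2⟩ := h1
    refine ⟨b, hb, ?_⟩
    have h3 : algebraMap R K (algebraMap B R b * r) = algebraMap R K c := by
      rw [map_mul, ← IsScalarTower.algebraMap_apply, h2]
    rw [(IsFractionRing.injective R K) h3]
    exact hc
  choose f hf hfC using key
  refine ⟨algebraMap B R (∏ r ∈ S, f r), C.algebraMap_mem _, ?_, ?_⟩
  · intro h0
    rw [← map_zero (algebraMap B R)] at h0
    exact (Finset.prod_ne_zero_iff.mpr (fun r _ => hf r)) (hfaith h0)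
  · intro x
    have hx : x ∈ Submodule.span B (S : Set R) := by rw [hS]; trivial
    induction hx using Submodule.span_induction with
    | mem x hx =>
      have hx' : x ∈ S := hx
      rw [← Finset.mul_prod_erase S f hx', mul_comm (f x), map_mul, mul_assoc]
      exact C.mul_mem (C.algebraMap_mem _) (hfC x)
    | zero => rw [mul_zero]; exact C.zero_mem
    | add x y _ _ h1 h2 => rw [mul_add]; exact C.add_mem h1 h2
    | smul b x _ h1 =>
      rw [mul_smul_comm]
      exact C.smul_mem h1 b

theorem E_sup_adjoin (C : Subalgebra B R) (θ : R) (F : IntermediateField k K)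
    (hF : E k K C ≤ F) (hθ : algebraMap R K θ ∈ F) :
    E k K (C ⊔ Algebra.adjoin B {θ}) ≤ F := by
  rintro x ⟨b, hb, c, hc, h⟩
  have hb0 := algMap_ne_zero k K hb
  -- the elements of `R` whose image lies in `F` form a subalgebra
  let G : Subalgebra B R := (F.toSubalgebra.restrictScalars B).comap (IsScalarTower.toAlgHom B R K)
  have hG : ∀ r : R, r ∈ G ↔ algebraMap R K r ∈ F := fun r => Iff.rfl
  have h1 : C ≤ G := fun c hc => (hG c).mpr (hF (algebraMap_mem_E k K hc))
  have h2 : Algebra.adjoin B {θ} ≤ G := by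
    rw [Algebra.adjoin_le_iff, Set.singleton_subset_iff]
    exact (hG θ).mpr hθ
  have h3 : algebraMap R K c ∈ F := (hG c).mp (sup_le h1 h2 hc)
  have h4 : x = (algebraMap B K b)⁻¹ * algebraMap R K c := by
    rw [← h]; field_simp
  rw [h4]
  refine F.mul_mem (F.inv_mem ?_) h3
  rw [IsScalarTower.algebraMap_apply B k K]
  exact F.algebraMap_mem _

/-- A separable element of `K` in the image of `R` is a simple root of a polynomial over `B`. -/
theorem exists_simple_root (θ : R) (h : IsSeparable k (algebraMap R K θ)) :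
    ∃ P : Polynomial B, Polynomial.aeval θ P = 0 ∧ Polynomial.aeval θ P.derivative ≠ 0 := by
  obtain ⟨b, hb, hP⟩ := IsLocalization.integerNormalization_spec B⁰ (minpoly k (algebraMap R K θ))
  set P := IsLocalization.integerNormalization B⁰ (minpoly k (algebraMap R K θ)) with hPdef
  have hb0 : b ≠ 0 := nonZeroDivisors.ne_zero hb
  have hb1 : algebraMap B k b ≠ 0 := by
    intro h
    exact hb0 ((IsFractionRing.injective B k) (by rw [h, map_zero]))
  rw [← algebraMap_smul k b (minpoly k (algebraMap R K θ))] at hP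
  have hinj : Function.Injective (algebraMap R K) := IsFractionRing.injective R K
  refine ⟨P, ?_, ?_⟩
  · apply hinj
    rw [map_zero, ← Polynomial.aeval_algebraMap_apply, ← Polynomial.aeval_map_algebraMap k, hP,
      map_smul, minpoly.aeval, smul_zero]
  · intro h0
    have h1 : Polynomial.aeval (algebraMap R K θ) P.derivative = 0 := by
      rw [Polynomial.aeval_algebraMap_apply, h0, map_zero]
    rw [← Polynomial.aeval_map_algebraMap k, ← Polynomial.derivative_map, hP,
      Polynomial.derivative_smul, map_smul] at h1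
    rcases smul_eq_zero.mp h1 with h2 | h2
    · exact hb1 h2
    · exact h.aeval_derivative_ne_zero (minpoly.aeval _ _) h2

end Field

/-- Transport of a derivation along a ring isomorphism. -/
def derivEquiv {A A' : Type u} [CommRing A] [CommRing A'] (e : A ≃+* A')
    (D : Derivation ℤ A A) : Derivation ℤ A' A' :=
  Derivation.mk' ((e.toAddEquiv.toAddMonoidHom.toIntLinearMap).comp
    (D.toLinearMap.comp e.symm.toAddEquiv.toAddMonoidHom.toIntLinearMap)) (by
      intro a b
      simp [mul_comm])

theorem derivEquiv_apply {A A' : Type u} [CommRing A] [CommRing A'] (e : A ≃+* A')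
    (D : Derivation ℤ A A) (x : A') : derivEquiv e D x = e (D (e.symm x)) := rfl

theorem GP_equiv (p : ℕ) {A A' : Type u} [CommRing A] [CommRing A'] (e : A ≃+* A')
    (h : GP p A) : GP p A' := by
  intro b hb
  have h1 : ∀ D : Derivation ℤ A A, D (e.symm b) = 0 := by
    intro D
    have := hb (derivEquiv e D)
    rw [derivEquiv_apply] at this
    exact (map_eq_zero_iff e e.injective).mp this
  obtain ⟨x, y, hy, hxy⟩ := h _ h1
  refine ⟨e x, e y, (map_ne_zero_iff e e.injective).mpr hy, ?_⟩
  have := congrArg e hxy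
  simpa using this

section Steps

variable {B R : Type u} [CommRing B] [IsDomain B] [CommRing R] [IsDomain R] [Algebra B R]

theorem charP_sub (p : ℕ) [CharP R p] (C : Subalgebra B R) : CharP C p :=
  RingHom.charP (algebraMap C R) Subtype.val_injective p

theorem GP_bot (p : ℕ) (hinj : Function.Injective (algebraMap B R)) (h : GP p B) :
    GP p (⊥ : Subalgebra B R) :=
  GP_equiv p (Algebra.botEquivOfInjective hinj).symm.toRingEquiv h

theorem GP_sep_step (p : ℕ) [Fact p.Prime] [CharP R p] (C : Subalgebra B R) (h : GP p C)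
    (θ : R) (P : Polynomial C) (hP : Polynomial.aeval θ P = 0)
    (hP' : Polynomial.aeval θ P.derivative ≠ 0) :
    GP p (C ⊔ Algebra.adjoin B {θ} : Subalgebra B R) := by
  have hle : C ≤ C ⊔ Algebra.adjoin B {θ} := le_sup_left
  set C' : Subalgebra B R := C ⊔ Algebra.adjoin B {θ} with hC'
  letI : Algebra C C' := (Subalgebra.inclusion hle).toRingHom.toAlgebra
  haveI : IsScalarTower C C' R := IsScalarTower.of_algebraMap_eq (fun x => rfl)
  haveI := charP_sub p C
  haveI := charP_sub p C'
  have hθ : θ ∈ C' := by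
    rw [hC']
    exact (le_sup_right : Algebra.adjoin B {θ} ≤ _) (Algebra.self_mem_adjoin_singleton B θ)
  have hval : ∀ Q : Polynomial C, ((Polynomial.aeval (⟨θ, hθ⟩ : C') Q : C') : R) =
      Polynomial.aeval θ Q := by
    intro Q
    have := Polynomial.aeval_algebraMap_apply R (⟨θ, hθ⟩ : C') Q
    exact this.symm
  refine GP.sep p (A := C) (A' := C') ?_ h ⟨θ, hθ⟩ ?_ P ?_ ?_
  · intro x y hxy
    exact Subtype.ext (congrArg (fun z : C' => (z : R)) hxy)
  · rintro ⟨x, hx⟩
    obtain ⟨Q, hQ⟩ := sup_adjoin_gen C θ x hx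
    exact ⟨Q, Subtype.ext (by rw [hval]; exact hQ)⟩
  · exact Subtype.ext (by rw [hval]; exact hP)
  · intro h0
    apply hP'
    rw [← hval, h0]
    rfl

theorem GP_insep_step (p : ℕ) [Fact p.Prime] [CharP R p] (C : Subalgebra B R) (h : GP p C)
    (θ : R) (a : C) (hθa : θ ^ p = a) (D : Derivation ℤ C C) (hD : D a ≠ 0) :
    GP p (C ⊔ Algebra.adjoin B {θ} : Subalgebra B R) := by
  have hle : C ≤ C ⊔ Algebra.adjoin B {θ} := le_sup_left
  set C' : Subalgebra B R := C ⊔ Algebra.adjoin B {θ} with hC'
  letI : Algebra C C' := (Subalgebra.inclusion hle).toRingHom.toAlgebra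
  haveI : IsScalarTower C C' R := IsScalarTower.of_algebraMap_eq (fun x => rfl)
  haveI := charP_sub p C
  haveI := charP_sub p C'
  have hθ : θ ∈ C' := by
    rw [hC']
    exact (le_sup_right : Algebra.adjoin B {θ} ≤ _) (Algebra.self_mem_adjoin_singleton B θ)
  have hval : ∀ Q : Polynomial C, ((Polynomial.aeval (⟨θ, hθ⟩ : C') Q : C') : R) =
      Polynomial.aeval θ Q := by
    intro Q
    have := Polynomial.aeval_algebraMap_apply R (⟨θ, hθ⟩ : C') Q
    exact this.symm
  refine GP.insep p (A := C) (A' := C') ?_ h ⟨θ, hθ⟩ ?_ a ?_ D hD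
  · intro x y hxy
    exact Subtype.ext (congrArg (fun z : C' => (z : R)) hxy)
  · rintro ⟨x, hx⟩
    obtain ⟨Q, hQ⟩ := sup_adjoin_gen C θ x hx
    exact ⟨Q, Subtype.ext (by rw [hval]; exact hQ)⟩
  · exact Subtype.ext hθa

end Steps

section Induct

variable {B R : Type u} [CommRing B] [IsDomain B] [CommRing R] [IsDomain R] [Algebra B R]
  [Module.Finite B R] [FaithfulSMul B R]
  (k K : Type u) [Field k] [Field K] [Algebra B k] [IsFractionRing B k]
  [Algebra R K] [IsFractionRing R K] [Algebra B K] [IsScalarTower B R K] [Algebra k K]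
  [IsScalarTower B k K]

/-- The inseparable step: the field of `C` can be enlarged. -/
theorem exists_insep (p : ℕ) [Fact p.Prime] [CharP R p] (C : Subalgebra B R) (hC : GP p C)
    (hpi : ∀ x : K, ∃ n : ℕ, x ^ p ^ n ∈ E k K C) (hne : E k K C ≠ ⊤) :
    ∃ (θ : R) (a : C) (D : Derivation ℤ C C), θ ^ p = a ∧ D a ≠ 0 ∧
      algebraMap R K θ ∉ E k K C := by
  classical
  have hp : 0 < p := (Fact.out : p.Prime).pos
  obtain ⟨x, hx⟩ : ∃ x : K, x ∉ E k K C := by
    by_contra hcon
    push Not at hcon
    exact hne (eq_top_iff.mpr (fun x _ => hcon x))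
  have hn := Nat.find_spec (hpi x)
  have hmin := fun m => Nat.find_min (hpi x) (m := m)
  set n := Nat.find (hpi x) with hndef
  obtain ⟨m, hm⟩ : ∃ m, n = m + 1 := by
    refine Nat.exists_eq_succ_of_ne_zero ?_
    intro h0
    rw [h0] at hn
    apply hx
    simpa using hn
  have hy : x ^ p ^ m ∉ E k K C := hmin m (by omega)
  have hyp : (x ^ p ^ m) ^ p ∈ E k K C := by
    rw [← pow_mul, ← pow_succ, ← hm]
    exact hn
  obtain ⟨b, hb, θ0, hθ0⟩ := exists_scale (B := B) (R := R) k K (x ^ p ^ m)
  have hb1 : algebraMap B K b ≠ 0 := algMap_ne_zero k K hb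
  have hbE : ∀ b : B, algebraMap B K b ∈ E k K C := by
    intro b
    rw [IsScalarTower.algebraMap_apply B k K]
    exact (E k K C).algebraMap_mem _
  have hθ0E : algebraMap R K θ0 ∉ E k K C := by
    intro h
    apply hy
    have : x ^ p ^ m = (algebraMap B K b)⁻¹ * algebraMap R K θ0 := by
      rw [← hθ0]; field_simp
    rw [this]
    exact (E k K C).mul_mem ((E k K C).inv_mem (hbE b)) h
  have hθ0p : algebraMap R K θ0 ^ p ∈ E k K C := by
    rw [← hθ0, mul_pow]
    exact (E k K C).mul_mem (pow_mem (hbE b) p) hyp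
  obtain ⟨b', hb', c, hc, hbc⟩ := hθ0p
  have hb'1 : algebraMap B K b' ≠ 0 := algMap_ne_zero k K hb'
  have hinjR : Function.Injective (algebraMap R K) := IsFractionRing.injective R K
  have hbc' : algebraMap B R b' * θ0 ^ p = c := by
    apply hinjR
    rw [map_mul, map_pow, ← IsScalarTower.algebraMap_apply, hbc]
  have haC : algebraMap B R b' ^ (p - 1) * c ∈ C :=
    C.mul_mem (C.pow_mem (C.algebraMap_mem _) _) hc
  have hpow : (algebraMap B R b' * θ0) ^ p = algebraMap B R b' ^ (p - 1) * c := by
    rw [mul_pow, ← hbc', ← mul_assoc, ← pow_succ, Nat.sub_add_cancel hp]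
  have hθE : algebraMap R K (algebraMap B R b' * θ0) ∉ E k K C := by
    intro h
    apply hθ0E
    rw [map_mul, ← IsScalarTower.algebraMap_apply] at h
    have : algebraMap R K θ0 = (algebraMap B K b')⁻¹ * (algebraMap B K b' * algebraMap R K θ0) := by
      field_simp
    rw [this]
    exact (E k K C).mul_mem ((E k K C).inv_mem (hbE b')) h
  have hex : ∃ D : Derivation ℤ C C, D ⟨_, haC⟩ ≠ 0 := by
    by_contra hcon
    push Not at hcon
    obtain ⟨z, y, hy0, hzy⟩ := hC ⟨_, haC⟩ hcon
    have h1 : (algebraMap B R b' ^ (p - 1) * c) * (y : R) ^ p = (z : R) ^ p := by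
      have := congrArg (fun t : C => (t : R)) hzy
      simpa using this
    rw [← hpow, ← mul_pow] at h1
    have h2 : (algebraMap B R b' * θ0) * (y : R) = z := frobenius_inj R p h1
    have hy1 : (y : R) ≠ 0 := fun h => hy0 (Subtype.ext h)
    have hy2 : algebraMap R K (y : R) ≠ 0 := by
      intro h
      exact hy1 (hinjR (by rw [h, map_zero]))
    apply hθE
    have h3 : algebraMap R K (algebraMap B R b' * θ0) =
        (algebraMap R K (y : R))⁻¹ * algebraMap R K (z : R) := by
      rw [← h2, map_mul _ _ (y : R)]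
      field_simp
    rw [h3]
    exact (E k K C).mul_mem ((E k K C).inv_mem (algebraMap_mem_E k K y.2))
      (algebraMap_mem_E k K z.2)
  obtain ⟨D, hD⟩ := hex
  exact ⟨_, ⟨_, haC⟩, D, hpow, hD, hθE⟩

theorem tower_induct (p : ℕ) [Fact p.Prime] [CharP R p]
    (motive : Subalgebra B R → Prop)
    (hinsep : ∀ C : Subalgebra B R, motive C → ∀ (θ : R) (a : C), θ ^ p = a →
      ∀ D : Derivation ℤ C C, D a ≠ 0 → motive (C ⊔ Algebra.adjoin B {θ})) (n : ℕ) :
    ∀ C : Subalgebra B R, motive C → GP p C → (∀ x : K, ∃ n : ℕ, x ^ p ^ n ∈ E k K C) →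
      Module.finrank (E k K C) K ≤ n → ∃ C' : Subalgebra B R, motive C' ∧ E k K C' = ⊤ := by
  haveI := finiteDimensional (B := B) (R := R) k K
  induction n with
  | zero =>
    intro C _ _ _ h
    have : 0 < Module.finrank (E k K C) K := Module.finrank_pos
    omega
  | succ n ih =>
    intro C hmC hGC hpi hfr
    by_cases htop : E k K C = ⊤
    · exact ⟨C, hmC, htop⟩
    · obtain ⟨θ, a, D, hθa, hD, hθE⟩ := exists_insep k K p C hGC hpi htop
      have hle : E k K C ≤ E k K (C ⊔ Algebra.adjoin B {θ}) := E_mono k K le_sup_left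
      have hθ' : algebraMap R K θ ∈ E k K (C ⊔ Algebra.adjoin B {θ}) :=
        algebraMap_mem_E k K ((le_sup_right : Algebra.adjoin B {θ} ≤ _)
          (Algebra.self_mem_adjoin_singleton B θ))
      have hlt : E k K C < E k K (C ⊔ Algebra.adjoin B {θ}) :=
        lt_of_le_of_ne hle (fun h => hθE (h ▸ hθ'))
      refine ih (C ⊔ Algebra.adjoin B {θ}) (hinsep C hmC θ a hθa D hD)
        (GP_insep_step p C hGC θ a hθa D hD) ?_ ?_
      · intro x
        obtain ⟨m, hm⟩ := hpi x
        exact ⟨m, hle hm⟩
      · have := IntermediateField.finrank_lt_of_gt hlt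
        omega

end Induct

end TowerExists

theorem exists_tower_charP (p : ℕ) [Fact p.Prime] {B R : Type u} [CommRing B] [IsDomain B]
    [CommRing R] [IsDomain R] [CharP B p] [CharP R p] [Algebra B R] [Module.Finite B R]
    (hinj : Function.Injective (algebraMap B R)) (hGP : GP p B)
    (motive : Subalgebra B R → Prop) (h0 : motive ⊥)
    (hsep : ∀ C : Subalgebra B R, motive C → ∀ (θ : R) (P : Polynomial C),
      Polynomial.aeval θ P = 0 → Polynomial.aeval θ P.derivative ≠ 0 →
      motive (C ⊔ Algebra.adjoin B {θ}))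
    (hinsep : ∀ C : Subalgebra B R, motive C → ∀ (θ : R) (a : C), θ ^ p = a →
      ∀ D : Derivation ℤ C C, D a ≠ 0 → motive (C ⊔ Algebra.adjoin B {θ})) :
    ∃ C : Subalgebra B R, motive C ∧ ∃ s : R, s ∈ C ∧ s ≠ 0 ∧ ∀ x : R, s * x ∈ C := by
  haveI : FaithfulSMul B R := (faithfulSMul_iff_algebraMap_injective B R).mpr hinj
  haveI : FaithfulSMul B (FractionRing R) := by
    rw [faithfulSMul_iff_algebraMap_injective, IsScalarTower.algebraMap_eq B R (FractionRing R)]
    exact (IsFractionRing.injective R (FractionRing R)).comp hinj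
  letI : Algebra (FractionRing B) (FractionRing R) := FractionRing.liftAlgebra B (FractionRing R)
  haveI : IsScalarTower B (FractionRing B) (FractionRing R) :=
    FractionRing.isScalarTower_liftAlgebra B (FractionRing R)
  have hinjRK : Function.Injective (algebraMap R (FractionRing R)) :=
    IsFractionRing.injective R (FractionRing R)
  haveI := TowerExists.finiteDimensional (B := B) (R := R) (FractionRing B) (FractionRing R)
  haveI : CharP (FractionRing B) p :=
    charP_of_injective_algebraMap (IsFractionRing.injective B (FractionRing B)) p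
  haveI : ExpChar (FractionRing B) p := ExpChar.prime (Fact.out : p.Prime)
  obtain ⟨α, hα⟩ := Field.exists_primitive_element (FractionRing B)
    (separableClosure (FractionRing B) (FractionRing R))
  obtain ⟨b, hb, θ, hbθ⟩ := TowerExists.exists_scale (B := B) (R := R) (FractionRing B)
    (FractionRing R) (α : FractionRing R)
  have hbK : algebraMap B (FractionRing R) b ≠ 0 :=
    TowerExists.algMap_ne_zero (FractionRing B) (FractionRing R) hb
  have hθS : algebraMap R (FractionRing R) θ ∈
      separableClosure (FractionRing B) (FractionRing R) := by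
    rw [← hbθ, IsScalarTower.algebraMap_apply B (FractionRing B) (FractionRing R)]
    exact mul_mem (IntermediateField.algebraMap_mem _ _) α.2
  obtain ⟨P, hP, hP'⟩ := TowerExists.exists_simple_root (B := B) (FractionRing B) (FractionRing R) θ
    (mem_separableClosure_iff.mp hθS)
  have hP1 : Polynomial.aeval θ (P.map (algebraMap B (⊥ : Subalgebra B R))) = 0 := by
    rw [Polynomial.aeval_map_algebraMap, hP]
  have hP2 : Polynomial.aeval θ (P.map (algebraMap B (⊥ : Subalgebra B R))).derivative ≠ 0 := by
    rw [Polynomial.derivative_map, Polynomial.aeval_map_algebraMap]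
    exact hP'
  have hm1 := hsep ⊥ h0 θ _ hP1 hP2
  have hG1 := TowerExists.GP_sep_step p ⊥ (TowerExists.GP_bot p hinj hGP) θ _ hP1 hP2
  have hθE : algebraMap R (FractionRing R) θ ∈
      TowerExists.E (FractionRing B) (FractionRing R) (⊥ ⊔ Algebra.adjoin B {θ}) :=
    TowerExists.algebraMap_mem_E _ _ ((le_sup_right : Algebra.adjoin B {θ} ≤ _)
          (Algebra.self_mem_adjoin_singleton B θ))
  have hSE : separableClosure (FractionRing B) (FractionRing R) ≤
      TowerExists.E (FractionRing B) (FractionRing R) (⊥ ⊔ Algebra.adjoin B {θ}) := by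
    have h1 : separableClosure (FractionRing B) (FractionRing R) =
        IntermediateField.adjoin (FractionRing B) {(α : FractionRing R)} := by
      have h2 := congrArg (IntermediateField.lift) hα
      rw [IntermediateField.lift_adjoin_simple, IntermediateField.lift_top] at h2
      exact h2.symm
    rw [h1, IntermediateField.adjoin_simple_le_iff]
    have h3 : (α : FractionRing R) = (algebraMap B (FractionRing R) b)⁻¹ *
        algebraMap R (FractionRing R) θ := by
      rw [← hbθ]; field_simp
    rw [h3]
    refine mul_mem (inv_mem ?_) hθE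
    rw [IsScalarTower.algebraMap_apply B (FractionRing B) (FractionRing R)]
    exact IntermediateField.algebraMap_mem _ _
  obtain ⟨C, hC, hCtop⟩ := TowerExists.tower_induct (FractionRing B) (FractionRing R) p motive
    hinsep _ _ hm1 hG1 (by
      intro x
      obtain ⟨n, y, hy⟩ := IsPurelyInseparable.pow_mem
        (separableClosure (FractionRing B) (FractionRing R)) p x
      refine ⟨n, hSE ?_⟩
      rw [← hy]
      exact y.2) le_rfl
  exact ⟨C, hC, TowerExists.birational (B := B) (FractionRing B) (FractionRing R) hCtop⟩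

theorem exists_tower_charZero {B R : Type u} [CommRing B] [IsDomain B]
    [CommRing R] [IsDomain R] [CharZero B] [Algebra B R] [Module.Finite B R]
    (hinj : Function.Injective (algebraMap B R)) :
    ∃ (θ : R) (P : Polynomial B), Polynomial.aeval θ P = 0 ∧
      Polynomial.aeval θ P.derivative ≠ 0 ∧
      ∃ s : R, s ∈ Algebra.adjoin B {θ} ∧ s ≠ 0 ∧ ∀ x : R, s * x ∈ Algebra.adjoin B {θ} := by
  haveI : FaithfulSMul B R := (faithfulSMul_iff_algebraMap_injective B R).mpr hinj
  haveI : FaithfulSMul B (FractionRing R) := by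
    rw [faithfulSMul_iff_algebraMap_injective, IsScalarTower.algebraMap_eq B R (FractionRing R)]
    exact (IsFractionRing.injective R (FractionRing R)).comp hinj
  letI : Algebra (FractionRing B) (FractionRing R) := FractionRing.liftAlgebra B (FractionRing R)
  haveI : IsScalarTower B (FractionRing B) (FractionRing R) :=
    FractionRing.isScalarTower_liftAlgebra B (FractionRing R)
  haveI := TowerExists.finiteDimensional (B := B) (R := R) (FractionRing B) (FractionRing R)
  haveI : CharZero (FractionRing B) := IsFractionRing.charZero B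
  obtain ⟨α, hα⟩ := Field.exists_primitive_element (FractionRing B) (FractionRing R)
  obtain ⟨b, hb, θ, hbθ⟩ := TowerExists.exists_scale (B := B) (R := R) (FractionRing B)
    (FractionRing R) α
  have hbK : algebraMap B (FractionRing R) b ≠ 0 :=
    TowerExists.algMap_ne_zero (FractionRing B) (FractionRing R) hb
  obtain ⟨P, hP, hP'⟩ := TowerExists.exists_simple_root (B := B) (FractionRing B) (FractionRing R) θ
    (Algebra.IsSeparable.isSeparable _ _)
  have hθE : algebraMap R (FractionRing R) θ ∈
      TowerExists.E (FractionRing B) (FractionRing R) (Algebra.adjoin B {θ}) :=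
    TowerExists.algebraMap_mem_E _ _ (Algebra.self_mem_adjoin_singleton B θ)
  refine ⟨θ, P, hP, hP', TowerExists.birational (B := B) (FractionRing B) (FractionRing R) ?_⟩
  rw [eq_top_iff, ← hα, IntermediateField.adjoin_simple_le_iff]
  have h3 : α = (algebraMap B (FractionRing R) b)⁻¹ *
      algebraMap R (FractionRing R) θ := by
    rw [← hbθ]; field_simp
  rw [h3]
  refine mul_mem (inv_mem ?_) hθE
  rw [IsScalarTower.algebraMap_apply B (FractionRing B) (FractionRing R)]
  exact IntermediateField.algebraMap_mem _ _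

end Pool.Agent.W_cbb711
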