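import Mathlib
import Pool.Agent.W_cbb711b.Defs
import Pool.Agent.W_cbb711b.TowerExists

/-!
# The tower lemma for the rings `Sharp`
-/

set_option autoImplicit false

universe u

namespace Pool.Agent.W_cbb711

open IsLocalRing Filter TensorProduct RingTheory.Sequence Polynomial

namespace Tower

theorem cproj_surj {B B' A : Type*} [CommRing B] [CommRing B'] [CommRing A] (f : B →+* A)
    (g : B →+* B') (f' : B' →+* A) (hf : f'.comp g = f) (hg : Function.Surjective g)
    {M : Type*} [AddCommGroup M] [Module A M] {c : A} (h : CProj f M c) : CProj f' M c := by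
  obtain ⟨n, α, β, hα, hβ⟩ := h
  refine ⟨n, fun j => g.toAddMonoidHom.comp (α j), β, ?_, ?_⟩
  · intro j x m
    obtain ⟨b, rfl⟩ := hg x
    show g (α j (f' (g b) • m)) = g b * g (α j m)
    have h1 : f' (g b) = f b := by rw [← hf]; rfl
    rw [h1, hα, map_mul]
  · intro m
    rw [← hβ]
    refine Finset.sum_congr rfl fun j _ => ?_
    show f' (g (α j m)) • β j = f (α j m) • β j
    have h1 : f' (g (α j m)) = f (α j m) := by rw [← hf]; rfl
    rw [h1]

section

variable {B A : Type} [CommRing B] [CommRing A] [Algebra B A] (J : Ideal B) (J' : Ideal A)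
  (hJ : J ≤ J'.comap (algebraMap B A))

/-- the ideal generated by `J` in a subalgebra -/
def JC (C : Subalgebra B A) : Ideal C := J.map (algebraMap B C)

include hJ in
theorem JC_le (C : Subalgebra B A) : JC J C ≤ J'.comap (algebraMap C A) := by
  rw [JC, Ideal.map_le_iff_le_comap, Ideal.comap_comap]
  exact hJ

theorem JC_le_JC {C C' : Subalgebra B A} (h : C ≤ C') :
    JC J C ≤ (JC J C').comap (Subalgebra.inclusion h).toRingHom := by
  rw [JC, Ideal.map_le_iff_le_comap, Ideal.comap_comap]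
  have h1 : (Subalgebra.inclusion h).toRingHom.comp (algebraMap B C) = algebraMap B C' := by
    ext x
    rfl
  rw [h1]
  exact Ideal.le_comap_map

/-- the map `C_♯ → A_♯` -/
def toA (C : Subalgebra B A) : Sharp C (JC J C) →+* Sharp A J' :=
  Sharp.map (JC J C) J' (algebraMap C A) (JC_le J J' hJ C)

/-- the map `C_♯ → C'_♯` -/
def toC {C C' : Subalgebra B A} (h : C ≤ C') : Sharp C (JC J C) →+* Sharp C' (JC J C') :=
  Sharp.map (JC J C) (JC J C') (Subalgebra.inclusion h).toRingHom (JC_le_JC J h)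

theorem toA_comp_toC {C C' : Subalgebra B A} (h : C ≤ C') :
    (toA J J' hJ C').comp (toC J h) = toA J J' hJ C := by
  refine RingHom.ext fun x => ?_
  obtain ⟨x, rfl⟩ := Sharp.mk_surjective x
  rfl

/-- the map `B_♯ → C_♯` -/
def fromB (C : Subalgebra B A) : Sharp B J →+* Sharp C (JC J C) :=
  Sharp.map J (JC J C) (algebraMap B C) Ideal.le_comap_map

theorem toA_comp_fromB (C : Subalgebra B A) :
    (toA J J' hJ C).comp (fromB J C) = Sharp.map J J' (algebraMap B A) hJ := by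
  refine RingHom.ext fun x => ?_
  obtain ⟨x, rfl⟩ := Sharp.mk_surjective x
  rfl

theorem fromB_bot_surjective : Function.Surjective (fromB J (⊥ : Subalgebra B A)) := by
  intro x
  obtain ⟨x, rfl⟩ := Sharp.mk_surjective x
  have h1 : ∀ i, ∃ b : B, algebraMap B (⊥ : Subalgebra B A) b = x i := by
    intro i
    obtain ⟨b, hb⟩ := Algebra.mem_bot.1 (x i).2
    exact ⟨b, Subtype.ext hb⟩
  choose b hb using h1
  refine ⟨Sharp.mk J b, ?_⟩
  show Sharp.mk _ (fun i => algebraMap B (⊥ : Subalgebra B A) (b i)) = _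
  congr 1
  funext i
  exact hb i

/-- bounded degree expressions -/
theorem exists_expr (C : Subalgebra B A) (θ : A) (hθ : IsIntegral B θ) :
    ∃ n : ℕ, ∀ y ∈ C ⊔ Algebra.adjoin B {θ}, ∃ c : ℕ → C,
      y = ∑ k ∈ Finset.range n, (c k : A) * θ ^ k := by
  obtain ⟨f0, hf0, hroot⟩ := hθ
  set f1 : C[X] := f0.map (algebraMap B C) with hf1
  have hmonic : f1.Monic := hf0.map _
  have hroot1 : aeval θ f1 = 0 := by
    rw [hf1, aeval_def, eval₂_map]
    exact hroot
  refine ⟨f1.natDegree + 1, fun y hy => ?_⟩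
  have hle : C ⊔ Algebra.adjoin B {θ} ≤ (Algebra.adjoin C {θ}).restrictScalars B := by
    refine sup_le ?_ ?_
    · intro x hx
      rw [Subalgebra.mem_restrictScalars]
      exact Subalgebra.algebraMap_mem (Algebra.adjoin C {θ}) (⟨x, hx⟩ : C)
    · rw [Algebra.adjoin_le_iff]
      rintro x hx
      rw [SetLike.mem_coe, Subalgebra.mem_restrictScalars]
      exact Algebra.subset_adjoin hx
  have hy' := hle hy
  rw [Subalgebra.mem_restrictScalars, Algebra.adjoin_singleton_eq_range_aeval] at hy'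
  obtain ⟨Q, hQ⟩ := hy'
  have hQ : aeval θ Q = y := hQ
  set R : C[X] := Q %ₘ f1 with hR
  have hRy : aeval θ R = y := by
    have h1 := congrArg (aeval θ) (modByMonic_add_div Q f1)
    rw [map_add, map_mul, hroot1, zero_mul, add_zero] at h1
    rw [hR, h1, hQ]
  have hdeg : R.natDegree < f1.natDegree + 1 :=
    Nat.lt_succ_of_le (natDegree_modByMonic_le Q hmonic)
  refine ⟨fun k => R.coeff k, ?_⟩
  rw [← hRy, aeval_eq_sum_range' hdeg]
  refine Finset.sum_congr rfl fun k _ => ?_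
  rw [Algebra.smul_def]
  rfl

theorem toC_gen (C : Subalgebra B A) (θ : A) (hθ : IsIntegral B θ)
    (hmem : θ ∈ C ⊔ Algebra.adjoin B {θ})
    (x : Sharp ↥(C ⊔ Algebra.adjoin B {θ}) (JC J (C ⊔ Algebra.adjoin B {θ}))) :
    ∃ Q : (Sharp C (JC J C))[X], x = Q.eval₂ (toC J le_sup_left)
      (Sharp.const (JC J (C ⊔ Algebra.adjoin B {θ})) ⟨θ, hmem⟩) := by
  obtain ⟨n, hn⟩ := exists_expr C θ hθ
  obtain ⟨x, rfl⟩ := Sharp.mk_surjective x
  have h1 : ∀ i, ∃ c : ℕ → C, ((x i : ↥(C ⊔ Algebra.adjoin B {θ})) : A) =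
      ∑ k ∈ Finset.range n, (c k : A) * θ ^ k := fun i => hn _ (x i).2
  choose c hc using h1
  refine ⟨∑ k ∈ Finset.range n, Polynomial.C (Sharp.mk (JC J C) fun i => c i k) * X ^ k, ?_⟩
  rw [eval₂_finsetSum]
  have h2 : ∀ k ∈ Finset.range n, eval₂ (toC J le_sup_left)
      (Sharp.const (JC J (C ⊔ Algebra.adjoin B {θ})) ⟨θ, hmem⟩)
      (Polynomial.C (Sharp.mk (JC J C) fun i => c i k) * X ^ k) =
      Sharp.mk (JC J (C ⊔ Algebra.adjoin B {θ}))
        (fun i => Subalgebra.inclusion le_sup_left (c i k) * (⟨θ, hmem⟩ :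
          ↥(C ⊔ Algebra.adjoin B {θ})) ^ k) := by
    intro k _
    rw [eval₂_mul, eval₂_C, eval₂_X_pow]
    rfl
  rw [Finset.sum_congr rfl h2, ← map_sum]
  congr 1
  funext i
  apply Subtype.ext
  rw [hc i, Finset.sum_apply, AddSubmonoidClass.coe_finsetSum]
  rfl


/-- the motive of the induction over towers -/
def Motive (C : Subalgebra B A) : Prop :=
  ∃ (c : A) (n : ℕ), c ≠ 0 ∧ ∀ (M : Type) [AddCommGroup M] [Module (Sharp A J') M]
    (b : Sharp A J'), CProj (Sharp.map J J' (algebraMap B A) hJ) M b →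
    CProj (toA J J' hJ C) M (b ^ n * Sharp.const J' c)

theorem motive_bot [Nontrivial A] : Motive J J' hJ ⊥ := by
  refine ⟨1, 1, one_ne_zero, fun M _ _ b hb => ?_⟩
  have h1 := cproj_surj _ (fromB J (⊥ : Subalgebra B A)) (toA J J' hJ ⊥)
    (toA_comp_fromB J J' hJ ⊥) (fromB_bot_surjective J) hb
  rw [pow_one, map_one, mul_one]
  exact h1

theorem motive_sep [IsDomain A] (C : Subalgebra B A) (hC : Motive J J' hJ C) (θ : A)
    (hθ : IsIntegral B θ) (P : C[X]) (hP : aeval θ P = 0) (hP' : aeval θ P.derivative ≠ 0) :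
    Motive J J' hJ (C ⊔ Algebra.adjoin B {θ}) := by
  obtain ⟨c, n, hc, h⟩ := hC
  have hmem : θ ∈ C ⊔ Algebra.adjoin B {θ} :=
    (le_sup_right : Algebra.adjoin B {θ} ≤ C ⊔ Algebra.adjoin B {θ})
      (Algebra.subset_adjoin rfl)
  refine ⟨c * aeval θ P.derivative, n, mul_ne_zero hc hP', fun M _ _ b hb => ?_⟩
  have hev : ∀ Q : C[X], (Q.map (Sharp.const (JC J C))).eval₂ (toC J le_sup_left)
      (Sharp.const (JC J (C ⊔ Algebra.adjoin B {θ})) ⟨θ, hmem⟩) =
      Sharp.const (JC J (C ⊔ Algebra.adjoin B {θ}))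
        (Q.eval₂ (Subalgebra.inclusion le_sup_left).toRingHom ⟨θ, hmem⟩) := by
    intro Q
    rw [eval₂_map, hom_eval₂]
    rfl
  have hval : ∀ Q : C[X], algebraMap ↥(C ⊔ Algebra.adjoin B {θ}) A
      (Q.eval₂ (Subalgebra.inclusion le_sup_left).toRingHom ⟨θ, hmem⟩) = aeval θ Q := by
    intro Q
    rw [hom_eval₂, aeval_def]
    rfl
  have h1 := CProj.sep (toA J J' hJ C) (toC J le_sup_left) (toA J J' hJ (C ⊔ Algebra.adjoin B {θ}))
    (toA_comp_toC J J' hJ le_sup_left)
    (Sharp.const (JC J (C ⊔ Algebra.adjoin B {θ})) ⟨θ, hmem⟩)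
    (toC_gen J C θ hθ hmem) (P.map (Sharp.const (JC J C))) (by
      rw [hev]
      have h2 : P.eval₂ (Subalgebra.inclusion le_sup_left).toRingHom
          (⟨θ, hmem⟩ : ↥(C ⊔ Algebra.adjoin B {θ})) = 0 := by
        apply Subtype.ext
        exact (hval P).trans hP
      rw [h2, map_zero]) (h M b hb)
  rw [derivative_map, hev] at h1
  have h3 : toA J J' hJ (C ⊔ Algebra.adjoin B {θ})
      (Sharp.const (JC J (C ⊔ Algebra.adjoin B {θ}))
        (P.derivative.eval₂ (Subalgebra.inclusion le_sup_left).toRingHom ⟨θ, hmem⟩)) =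
      Sharp.const J' (aeval θ P.derivative) := by
    rw [← hval]
    rfl
  rw [h3] at h1
  rw [map_mul, ← mul_assoc]
  exact h1

theorem motive_insep [IsDomain A] (p : ℕ) (hp : p.Prime) [CharP A p] (C : Subalgebra B A)
    (hC : Motive J J' hJ C) (θ : A) (hθ : IsIntegral B θ) (a : C) (ha : θ ^ p = a)
    (D : Derivation ℤ C C) (hD : D a ≠ 0) :
    Motive J J' hJ (C ⊔ Algebra.adjoin B {θ}) := by
  obtain ⟨c, n, hc, h⟩ := hC
  have hmem : θ ∈ C ⊔ Algebra.adjoin B {θ} :=
    (le_sup_right : Algebra.adjoin B {θ} ≤ C ⊔ Algebra.adjoin B {θ})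
      (Algebra.subset_adjoin rfl)
  have hDa : ((D a : C) : A) ≠ 0 := fun h0 => hD (Subtype.ext h0)
  refine ⟨c ^ 2 * ((D a : C) : A), n * 2, mul_ne_zero (pow_ne_zero 2 hc) hDa,
    fun M _ _ b hb => ?_⟩
  have hleib : ∀ x y : C, (D : C →+ C) (x * y) = (D : C →+ C) x * y + x * (D : C →+ C) y := by
    intro x y
    show D (x * y) = D x * y + x * D y
    rw [Derivation.leibniz, smul_eq_mul, smul_eq_mul]
    ring
  have hpA : (p : A) = 0 := CharP.cast_eq_zero A p
  have hpC : ((p : ℕ) : ↥(C ⊔ Algebra.adjoin B {θ})) = 0 := by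
    apply Subtype.ext
    rw [SubringClass.coe_natCast]
    exact hpA
  have h1 := CProj.insep (toA J J' hJ C) (toC J le_sup_left)
    (toA J J' hJ (C ⊔ Algebra.adjoin B {θ}))
    (toA_comp_toC J J' hJ le_sup_left) p hp
    (by
      have h2 := congrArg (Sharp.const (JC J (C ⊔ Algebra.adjoin B {θ}))) hpC
      rw [map_natCast, map_zero] at h2
      exact h2)
    (by
      intro m
      have h2 := congrArg (Sharp.const J') hpA
      rw [map_natCast, map_zero] at h2
      rw [← Nat.cast_smul_eq_nsmul (Sharp A J'), h2, zero_smul])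
    (Sharp.const (JC J (C ⊔ Algebra.adjoin B {θ})) ⟨θ, hmem⟩)
    (toC_gen J C θ hθ hmem) (Sharp.const (JC J C) a)
    (by
      rw [← map_pow]
      show Sharp.const _ _ = Sharp.const _ (Subalgebra.inclusion le_sup_left a)
      congr 1
      apply Subtype.ext
      exact ha)
    (Sharp.deriv (JC J C) (D : C →+ C) hleib) (Sharp.deriv_mul (D : C →+ C) hleib) (h M b hb)
  have h3 : (b ^ n * Sharp.const J' c) ^ 2 * toA J J' hJ C
      (Sharp.deriv (JC J C) (D : C →+ C) hleib (Sharp.const (JC J C) a)) =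
      b ^ (n * 2) * Sharp.const J' (c ^ 2 * ((D a : C) : A)) := by
    rw [Sharp.deriv_const, map_mul, map_pow, mul_pow, ← pow_mul, mul_assoc]
    rfl
  rw [h3] at h1
  exact h1

end

end Tower

open Tower in
theorem tower_final {B A : Type} [CommRing B] [IsDomain B] [CommRing A] [IsDomain A]
    [Algebra B A] [Module.Finite B A] (hinj : Function.Injective (algebraMap B A))
    (hB : CharZero B ∨ ∃ p : ℕ, p.Prime ∧ CharP B p ∧ GP p B)
    (J : Ideal B) (J' : Ideal A) (hJ : J ≤ J'.comap (algebraMap B A)) :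
    ∃ (c : A) (n : ℕ), c ≠ 0 ∧ ∀ (M : Type) [AddCommGroup M] [Module (Sharp A J') M]
      (b : Sharp A J'), CProj (Sharp.map J J' (algebraMap B A) hJ) M b →
      CProj (RingHom.id (Sharp A J')) M (b ^ n * Sharp.const J' c) := by
  have hint : ∀ θ : A, IsIntegral B θ := fun θ => Algebra.IsIntegral.isIntegral θ
  have key : ∃ C : Subalgebra B A, Motive J J' hJ C ∧
      ∃ s : A, s ∈ C ∧ s ≠ 0 ∧ ∀ x : A, s * x ∈ C := by
    rcases hB with hB | ⟨p, hp, hchar, hGP⟩
    · obtain ⟨θ, P, hP, hP', s, hs, hs0, hsx⟩ := exists_tower_charZero (B := B) (R := A) hinj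
      have hev : ∀ Q : B[X], aeval θ (Q.map (algebraMap B (⊥ : Subalgebra B A))) = aeval θ Q := by
        intro Q
        rw [aeval_def, eval₂_map, aeval_def]
        rfl
      have hle : Algebra.adjoin B {θ} ≤ (⊥ : Subalgebra B A) ⊔ Algebra.adjoin B {θ} :=
        le_sup_right
      refine ⟨⊥ ⊔ Algebra.adjoin B {θ}, motive_sep J J' hJ ⊥ (motive_bot J J' hJ) θ (hint θ)
        (P.map (algebraMap B (⊥ : Subalgebra B A))) (by rw [hev, hP])
        (by rw [derivative_map, hev]; exact hP'), s, hle hs, hs0, fun x => hle (hsx x)⟩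
    · have hp' : Fact p.Prime := ⟨hp⟩
      have hcA : CharP A p := charP_of_injective_algebraMap hinj p
      exact exists_tower_charP p hinj hGP (Motive J J' hJ) (motive_bot J J' hJ)
        (fun C hC θ P hP hP' => motive_sep J J' hJ C hC θ (hint θ) P hP hP')
        (fun C hC θ a ha D hD => motive_insep J J' hJ p hp C hC θ (hint θ) a ha D hD)
  obtain ⟨C, ⟨c, n, hc, h⟩, s, hs, hs0, hsx⟩ := key
  refine ⟨s * c, n, mul_ne_zero hs0 hc, fun M _ _ b hb => ?_⟩
  have h1 := CProj.birational (toA J J' hJ C) (Sharp.const (JC J C) ⟨s, hs⟩) (by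
    intro x
    obtain ⟨x, rfl⟩ := Sharp.mk_surjective x
    exact ⟨Sharp.mk (JC J C) fun i => ⟨s * x i, hsx (x i)⟩, rfl⟩) (h M b hb)
  have h2 : toA J J' hJ C (Sharp.const (JC J C) ⟨s, hs⟩) * (b ^ n * Sharp.const J' c) =
      b ^ n * Sharp.const J' (s * c) := by
    rw [map_mul]
    show Sharp.const J' s * (b ^ n * Sharp.const J' c) = _
    ring
  rw [h2] at h1
  exact h1

end Pool.Agent.W_cbb711
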