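import Mathlib
import Pool.Agent.W_cbb711b.Defs
import Pool.Agent.W_cbb711b.SharpAlg
import Pool.Agent.W_cbb711b.RegLocal
import Pool.Agent.W_cbb711b.SharpLocal
import Pool.Agent.W_cbb711b.SharpFinite
import Pool.Agent.W_cbb711b.Tower

/-!
# Ascent of regularity along a generic prime of `A_♯`
-/

set_option autoImplicit false
universe u v
namespace Pool.Agent.W_cbb711
open IsLocalRing Filter TensorProduct RingTheory.Sequence




/-- Finite torsion-free modules over a domain whose localisation at `Q` is principal: some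
homothety outside `Q` factors through a finite free module. -/
theorem AscentAux.cproj {C D : Type*} [CommRing C] [IsDomain C] [IsNoetherianRing C] [CommRing D]
    [Algebra C D] (M : Type*) [AddCommGroup M] [Module C M] [Module D M] [IsScalarTower C D M]
    [Module.Finite C M] (htf : ∀ (x : C) (m : M), x • m = 0 → x = 0 ∨ m = 0)
    (Q : Ideal C) [Q.IsPrime] (hP : IsPrincipalIdealRing (Localization.AtPrime Q)) :
    ∃ b ∉ Q, CProj (algebraMap C D) M (algebraMap C D b) := by
  classical
  have hD : IsDomain (Localization.AtPrime Q) :=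
    IsLocalization.isDomain_localization Q.primeCompl_le_nonZeroDivisors
  let MQ := LocalizedModule Q.primeCompl M
  let ι : M →ₗ[C] MQ := LocalizedModule.mkLinearMap Q.primeCompl M
  have htf0 : Module.IsTorsionFree C M := by
    refine ⟨fun r hr x y hxy => ?_⟩
    have h1 : r • (x - y) = 0 := by
      rw [smul_sub, sub_eq_zero]
      exact hxy
    rcases htf _ _ h1 with h | h
    · exact absurd h hr.ne_zero
    · exact sub_eq_zero.1 h
  have hιinj : Function.Injective ι := by
    intro x y hxy
    obtain ⟨s, hs⟩ := IsLocalizedModule.exists_of_eq (S := Q.primeCompl) (f := ι) hxy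
    have h1 : (s : C) • (x - y) = 0 := by
      rw [smul_sub, sub_eq_zero]
      exact hs
    rcases htf _ _ h1 with h | h
    · exact absurd (h ▸ Q.zero_mem) s.2
    · exact sub_eq_zero.1 h
  have hfin : Module.Finite (Localization.AtPrime Q) MQ := by
    exact Module.Finite.of_isLocalizedModule (S := Q.primeCompl) ι
  have htfQ : Module.IsTorsionFree (Localization.AtPrime Q) MQ := by
    change Module.IsTorsionFree (Localization Q.primeCompl) (LocalizedModule Q.primeCompl M)
    infer_instance
  have hfree : Module.Free (Localization.AtPrime Q) MQ := by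
    exact Module.free_of_finite_type_torsion_free'
  let bs := Module.finBasis (Localization.AtPrime Q) MQ
  set n := Module.finrank (Localization.AtPrime Q) MQ
  let e : MQ ≃ₗ[C] (Fin n → Localization.AtPrime Q) := bs.equivFun.restrictScalars C
  let f1 : (Fin n → C) →ₗ[C] (Fin n → Localization.AtPrime Q) :=
    .pi fun i ↦ (Algebra.linearMap C (Localization.AtPrime Q)) ∘ₗ .proj i
  have hf1 : IsLocalizedModule Q.primeCompl f1 := by
    exact IsLocalizedModule.pi Q.primeCompl
      (fun _ : Fin n => Algebra.linearMap C (Localization.AtPrime Q))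
  have hfp : Module.FinitePresentation C M := Module.finitePresentation_of_finite C M
  obtain ⟨h1, s1, hs1⟩ := Module.FinitePresentation.exists_lift_of_isLocalizedModule
    Q.primeCompl f1 (e.toLinearMap ∘ₗ ι)
  obtain ⟨h2, s2, hs2⟩ := Module.FinitePresentation.exists_lift_of_isLocalizedModule
    Q.primeCompl ι (e.symm.toLinearMap ∘ₗ f1)
  have hcomp : ∀ m, h2 (h1 m) = ((s2 : C) * (s1 : C)) • m := by
    intro m
    apply hιinj
    have h3 : ι (h2 (h1 m)) = (s2 : C) • e.symm (f1 (h1 m)) := LinearMap.congr_fun hs2 (h1 m)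
    have h4 : f1 (h1 m) = (s1 : C) • e (ι m) := LinearMap.congr_fun hs1 m
    rw [h3, h4, map_smul, map_smul, LinearEquiv.symm_apply_apply, smul_smul]
  refine ⟨(s2 : C) * (s1 : C), (s2 * s1).2, n, fun j => (LinearMap.proj j ∘ₗ h1).toAddMonoidHom,
    fun j => h2 (Pi.single j 1), ?_, ?_⟩
  · intro j b m
    rw [algebraMap_smul]
    simp
  · intro m
    rw [algebraMap_smul, ← hcomp m]
    conv_rhs => rw [← Finset.univ_sum_single (h1 m), map_sum]
    refine Finset.sum_congr rfl fun j _ => ?_
    rw [algebraMap_smul]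
    have : (Pi.single j (h1 m j) : Fin n → C) = h1 m j • Pi.single j 1 := by
      rw [← Pi.single_smul, smul_eq_mul, mul_one]
    rw [this, map_smul]
    rfl

/-- The quotient case (`Q = 0`). -/
theorem AscentAux.case0 {D : Type*} [CommRing D] (P : Ideal D) [P.IsPrime] (u : D) (hu : u ∉ P)
    (h : CProj (RingHom.id D) (D ⧸ P) u) : ∃ v ∉ P, ∀ x ∈ P, v * x = 0 := by
  obtain ⟨n, α, β, hα, hβ⟩ := h
  choose b hb using fun j => Ideal.Quotient.mk_surjective (β j)
  refine ⟨∑ j, α j 1 * b j, ?_, ?_⟩
  · intro hv
    apply hu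
    rw [← Ideal.Quotient.eq_zero_iff_mem]
    have h1 := hβ 1
    have h2 : ∑ j, (RingHom.id D) (α j 1) • β j = Ideal.Quotient.mk P (∑ j, α j 1 * b j) := by
      rw [map_sum]
      refine Finset.sum_congr rfl fun j _ => ?_
      rw [← hb j, map_mul, RingHom.id_apply]
      rfl
    rw [h2, Ideal.Quotient.eq_zero_iff_mem.2 hv] at h1
    have h3 : u • (1 : D ⧸ P) = Ideal.Quotient.mk P u := by
      rw [Algebra.smul_def, mul_one]; rfl
    rw [← h3, ← h1]
  · intro x hx
    rw [Finset.sum_mul]
    refine Finset.sum_eq_zero fun j _ => ?_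
    have h1 : α j 1 * x = 0 := by
      have h2 := hα j x 1
      have h3 : ((RingHom.id D) x) • (1 : D ⧸ P) = 0 := by
        rw [RingHom.id_apply, Algebra.smul_def, mul_one]
        exact Ideal.Quotient.eq_zero_iff_mem.2 hx
      rw [h3, map_zero] at h2
      rw [mul_comm, ← h2]
    rw [mul_right_comm, h1, zero_mul]

/-- The ideal case. -/
theorem AscentAux.case1 {D : Type*} [CommRing D] (P : Ideal D) [P.IsPrime] (u : D) (hu : u ∉ P)
    (h : CProj (RingHom.id D) P u) : ∃ g ∈ P, ∃ v ∉ P, ∀ x ∈ P, ∃ y, v * x = y * g := by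
  obtain ⟨n, α, β, hα, hβ⟩ := h
  have hsym : ∀ j (m m' : P), α j m * m' = α j m' * m := by
    intro j m m'
    have h1 := hα j m' m
    have h2 := hα j m m'
    have h3 : (RingHom.id D (m' : D)) • m = (RingHom.id D (m : D)) • m' := by
      apply Subtype.ext
      change (m' : D) * (m : D) = (m : D) * (m' : D)
      ring
    rw [mul_comm, ← h1, h3, h2, mul_comm]
  by_cases hex : ∃ j k, α j (β k) ∉ P
  · obtain ⟨j, k, hjk⟩ := hex
    refine ⟨β k, (β k).2, α j (β k), hjk, fun x hx => ⟨α j ⟨x, hx⟩, ?_⟩⟩
    exact hsym j (β k) ⟨x, hx⟩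
  · push Not at hex
    refine ⟨0, P.zero_mem, u - ∑ j, α j (β j), ?_, fun x hx => ⟨0, ?_⟩⟩
    · intro hv
      apply hu
      have : u = (u - ∑ j, α j (β j)) + ∑ j, α j (β j) := by ring
      rw [this]
      exact P.add_mem hv (P.sum_mem fun j _ => hex j j)
    · have h1 := congrArg Subtype.val (hβ ⟨x, hx⟩)
      have h2 : ((∑ j, (RingHom.id D) (α j ⟨x, hx⟩) • β j : P) : D) =
          ∑ j, α j ⟨x, hx⟩ * (β j : D) := by
        rw [AddSubmonoidClass.coe_finsetSum]
        rfl
      rw [h2] at h1
      have h3 : ((u • (⟨x, hx⟩ : P) : P) : D) = u * x := rfl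
      rw [h3] at h1
      rw [zero_mul, sub_mul, ← h1, Finset.sum_mul, ← Finset.sum_sub_distrib]
      refine Finset.sum_eq_zero fun j _ => ?_
      rw [hsym j (β j) ⟨x, hx⟩, sub_self]

theorem ascent_aux {B A : Type} [CommRing B] [IsDomain B] [IsLocalRing B] [IsNoetherianRing B]
    [CommRing A] [IsDomain A] [IsLocalRing A] [IsNoetherianRing A] [Algebra B A]
    [Module.Finite B A] (hinj : Function.Injective (algebraMap B A)) (ys : List B)
    (hys : Ideal.ofList ys = maximalIdeal B) (hreg : IsRegular B ys)
    (hchar : CharZero B ∨ ∃ p : ℕ, p.Prime ∧ CharP B p ∧ GP p B)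
    (P : Ideal (Sharp A (maximalIdeal A))) [P.IsPrime]
    (hPA : P.comap (Sharp.const (maximalIdeal A)) = ⊥)
    (hQ : (P.comap (sharpMap B A)).height ≤ 1) :
    ∃ g ∈ P, ∃ v ∉ P, (∀ x ∈ P, ∃ y, v * x = y * g) ∧
      ((P.comap (sharpMap B A)).height = 0 → g = 0) := by
  let _ : Algebra (Sharp B (maximalIdeal B)) (Sharp A (maximalIdeal A)) := sharpAlgebra B A
  have hfinA : Module.Finite (Sharp B (maximalIdeal B)) (Sharp A (maximalIdeal A)) := sharp_finite
  have hofl : Ideal.ofList (ys.map (Sharp.const (maximalIdeal B))) =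
      maximalIdeal (Sharp B (maximalIdeal B)) := by
    rw [Sharp.maximalIdeal_eq, ← hys, Ideal.map_ofList]
  have hregS := Sharp.isRegular_const ys hreg
  have hdom : IsDomain (Sharp B (maximalIdeal B)) :=
    isDomain_of_regular_maximalIdeal _ hofl hregS
  set Q := P.comap (sharpMap B A) with hQdef
  have hQp : Q.IsPrime := Ideal.comap_isPrime _ _
  have hmax := isPrincipal_localization _ hofl hregS Q hQ
  have hDQ : IsDomain (Localization.AtPrime Q) :=
    IsLocalization.isDomain_localization Q.primeCompl_le_nonZeroDivisors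
  have hNQ : IsNoetherianRing (Localization.AtPrime Q) :=
    IsLocalization.isNoetherianRing Q.primeCompl _ inferInstance
  have hPID : IsPrincipalIdealRing (Localization.AtPrime Q) := by
    exact ((tfae_of_isNoetherianRing_of_isLocalRing_of_isDomain
      (R := Localization.AtPrime Q)).out 4 0).mp hmax
  obtain ⟨c, n, hc, htower⟩ := tower_final hinj hchar (maximalIdeal B) (maximalIdeal A)
    (maximalIdeal_le_comap B A)
  have hcP : Sharp.const (maximalIdeal A) c ∉ P := by
    intro h
    have : c ∈ P.comap (Sharp.const (maximalIdeal A)) := h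
    rw [hPA] at this
    exact hc this
  have hu : ∀ b : Sharp B (maximalIdeal B), b ∉ Q →
      (sharpMap B A b) ^ n * Sharp.const (maximalIdeal A) c ∉ P := by
    intro b hb h
    rcases (inferInstance : P.IsPrime).mem_or_mem h with h1 | h1
    · exact hb ((inferInstance : P.IsPrime).mem_of_pow_mem _ h1)
    · exact hcP h1
  by_cases hQ0 : Q.height = 0
  · have hQbot : Q = ⊥ := Ideal.height_eq_zero_iff_eq_bot.mp hQ0
    obtain ⟨b, hb, hbM⟩ := AscentAux.cproj (C := Sharp B (maximalIdeal B))
      (D := Sharp A (maximalIdeal A)) (Sharp A (maximalIdeal A) ⧸ P) (by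
        intro x m hxm
        obtain ⟨a, rfl⟩ := Ideal.Quotient.mk_surjective m
        have h1 : sharpMap B A x * a ∈ P := by
          rw [← Ideal.Quotient.eq_zero_iff_mem, ← hxm, Algebra.smul_def, map_mul]
          rfl
        rcases (inferInstance : P.IsPrime).mem_or_mem h1 with h2 | h2
        · left
          have : x ∈ Q := h2
          rw [hQbot] at this
          exact this
        · right
          exact Ideal.Quotient.eq_zero_iff_mem.2 h2) Q hPID
    obtain ⟨v, hv, hvP⟩ := AscentAux.case0 P _ (hu b hb) (htower _ _ hbM)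
    exact ⟨0, P.zero_mem, v, hv, fun x hx => ⟨0, by rw [hvP x hx, zero_mul]⟩, fun _ => rfl⟩
  · have hnA : IsNoetherian (Sharp B (maximalIdeal B)) (Sharp A (maximalIdeal A)) :=
      isNoetherian_of_isNoetherianRing_of_finite _ _
    have hPfin : Module.Finite (Sharp B (maximalIdeal B)) P := by
      have : Module.Finite (Sharp B (maximalIdeal B))
        (P.restrictScalars (Sharp B (maximalIdeal B))) := inferInstance
      exact this
    obtain ⟨b, hb, hbM⟩ := AscentAux.cproj (C := Sharp B (maximalIdeal B))
      (D := Sharp A (maximalIdeal A)) P (by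
        intro x m hxm
        have h1 : sharpMap B A x * (m : Sharp A (maximalIdeal A)) = 0 := by
          have h2 := congrArg Subtype.val hxm
          have h3 : ((x • m : P) : Sharp A (maximalIdeal A)) = sharpMap B A x * m := by
            change x • (m : Sharp A (maximalIdeal A)) = _
            rw [Algebra.smul_def]
            rfl
          rw [h3] at h2
          exact h2
        rcases sharp_torsionFree hinj hdom x _ h1 with h2 | h2
        · exact Or.inl h2
        · exact Or.inr (Subtype.ext h2)) Q hPID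
    obtain ⟨g, hg, v, hv, hvP⟩ := AscentAux.case1 P _ (hu b hb) (htower _ _ hbM)
    exact ⟨g, hg, v, hv, hvP, fun h => absurd h hQ0⟩

end Pool.Agent.W_cbb711
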