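import Mathlib
import Pool.Agent.W_cbb711.ExistsNorm
import Pool.Agent.W_cbb711b.Defs

/-!
# Two dimension lemmas
-/

set_option autoImplicit false

universe u

namespace Pool.Agent.W_cbb711

open IsLocalRing Filter TensorProduct RingTheory.Sequence

theorem dim_le_of_isIntegral {A B : Type*} [CommRing A] [CommRing B] [Algebra A B]
    [Algebra.IsIntegral A B] : ringKrullDim B ≤ ringKrullDim A := by
  refine Order.krullDim_le_of_strictMono
    (fun I : PrimeSpectrum B => (⟨I.asIdeal.comap (algebraMap A B), inferInstance⟩ :
      PrimeSpectrum A)) ?_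
  intro I J hIJ
  exact Ideal.IsIntegral.comap_lt_comap (R := A) hIJ

/-- General form: `c ≤ dim R/P + (height of P over the annihilator of M)` for a module of depth at
least `c`. -/
theorem Dims_key {R : Type u} [CommRing R] [IsLocalRing R] [IsNoetherianRing R]
    (P : Ideal R) [P.IsPrime] (n : ℕ) :
    ∀ (c : ℕ) (M : Type u) [AddCommGroup M] [Module R M] [Nontrivial M] [Module.Finite R M]
      (_ : DepthGE R M c) (_ : Module.annihilator R M ≤ P)
      (_ : ∀ l : LTSeries (PrimeSpectrum R), Module.annihilator R M ≤ l.head.asIdeal →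
        l.last.asIdeal ≤ P → l.length ≤ n),
      (c : WithBot ℕ∞) ≤ ringKrullDim (R ⧸ P) + n := by
  have hnt : Nontrivial (R ⧸ P) := Ideal.Quotient.nontrivial_iff.mpr (Ideal.IsPrime.ne_top ‹_›)
  have h0 : 0 ≤ ringKrullDim (R ⧸ P) := ringKrullDim_nonneg_of_nontrivial
  have hassoc : ∀ (c n : ℕ) (M : Type u) [AddCommGroup M] [Module R M] [Nontrivial M]
      [Module.Finite R M] (_ : DepthGE R M c) (q : Ideal R), IsAssociatedPrime q M → P ≤ q →
      (c : WithBot ℕ∞) ≤ ringKrullDim (R ⧸ P) + n := by
    intro c n M _ _ _ _ hM q hq hPq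
    refine (le_dim_of_associatedPrime c M hM q hq).trans ((ringKrullDim_quotient_anti hPq).trans ?_)
    exact le_add_of_nonneg_right (by exact_mod_cast Nat.zero_le _)
  induction n with
  | zero =>
    intro c M _ _ _ _ hM hann hch
    have hmin : P ∈ (Module.annihilator R M).minimalPrimes := by
      refine ⟨⟨inferInstance, hann⟩, ?_⟩
      rintro q ⟨hq, hq'⟩ hqP
      by_contra hcon
      have hlt : (⟨q, hq⟩ : PrimeSpectrum R) < ⟨P, inferInstance⟩ :=
        lt_of_le_of_ne hqP (fun h => hcon (congrArg PrimeSpectrum.asIdeal h).ge)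
      let l0 : LTSeries (PrimeSpectrum R) := RelSeries.singleton _ ⟨P, inferInstance⟩
      have hlt0 : (⟨q, hq⟩ : PrimeSpectrum R) < l0.head := hlt
      have := hch (l0.cons ⟨q, hq⟩ hlt0) (by rw [RelSeries.head_cons]; exact hq')
        (by rw [RelSeries.last_cons]; exact le_rfl)
      rw [RelSeries.cons_length] at this
      omega
    exact hassoc c 0 M hM P
      (Module.associatedPrimes.minimalPrimes_annihilator_subset_associatedPrimes R M hmin) le_rfl
  | succ n ih =>
    intro c M _ _ _ _ hM hann hch
    by_cases hex : ∃ q, IsAssociatedPrime q M ∧ P ≤ q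
    · obtain ⟨q, hq, hPq⟩ := hex
      exact hassoc c (n + 1) M hM q hq hPq
    · push Not at hex
      cases c with
      | zero =>
        refine h0.trans ?_
        exact le_add_of_nonneg_right (by exact_mod_cast Nat.zero_le _)
      | succ c =>
        obtain ⟨s, hsP, hsM, -⟩ := exists_regular_mem M M P hex hex
        have hs : s ∈ maximalIdeal R := IsLocalRing.le_maximalIdeal (Ideal.IsPrime.ne_top ‹_›) hsP
        have := nontrivial_quotSMulTop (M := M) hs
        have hsupp : Module.support R (QuotSMulTop s M) =
            Module.support R M ∩ PrimeSpectrum.zeroLocus {s} := Module.support_quotSMulTop s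
        have hmem : ∀ q : PrimeSpectrum R, Module.annihilator R (QuotSMulTop s M) ≤ q.asIdeal ↔
            (Module.annihilator R M ≤ q.asIdeal ∧ s ∈ q.asIdeal) := by
          intro q
          rw [← Module.mem_support_iff_of_finite, hsupp, Set.mem_inter_iff,
            Module.mem_support_iff_of_finite, PrimeSpectrum.mem_zeroLocus, Set.singleton_subset_iff]
          rfl
        have h1 := ih c (QuotSMulTop s M) (hM.quotSMulTop hs hsM)
          ((hmem ⟨P, inferInstance⟩).2 ⟨hann, hsP⟩) (by
            intro l hl1 hl2
            obtain ⟨hl3, hl4⟩ := (hmem l.head).1 hl1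
            obtain ⟨q, hq, hql⟩ := Ideal.exists_minimalPrimes_le hl3
            have hqa := Module.associatedPrimes.minimalPrimes_annihilator_subset_associatedPrimes
              R M hq
            have hsq : s ∉ q := by
              intro hsq
              have h2 : s ∈ ⋃ p ∈ associatedPrimes R M, (p : Set R) := by
                simp only [Set.mem_iUnion]
                exact ⟨q, hqa, hsq⟩
              rw [biUnion_associatedPrimes_eq_compl_regular] at h2
              exact h2 hsM
            have hlt : (⟨q, hq.isPrime⟩ : PrimeSpectrum R) < l.head :=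
              lt_of_le_of_ne hql (fun h => hsq (by rw [← h] at hl4; exact hl4))
            have := hch (l.cons ⟨q, hq.isPrime⟩ hlt) (by rw [RelSeries.head_cons]; exact hq.1.2)
              (by rw [RelSeries.last_cons]; exact hl2)
            rw [RelSeries.cons_length] at this
            omega)
        push_cast
        rw [← add_assoc]
        gcongr

theorem cm_dim {R : Type u} [CommRing R] [IsLocalRing R] [IsNoetherianRing R] {d : ℕ}
    (hd : ringKrullDim R = d) (hCM : DepthGE R R d) (P : Ideal R) [P.IsPrime] (h : ℕ)
    (hh : P.height = h) : (d : WithBot ℕ∞) ≤ ringKrullDim (R ⧸ P) + h := by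
  refine Dims_key P h d R hCM ?_ ?_
  · rw [Module.annihilator_eq_bot.mpr inferInstance]
    exact bot_le
  · intro l _ hl
    have h1 : (l.length : ℕ∞) ≤ Order.height (⟨P, inferInstance⟩ : PrimeSpectrum R) :=
      Order.length_le_height hl
    rw [← PrimeSpectrum.height_eq_orderHeight] at h1
    change (l.length : ℕ∞) ≤ P.height at h1
    rw [hh] at h1
    exact_mod_cast h1

end Pool.Agent.W_cbb711
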