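import Mathlib
import Pool.Agent.W_cbb711.Perturb
import Pool.Agent.W_cbb711b.Defs
import Pool.Agent.W_cbb711b.SharpAlg
import Pool.Agent.W_cbb711b.Rigid2
import Pool.Agent.W_cbb711b.SharpIdeals
import Pool.Agent.W_cbb711b.SharpLocal
import Pool.Agent.W_cbb711b.SharpFinite
import Pool.Agent.W_cbb711b.Dims
import Pool.Agent.W_cbb711b.GoodBase
import Pool.Agent.W_cbb711b.AscentAux

/-!
# Ascent of regularity from `R` to `Sharp R 𝔪` (task N2 of MP_cbb711_ag)
-/

set_option autoImplicit false

universe u v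

namespace Pool.Agent.W_cbb711

open IsLocalRing Filter TensorProduct RingTheory.Sequence

theorem Ascent_map_maximalIdeal {R A : Type*} [CommRing R] [IsLocalRing R] [CommRing A]
    [IsLocalRing A] (f : R →+* A) (hf : Function.Surjective f) :
    (maximalIdeal R).map f = maximalIdeal A := by
  have h1 : ((maximalIdeal A).comap f).IsMaximal := Ideal.comap_isMaximal_of_surjective f hf
  rw [← IsLocalRing.eq_maximalIdeal h1, Ideal.map_comap_of_surjective f hf]

theorem Ascent_isAdicComplete {R A : Type*} [CommRing R] [IsLocalRing R] [IsNoetherianRing R]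
    [CommRing A] [IsLocalRing A] (hR : IsAdicComplete (maximalIdeal R) R) (f : R →+* A)
    (hf : Function.Surjective f) : IsAdicComplete (maximalIdeal A) A := by
  have hA : IsNoetherianRing A := isNoetherianRing_of_surjective R A f hf
  let _ : Algebra R A := f.toAlgebra
  have hfin : Module.Finite R A := Module.Finite.of_surjective (Algebra.linearMap R A) hf
  have hpre := isPrecomplete_of_finite (maximalIdeal R) A
  have hmem : ∀ n, ∀ x : A, x ∈ (maximalIdeal R ^ n • ⊤ : Submodule R A) ↔
      x ∈ (maximalIdeal A ^ n • ⊤ : Submodule A A) := by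
    intro n x
    rw [Ideal.smul_top_eq_map, Submodule.restrictScalars_mem, Ideal.map_pow, smul_eq_mul,
      Ideal.mul_top]
    have h1 : (maximalIdeal R).map (algebraMap R A) = maximalIdeal A :=
      Ascent_map_maximalIdeal f hf
    rw [h1]
  refine { toIsHausdorff := inferInstance, toIsPrecomplete := ⟨?_⟩ }
  intro g hg
  obtain ⟨L, hL⟩ := hpre.prec' g (fun {m n} hmn => by
    have h1 := hg hmn
    rw [SModEq.sub_mem] at h1 ⊢
    exact (hmem m _).2 h1)
  refine ⟨L, fun n => ?_⟩
  have h1 := hL n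
  rw [SModEq.sub_mem] at h1 ⊢
  exact (hmem n _).1 h1

/-- A regular sequence of length `dim R` exists in the Cohen-Macaulay case, in the form needed for
`Sharp.ringKrullDim_eq`. -/
theorem Ascent_sharp_dim {R : Type u} [CommRing R] [IsLocalRing R] [IsNoetherianRing R] {d : ℕ}
    (hd : ringKrullDim R = d) (hCM : DepthGE R R d) :
    ringKrullDim (Sharp R (maximalIdeal R)) = d ∧
      DepthGE (Sharp R (maximalIdeal R)) (Sharp R (maximalIdeal R)) d := by
  obtain ⟨xs, hlen, hmem, hreg⟩ := hCM
  refine ⟨?_, xs.map (Sharp.const (maximalIdeal R)), by simpa using hlen, ?_,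
    Sharp.isRegular_const xs hreg⟩
  · rw [Sharp.ringKrullDim_eq xs hreg (by rw [hlen, hd]), hd]
  · intro r hr
    rw [List.mem_map] at hr
    obtain ⟨a, ha, rfl⟩ := hr
    rw [Sharp.maximalIdeal_eq]
    exact Ideal.mem_map_of_mem _ (hmem a ha)

section

variable {B A : Type} [CommRing B] [IsLocalRing B] [IsNoetherianRing B] [CommRing A]
  [IsLocalRing A] [IsNoetherianRing A] [Algebra B A] [Module.Finite B A]

attribute [local instance] sharpAlgebra in
theorem Ascent_isIntegral : (sharpMap B A).IsIntegral := by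
  have h1 : Module.Finite (Sharp B (maximalIdeal B)) (Sharp A (maximalIdeal A)) := sharp_finite
  have h2 : Algebra.IsIntegral (Sharp B (maximalIdeal B)) (Sharp A (maximalIdeal A)) :=
    inferInstance
  intro x
  exact h2.isIntegral x

theorem Ascent_dim_quotient_le (P' : Ideal (Sharp A (maximalIdeal A))) :
    ringKrullDim (Sharp A (maximalIdeal A) ⧸ P') ≤
      ringKrullDim (Sharp B (maximalIdeal B) ⧸ P'.comap (sharpMap B A)) := by
  let _ : Algebra (Sharp B (maximalIdeal B) ⧸ P'.comap (sharpMap B A))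
      (Sharp A (maximalIdeal A) ⧸ P') :=
    (Ideal.quotientMap P' (sharpMap B A) le_rfl).toAlgebra
  have h1 : (Ideal.quotientMap P' (sharpMap B A) le_rfl).IsIntegral :=
    Ascent_isIntegral.quotient
  have h2 : Algebra.IsIntegral (Sharp B (maximalIdeal B) ⧸ P'.comap (sharpMap B A))
      (Sharp A (maximalIdeal A) ⧸ P') := ⟨h1⟩
  exact dim_le_of_isIntegral

end

/-- Dimension bookkeeping: `ht Q + ht q ≤ ht P`. -/
theorem Ascent_heights {R : Type} [CommRing R] [IsLocalRing R] [IsNoetherianRing R] {d : ℕ}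
    (hd : ringKrullDim R = d) (hCM : DepthGE R R d)
    (P : Ideal (Sharp R (maximalIdeal R))) [P.IsPrime]
    (q : Ideal R) [q.IsPrime] [IsLocalRing (R ⧸ q)]
    (π : Sharp R (maximalIdeal R) →+* Sharp (R ⧸ q) (maximalIdeal (R ⧸ q)))
    (hπ : Function.Surjective π) (P' : Ideal (Sharp (R ⧸ q) (maximalIdeal (R ⧸ q)))) [P'.IsPrime]
    (hP' : P'.comap π = P)
    {B : Type} [CommRing B] [IsLocalRing B] [IsNoetherianRing B] [Algebra B (R ⧸ q)]
    [Module.Finite B (R ⧸ q)] (ys : List B) (hreg : IsRegular B ys)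
    (hys : Ideal.ofList ys = maximalIdeal B)
    (hlen : (ys.length : WithBot ℕ∞) = ringKrullDim (R ⧸ q)) :
    ∃ a b h : ℕ, q.height = a ∧ (P'.comap (sharpMap B (R ⧸ q))).height = b ∧ P.height = h ∧
      a + b ≤ h := by
  obtain ⟨hTd, hTCM⟩ := Ascent_sharp_dim hd hCM
  set Q := P'.comap (sharpMap B (R ⧸ q)) with hQ
  have hQp : Q.IsPrime := Ideal.comap_isPrime _ _
  have hBdim : ringKrullDim B = ys.length := by
    have h1 := ringKrullDim_add_length_eq_ringKrullDim_of_isRegular ys hreg
    have h2 : ringKrullDim (B ⧸ Ideal.ofList ys) = 0 := by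
      rw [hys]
      let _ : Field (B ⧸ maximalIdeal B) := Ideal.Quotient.field _
      exact ringKrullDim_eq_zero_of_field _
    rw [h2, zero_add] at h1
    exact h1.symm
  have hSBdim : ringKrullDim (Sharp B (maximalIdeal B)) = ys.length := by
    rw [Sharp.ringKrullDim_eq ys hreg hBdim.symm, hBdim]
  -- heights are finite
  have hfin : ∀ {S : Type} [CommRing S] {n : ℕ} (_ : ringKrullDim S = n) (I : Ideal S)
      (_ : I.IsPrime), ∃ a : ℕ, I.height = a := by
    intro S _ n hS I hI
    have h1 : (I.height : WithBot ℕ∞) ≤ n := hS ▸ Ideal.height_le_ringKrullDim_of_ne_top hI.ne_top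
    have h2 : I.height ≤ n := by exact_mod_cast h1
    obtain ⟨a, ha⟩ := ENat.ne_top_iff_exists.1 (ne_top_of_le_ne_top (ENat.natCast_ne_top n) h2)
    exact ⟨a, ha.symm⟩
  obtain ⟨a, ha⟩ := hfin hd q inferInstance
  obtain ⟨b, hb⟩ := hfin hSBdim Q hQp
  obtain ⟨h, hh⟩ := hfin hTd P inferInstance
  refine ⟨a, b, h, ha, hb, hh, ?_⟩
  have e1 : (d : WithBot ℕ∞) ≤ ringKrullDim (Sharp R (maximalIdeal R) ⧸ P) + h :=
    cm_dim hTd hTCM P h hh
  have e2 : ringKrullDim (Sharp R (maximalIdeal R) ⧸ P) ≤
      ringKrullDim (Sharp (R ⧸ q) (maximalIdeal (R ⧸ q)) ⧸ P') := by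
    let f : Sharp R (maximalIdeal R) →+* Sharp (R ⧸ q) (maximalIdeal (R ⧸ q)) ⧸ P' :=
      (Ideal.Quotient.mk P').comp π
    have hf : Function.Surjective f := Ideal.Quotient.mk_surjective.comp hπ
    have hk : RingHom.ker f = P := by
      rw [← hP', RingHom.ker_eq_comap_bot, ← Ideal.comap_comap, ← RingHom.ker_eq_comap_bot,
        Ideal.mk_ker]
    exact (ringKrullDim_eq_of_ringEquiv ((Ideal.quotEquivOfEq hk.symm).trans
      (RingHom.quotientKerEquivOfSurjective hf))).le
  have e3 := Ascent_dim_quotient_le (B := B) P'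
  have e4 : ringKrullDim (Sharp B (maximalIdeal B) ⧸ Q) + b ≤ (ys.length : WithBot ℕ∞) :=
    dim_quotient_add_le hSBdim Q hQp.ne_top b (fun p _ hp => by
      rw [← hb]
      exact Ideal.height_mono hp)
  have e5 : ringKrullDim (R ⧸ q) + a ≤ (d : WithBot ℕ∞) :=
    dim_quotient_add_le hd q (Ideal.IsPrime.ne_top inferInstance) a (fun p _ hp => by
      rw [← ha]
      exact Ideal.height_mono hp)
  rw [← hlen] at e5
  have hnt : Nontrivial (Sharp B (maximalIdeal B) ⧸ Q) := Ideal.Quotient.nontrivial_iff.2 hQp.ne_top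
  have h0 : 0 ≤ ringKrullDim (Sharp B (maximalIdeal B) ⧸ Q) := ringKrullDim_nonneg_of_nontrivial
  obtain ⟨k, hk⟩ := exists_nat_eq (c := ys.length) h0
    (le_trans (le_add_of_nonneg_right (by exact_mod_cast Nat.zero_le _)) e4)
  have e6 : (d : WithBot ℕ∞) ≤ ringKrullDim (Sharp B (maximalIdeal B) ⧸ Q) + h :=
    e1.trans (add_le_add (e2.trans e3) le_rfl)
  rw [hk] at e4 e6
  have f4 : k + b ≤ ys.length := by exact_mod_cast e4
  have f5 : ys.length + a ≤ d := by exact_mod_cast e5
  have f6 : d ≤ k + h := by exact_mod_cast e6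
  omega

/-- Regularity of `R` up to codimension two passes to `Sharp R 𝔪`, at the primes of height at most
two that meet `R` nontrivially or have height at most one. -/
theorem ascent {R : Type} [CommRing R] [IsDomain R] [IsLocalRing R] [IsNoetherianRing R]
    (hR : IsAdicComplete (maximalIdeal R) R) {d : ℕ} (hd : ringKrullDim R = d)
    (hCM : DepthGE R R d) (h2 : RegUpToTwo R)
    (P : Ideal (Sharp R (maximalIdeal R))) [P.IsPrime] (hP : P.height ≤ 2)
    (h : P.comap (Sharp.const (maximalIdeal R)) ≠ ⊥ ∨ P.height ≤ 1) :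
    RegAt (Sharp R (maximalIdeal R)) P := by
  classical
  set q := P.comap (Sharp.const (maximalIdeal R)) with hqdef
  have hq : q.IsPrime := Ideal.comap_isPrime _ _
  have hloc : IsLocalRing (R ⧸ q) :=
    IsLocalRing.of_surjective' (Ideal.Quotient.mk q) Ideal.Quotient.mk_surjective
  have hmapmax : (maximalIdeal R).map (Ideal.Quotient.mk q) = maximalIdeal (R ⧸ q) :=
    Ascent_map_maximalIdeal _ Ideal.Quotient.mk_surjective
  have hle : maximalIdeal R ≤ (maximalIdeal (R ⧸ q)).comap (Ideal.Quotient.mk q) := by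
    rw [← Ideal.map_le_iff_le_comap, hmapmax]
  obtain ⟨hπs, hπk⟩ := Sharp.ker_map_mk q (IsNoetherian.noetherian q) (maximalIdeal (R ⧸ q))
    hmapmax hle
  set π := Sharp.map (maximalIdeal R) (maximalIdeal (R ⧸ q)) (Ideal.Quotient.mk q) hle with hπdef
  have hkerP : RingHom.ker π ≤ P := by
    rw [hπk, Ideal.map_le_iff_le_comap]
  have hP'prime : (P.map π).IsPrime := Ideal.map_isPrime_of_surjective hπs hkerP
  have hP'comap : (P.map π).comap π = P := by
    rw [Ideal.comap_map_of_surjective π hπs]
    exact sup_eq_left.2 hkerP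
  have hP'A : (P.map π).comap (Sharp.const (maximalIdeal (R ⧸ q))) = ⊥ := by
    rw [eq_bot_iff]
    intro a ha
    obtain ⟨r, rfl⟩ := Ideal.Quotient.mk_surjective a
    have h3 : Sharp.const (maximalIdeal R) r ∈ (P.map π).comap π := ha
    rw [hP'comap] at h3
    have h4 : r ∈ q := h3
    rw [Ideal.mem_bot, Ideal.Quotient.eq_zero_iff_mem]
    exact h4
  obtain ⟨B, _, _, _, _, _, _, ys, hfin, hinj, hys, hreg, hlen, hchar⟩ :=
    exists_goodBase (R ⧸ q) (Ascent_isAdicComplete hR _ Ideal.Quotient.mk_surjective)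
  obtain ⟨a, b, c, ha, hb, hc, habc⟩ := Ascent_heights hd hCM P q π hπs (P.map π) hP'comap ys
    hreg hys hlen
  have hc2 : c ≤ 2 := by
    rw [hc] at hP
    exact_mod_cast hP
  have hb1 : b ≤ 1 := by
    rcases h with h | h
    · have h5 : a ≠ 0 := by
        rintro rfl
        exact h (Ideal.height_eq_zero_iff_eq_bot.1 (by exact_mod_cast ha))
      omega
    · rw [hc] at h
      have h7 : c ≤ 1 := by exact_mod_cast h
      omega
  have hchar' : CharZero B ∨ ∃ p : ℕ, p.Prime ∧ CharP B p ∧ GP p B := by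
    rcases hchar with h8 | ⟨p, hp, hp', hS⟩
    · exact Or.inl h8
    · refine Or.inr ⟨p, hp, hp', fun y hy => ?_⟩
      obtain ⟨x, hx⟩ := hS y hy
      exact ⟨x, 1, one_ne_zero, by rw [one_pow, mul_one, hx]⟩
  have hQb : ((P.map π).comap (sharpMap B (R ⧸ q))).height ≤ 1 := by
    rw [hb]
    exact_mod_cast hb1
  obtain ⟨g, hg, v, hv, hvg, hg0⟩ := ascent_aux hinj ys hys hreg hchar' (P.map π) hP'A hQb
  obtain ⟨v0, rfl⟩ := hπs v
  have hv0 : v0 ∉ P := fun h9 => hv (Ideal.mem_map_of_mem _ h9)
  -- a finset of at most `b` elements replacing `g`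
  obtain ⟨E, hEP, hEc, hE⟩ : ∃ E : Finset (Sharp R (maximalIdeal R)), (∀ x ∈ E, x ∈ P) ∧
      E.card ≤ b ∧ ∀ x ∈ P, v0 * x ∈ q.map (Sharp.const (maximalIdeal R)) ⊔
        Ideal.span (E : Set (Sharp R (maximalIdeal R))) := by
    by_cases hb0 : b = 0
    · refine ⟨∅, by simp, by simp, fun x hx => ?_⟩
      rw [hb0] at hb
      have h10 : g = 0 := hg0 (by exact_mod_cast hb)
      obtain ⟨y, hy⟩ := hvg (π x) (Ideal.mem_map_of_mem _ hx)
      rw [h10, mul_zero, ← map_mul] at hy
      apply Ideal.mem_sup_left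
      rw [← hπk]
      exact hy
    · obtain ⟨g0, hg0P, rfl⟩ := (Ideal.mem_map_iff_of_surjective π hπs).1 hg
      refine ⟨{g0}, by simpa using hg0P, by simp; omega, fun x hx => ?_⟩
      obtain ⟨y, hy⟩ := hvg (π x) (Ideal.mem_map_of_mem _ hx)
      obtain ⟨y0, rfl⟩ := hπs y
      have h11 : v0 * x - y0 * g0 ∈ q.map (Sharp.const (maximalIdeal R)) := by
        rw [← hπk, RingHom.mem_ker, map_sub, map_mul, map_mul, hy, sub_self]
      have h12 : v0 * x = (v0 * x - y0 * g0) + y0 * g0 := by ring
      rw [h12]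
      refine Ideal.add_mem _ (Ideal.mem_sup_left h11) (Ideal.mem_sup_right ?_)
      exact Ideal.mul_mem_left _ _ (Ideal.subset_span (by simp))
  -- the generators of the maximal ideal of `R_q`
  obtain ⟨s, hs, hsc⟩ := h2 q (by
    rw [ha]
    exact_mod_cast (by omega : a ≤ 2))
  have hsa : s.card ≤ a := by
    rw [IsLocalization.AtPrime.ringKrullDim_eq_height q, ha] at hsc
    exact_mod_cast hsc
  set L := Localization.localRingHom q P (Sharp.const (maximalIdeal R)) rfl with hL
  have hLloc : IsLocalHom L := Localization.isLocalHom_localRingHom _ _ _ _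
  refine ⟨s.image L ∪ E.image (algebraMap _ (Localization.AtPrime P)), ?_, ?_⟩
  · apply le_antisymm
    · rw [Ideal.span_le]
      intro x hx
      rw [Finset.mem_coe, Finset.mem_union, Finset.mem_image, Finset.mem_image] at hx
      rcases hx with ⟨z, hz, rfl⟩ | ⟨z, hz, rfl⟩
      · have h13 : z ∈ maximalIdeal (Localization.AtPrime q) := by
          rw [← hs]
          exact Ideal.subset_span hz
        rw [SetLike.mem_coe, mem_maximalIdeal, mem_nonunits_iff]
        intro h14
        rw [mem_maximalIdeal, mem_nonunits_iff] at h13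
        exact h13 ((isUnit_map_iff L z).1 h14)
      · rw [SetLike.mem_coe, ← Localization.AtPrime.map_eq_maximalIdeal]
        exact Ideal.mem_map_of_mem _ (hEP z hz)
    · rw [← Localization.AtPrime.map_eq_maximalIdeal, Ideal.map_le_iff_le_comap]
      intro x hx
      rw [Ideal.mem_comap]
      have hunit : IsUnit (algebraMap (Sharp R (maximalIdeal R)) (Localization.AtPrime P) v0) :=
        IsLocalization.map_units _ (⟨v0, hv0⟩ : P.primeCompl)
      rw [← Ideal.unit_mul_mem_iff_mem _ hunit, ← map_mul]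
      have h15 := Ideal.mem_map_of_mem (algebraMap (Sharp R (maximalIdeal R))
        (Localization.AtPrime P)) (hE x hx)
      rw [Ideal.map_sup] at h15
      revert h15
      generalize algebraMap (Sharp R (maximalIdeal R)) (Localization.AtPrime P) (v0 * x) = w
      revert w
      refine (sup_le ?_ ?_ : _ ≤ (Ideal.span ((s.image L ∪ E.image
        (algebraMap _ (Localization.AtPrime P)) : Finset (Localization.AtPrime P)) :
          Set (Localization.AtPrime P))))
      · rw [Ideal.map_le_iff_le_comap, Ideal.map_le_iff_le_comap]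
        intro r hr
        rw [Ideal.mem_comap, Ideal.mem_comap]
        have h16 : algebraMap (Sharp R (maximalIdeal R)) (Localization.AtPrime P)
            (Sharp.const (maximalIdeal R) r) = L (algebraMap R (Localization.AtPrime q) r) := by
          rw [hL, Localization.localRingHom_to_map]
        rw [h16]
        have h17 : algebraMap R (Localization.AtPrime q) r ∈
            Ideal.span (s : Set (Localization.AtPrime q)) := by
          rw [hs, ← Localization.AtPrime.map_eq_maximalIdeal]
          exact Ideal.mem_map_of_mem _ hr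
        have h18 := Ideal.mem_map_of_mem L h17
        rw [Ideal.map_span] at h18
        refine Ideal.span_mono ?_ h18
        rintro _ ⟨z, hz, rfl⟩
        rw [Finset.mem_coe, Finset.mem_union]
        exact Or.inl (Finset.mem_image_of_mem _ hz)
      · rw [Ideal.map_span]
        refine Ideal.span_mono ?_
        rintro _ ⟨z, hz, rfl⟩
        rw [Finset.mem_coe, Finset.mem_union]
        exact Or.inr (Finset.mem_image_of_mem _ hz)
  · rw [IsLocalization.AtPrime.ringKrullDim_eq_height P, hc]
    have h19 : (s.image L ∪ E.image (algebraMap _ (Localization.AtPrime P))).card ≤ c :=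
      (Finset.card_union_le _ _).trans ((add_le_add (Finset.card_image_le.trans hsa)
        (Finset.card_image_le.trans hEc)).trans habc)
    exact_mod_cast h19

end Pool.Agent.W_cbb711
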