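import Mathlib
import Pool.Agent.W_cbb711b.Defs
import Pool.Agent.W_cbb711b.SharpAlg
import Pool.Agent.W_cbb711b.Rigid2
import Pool.Agent.W_cbb711b.SharpFinite
import Pool.Agent.W_cbb711b.SharpLocal
import Pool.Agent.W_cbb711b.Tower
import Pool.Agent.W_cbb711b.Ascent

/-!
# Rigidity over `Sharp` rings
-/

set_option autoImplicit false
universe u v

namespace Pool.Agent.W_cbb711
open IsLocalRing Filter TensorProduct RingTheory.Sequence

attribute [local instance] sharpAlgebra

/-- An ideal whose homothety `u ∉ P` factors through a free module is principal at `P`. -/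
theorem rigidSharp_principal {T : Type*} [CommRing T] [IsDomain T] (I : Ideal T) (hI : I ≠ ⊥)
    (P : Ideal T) [P.IsPrime] {u : T} (hu : u ∉ P) (h : CProj (RingHom.id T) I u) :
    ∃ g ∈ I, g ≠ 0 ∧ ∃ s ∉ P, ∀ i ∈ I, ∃ r, s * i = r * g := by
  obtain ⟨n, α, β, hα, hβ⟩ := h
  have hsymm : ∀ j (m m' : I), α j m * (m' : T) = α j m' * (m : T) := by
    intro j m m'
    have h1 := hα j (m' : T) m
    have h2 := hα j (m : T) m'
    have h3 : (RingHom.id T (m' : T)) • m = (RingHom.id T (m : T)) • m' :=
      Subtype.ext (mul_comm _ _)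
    rw [h3, h2] at h1
    rw [mul_comm, ← h1, mul_comm]
  have hβ' : ∀ m : I, ∑ j, α j m * (β j : T) = u * m := by
    intro m
    have h1 := congrArg (Submodule.subtype I) (hβ m)
    rw [map_sum] at h1
    simpa using h1
  by_cases hex : ∃ j k, α j (β k) ∉ P
  · obtain ⟨j, k, hjk⟩ := hex
    refine ⟨β k, (β k).2, ?_, α j (β k), hjk, fun i hi => ⟨α j ⟨i, hi⟩, ?_⟩⟩
    · intro h0
      apply hjk
      have : β k = 0 := Subtype.ext h0
      rw [this, map_zero]
      exact P.zero_mem
    · exact hsymm j (β k) ⟨i, hi⟩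
  · exfalso
    push Not at hex
    obtain ⟨z, hz, hz0⟩ := Submodule.exists_mem_ne_zero_of_ne_bot hI
    have h1 := hβ' ⟨z, hz⟩
    have h2 : ∑ j, α j ⟨z, hz⟩ * (β j : T) = (∑ j, α j (β j)) * z := by
      rw [Finset.sum_mul]
      exact Finset.sum_congr rfl fun j _ => hsymm j ⟨z, hz⟩ (β j)
    rw [h2] at h1
    have h3 : ∑ j, α j (β j) = u := mul_right_cancel₀ hz0 h1
    apply hu
    rw [← h3]
    exact Ideal.sum_mem _ fun j _ => hex j j

theorem rigidSharp_isDomain_localization {R : Type u} [CommRing R] [IsNoetherianRing R]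
    (p : Ideal R) [p.IsPrime] (h2 : RegAt R p) (hp : p.height ≤ 1) :
    IsDomain (Localization.AtPrime p) := by
  classical
  obtain ⟨s, hs, hcard⟩ := h2
  have hdim : ringKrullDim (Localization.AtPrime p) = (p.height : WithBot ℕ∞) :=
    IsLocalization.AtPrime.ringKrullDim_eq_height p _
  rw [hdim] at hcard
  have hsc : s.card ≤ 1 := by
    have h1 : ((s.card : ℕ∞) : WithBot ℕ∞) ≤ ((1 : ℕ∞) : WithBot ℕ∞) :=
      le_trans (by exact_mod_cast hcard) (WithBot.coe_le_coe.mpr hp)
    have h3 : (s.card : ℕ∞) ≤ 1 := WithBot.coe_le_coe.mp h1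
    exact_mod_cast h3
  rcases Nat.le_one_iff_eq_zero_or_eq_one.mp hsc with h0 | h1
  · rw [Finset.card_eq_zero] at h0
    rw [h0] at hs
    apply isDomain_of_maximalIdeal_eq_bot
    rw [← hs]; simp
  · obtain ⟨x, hx⟩ := Finset.card_eq_one.mp h1
    apply isDomain_of_span_singleton (x := x)
    · rw [← hs, hx]; simp
    · rw [hdim]
      have : ((1 : ℕ) : WithBot ℕ∞) ≤ (p.height : WithBot ℕ∞) := by rw [← h1]; exact hcard
      exact_mod_cast this

section

variable {S R : Type} [CommRing S] [IsDomain S] [IsLocalRing S] [IsNoetherianRing S]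
    [CommRing R] [IsDomain R] [IsLocalRing R] [IsNoetherianRing R] [Algebra S R]
    [Module.Finite S R]

theorem rigidSharp_basic {d : ℕ} (hn : Normalisation S R d) (hd : ringKrullDim R = d) :
    ringKrullDim (Sharp R (maximalIdeal R)) = d ∧
      DepthGE (Sharp R (maximalIdeal R)) (Sharp R (maximalIdeal R)) d ∧
      Normalisation (Sharp S (maximalIdeal S)) (Sharp R (maximalIdeal R)) d := by
  obtain ⟨xs, hlen, hspan, hreg⟩ := hn.exists_seq
  have hlen' : ((xs.map (algebraMap S R)).length : WithBot ℕ∞) = ringKrullDim R := by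
    rw [List.length_map, hlen, hd]
  have hregT := Sharp.isRegular_const _ hreg
  have hmap : (xs.map (Sharp.const (maximalIdeal S))).map
      (algebraMap (Sharp S (maximalIdeal S)) (Sharp R (maximalIdeal R))) =
      (xs.map (algebraMap S R)).map (Sharp.const (maximalIdeal R)) := by
    rw [List.map_map, List.map_map]
    rfl
  refine ⟨?_, ?_, ?_⟩
  · rw [Sharp.ringKrullDim_eq _ hreg hlen', hd]
  · refine ⟨_, ?_, ?_, hregT⟩
    · rw [List.length_map, List.length_map, hlen]
    · intro r hr
      rw [List.mem_map] at hr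
      obtain ⟨y, hy, rfl⟩ := hr
      rw [List.mem_map] at hy
      obtain ⟨x, hx, rfl⟩ := hy
      have hxm : x ∈ maximalIdeal S := by
        rw [← hspan]
        exact Ideal.subset_span hx
      rw [Sharp.maximalIdeal_eq]
      exact Ideal.mem_map_of_mem _ (maximalIdeal_le_comap S R hxm)
  · refine ⟨sharp_finite, xs.map (Sharp.const (maximalIdeal S)), ?_, ?_, ?_⟩
    · rw [List.length_map, hlen]
    · rw [Sharp.maximalIdeal_eq, ← hspan, Ideal.map_ofList]
    · rw [hmap]
      exact hregT

end

theorem rigidSharp_cproj {S T : Type} [CommRing S] [CommRing T] [Algebra S T] {r : ℕ}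
    (b : Module.Basis (Fin r) S T) (φ : T →ₐ[S] Module.End S T) :
    CProj (algebraMap S T) (PhiMod φ) 1 := by
  refine ⟨r, fun j => ((b.coord j).toAddMonoidHom.comp
    (PhiMod.equiv φ).toLinearMap.toAddMonoidHom), fun j => ⟨b j⟩, ?_, ?_⟩
  · intro j s m
    have h1 : (algebraMap S T s) • m = s • m := by
      ext
      rw [PhiMod.val_smul', PhiMod.val_smul, AlgHom.commutes]
      rfl
    rw [h1]
    change b.coord j (PhiMod.equiv φ (s • m)) = s * b.coord j (PhiMod.equiv φ m)
    rw [map_smul, map_smul, smul_eq_mul]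
  · intro m
    rw [one_smul]
    apply (PhiMod.equiv φ).injective
    rw [map_sum]
    have h1 : ∀ j, PhiMod.equiv φ ((algebraMap S T (b.coord j (PhiMod.equiv φ m))) •
        (⟨b j⟩ : PhiMod φ)) = b.coord j (PhiMod.equiv φ m) • b j := by
      intro j
      change φ _ (b j) = _
      rw [AlgHom.commutes]
      rfl
    exact (Finset.sum_congr rfl fun j _ => h1 j).trans (b.sum_repr (PhiMod.equiv φ m))

theorem rigid_sharp {S R : Type} [CommRing S] [IsDomain S] [IsLocalRing S] [IsNoetherianRing S]
    [CommRing R] [IsDomain R] [IsLocalRing R] [IsNoetherianRing R] [Algebra S R]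
    [Module.Finite S R] (hR : IsAdicComplete (maximalIdeal R) R) {d : ℕ}
    (hn : Normalisation S R d) (hd : ringKrullDim R = d) (hCM : DepthGE R R d)
    (h2 : RegUpToTwo R) (hchar : CharZero S ∨ ∃ p : ℕ, p.Prime ∧ CharP S p ∧ GP p S)
    {r : ℕ} (b : Module.Basis (Fin r) S R)
    (φ : Sharp R (maximalIdeal R) →ₐ[Sharp S (maximalIdeal S)]
      Matrix (Fin r) (Fin r) (Sharp S (maximalIdeal S)))
    (h : Sharp R (maximalIdeal R) →ₗ[Sharp S (maximalIdeal S)]
      Matrix (Fin r) (Fin r) (Sharp S (maximalIdeal S)))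
    (hh : ∀ x y, h (x * y) = φ x * h y + h x * φ y) :
    ∃ g : Matrix (Fin r) (Fin r) (Sharp S (maximalIdeal S)), ∀ x, h x = φ x * g - g * φ x := by
  obtain ⟨hdT, hCMT, hnT⟩ := rigidSharp_basic hn hd
  have hdom : IsDomain (Sharp R (maximalIdeal R)) := by
    refine isDomain_of_CM hdT hCMT fun p _ hp => ?_
    exact rigidSharp_isDomain_localization p
      (ascent hR hd hCM h2 p (hp.trans (by norm_num)) (Or.inr hp)) hp
  obtain ⟨b', -⟩ := sharp_basis b
  let M := LinearMap.toMatrixAlgEquiv b'
  let φ' : Sharp R (maximalIdeal R) →ₐ[Sharp S (maximalIdeal S)]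
      Module.End (Sharp S (maximalIdeal S)) (Sharp R (maximalIdeal R)) :=
    M.symm.toAlgHom.comp φ
  let h' : Sharp R (maximalIdeal R) →ₗ[Sharp S (maximalIdeal S)]
      Module.End (Sharp S (maximalIdeal S)) (Sharp R (maximalIdeal R)) :=
    M.symm.toLinearMap ∘ₗ h
  have hφ' : ∀ x, φ' x = M.symm (φ x) := fun _ => rfl
  have hh'def : ∀ x, h' x = M.symm (h x) := fun _ => rfl
  have hh' : ∀ x y, h' (x * y) = φ' x * h' y + h' x * φ' y := by
    intro x y
    rw [hh'def, hh, map_add, map_mul, map_mul]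
    rfl
  have hinj : Function.Injective (algebraMap S R) := by
    have : Module.Free S R := Module.Free.of_basis b
    exact FaithfulSMul.algebraMap_injective S R
  have hlocp : ∀ I : Ideal (Sharp R (maximalIdeal R)), I ≠ ⊥ →
      DepthGE (Sharp R (maximalIdeal R)) I d →
      Nonempty (PhiMod φ' ≃ₗ[Sharp R (maximalIdeal R)] I) → LocPrin I := by
    rintro I hI hIM ⟨e⟩ P hP hht
    by_cases hcase : P.comap (Sharp.const (maximalIdeal R)) = ⊥
    · obtain ⟨c, n, hc, H⟩ := tower_final hinj hchar (maximalIdeal S) (maximalIdeal R)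
        (maximalIdeal_le_comap S R)
      have h1 := H (PhiMod φ') 1 (rigidSharp_cproj b' φ')
      rw [one_pow, one_mul] at h1
      have hcP : Sharp.const (maximalIdeal R) c ∉ P := by
        intro hmem
        have h3 : c ∈ P.comap (Sharp.const (maximalIdeal R)) := hmem
        rw [hcase] at h3
        exact hc h3
      have h3 : CProj (RingHom.id (Sharp R (maximalIdeal R))) I
          (Sharp.const (maximalIdeal R) c) := by
        obtain ⟨k, α, β, hα, hβ⟩ := h1
        refine ⟨k, fun j => (α j).comp e.symm.toLinearMap.toAddMonoidHom, fun j => e (β j), ?_, ?_⟩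
        · intro j x m
          change α j (e.symm (x • m)) = x * α j (e.symm m)
          rw [map_smul]
          exact hα j x (e.symm m)
        · intro m
          have h4 := congrArg e (hβ (e.symm m))
          rw [map_sum, map_smul, LinearEquiv.apply_symm_apply] at h4
          refine Eq.trans (Finset.sum_congr rfl fun j _ => ?_) h4
          rw [map_smul]
          rfl
      exact rigidSharp_principal I hI P hcP h3
    · exact locPrin_at hdT hCMT I hI hIM P hht (ascent hR hd hCM h2 P hht (Or.inl hcase))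
  obtain ⟨g, hg⟩ := inner_of_derivation' hnT hdT hCMT φ' hlocp h' hh'
  refine ⟨M g, fun x => ?_⟩
  have h3 := congrArg M (hg x)
  rw [map_sub, map_mul, map_mul, hφ', hh'def, AlgEquiv.apply_symm_apply,
    AlgEquiv.apply_symm_apply] at h3
  exact h3

end Pool.Agent.W_cbb711
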